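import Pool.Agent.FacLarge.Fin2

/-!
Choice of the parameters.
-/

set_option autoImplicit false

namespace Pool.Agent.FacLarge

open Finset Filter

/-- `p ^ δ` dominates `p ^ (δ / 2) + 2` and `p ^ ε + 1` -/
theorem eventually_delta {δ : ℝ} (hδ : 0 < δ) : ∃ P0 : ℕ, ∀ p : ℕ, P0 ≤ p →
    (p : ℝ) ^ (δ / 2) + 2 ≤ (p : ℝ) ^ δ := by
  have h2 := (tendsto_rpow_atTop (y := δ / 2) (by linarith)).eventually_ge_atTop 2
  have h3 := h2.and (eventually_ge_atTop (1 : ℝ))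
  obtain ⟨x0, hx0⟩ := eventually_atTop.1 h3
  refine ⟨⌈x0⌉₊, fun p hp => ?_⟩
  have hp' : x0 ≤ (p : ℝ) := (Nat.le_ceil x0).trans (by exact_mod_cast hp)
  obtain ⟨a1, a2⟩ := hx0 p hp'
  have e : (p : ℝ) ^ δ = (p : ℝ) ^ (δ / 2) * (p : ℝ) ^ (δ / 2) := by
    rw [← Real.rpow_add (by linarith)]; congr 1; ring
  rw [e]
  nlinarith

/-- parameters for the counting theorem -/
theorem exists_params {δ : ℝ} (hδ : 0 < δ) (E K : ℕ) : ∃ ε : ℝ, ε ≤ 83 / 100 ∧ ∃ P0 : ℕ,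
    ∀ p : ℕ, P0 ≤ p → p.Prime → GE p ε E K ∧ (p : ℝ) ^ ε + 1 ≤ (p : ℝ) ^ δ := by
  obtain ⟨ε, hε⟩ : ∃ ε, ε = min (δ / 2) (83 / 100) := ⟨_, rfl⟩
  have hε0 : 0 < ε := by rw [hε]; exact lt_min (by linarith) (by norm_num)
  have hε1 : ε ≤ 83 / 100 := by rw [hε]; exact min_le_right _ _
  have hε2 : ε ≤ δ / 2 := by rw [hε]; exact min_le_left _ _
  obtain ⟨P1, h1⟩ := exists_GE hε0 (by linarith) E K
  obtain ⟨P2, h2⟩ := eventually_delta hδ
  refine ⟨ε, hε1, max P1 P2, fun p hp hpp => ⟨h1 p (le_trans (le_max_left _ _) hp) hpp, ?_⟩⟩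
  have h3 := h2 p (le_trans (le_max_right _ _) hp)
  have h4 : (1 : ℝ) ≤ p := by exact_mod_cast hpp.one_lt.le
  have h5 : (p : ℝ) ^ ε ≤ (p : ℝ) ^ (δ / 2) := Real.rpow_le_rpow_of_exponent_le h4 hε2
  linarith

theorem residue_cond {p a : ℕ} (hp : 0 < p) {x y : ℝ} (hxy : x + 1 ≤ y)
    (h : ((a % p : ℕ) : ℝ) + y ≤ p) : x ≤ ((p - 1 - a % p : ℕ) : ℝ) := by
  have h1 : a % p < p := Nat.mod_lt _ hp
  have h2 : ((p - 1 - a % p : ℕ) : ℝ) = (p : ℝ) - 1 - ((a % p : ℕ) : ℝ) := by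
    rw [Nat.cast_sub (by omega), Nat.cast_sub (by omega)]
    push_cast
    ring
  rw [h2]
  linarith

/-- most residues -/
theorem most_residues {δ : ℝ} (hδ : 0 < δ) (A : ℕ) : ∃ P0 : ℕ, ∀ p : ℕ, P0 ≤ p → p.Prime →
    ∀ T b : ℕ, ({a : ℕ | b ≤ a ∧ a < b + p ^ T ∧ ((a % p : ℕ) : ℝ) + (p : ℝ) ^ δ ≤ p ∧
      ¬ GoodA p T a}.ncard : ℝ) * (p : ℝ) ^ A ≤ (p : ℝ) ^ T := by
  obtain ⟨ε, hε1, P1, h1⟩ := exists_params hδ (A + 3) (2 * (A + 3 + (A + 4)) + 54)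
  obtain ⟨P2, h2⟩ := eventually_fin
  refine ⟨max (max P1 P2) (33 * (A + 3)), fun p hp hpp T b => ?_⟩
  have hp1 : P1 ≤ p := le_trans (le_trans (le_max_left _ _) (le_max_left _ _)) hp
  have hp2 : P2 ≤ p := le_trans (le_trans (le_max_right _ _) (le_max_left _ _)) hp
  have hp3 : 33 * (A + 3) ≤ p := le_trans (le_max_right _ _) hp
  obtain ⟨hGE, hpow⟩ := h1 p hp1 hpp
  obtain ⟨a1, a2, a3, a4⟩ := h2 p hp2
  refine le_trans ?_ (count_bad2 A hpp hε1 hGE hp3 a2 a3 T b)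
  apply mul_le_mul_of_nonneg_right _ (by positivity)
  have hfin : {a : ℕ | b ≤ a ∧ a < b + p ^ T ∧ (p : ℝ) ^ ε ≤ ((p - 1 - a % p : ℕ) : ℝ) ∧
      ¬ GoodA p T a}.Finite :=
    (Set.finite_Ico b (b + p ^ T)).subset fun a ha => ⟨ha.1, ha.2.1⟩
  have hsub : {a : ℕ | b ≤ a ∧ a < b + p ^ T ∧ ((a % p : ℕ) : ℝ) + (p : ℝ) ^ δ ≤ p ∧
      ¬ GoodA p T a} ⊆ {a : ℕ | b ≤ a ∧ a < b + p ^ T ∧
      (p : ℝ) ^ ε ≤ ((p - 1 - a % p : ℕ) : ℝ) ∧ ¬ GoodA p T a} :=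
    fun a ha => ⟨ha.1, ha.2.1, residue_cond hpp.pos hpow ha.2.2.1, ha.2.2.2⟩
  exact_mod_cast Set.ncard_le_ncard hsub hfin

/-- the number of residues near the top -/
theorem card_top_le (p : ℕ) {x : ℝ} (hx : 0 ≤ x) :
    (((range p).filter (fun j : ℕ => (p : ℝ) < (j : ℝ) + x)).card : ℝ) ≤ x + 1 := by
  have h1 : ((range p).filter (fun j : ℕ => (p : ℝ) < (j : ℝ) + x)).card ≤
      (range ⌈x⌉₊).card := by
    apply card_le_card_of_injOn (fun j => p - 1 - j)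
    · intro j hj
      have hj' := mem_filter.1 (mem_coe.1 hj)
      rw [mem_coe, mem_range]
      apply Nat.lt_ceil.2
      have h2 := mem_range.1 hj'.1
      have h3 : ((p - 1 - j : ℕ) : ℝ) = (p : ℝ) - 1 - j := by
        rw [Nat.cast_sub (by omega), Nat.cast_sub (by omega)]
        push_cast
        ring
      rw [h3]
      linarith [hj'.2]
    · intro i hi j hj hij
      have hi' := mem_range.1 (mem_filter.1 (mem_coe.1 hi)).1
      have hj' := mem_range.1 (mem_filter.1 (mem_coe.1 hj)).1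
      simp only at hij
      omega
  rw [card_range] at h1
  calc _ ≤ ((⌈x⌉₊ : ℕ) : ℝ) := by exact_mod_cast h1
    _ ≤ x + 1 := (Nat.ceil_lt_add_one hx).le

theorem count_top {p : ℕ} (hp : 0 < p) {T : ℕ} (hT : 1 ≤ T) (b : ℕ) {x : ℝ} (hx : 0 ≤ x) :
    ({a : ℕ | b ≤ a ∧ a < b + p ^ T ∧ (p : ℝ) < ((a % p : ℕ) : ℝ) + x}.ncard : ℝ) * p ≤
      (x + 1) * (p : ℝ) ^ T := by
  classical
  obtain ⟨H, hH⟩ : ∃ H : ℤ → ℝ, H = fun a : ℤ =>
    if (p : ℝ) < (((a % (p : ℤ)).toNat : ℕ) : ℝ) + x then (1 : ℝ) else 0 := ⟨_, rfl⟩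
  have hHper : ∀ x y : ℤ, ((p : ℕ) : ℤ) ∣ x - y → H x = H y := by
    intro x y h
    have h2 : x % (p : ℤ) = y % (p : ℤ) := (Int.modEq_iff_dvd.2 h).symm
    rw [hH]
    simp only [h2]
  have hHper' : ∀ x y : ℤ, ((p ^ T : ℕ) : ℤ) ∣ x - y → H x = H y := by
    intro x y h
    apply hHper
    refine dvd_trans ?_ h
    push_cast
    exact dvd_pow_self _ (by omega)
  have hmod : ∀ c : ℕ, (((c : ℤ)) % (p : ℤ)).toNat = c % p := by
    intro c
    have : ((c : ℤ) % (p : ℤ)) = ((c % p : ℕ) : ℤ) := by push_cast; rfl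
    rw [this, Int.toNat_natCast]
  have hper := sum_period (A := p) hHper (p ^ (T - 1))
  have hshift := sum_perm (q := p ^ T) (by positivity) hHper' (σ := fun a => a + b) (by
    intro x y h
    simpa using h)
  have hcard : ({a : ℕ | b ≤ a ∧ a < b + p ^ T ∧ (p : ℝ) < ((a % p : ℕ) : ℝ) + x}.ncard : ℝ) =
      ∑ a ∈ range (p ^ T), H ((a : ℤ) + b) := by
    have h2 : {a : ℕ | b ≤ a ∧ a < b + p ^ T ∧ (p : ℝ) < ((a % p : ℕ) : ℝ) + x} =
        ((((range (p ^ T)).filter (fun a : ℕ => (p : ℝ) <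
          (((((a : ℤ) + b) % (p : ℤ)).toNat : ℕ) : ℝ) + x)).image
          (fun a => a + b) : Finset ℕ) : Set ℕ) := by
      ext a
      rw [Set.mem_ofPred_eq, mem_coe, mem_image]
      constructor
      · rintro ⟨h3, h4, h5⟩
        refine ⟨a - b, ?_, by omega⟩
        rw [mem_filter, mem_range]
        have : ((a - b : ℕ) : ℤ) + b = a := by omega
        rw [this, hmod]
        exact ⟨by omega, h5⟩
      · rintro ⟨c, h3, rfl⟩
        rw [mem_filter, mem_range] at h3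
        obtain ⟨h3, h4⟩ := h3
        have : ((c : ℕ) : ℤ) + b = ((c + b : ℕ) : ℤ) := by push_cast; ring
        rw [this, hmod] at h4
        exact ⟨by omega, by omega, h4⟩
    rw [h2, Set.ncard_coe_finset, card_image_of_injective _ (add_left_injective b), hH,
      ← sum_filter, sum_const, nsmul_eq_mul, mul_one]
  have hsmall : ∑ w ∈ range p, H w ≤ x + 1 := by
    refine le_trans (le_of_eq ?_) (card_top_le p hx)
    rw [hH, ← sum_filter, sum_const, nsmul_eq_mul, mul_one]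
    congr 2
    apply filter_congr
    intro j hj
    rw [hmod, Nat.mod_eq_of_lt (mem_range.1 hj)]
  rw [hcard, hshift]
  have e : p ^ T = p * p ^ (T - 1) := by
    rw [← pow_succ']; congr 1; omega
  rw [e, hper, mul_comm _ (p : ℝ), ← mul_assoc]
  have e2 : (p : ℝ) ^ T = p * (p : ℝ) ^ (T - 1) := by
    rw [← pow_succ']; congr 1; omega
  rw [e2]
  push_cast
  calc (p : ℝ) * (p : ℝ) ^ (T - 1) * ∑ w ∈ range p, H w ≤ p * (p : ℝ) ^ (T - 1) * (x + 1) :=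
        mul_le_mul_of_nonneg_left hsmall (by positivity)
    _ = _ := by ring

end Pool.Agent.FacLarge
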