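import Pool.Agent.FacLarge.Norm

/-!
Sums over one block.
-/

set_option autoImplicit false

namespace Pool.Agent.FacLarge

open Finset

/-- `|cos (π θ)|` on the circle. -/
noncomputable def phi (θ : UnitAddCircle) : ℝ := Real.cos (Real.pi * ‖θ‖)

theorem norm_le_half (θ : UnitAddCircle) : ‖θ‖ ≤ 1 / 2 := by
  have h := AddCircle.norm_le_half_period (p := (1 : ℝ)) (x := θ) (by norm_num)
  simpa using h

theorem phi_nonneg (θ : UnitAddCircle) : 0 ≤ phi θ := by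
  unfold phi
  have h1 := norm_le_half θ
  have h2 := norm_nonneg θ
  apply Real.cos_nonneg_of_mem_Icc
  have := Real.pi_pos
  constructor <;> nlinarith

theorem phi_le_one (θ : UnitAddCircle) : phi θ ≤ 1 := Real.cos_le_one _

theorem phi_le_exp (θ : UnitAddCircle) : phi θ ≤ Real.exp (-(2 * ‖θ‖ ^ 2)) := by
  unfold phi
  have h1 := norm_le_half θ
  have h2 := norm_nonneg θ
  have hpi := Real.pi_pos
  have h3 : |Real.pi * ‖θ‖| ≤ Real.pi := by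
    rw [abs_of_nonneg (by positivity)]
    nlinarith
  have h4 := Real.cos_le_one_sub_mul_cos_sq h3
  have h5 : 1 - 2 / Real.pi ^ 2 * (Real.pi * ‖θ‖) ^ 2 = 1 - 2 * ‖θ‖ ^ 2 := by
    field_simp
  rw [h5] at h4
  have h6 := Real.add_one_le_exp (-(2 * ‖θ‖ ^ 2))
  linarith

theorem phi_zero : phi 0 = 1 := by simp [phi]

theorem prod_phi_le_exp (s : Finset ℕ) (y : ℕ → UnitAddCircle) :
    ∏ i ∈ s, phi (y i) ≤ Real.exp (-(2 * ∑ i ∈ s, ‖y i‖ ^ 2)) := by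
  calc ∏ i ∈ s, phi (y i) ≤ ∏ i ∈ s, Real.exp (-(2 * ‖y i‖ ^ 2)) :=
        prod_le_prod (fun i _ => phi_nonneg _) (fun i _ => phi_le_exp _)
    _ = _ := by
      rw [← Real.exp_sum, mul_sum, sum_neg_distrib]

theorem prod_phi_nonneg (s : Finset ℕ) (y : ℕ → UnitAddCircle) :
    0 ≤ ∏ i ∈ s, phi (y i) := prod_nonneg fun _ _ => phi_nonneg _

theorem prod_phi_le_one (s : Finset ℕ) (y : ℕ → UnitAddCircle) :
    ∏ i ∈ s, phi (y i) ≤ 1 := prod_le_one (fun _ _ => phi_nonneg _) fun _ _ => phi_le_one _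

theorem prod_phi_le_inv_pow {p : ℕ} (hp : 1 ≤ p) (s : Finset ℕ) (y : ℕ → UnitAddCircle) (k : ℕ)
    (h : (k : ℝ) / 2 * Real.log p ≤ ∑ i ∈ s, ‖y i‖ ^ 2) :
    ∏ i ∈ s, phi (y i) ≤ ((p : ℝ) ^ k)⁻¹ := by
  refine (prod_phi_le_exp s y).trans ?_
  have hp0 : (0 : ℝ) < p := by exact_mod_cast hp
  have h1 : ((p : ℝ) ^ k)⁻¹ = Real.exp (-((k : ℝ) * Real.log p)) := by
    rw [Real.exp_neg, ← Real.log_pow, Real.exp_log (by positivity)]
  rw [h1]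
  apply Real.exp_le_exp.2
  linarith

/-- `1 / p ^ m` on the circle -/
noncomputable def eps (p m : ℕ) : UnitAddCircle := (((1 : ℝ) / (p : ℝ) ^ m : ℝ) : UnitAddCircle)

theorem eps_zero (p : ℕ) : eps p 0 = 0 := by
  unfold eps
  rw [pow_zero, div_one]
  exact AddCircle.coe_period (1 : ℝ)

theorem zsmul_eps (p m : ℕ) (z : ℤ) :
    z • eps p m = (((z : ℝ) / (p : ℝ) ^ m : ℝ) : UnitAddCircle) := by
  unfold eps
  rw [← AddCircle.coe_zsmul]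
  congr 1
  rw [zsmul_eq_mul]
  ring

theorem eps_succ {p : ℕ} (hp : 0 < p) (m : ℕ) : (p : ℤ) • eps p (m + 1) = eps p m := by
  rw [zsmul_eps]
  unfold eps
  congr 1
  have : (p : ℝ) ≠ 0 := by positivity
  push_cast
  field_simp
  ring

theorem pow_zsmul_eps {p : ℕ} (hp : 0 < p) (m j : ℕ) :
    ((p : ℤ) ^ j) • eps p (m + j) = eps p m := by
  induction j with
  | zero => simp
  | succ j ih =>
    rw [pow_succ, mul_zsmul, ← add_assoc, eps_succ hp, ih]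

theorem zsmul_eps_eq_zero {p : ℕ} (hp : 0 < p) {m : ℕ} {z : ℤ} (h : (p : ℤ) ^ m ∣ z) :
    z • eps p m = 0 := by
  obtain ⟨y, rfl⟩ := h
  rw [mul_comm, mul_zsmul]
  have h1 := pow_zsmul_eps hp 0 m
  rw [zero_add, eps_zero] at h1
  rw [h1, zsmul_zero]

theorem zsmul_eps_congr {p : ℕ} (hp : 0 < p) {m : ℕ} {z z' : ℤ} (h : (p : ℤ) ^ m ∣ z - z') :
    z • eps p m = z' • eps p m := by
  have h1 := zsmul_eps_eq_zero hp h
  rw [sub_zsmul] at h1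
  have h2 : z • eps p m - z' • eps p m = 0 := by
    rw [sub_eq_add_neg]; exact h1
  exact sub_eq_zero.1 h2

theorem norm_zsmul_eps_one (p : ℕ) (z : ℤ) :
    ‖z • eps p 1‖ = ‖(((z : ℝ) / p : ℝ) : UnitAddCircle)‖ := by
  rw [zsmul_eps, pow_one]

/-- the property of large primes used below -/
def Gd (p : ℕ) : Prop := ∀ b s : ℕ, b + s ≤ p →
    (p : ℝ) ^ (83 / 100 : ℝ) ≤ s → ∀ c : ℕ → ℤ, ¬ (p : ℤ) ∣ c 0 →
    (∀ i, i + 1 < s → (p : ℤ) ∣ c (i + 1) - ((b + i + 1 : ℕ) : ℤ) * c i) →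
    54 * Real.log p < ∑ i ∈ range s, ‖(c i) • eps p 1‖ ^ 2

theorem exists_Gd : ∃ P0 : ℕ, ∀ p : ℕ, P0 ≤ p → p.Prime → Gd p := by
  obtain ⟨P0, h⟩ := normSq_sum_gt
  refine ⟨P0, fun p hp hpp b s hbs hs c h0 hrec => ?_⟩
  simp only [norm_zsmul_eps_one]
  exact h p hp hpp b s hbs hs c h0 hrec

theorem norm_sub_sq_le (x y : UnitAddCircle) : ‖x - y‖ ^ 2 ≤ 2 * (‖x‖ ^ 2 + ‖y‖ ^ 2) := by
  have h := norm_sub_le x y
  have h0 := norm_nonneg (x - y)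
  nlinarith [sq_nonneg (‖x‖ - ‖y‖), norm_nonneg x, norm_nonneg y]

theorem norm_sub_sub_sq_le (x y z : UnitAddCircle) :
    ‖x - y - z‖ ^ 2 ≤ 3 * (‖x‖ ^ 2 + ‖y‖ ^ 2 + ‖z‖ ^ 2) := by
  have h := norm_sub_le (x - y) z
  have h' := norm_sub_le x y
  have h0 := norm_nonneg (x - y - z)
  have h1 : ‖x - y - z‖ ≤ ‖x‖ + ‖y‖ + ‖z‖ := by linarith
  have h2 : ‖x - y - z‖ ^ 2 ≤ (‖x‖ + ‖y‖ + ‖z‖) ^ 2 := pow_le_pow_left₀ h0 h1 2
  nlinarith [sq_nonneg (‖x‖ - ‖y‖), sq_nonneg (‖x‖ - ‖z‖), sq_nonneg (‖y‖ - ‖z‖)]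

theorem block_death {p : ℕ} (hp : p.Prime) (hG : Gd p) {b s : ℕ} (hbs : b + s ≤ p)
    (hs : (p : ℝ) ^ (83 / 100 : ℝ) ≤ s) {c : ℕ → ℤ} (h0 : ¬ (p : ℤ) ∣ c 0)
    (hrec : ∀ i, i + 1 < s → (p : ℤ) ∣ c (i + 1) - ((b + i + 1 : ℕ) : ℤ) * c i) :
    ∏ i ∈ range s, phi ((c i) • eps p 1) ≤ ((p : ℝ) ^ 108)⁻¹ := by
  apply prod_phi_le_inv_pow hp.one_lt.le
  have := hG b s hbs hs c h0 hrec
  push_cast
  linarith

theorem block_one {p : ℕ} (hp : p.Prime) (hG : Gd p) {b s : ℕ} (hbs : b + s ≤ p)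
    (hs : (p : ℝ) ^ (83 / 100 : ℝ) ≤ s) {c : ℕ → ℤ} (h0 : ¬ (p : ℤ) ∣ c 0)
    (hrec : ∀ i, i + 1 < s → (p : ℤ) ∣ c (i + 1) - ((b + i + 1 : ℕ) : ℤ) * c i)
    (x : ℕ → UnitAddCircle) :
    ∑ t ∈ range p, ∏ i ∈ range s, phi (x i + ((t : ℤ) * c i) • eps p 1) ≤
      1 + ((p : ℝ) ^ 26)⁻¹ := by
  have hp0 : (0 : ℝ) < p := by exact_mod_cast hp.pos
  have hlog : 0 ≤ Real.log p := Real.log_natCast_nonneg p
  obtain ⟨t0, ht0, hmin⟩ := exists_min_image (range p)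
    (fun t => ∑ i ∈ range s, ‖x i + ((t : ℤ) * c i) • eps p 1‖ ^ 2)
    ⟨0, mem_range.2 hp.pos⟩
  rw [← add_sum_erase _ _ ht0]
  apply add_le_add (prod_phi_le_one _ _)
  have h1 : ∀ t ∈ (range p).erase t0,
      ∏ i ∈ range s, phi (x i + ((t : ℤ) * c i) • eps p 1) ≤ ((p : ℝ) ^ 27)⁻¹ := by
    intro t ht
    rw [mem_erase, mem_range] at ht
    rw [mem_range] at ht0
    have h2 := hmin t (mem_range.2 ht.2)
    have h3 := hG b s hbs hs (fun i => ((t : ℤ) - t0) * c i) ?_ ?_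
    · apply prod_phi_le_inv_pow hp.one_lt.le
      have h4 : ∑ i ∈ range s, ‖(((t : ℤ) - t0) * c i) • eps p 1‖ ^ 2 ≤
          2 * (∑ i ∈ range s, ‖x i + ((t : ℤ) * c i) • eps p 1‖ ^ 2 +
            ∑ i ∈ range s, ‖x i + ((t0 : ℤ) * c i) • eps p 1‖ ^ 2) := by
        rw [← sum_add_distrib, mul_sum]
        apply sum_le_sum
        intro i _
        have h5 : (((t : ℤ) - t0) * c i) • eps p 1 =
            (x i + ((t : ℤ) * c i) • eps p 1) - (x i + ((t0 : ℤ) * c i) • eps p 1) := by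
          rw [sub_mul, sub_zsmul]; abel
        rw [h5]
        exact norm_sub_sq_le _ _
      push_cast
      linarith
    · intro h
      rcases (Nat.prime_iff_prime_int.1 hp).dvd_or_dvd h with h5 | h5
      · have h6 : (t : ℤ) - t0 = 0 := by
          apply Int.eq_zero_of_abs_lt_dvd h5
          rw [abs_lt]
          constructor <;> omega
        exact ht.1 (by omega)
      · exact h0 h5
    · intro i hi
      have h5 := (hrec i hi).mul_left ((t : ℤ) - t0)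
      have h6 : ((t : ℤ) - t0) * (c (i + 1) - ((b + i + 1 : ℕ) : ℤ) * c i) =
        ((t : ℤ) - t0) * c (i + 1) - ((b + i + 1 : ℕ) : ℤ) * (((t : ℤ) - t0) * c i) := by ring
      rwa [h6] at h5
  calc _ ≤ ∑ t ∈ (range p).erase t0, ((p : ℝ) ^ 27)⁻¹ := sum_le_sum h1
    _ = ((range p).erase t0).card * ((p : ℝ) ^ 27)⁻¹ := by rw [sum_const, nsmul_eq_mul]
    _ ≤ p * ((p : ℝ) ^ 27)⁻¹ := by
      apply mul_le_mul_of_nonneg_right _ (by positivity)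
      have := card_erase_le (s := range p) (a := t0)
      rw [card_range] at this
      exact_mod_cast this
    _ = ((p : ℝ) ^ 26)⁻¹ := by field_simp

end Pool.Agent.FacLarge
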