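import Pool.Agent.FacLarge.KLem
import Pool.Agent.FacLarge.Block

/-!
Few windows consist of small terms only.
-/

set_option autoImplicit false

namespace Pool.Agent.FacLarge

open Polynomial

theorem exists_fin_image {Z : Finset ℕ} {n : ℕ} (h0 : Z.Nonempty) (hn : Z.card ≤ n + 1) :
    ∃ f : Fin (n + 1) → ℕ, (Finset.univ : Finset (Fin (n + 1))).image f = Z := by
  classical
  obtain ⟨k, hk⟩ : ∃ k, Z.card = k := ⟨_, rfl⟩
  have hk0 : 0 < k := by rw [← hk]; exact Finset.card_pos.2 h0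
  refine ⟨fun i => if h : (i : ℕ) < k then Z.orderEmbOfFin hk ⟨i, h⟩ else
    Z.orderEmbOfFin hk ⟨0, hk0⟩, ?_⟩
  ext c
  rw [Finset.mem_image]
  constructor
  · rintro ⟨i, _, rfl⟩
    split_ifs
    · exact Finset.orderEmbOfFin_mem _ _ _
    · exact Finset.orderEmbOfFin_mem _ _ _
  · intro hc
    have h1 : c ∈ Set.range (Z.orderEmbOfFin hk) := by
      rw [Finset.range_orderEmbOfFin]; exact hc
    obtain ⟨j, hj⟩ := h1
    refine ⟨⟨j, by omega⟩, Finset.mem_univ _, ?_⟩
    simp only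
    rw [dif_pos j.2]
    exact hj

/-- counting polynomials with many small values -/
theorem card_polys_le {m n Y : ℕ} (S : Finset ℤ[X]) (hS : ∀ D ∈ S, D.natDegree ≤ n ∧
    D.natDegree + 1 ≤
      ((Finset.range (m + 1)).filter (fun c : ℕ => |D.eval (c : ℤ)| ≤ (Y : ℤ))).card) :
    S.card ≤ ((m + 1) * (2 * Y + 1)) ^ (n + 1) := by
  classical
  have hex : ∀ D : ℤ[X], ∃ f : Fin (n + 1) → ℕ, D ∈ S →
      ((∀ i, f i < m + 1 ∧ |D.eval ((f i : ℕ) : ℤ)| ≤ (Y : ℤ)) ∧
      ((Finset.univ : Finset (Fin (n + 1))).image f).card = D.natDegree + 1) := by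
    intro D
    by_cases hD : D ∈ S
    · obtain ⟨h1, h2⟩ := hS D hD
      obtain ⟨Z, hZsub, hZc⟩ := Finset.exists_subset_card_eq h2
      obtain ⟨f, hf⟩ := exists_fin_image (Z := Z) (n := n)
        (Finset.card_pos.1 (by omega)) (by omega)
      refine ⟨f, fun _ => ⟨fun i => ?_, by rw [hf, hZc]⟩⟩
      have h3 : f i ∈ Z := by
        rw [← hf]; exact Finset.mem_image_of_mem _ (Finset.mem_univ _)
      have h4 := Finset.mem_filter.1 (hZsub h3)
      exact ⟨Finset.mem_range.1 h4.1, h4.2⟩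
    · exact ⟨fun _ => 0, fun h => absurd h hD⟩
  choose f hf using hex
  have hcard : S.card ≤ (Fintype.piFinset (fun _ : Fin (n + 1) =>
      (Finset.range (m + 1)) ×ˢ (Finset.Icc (-(Y : ℤ)) Y))).card := by
    apply Finset.card_le_card_of_injOn
      (fun D => fun i : Fin (n + 1) => (f D i, D.eval ((f D i : ℕ) : ℤ)))
    · intro D hD
      rw [Finset.mem_coe] at hD
      rw [Finset.mem_coe, Fintype.mem_piFinset]
      intro i
      have h1 := (hf D hD).1 i
      simp only [Finset.mem_product, Finset.mem_range, Finset.mem_Icc]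
      exact ⟨h1.1, abs_le.1 h1.2⟩
    · intro D hD D' hD' h
      rw [Finset.mem_coe] at hD hD'
      have h1 : f D = f D' := by
        funext i
        exact (Prod.mk.inj (congrFun h i)).1
      have h2 : ∀ i, D.eval ((f D i : ℕ) : ℤ) = D'.eval ((f D i : ℕ) : ℤ) := by
        intro i
        have := (Prod.mk.inj (congrFun h i)).2
        rw [this, h1]
      have hc := (hf D hD).2
      have hc' := (hf D' hD').2
      rw [← h1] at hc'
      apply Polynomial.eq_of_degrees_lt_of_eval_index_eq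
        ((Finset.univ : Finset (Fin (n + 1))).image (f D)) (v := fun c : ℕ => (c : ℤ))
      · intro a _ b _ hab
        have hab' : ((a : ℕ) : ℤ) = ((b : ℕ) : ℤ) := hab
        exact_mod_cast hab'
      · refine lt_of_le_of_lt Polynomial.degree_le_natDegree ?_
        rw [hc]
        exact_mod_cast Nat.lt_succ_self _
      · refine lt_of_le_of_lt Polynomial.degree_le_natDegree ?_
        rw [hc']
        exact_mod_cast Nat.lt_succ_self _
      · intro c hcm
        rw [Finset.mem_image] at hcm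
        obtain ⟨i, _, rfl⟩ := hcm
        exact h2 i
  refine hcard.trans (le_of_eq ?_)
  rw [Fintype.card_piFinset_const, Finset.card_product, Finset.card_range, Int.card_Icc]
  congr 2
  omega

theorem card_roots_mod {p e : ℕ} (hp : p.Prime) (he : 1 ≤ e) {D : ℤ[X]} (hD : D.IsPrimitive)
    (W : Finset ℕ) (a : ℕ → ℤ) (hinj : ∀ i ∈ W, ∀ j ∈ W, (p : ℤ) ∣ a i - a j → i = j)
    (hroot : ∀ i ∈ W, (p : ℤ) ^ e ∣ D.eval (a i)) : W.card ≤ D.natDegree := by
  classical
  have : Fact p.Prime := ⟨hp⟩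
  obtain ⟨Dp, hDp⟩ : ∃ Dp : (ZMod p)[X], Dp = D.map (Int.castRingHom (ZMod p)) := ⟨_, rfl⟩
  have hne : Dp ≠ 0 := by
    intro h
    rw [hDp] at h
    have h1 : C (p : ℤ) ∣ D := by
      rw [Polynomial.C_dvd_iff_dvd_coeff]
      intro i
      have h2 : (D.map (Int.castRingHom (ZMod p))).coeff i = 0 := by rw [h, coeff_zero]
      rw [Polynomial.coeff_map, eq_intCast] at h2
      exact (ZMod.intCast_zmod_eq_zero_iff_dvd _ p).1 h2
    have h3 := hD (p : ℤ) h1
    have h4 : IsUnit (p : ℤ) := h3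
    rw [Int.isUnit_iff] at h4
    have := hp.one_lt
    omega
  have h1 : W.card ≤ Dp.roots.toFinset.card := by
    apply Finset.card_le_card_of_injOn (fun i => ((a i : ℤ) : ZMod p))
    · intro i hi
      rw [Finset.mem_coe] at hi
      rw [Finset.mem_coe, Multiset.mem_toFinset, Polynomial.mem_roots hne,
        Polynomial.IsRoot.def, hDp, Polynomial.eval_map, Polynomial.eval₂_at_intCast]
      have h2 : (p : ℤ) ∣ D.eval (a i) := (dvd_pow_self _ (by omega)).trans (hroot i hi)
      have h3 := (ZMod.intCast_zmod_eq_zero_iff_dvd (D.eval (a i)) p).2 h2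
      simpa using h3
    · intro i hi j hj hij
      rw [Finset.mem_coe] at hi hj
      apply hinj i hi j hj
      rw [← ZMod.intCast_zmod_eq_zero_iff_dvd]
      push_cast
      simp only at hij
      rw [hij, sub_self]
  calc W.card ≤ _ := h1
    _ ≤ Dp.roots.card := Multiset.toFinset_card_le _
    _ ≤ Dp.natDegree := Polynomial.card_roots' _
    _ ≤ D.natDegree := by rw [hDp]; exact Polynomial.natDegree_map_le

/-! ### from rising factorials to powers -/

def Eop (u : ℕ → ℤ) (j : ℕ) : ℤ := u (j + 1) - j * u j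

theorem Eop_iterate {q a : ℤ} {N X : ℕ} {u : ℕ → ℤ} (hu : ∀ j ≤ N, |u j| ≤ X)
    (hrec : ∀ j, j < N → q ∣ u (j + 1) - (a + j) * u j) (l : ℕ) :
    ∀ j, j + l ≤ N → q ∣ (Eop^[l] u) j - a ^ l * u j ∧
      |(Eop^[l] u) j| ≤ (((N + 1) ^ l * X : ℕ) : ℤ) := by
  induction l with
  | zero =>
    intro j hj
    simp only [Function.iterate_zero, id, pow_zero, one_mul, sub_self]
    exact ⟨dvd_zero _, hu j (by omega)⟩
  | succ l ih =>
    intro j hj
    rw [Function.iterate_succ_apply']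
    obtain ⟨h1, h2⟩ := ih j (by omega)
    obtain ⟨h3, h4⟩ := ih (j + 1) (by omega)
    constructor
    · have h5 := hrec j (by omega)
      have e1 : Eop (Eop^[l] u) j - a ^ (l + 1) * u j =
          ((Eop^[l] u) (j + 1) - a ^ l * u (j + 1)) - j * ((Eop^[l] u) j - a ^ l * u j) +
          a ^ l * (u (j + 1) - (a + j) * u j) := by
        unfold Eop
        ring
      rw [e1]
      exact dvd_add (dvd_sub h3 (h1.mul_left _)) (h5.mul_left _)
    · unfold Eop
      calc |(Eop^[l] u) (j + 1) - j * (Eop^[l] u) j|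
          ≤ |(Eop^[l] u) (j + 1)| + |(j : ℤ) * (Eop^[l] u) j| := abs_sub _ _
        _ ≤ (((N + 1) ^ l * X : ℕ) : ℤ) + N * (((N + 1) ^ l * X : ℕ) : ℤ) := by
          apply add_le_add h4
          rw [abs_mul]
          apply mul_le_mul _ h2 (abs_nonneg _) (by positivity)
          rw [abs_of_nonneg (by positivity)]
          exact_mod_cast (show j ≤ N by omega)
        _ = _ := by push_cast; ring

/-- few windows of length `N + 1 = 2 m + n + 1` consist of small terms only -/
theorem card_bad_windows {p e n m X H Y : ℕ} (hp : p.Prime) (he : 1 ≤ e) (hnm : n ≤ m)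
    (h1 : p ^ e < (H + 1) ^ (n + 1))
    (h2 : (m + 1) * H * ((2 * m + n + 1) ^ (2 * m + n) * X) < p ^ e)
    (h3 : p ^ e * (3 * (m + 1) ^ (m + 1)) ^ (m + 1) < Y ^ (m + 1 - n)) (hYH : Y ≤ H)
    {A : ℤ} {s : ℕ} (hs : s ≤ p) {c : ℕ → ℤ} (hc0 : ∀ i < s, ¬ (p : ℤ) ∣ c i)
    (hrec : ∀ i, i + 1 < s → (p : ℤ) ^ e ∣ c (i + 1) - (A + i + 1) * c i)
    (W : Finset ℕ) (hW : ∀ i ∈ W, i + (2 * m + n) < s ∧ ∀ l ≤ 2 * m + n, |c (i + l)| ≤ X) :
    W.card ≤ n * ((m + 1) * (2 * Y + 1)) ^ (n + 1) := by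
  classical
  have hex : ∀ i : ℕ, ∃ D : ℤ[X], i ∈ W → (D.IsPrimitive ∧ D.natDegree ≤ n ∧
      (p : ℤ) ^ e ∣ D.eval (A + i + 1) ∧ D.natDegree + 1 ≤
        ((Finset.range (m + 1)).filter (fun c : ℕ => |D.eval (c : ℤ)| ≤ (Y : ℤ))).card) := by
    intro i
    by_cases hi : i ∈ W
    · obtain ⟨hi1, hi2⟩ := hW i hi
      obtain ⟨N, hN⟩ : ∃ N, N = 2 * m + n := ⟨_, rfl⟩
      obtain ⟨u, hu⟩ : ∃ u : ℕ → ℤ, u = fun j => c (i + j) := ⟨_, rfl⟩
      have hE := Eop_iterate (q := (p : ℤ) ^ e) (a := A + i + 1) (N := N) (X := X) (u := u)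
        (by intro j hj; rw [hu]; exact hi2 j (by omega))
        (by
          intro j hj
          have h4 := hrec (i + j) (by omega)
          rw [hu]
          simp only
          have e1 : A + ((i + j : ℕ) : ℤ) + 1 = A + i + 1 + j := by push_cast; ring
          rw [e1] at h4
          exact h4)
      have hv1 : ∀ l ≤ 2 * m + n, |(Eop^[l] u) 0| ≤ (((N + 1) ^ N * X : ℕ) : ℤ) := by
        intro l hl
        refine ((hE l 0 (by omega)).2).trans ?_
        have : (N + 1) ^ l * X ≤ (N + 1) ^ N * X :=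
          Nat.mul_le_mul_right _ (Nat.pow_le_pow_right (by omega) (by omega))
        exact_mod_cast this
      have hv2 : ∀ l ≤ 2 * m + n, (p : ℤ) ^ e ∣ (Eop^[l] u) 0 - (A + i + 1) ^ l *
          (Eop^[0] u) 0 := by
        intro l hl
        exact (hE l 0 (by omega)).1
      have hv3 : ¬ (p : ℤ) ∣ (Eop^[0] u) 0 := by
        show ¬ (p : ℤ) ∣ u 0
        rw [hu]
        exact hc0 i (by omega)
      obtain ⟨D, hD1, hD2, hD3, hD4⟩ := lemmaK (p := p) (e := e) (n := n) (m := m)
        (X' := (N + 1) ^ N * X) (H := H) (Y := Y) hp hnm (v := fun l => (Eop^[l] u) 0)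
        (s := A + i + 1) hv1 hv2 hv3 h1 (by rw [hN]; exact h2) h3 hYH
      exact ⟨D, fun _ => ⟨hD1, hD2, hD3, hD4⟩⟩
    · exact ⟨0, fun h => absurd h hi⟩
  choose D hD using hex
  have hfib := Finset.card_le_mul_card_image (s := W) (f := D) n ?_
  · refine hfib.trans (Nat.mul_le_mul_left _ ?_)
    apply card_polys_le
    intro P hP
    rw [Finset.mem_image] at hP
    obtain ⟨i, hi, rfl⟩ := hP
    exact ⟨(hD i hi).2.1, (hD i hi).2.2.2⟩
  · intro P hP
    rw [Finset.mem_image] at hP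
    obtain ⟨i0, hi0, rfl⟩ := hP
    refine (card_roots_mod hp he (hD i0 hi0).1 (W.filter (fun i => D i = D i0))
      (fun i => A + i + 1) ?_ ?_).trans (hD i0 hi0).2.1
    · intro i hi j hj hij
      have hi1 := (hW i (Finset.mem_filter.1 hi).1).1
      have hj1 := (hW j (Finset.mem_filter.1 hj).1).1
      have e1 : A + (i : ℤ) + 1 - (A + j + 1) = (i : ℤ) - j := by ring
      rw [e1] at hij
      have h6 : (i : ℤ) - j = 0 := by
        apply Int.eq_zero_of_abs_lt_dvd hij
        rw [abs_lt]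
        constructor <;> omega
      omega
    · intro i hi
      rw [← (Finset.mem_filter.1 hi).2]
      exact (hD i (Finset.mem_filter.1 hi).1).2.2.1

end Pool.Agent.FacLarge
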