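import Pool.Agent.FacLarge.Win
import Pool.Agent.FacLarge.App

/-!
The bounding function for the bad pairs, and its period.
-/

set_option autoImplicit false

namespace Pool.Agent.FacLarge

open Finset

/-- the bounding function -/
noncomputable def Bd (p E R k0 m L T : ℕ) (ε : ℝ) (j n : ℕ) : ℝ := by
  classical
  exact (if PG2 p E R k0 n then 0 else 1) +
    2 * ∑ M ∈ range R, (if (p : ℝ) ^ ε ≤ ((p - 1 - j : ℕ) : ℝ) ∧ PG2 p E R k0 n then
      Zs p R (M + 1) (p - 1 - j) ((p : ℤ) * n + j) ((n : ℤ) + 1) else 0) +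
    (if ∃ x < T + m + 1, p ^ L ∣ n + 1 + x then 1 else 0) +
    ∑ t ∈ range T, 6 * 2 ^ m * (if (∀ i ≤ m, ¬ p ^ L ∣ n + (1 + t) + 1 + i) then
      Dd p m (n + (1 + t)) else 0)

theorem one_le_Bd {p E R k0 m L T : ℕ} {ε : ℝ} (hp : p.Prime) {j n : ℕ} (hj : j < p)
    (hmL : p ^ L + (m + 1) < p ^ (L + 1))
    (hR : (m + 1) + ((m + 1) / (p - 1) + L) ≤ R)
    (hc : (p : ℝ) ^ ε ≤ ((p - 1 - j : ℕ) : ℝ)) (hbad : ¬ GoodA p T ((p : ℤ) * n + j)) :
    1 ≤ Bd p E R k0 m L T ε j n := by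
  classical
  unfold Bd
  have hZ : ∀ M, 0 ≤ (if (p : ℝ) ^ ε ≤ ((p - 1 - j : ℕ) : ℝ) ∧ PG2 p E R k0 n then
      Zs p R (M + 1) (p - 1 - j) ((p : ℤ) * n + j) ((n : ℤ) + 1) else 0) := by
    intro M
    split_ifs
    · exact Zs_nonneg _ _ _ _ _ _
    · exact le_rfl
  have hZs := sum_nonneg (fun M (_ : M ∈ range R) => hZ M)
  have hD : ∀ t, 0 ≤ 6 * (2 : ℝ) ^ m * (if (∀ i ≤ m, ¬ p ^ L ∣ n + (1 + t) + 1 + i) then
      Dd p m (n + (1 + t)) else 0) := by
    intro t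
    apply mul_nonneg (by positivity)
    split_ifs
    · exact Dd_nonneg _ _ _
    · exact le_rfl
  have hDs := sum_nonneg (fun t (_ : t ∈ range T) => hD t)
  have hX : (0 : ℝ) ≤ (if ∃ x < T + m + 1, p ^ L ∣ n + 1 + x then 1 else 0) := by
    split_ifs <;> norm_num
  by_cases hPG : PG2 p E R k0 n
  · by_cases hex : ∃ x < T + m + 1, p ^ L ∣ n + 1 + x
    · rw [if_pos hPG, if_pos hex]
      linarith
    · by_contra hcon
      rw [not_le, if_pos hPG, if_neg hex] at hcon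
      push Not at hex
      apply hbad
      have hsa : (p : ℤ) * n + j + ((p - 1 - j : ℕ) : ℤ) + 1 = p * ((n : ℤ) + 1) := by
        have : ((p - 1 - j : ℕ) : ℤ) = (p : ℤ) - 1 - j := by omega
        rw [this]; ring
      have hZeq : ∑ M ∈ range R, (if (p : ℝ) ^ ε ≤ ((p - 1 - j : ℕ) : ℝ) ∧ PG2 p E R k0 n then
          Zs p R (M + 1) (p - 1 - j) ((p : ℤ) * n + j) ((n : ℤ) + 1) else 0) =
          ∑ M ∈ range R, Zs p R (M + 1) (p - 1 - j) ((p : ℤ) * n + j) ((n : ℤ) + 1) := by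
        apply sum_congr rfl
        intro M _
        rw [if_pos ⟨hc, hPG⟩]
      rw [hZeq] at hcon hZs
      have hVV : VV p (m + 1) n ≤ R := by
        have hmod : n ≡ n % p ^ L [MOD p ^ L] := (Nat.mod_modEq _ _).symm
        rw [VV_congr hp (k := m + 1) hmod (fun i hi => hex i (by omega))]
        have hlt : n % p ^ L < p ^ L := Nat.mod_lt _ (pow_pos hp.pos _)
        exact (VV_le hp (L := L) (by omega)).trans hR
      apply good_of_chain hp (s := p - 1 - j) (n := n) (R := R) (m := m) (by omega) hsa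
        (((Nat.le_succ m).trans (Nat.le_add_right _ _)).trans hR) hVV (by linarith)
      intro t ht
      have h1 := single_le_sum (fun t (_ : t ∈ range T) => hD t) (mem_range.2 ht)
      rw [if_pos (fun i hi => by
        rw [show n + (1 + t) + 1 + i = n + 1 + (1 + t + i) by ring]
        exact hex _ (by omega))] at h1
      rw [show n + 1 + t = n + (1 + t) by ring]
      linarith
  · rw [if_neg hPG]
    linarith

theorem PG2_congr {p E R k0 n n' : ℕ} (h : n ≡ n' [MOD p ^ R]) (hn : PG2 p E R k0 n) :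
    PG2 p E R k0 n' := by
  intro L h1 h2 i hi hd
  apply hn L h1 h2 i hi
  exact (((h.add_right 1).add_right i).dvd_iff (pow_dvd_pow _ h2)).2 hd

theorem Zs_congr {p : ℕ} (hp : 0 < p) {K M s R : ℕ} (hM : M ≤ R + 1) {a a' n n' : ℤ}
    (ha : (p : ℤ) ^ (R + 1) ∣ a - a') (hn : (p : ℤ) ^ (R + 1) ∣ p * n - p * n') :
    Zs p K M s a n = Zs p K M s a' n' := by
  unfold Zs
  apply sum_congr rfl
  intro w _
  split_ifs
  · rfl
  · have h1 : ∀ i, rp a i • ((w : ℤ) • eps p M) = rp a' i • ((w : ℤ) • eps p M) := by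
      intro i
      rw [← mul_zsmul, ← mul_zsmul, mul_comm, mul_comm _ (w : ℤ)]
      apply zsmul_eps_congr hp
      rw [← mul_sub]
      exact ((pow_dvd_pow _ hM).trans (rp_congr ha i)).mul_left _
    congr 1
    · apply prod_congr rfl
      intro i _
      rw [h1]
    · rw [h1, ← mul_zsmul]
      rw [mul_comm]
      exact FK_congr hp K ((pow_dvd_pow _ hM).trans hn) _

theorem Dd_congr {p m L R n n' : ℕ} (hp : p.Prime) (h : n ≡ n' [MOD p ^ R]) (hLR : L ≤ R)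
    (hmL : p ^ L + (m + 1) < p ^ (L + 1))
    (hR : (m + 1) + ((m + 1) / (p - 1) + L) ≤ R) :
    (∀ i ≤ m, ¬ p ^ L ∣ n + 1 + i) → Dd p m n = Dd p m n' := by
  intro hn
  have hmodL : n ≡ n' [MOD p ^ L] := h.of_dvd (pow_dvd_pow _ hLR)
  have hVV : VV p (m + 1) n ≤ R := by
    have hmod : n ≡ n % p ^ L [MOD p ^ L] := (Nat.mod_modEq _ _).symm
    rw [VV_congr hp (k := m + 1) hmod (fun i hi => hn i (by omega))]
    have hlt : n % p ^ L < p ^ L := Nat.mod_lt _ (pow_pos hp.pos _)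
    exact (VV_le hp (L := L) (by omega)).trans hR
  unfold Dd
  rw [← VV_congr hp (k := m) hmodL (fun i hi => hn i (by omega)),
    ← VV_congr hp (k := m + 1) hmodL (fun i hi => hn i (by omega))]
  apply sum_congr rfl
  intro μ hμ
  rw [mem_Ico] at hμ
  apply U0_congr hp.pos
  have h1 : ((p ^ R : ℕ) : ℤ) ∣ (n : ℤ) - n' := by
    have := Int.natCast_modEq_iff.2 h
    exact (Int.ModEq.dvd this.symm)
  push_cast at h1
  exact (pow_dvd_pow _ (by omega)).trans h1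

theorem Bd_congr {p E R k0 m L T : ℕ} {ε : ℝ} (hp : p.Prime) {j n n' : ℕ} (hLR : L ≤ R)
    (hmL : p ^ L + (m + 1) < p ^ (L + 1))
    (hR : (m + 1) + ((m + 1) / (p - 1) + L) ≤ R) (h : n ≡ n' [MOD p ^ R]) :
    Bd p E R k0 m L T ε j n = Bd p E R k0 m L T ε j n' := by
  classical
  unfold Bd
  have hPG : PG2 p E R k0 n ↔ PG2 p E R k0 n' := ⟨PG2_congr h, PG2_congr h.symm⟩
  have hmodL : n ≡ n' [MOD p ^ L] := h.of_dvd (pow_dvd_pow _ hLR)
  have h1 : (p : ℤ) ^ R ∣ (n : ℤ) - n' := by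
    have h2 := Int.natCast_modEq_iff.2 h
    have h3 := Int.ModEq.dvd h2.symm
    exact_mod_cast h3
  have hZ : ∀ M ∈ range R, (if (p : ℝ) ^ ε ≤ ((p - 1 - j : ℕ) : ℝ) ∧ PG2 p E R k0 n then
      Zs p R (M + 1) (p - 1 - j) ((p : ℤ) * n + j) ((n : ℤ) + 1) else 0) =
      (if (p : ℝ) ^ ε ≤ ((p - 1 - j : ℕ) : ℝ) ∧ PG2 p E R k0 n' then
      Zs p R (M + 1) (p - 1 - j) ((p : ℤ) * n' + j) ((n' : ℤ) + 1) else 0) := by
    intro M hM
    rw [mem_range] at hM
    have e : Zs p R (M + 1) (p - 1 - j) ((p : ℤ) * n + j) ((n : ℤ) + 1) =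
        Zs p R (M + 1) (p - 1 - j) ((p : ℤ) * n' + j) ((n' : ℤ) + 1) := by
      apply Zs_congr hp.pos (R := R) (by omega)
      · rw [add_sub_add_right_eq_sub, ← mul_sub, pow_succ, mul_comm]
        exact mul_dvd_mul_left _ h1
      · rw [← mul_sub, add_sub_add_right_eq_sub, pow_succ, mul_comm]
        exact mul_dvd_mul_left _ h1
    rw [e]
    simp only [hPG]
  have hX : (∃ x < T + m + 1, p ^ L ∣ n + 1 + x) ↔ (∃ x < T + m + 1, p ^ L ∣ n' + 1 + x) := by
    constructor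
    · rintro ⟨x, hx, hd⟩
      exact ⟨x, hx, (((hmodL.add_right 1).add_right x).dvd_iff (dvd_refl _)).1 hd⟩
    · rintro ⟨x, hx, hd⟩
      exact ⟨x, hx, (((hmodL.add_right 1).add_right x).dvd_iff (dvd_refl _)).2 hd⟩
  have hD : ∀ t ∈ range T, 6 * (2 : ℝ) ^ m * (if (∀ i ≤ m, ¬ p ^ L ∣ n + (1 + t) + 1 + i) then
      Dd p m (n + (1 + t)) else 0) =
      6 * (2 : ℝ) ^ m * (if (∀ i ≤ m, ¬ p ^ L ∣ n' + (1 + t) + 1 + i) then
      Dd p m (n' + (1 + t)) else 0) := by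
    intro t _
    congr 1
    have hiff : (∀ i ≤ m, ¬ p ^ L ∣ n + (1 + t) + 1 + i) ↔
        (∀ i ≤ m, ¬ p ^ L ∣ n' + (1 + t) + 1 + i) := by
      constructor
      · intro h2 i hi hd
        exact h2 i hi
          ((((hmodL.add_right (1 + t)).add_right 1).add_right i).dvd_iff (dvd_refl _) |>.2 hd)
      · intro h2 i hi hd
        exact h2 i hi
          ((((hmodL.add_right (1 + t)).add_right 1).add_right i).dvd_iff (dvd_refl _) |>.1 hd)
    by_cases h2 : ∀ i ≤ m, ¬ p ^ L ∣ n + (1 + t) + 1 + i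
    · rw [if_pos h2, if_pos (hiff.1 h2)]
      exact Dd_congr hp (h.add_right (1 + t)) hLR hmL hR h2
    · rw [if_neg h2, if_neg (fun h3 => h2 (hiff.2 h3))]
  rw [sum_congr rfl hZ, sum_congr rfl hD]
  simp only [hPG, hX]

end Pool.Agent.FacLarge
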