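import Pool.Agent.FacLarge.Det

/-!
Numerical bound for the averaged sums.
-/

set_option autoImplicit false

namespace Pool.Agent.FacLarge

open Finset

def VV (p k r : ℕ) : ℕ := ∑ i ∈ range k, (1 + padicValNat p (r + 1 + i))

noncomputable def gg (p e : ℕ) : ℝ := if e = 0 then 1 / 2 + 1 / (p : ℝ) ^ 2 else (p : ℝ) ^ (e + 1)

theorem gg_nonneg (p e : ℕ) : 0 ≤ gg p e := by
  unfold gg; split_ifs <;> positivity

theorem VV_succ (p k r : ℕ) :
    VV p (k + 1) r = (1 + padicValNat p (r + 1)) + VV p k (r + 1) := by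
  unfold VV
  rw [sum_range_succ', add_comm]
  congr 1
  apply sum_congr rfl
  intro i _
  congr 2
  ring

theorem le_VV (p k r : ℕ) : k ≤ VV p k r := by
  unfold VV
  calc k = ∑ i ∈ range k, 1 := by simp
    _ ≤ _ := sum_le_sum fun i _ => by omega

theorem count_class {p : ℕ} (hp : 0 < p) {m L : ℕ} (hL : L ≤ m) (r : ℤ) :
    ∑ n ∈ range (p ^ m), (if (p : ℤ) ^ L ∣ (n : ℤ) - r then (1 : ℝ) else 0) ≤
      (p : ℝ) ^ (m - L) := by
  have h1 : p ^ m = p ^ L * p ^ (m - L) := by rw [← pow_add]; congr 1; omega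
  rw [h1]
  have h2 := sum_period (A := p ^ L)
    (H := fun n : ℤ => (if (p : ℤ) ^ L ∣ n - r then (1 : ℝ) else 0)) ?_ (p ^ (m - L))
  · rw [h2]
    have h3 : ∑ n ∈ range (p ^ L), (if (p : ℤ) ^ L ∣ (n : ℤ) - r then (1 : ℝ) else 0) ≤ 1 := by
      rw [← sum_filter, sum_const, nsmul_eq_mul, mul_one]
      have h4 : ((range (p ^ L)).filter (fun n : ℕ => (p : ℤ) ^ L ∣ (n : ℤ) - r)).card ≤ 1 := by
        rw [card_le_one]
        intro a ha b hb
        rw [mem_filter, mem_range] at ha hb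
        have h5 := dvd_sub ha.2 hb.2
        rw [sub_sub_sub_cancel_right] at h5
        have h6 : (a : ℤ) - b = 0 := by
          apply Int.eq_zero_of_abs_lt_dvd h5
          have e1 : (a : ℤ) < (p : ℤ) ^ L := by exact_mod_cast ha.1
          have e2 : (b : ℤ) < (p : ℤ) ^ L := by exact_mod_cast hb.1
          rw [abs_lt]
          constructor <;> omega
        omega
      exact_mod_cast h4
    calc _ ≤ ((p ^ (m - L) : ℕ) : ℝ) * 1 := mul_le_mul_of_nonneg_left h3 (by positivity)
      _ = _ := by push_cast; ring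
  · intro x y h
    push_cast at h
    have h1 : (p : ℤ) ^ L ∣ (x - r) - (y - r) := by
      rw [sub_sub_sub_cancel_right]; exact h
    simp only [dvd_congr_left h1]

theorem U_base {p : ℕ} (hp : 0 < p) {K m L : ℕ} (hL : L ≤ m) (r : ℤ) :
    U p K m L r ≤ (p : ℝ) ^ (m - L) * (p : ℝ) ^ (m + 1) := by
  unfold U
  calc _ ≤ ∑ n ∈ range (p ^ m), ((p : ℝ) ^ (m + 1) *
        (if (p : ℤ) ^ L ∣ (n : ℤ) - r then (1 : ℝ) else 0)) := by
        apply sum_le_sum
        intro n _
        by_cases hn : (p : ℤ) ^ L ∣ (n : ℤ) - r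
        · rw [if_pos hn, mul_one]
          calc _ ≤ ∑ w ∈ range (p ^ (m + 1)), (1 : ℝ) := by
                apply sum_le_sum
                intro w _
                unfold term
                split_ifs
                · exact FK_le_one _ _ _ _
                · exact zero_le_one
            _ = _ := by
              rw [sum_const, card_range, nsmul_eq_mul]
              push_cast
              ring
        · rw [if_neg hn, mul_zero]
          apply le_of_eq
          apply sum_eq_zero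
          intro w _
          unfold term
          rw [if_neg]
          exact fun h => hn h.1
    _ ≤ _ := by
      rw [← mul_sum, mul_comm]
      exact mul_le_mul_of_nonneg_right (count_class hp hL r) (by positivity)

theorem U_steps {p : ℕ} (hp : p.Prime) (hGd : Gd p) {L : ℕ} (hL1 : 1 ≤ L) (k : ℕ) :
    ∀ (K m' r : ℕ), k ≤ K → L ≤ m' → (∀ i < k, padicValNat p (r + 1 + i) < L) →
    U p K (VV p k r + m') L r ≤ (p : ℝ) ^ (VV p k r + m' - L) *
      (∏ i ∈ range k, gg p (padicValNat p (r + 1 + i))) * (p : ℝ) ^ (m' + 1) := by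
  have hp0' : (0 : ℝ) < p := by exact_mod_cast hp.pos
  have hfact : Fact p.Prime := ⟨hp⟩
  induction k with
  | zero =>
    intro K m' r _ hm _
    simp only [VV, range_zero, sum_empty, zero_add, prod_empty, mul_one]
    exact U_base hp.pos hm r
  | succ k ih =>
    intro K m' r hK hm hv
    obtain ⟨K', rfl⟩ : ∃ K', K = K' + 1 := ⟨K - 1, by omega⟩
    obtain ⟨e, he⟩ : ∃ e, e = padicValNat p (r + 1) := ⟨_, rfl⟩
    have hv0 : e < L := by
      have := hv 0 (by omega)
      rw [he]; simpa using this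
    have hih := ih K' m' (r + 1) (by omega) hm (by
      intro i hi
      have := hv (i + 1) (by omega)
      rw [show r + 1 + 1 + i = r + 1 + (i + 1) by ring]
      exact this)
    rw [VV_succ, ← he]
    have e1 : 1 + e + VV p k (r + 1) + m' = (VV p k (r + 1) + m') + e + 1 := by ring
    rw [e1]
    have hprod : ∏ i ∈ range (k + 1), gg p (padicValNat p (r + 1 + i)) =
        gg p e * ∏ i ∈ range k, gg p (padicValNat p (r + 1 + 1 + i)) := by
      rw [prod_range_succ', mul_comm, he]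
      congr 1
      apply prod_congr rfl
      intro i _
      congr 2
      ring
    rw [hprod]
    have hcast : (((r + 1 : ℕ) : ℤ)) = (r : ℤ) + 1 := by push_cast; ring
    rw [hcast] at hih
    have hpos : 0 ≤ ∏ i ∈ range k, gg p (padicValNat p (r + 1 + 1 + i)) :=
      prod_nonneg fun _ _ => gg_nonneg _ _
    have hdvd : (p : ℤ) ^ e ∣ (r : ℤ) + 1 := by
      rw [← hcast, he]
      exact_mod_cast pow_padicValNat_dvd
    have hdvd' : ¬ (p : ℤ) ^ (e + 1) ∣ (r : ℤ) + 1 := by
      rw [← hcast, he]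
      intro h
      have h1 : p ^ (padicValNat p (r + 1) + 1) ∣ r + 1 := by exact_mod_cast h
      exact pow_succ_padicValNat_not_dvd (by omega) h1
    have e2 : VV p k (r + 1) + m' + e + 1 - L = (VV p k (r + 1) + m' - L) + (e + 1) := by omega
    rw [e2, pow_add]
    by_cases h0 : e = 0
    · rw [h0] at hdvd' ⊢
      have h1 := U_step hp hGd (K := K') (m := VV p k (r + 1) + m') (L := L) (r := r) hL1
        (by omega) (by simpa using hdvd')
      rw [add_zero]
      calc _ ≤ _ := h1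
        _ ≤ ((p : ℝ) / 2 + 1 / p) * ((p : ℝ) ^ (VV p k (r + 1) + m' - L) *
            (∏ i ∈ range k, gg p (padicValNat p (r + 1 + 1 + i))) * (p : ℝ) ^ (m' + 1)) :=
          mul_le_mul_of_nonneg_left hih (by positivity)
        _ = _ := by
          rw [gg, if_pos rfl]
          field_simp
          ring
    · have h1 := U_step_trivial hp (K := K') (m := VV p k (r + 1) + m') (L := L) (r := r)
        hdvd hdvd' hv0 (by omega)
      calc _ ≤ _ := h1
        _ ≤ (p : ℝ) ^ (2 * (e + 1)) * ((p : ℝ) ^ (VV p k (r + 1) + m' - L) *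
            (∏ i ∈ range k, gg p (padicValNat p (r + 1 + 1 + i))) * (p : ℝ) ^ (m' + 1)) :=
          mul_le_mul_of_nonneg_left hih (by positivity)
        _ = _ := by
          rw [gg, if_neg h0]
          ring

theorem pv_sum_le {p : ℕ} (hp : p.Prime) (r k : ℕ) :
    (p - 1) * ∑ i ∈ range k, padicValNat p (r + 1 + i) ≤ k + (p - 1) * Nat.log p (r + k) := by
  have hfact : Fact p.Prime := ⟨hp⟩
  have h1 : ∑ i ∈ range k, padicValNat p (r + 1 + i) = padicValNat p ((r + 1).ascFactorial k) := by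
    induction k with
    | zero => simp
    | succ k ih =>
      rw [sum_range_succ, ih, Nat.ascFactorial_succ, padicValNat.mul (by omega)
        (Nat.ascFactorial_pos _ _).ne', add_comm]
  rw [h1, Nat.ascFactorial_eq_factorial_mul_choose, padicValNat.mul (Nat.factorial_ne_zero _)
    (Nat.choose_pos (by omega)).ne', mul_add]
  apply add_le_add
  · rw [sub_one_mul_padicValNat_factorial]
    omega
  · apply Nat.mul_le_mul_left
    rw [← Nat.factorization_def _ hp]
    exact Nat.factorization_choose_le_log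

theorem gg_le {p : ℕ} (hp : 2 ≤ p) (e : ℕ) :
    gg p e ≤ (1 / 2 + 1 / (p : ℝ) ^ 2) * ((p : ℝ) ^ 3) ^ e := by
  have hp' : (2 : ℝ) ≤ p := by exact_mod_cast hp
  have hp0 : (0 : ℝ) < p := by linarith
  unfold gg
  split_ifs with h
  · rw [h]; simp
  · have h1 : (p : ℝ) ^ (e + 1) ≤ 1 / 2 * ((p : ℝ) ^ 3) ^ e := by
      have h2 : ((p : ℝ) ^ 3) ^ e = (p : ℝ) ^ (e + 1) * (p : ℝ) ^ (2 * e - 1) := by
        rw [← pow_mul, ← pow_add]; congr 1; omega
      have h3 : (2 : ℝ) ≤ (p : ℝ) ^ (2 * e - 1) := by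
        calc (2 : ℝ) ≤ p := hp'
          _ = (p : ℝ) ^ 1 := (pow_one _).symm
          _ ≤ _ := pow_le_pow_right₀ (by linarith) (by omega)
      rw [h2]
      have h4 : (0 : ℝ) < (p : ℝ) ^ (e + 1) := by positivity
      nlinarith
    have h5 : (0 : ℝ) ≤ 1 / (p : ℝ) ^ 2 * ((p : ℝ) ^ 3) ^ e := by positivity
    linarith

theorem exp_half_le : Real.exp (1 / 2) ≤ 5 / 3 := by
  have h1 := Real.exp_one_lt_d9
  have h2 : Real.exp (1 / 2) ^ 2 = Real.exp 1 := by
    rw [← Real.exp_nat_mul]; norm_num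
  have h3 := Real.exp_pos (1 / 2)
  nlinarith

theorem U_bound {p : ℕ} (hp : p.Prime) (hGd : Gd p) (hp4 : 4 ≤ p)
    (hlog : 30 * Real.log p ≤ p - 1) {K m L r : ℕ} (hL1 : 1 ≤ L) (hLm : L ≤ m) (hK : m ≤ K)
    (hr : r + m < p ^ (L + 1)) (hval : ∀ i ≤ m, ¬ p ^ L ∣ r + 1 + i) :
    U p K m L r ≤ (p : ℝ) ^ (m - L) * Real.exp (-(m : ℝ) / 5 + 6 * L * Real.log p) := by
  have hfact : Fact p.Prime := ⟨hp⟩
  have hp4' : (4 : ℝ) ≤ p := by exact_mod_cast hp4
  have hp0' : (0 : ℝ) < p := by linarith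
  obtain ⟨k, hkdef⟩ : ∃ k, k = Nat.findGreatest (fun k => VV p k r + L ≤ m) m := ⟨_, rfl⟩
  have hk : VV p k r + L ≤ m := by
    rw [hkdef]
    exact Nat.findGreatest_spec (P := fun k => VV p k r + L ≤ m) (m := 0) (Nat.zero_le _)
      (by simpa [VV] using hLm)
  have hkm : k ≤ m := by rw [hkdef]; exact Nat.findGreatest_le _
  have hk' : m < VV p (k + 1) r + L := by
    by_contra hcon
    rw [not_lt] at hcon
    have h1 : k + 1 ≤ m := by
      have := le_VV p (k + 1) r
      omega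
    have h2 : k + 1 ≤ Nat.findGreatest (fun k => VV p k r + L ≤ m) m :=
      Nat.le_findGreatest h1 hcon
    omega
  have hvlt : ∀ i ≤ m, padicValNat p (r + 1 + i) < L := by
    intro i hi
    by_contra hcon
    rw [not_lt] at hcon
    exact hval i hi ((padicValNat_dvd_iff_le (by omega)).2 hcon)
  obtain ⟨m', hm'⟩ : ∃ m', m = VV p k r + m' := ⟨m - VV p k r, by omega⟩
  have hVk1 : VV p (k + 1) r = VV p k r + (1 + padicValNat p (r + 1 + k)) := by
    unfold VV; rw [sum_range_succ]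
  have hm'2 : m' + 1 ≤ 2 * L := by
    have := hvlt k hkm
    omega
  have hsteps := U_steps hp hGd hL1 k K m' r (by omega) (by omega)
    (fun i hi => hvlt i (by omega))
  rw [← hm'] at hsteps
  obtain ⟨ω, hω⟩ : ∃ ω, ω = ∑ i ∈ range k, padicValNat p (r + 1 + i) := ⟨_, rfl⟩
  have hVω : VV p k r = k + ω := by
    unfold VV
    rw [sum_add_distrib, hω]
    simp
  have hωle : (p - 1) * ω ≤ k + (p - 1) * L := by
    rw [hω]
    refine (pv_sum_le hp r k).trans (Nat.add_le_add_left (Nat.mul_le_mul_left _ ?_) _)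
    apply Nat.lt_succ_iff.1
    apply Nat.log_lt_of_lt_pow' (by omega)
    have : r + k < p ^ (L + 1) := by omega
    exact this
  have hωle' : ((p : ℝ) - 1) * ω ≤ k + ((p : ℝ) - 1) * L := by
    have h1 : (((p - 1) * ω : ℕ) : ℝ) ≤ ((k + (p - 1) * L : ℕ) : ℝ) := by exact_mod_cast hωle
    push_cast [Nat.cast_sub hp.one_lt.le] at h1
    exact h1
  -- product bound
  have hprod : ∏ i ∈ range k, gg p (padicValNat p (r + 1 + i)) ≤
      (1 / 2 + 1 / (p : ℝ) ^ 2) ^ k * ((p : ℝ) ^ 3) ^ ω := by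
    calc _ ≤ ∏ i ∈ range k, ((1 / 2 + 1 / (p : ℝ) ^ 2) *
          ((p : ℝ) ^ 3) ^ (padicValNat p (r + 1 + i))) :=
          prod_le_prod (fun _ _ => gg_nonneg _ _) (fun _ _ => gg_le (by omega) _)
      _ = _ := by
        rw [prod_mul_distrib, prod_const, card_range, prod_pow_eq_pow_sum, hω]
  have hcc : (1 / 2 + 1 / (p : ℝ) ^ 2) ^ k ≤ Real.exp (-(k : ℝ) / 2) := by
    have h1 : 1 / 2 + 1 / (p : ℝ) ^ 2 ≤ Real.exp (-(1 / 2)) := by
      have h2 : 1 / (p : ℝ) ^ 2 ≤ 1 / 16 := by
        apply one_div_le_one_div_of_le (by norm_num)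
        nlinarith
      have h3 : (3 / 5 : ℝ) ≤ Real.exp (-(1 / 2)) := by
        rw [Real.exp_neg]
        have := exp_half_le
        calc (3 / 5 : ℝ) = (5 / 3)⁻¹ := by norm_num
          _ ≤ _ := inv_anti₀ (Real.exp_pos _) this
      linarith
    calc _ ≤ (Real.exp (-(1 / 2))) ^ k := pow_le_pow_left₀ (by positivity) h1 k
      _ = _ := by rw [← Real.exp_nat_mul]; congr 1; ring
  have hlog0 : 3 / 5 ≤ Real.log p := by
    have h1 : Real.log 2 ≤ Real.log p := Real.log_le_log (by norm_num) (by linarith)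
    have := Real.log_two_gt_d9
    linarith
  have hpw : ((p : ℝ) ^ 3) ^ ω * (p : ℝ) ^ (m' + 1) ≤
      Real.exp ((3 * ω + 2 * L) * Real.log p) := by
    calc ((p : ℝ) ^ 3) ^ ω * (p : ℝ) ^ (m' + 1) ≤ ((p : ℝ) ^ 3) ^ ω * (p : ℝ) ^ (2 * L) := by
          apply mul_le_mul_of_nonneg_left _ (by positivity)
          exact pow_le_pow_right₀ (by linarith) hm'2
      _ = (p : ℝ) ^ (3 * ω + 2 * L) := by rw [← pow_mul, ← pow_add]
      _ = _ := by
        rw [← Real.exp_log (show (0 : ℝ) < (p : ℝ) ^ (3 * ω + 2 * L) by positivity), Real.log_pow]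
        push_cast
        rfl
  have hexpo : -(k : ℝ) / 2 + (3 * ω + 2 * L) * Real.log p ≤
      -(m : ℝ) / 5 + 6 * L * Real.log p := by
    have hLr : (1 : ℝ) ≤ L := by exact_mod_cast hL1
    have hkr : (0 : ℝ) ≤ k := by positivity
    have hωr : (0 : ℝ) ≤ ω := by positivity
    have h1 : (m : ℝ) + 1 ≤ k + ω + 2 * L := by
      have : m + 1 ≤ k + ω + 2 * L := by omega
      exact_mod_cast this
    have h2 : (ω : ℝ) * Real.log p ≤ k / 30 + L * Real.log p := by
      have h3 : ((ω : ℝ) - L) * ((p : ℝ) - 1) ≤ k := by linarith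
      rcases le_or_gt (ω : ℝ) L with h4 | h4
      · have : (ω : ℝ) * Real.log p ≤ L * Real.log p :=
          mul_le_mul_of_nonneg_right h4 (by linarith)
        linarith
      · have h5 : ((ω : ℝ) - L) * (30 * Real.log p) ≤ ((ω : ℝ) - L) * ((p : ℝ) - 1) :=
          mul_le_mul_of_nonneg_left hlog (by linarith)
        nlinarith
    have h3 : (ω : ℝ) ≤ k + L := by
      rcases le_or_gt (ω : ℝ) L with h4 | h4
      · linarith
      · have h5 : ((ω : ℝ) - L) * 1 ≤ ((ω : ℝ) - L) * ((p : ℝ) - 1) :=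
          mul_le_mul_of_nonneg_left (by linarith) (by linarith)
        linarith
    nlinarith
  calc U p K m L r ≤ _ := hsteps
    _ ≤ (p : ℝ) ^ (m - L) * ((1 / 2 + 1 / (p : ℝ) ^ 2) ^ k * ((p : ℝ) ^ 3) ^ ω) *
        (p : ℝ) ^ (m' + 1) := by
      apply mul_le_mul_of_nonneg_right _ (by positivity)
      exact mul_le_mul_of_nonneg_left hprod (by positivity)
    _ = (p : ℝ) ^ (m - L) * ((1 / 2 + 1 / (p : ℝ) ^ 2) ^ k *
        (((p : ℝ) ^ 3) ^ ω * (p : ℝ) ^ (m' + 1))) := by ring
    _ ≤ (p : ℝ) ^ (m - L) * (Real.exp (-(k : ℝ) / 2) *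
        Real.exp ((3 * ω + 2 * L) * Real.log p)) := by
      apply mul_le_mul_of_nonneg_left _ (by positivity)
      exact mul_le_mul hcc hpw (by positivity) (Real.exp_pos _).le
    _ = (p : ℝ) ^ (m - L) * Real.exp (-(k : ℝ) / 2 + (3 * ω + 2 * L) * Real.log p) := by
      rw [Real.exp_add]
    _ ≤ _ := by
      apply mul_le_mul_of_nonneg_left _ (by positivity)
      exact Real.exp_le_exp.2 hexpo

end Pool.Agent.FacLarge
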