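import Pool.Agent.FacLarge.Block

/-!
From the exponential sum to a subset sum divisible by `q`.
-/

set_option autoImplicit false

namespace Pool.Agent.FacLarge

open Finset

theorem phi_coe (x : ℝ) : phi (x : UnitAddCircle) = |Real.cos (Real.pi * x)| := by
  have h0 := phi_nonneg (x : UnitAddCircle)
  rw [← abs_of_nonneg h0]
  unfold phi
  rw [UnitAddCircle.norm_eq, ← Real.cos_abs (Real.pi * |x - (round x : ℝ)|), abs_mul, abs_abs,
    ← abs_mul, Real.cos_abs]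
  have h1 : Real.pi * (x - (round x : ℝ)) = Real.pi * x - (round x : ℤ) * Real.pi := by ring
  rw [h1, Real.cos_sub_int_mul_pi, abs_mul]
  have h2 : |((-1 : ℝ)) ^ (round x)| = 1 := by
    rw [abs_zpow]; simp
  rw [h2, one_mul]

theorem norm_one_add_exp (x : ℝ) :
    ‖1 + Complex.exp (2 * Real.pi * Complex.I * x)‖ = 2 * phi (x : UnitAddCircle) := by
  rw [phi_coe]
  have h1 : 1 + Complex.exp (2 * Real.pi * Complex.I * x) =
      Complex.exp ((Real.pi * x : ℝ) * Complex.I) * (2 * Complex.cos ((Real.pi * x : ℝ))) := by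
    rw [Complex.cos]
    have e1 : 2 * ((Complex.exp (((Real.pi * x : ℝ) : ℂ) * Complex.I) +
        Complex.exp (-((Real.pi * x : ℝ) : ℂ) * Complex.I)) / 2) =
        Complex.exp (((Real.pi * x : ℝ) : ℂ) * Complex.I) +
        Complex.exp (-((Real.pi * x : ℝ) : ℂ) * Complex.I) := by ring
    rw [e1, mul_add, ← Complex.exp_add, ← Complex.exp_add]
    have e2 : ((Real.pi * x : ℝ) : ℂ) * Complex.I + -((Real.pi * x : ℝ) : ℂ) * Complex.I = 0 := by
      ring
    have e3 : ((Real.pi * x : ℝ) : ℂ) * Complex.I + ((Real.pi * x : ℝ) : ℂ) * Complex.I =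
        2 * Real.pi * Complex.I * x := by push_cast; ring
    rw [e2, e3, Complex.exp_zero]
    ring
  rw [h1, norm_mul, Complex.norm_exp_ofReal_mul_I, one_mul, norm_mul, ← Complex.ofReal_cos,
    Complex.norm_real, Real.norm_eq_abs]
  simp

theorem sum_zmod {q : ℕ} [NeZero q] (f : ZMod q → ℝ) :
    ∑ x : ZMod q, f x = ∑ t ∈ range q, f ((t : ℕ) : ZMod q) := by
  refine (sum_nbij' (s := range q) (t := (univ : Finset (ZMod q))) (fun t : ℕ => ((t : ℕ) : ZMod q))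
    (fun x => x.val) ?_ ?_ ?_ ?_ ?_).symm
  · intro t _; exact mem_univ _
  · intro x _; exact mem_range.2 (ZMod.val_lt x)
  · intro t ht; exact ZMod.val_cast_of_lt (mem_range.1 ht)
  · intro x _; exact ZMod.natCast_zmod_val x
  · intro t _; rfl

theorem addChar_sum {q : ℕ} (ψ : AddChar (ZMod q) ℂ) (I : Finset ℕ) (f : ℕ → ZMod q) :
    ψ (∑ i ∈ I, f i) = ∏ i ∈ I, ψ (f i) := by
  classical
  induction I using Finset.induction_on with
  | empty => simp
  | insert a s ha ih =>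
    rw [sum_insert ha, prod_insert ha, AddChar.map_add_eq_mul, ih]

theorem exists_subset_sum {q : ℕ} (hq : 0 < q) (y0 : ℤ) (y : ℕ → ℤ) (W : ℕ)
    (h : ∑ t ∈ range q, (if t = 0 then 0 else
      ∏ i ∈ range W, phi ((((((t : ℤ) * y i : ℤ) : ℝ) / (q : ℝ) : ℝ)) : UnitAddCircle)) < 1) :
    ∃ I ⊆ range W, (q : ℤ) ∣ y0 + ∑ i ∈ I, y i := by
  classical
  have : NeZero q := ⟨hq.ne'⟩
  by_contra hcon
  push Not at hcon
  obtain ⟨ψ, hψ⟩ : ∃ ψ : AddChar (ZMod q) ℂ, ψ = ZMod.stdAddChar := ⟨_, rfl⟩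
  have hprim : ψ.IsPrimitive := by rw [hψ]; exact ZMod.isPrimitive_stdAddChar q
  have hzero : ∑ t : ZMod q, ψ (t * (y0 : ZMod q)) * ∏ i ∈ range W, (1 + ψ (t * (y i : ZMod q))) =
      0 := by
    have h1 : ∀ t : ZMod q, ψ (t * (y0 : ZMod q)) * ∏ i ∈ range W, (1 + ψ (t * (y i : ZMod q))) =
        ∑ I ∈ (range W).powerset, ψ (t * ((y0 + ∑ i ∈ I, y i : ℤ) : ZMod q)) := by
      intro t
      rw [prod_one_add, mul_sum]
      apply sum_congr rfl
      intro I _
      push_cast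
      rw [mul_add, AddChar.map_add_eq_mul, mul_sum, addChar_sum]
    rw [sum_congr rfl (fun t _ => h1 t), sum_comm]
    apply sum_eq_zero
    intro I hI
    rw [AddChar.sum_mulShift _ hprim, if_neg, Nat.cast_zero]
    intro h2
    exact hcon I (mem_powerset.1 hI) ((ZMod.intCast_zmod_eq_zero_iff_dvd _ q).1 h2)
  rw [← add_sum_erase _ _ (mem_univ (0 : ZMod q))] at hzero
  have h0 : ψ (0 * (y0 : ZMod q)) * ∏ i ∈ range W, (1 + ψ (0 * (y i : ZMod q))) = 2 ^ W := by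
    simp only [zero_mul, AddChar.map_zero_eq_one, one_mul, prod_const, card_range]
    norm_num
  rw [h0] at hzero
  have h1 : (2 : ℝ) ^ W ≤ ∑ t ∈ univ.erase (0 : ZMod q),
      ‖ψ (t * (y0 : ZMod q)) * ∏ i ∈ range W, (1 + ψ (t * (y i : ZMod q)))‖ := by
    have h2 : (2 : ℂ) ^ W = -∑ t ∈ univ.erase (0 : ZMod q),
      ψ (t * (y0 : ZMod q)) * ∏ i ∈ range W, (1 + ψ (t * (y i : ZMod q))) :=
      eq_neg_of_add_eq_zero_left hzero
    calc (2 : ℝ) ^ W = ‖(2 : ℂ) ^ W‖ := by simp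
      _ = ‖∑ t ∈ univ.erase (0 : ZMod q),
          ψ (t * (y0 : ZMod q)) * ∏ i ∈ range W, (1 + ψ (t * (y i : ZMod q)))‖ := by
        rw [h2, norm_neg]
      _ ≤ _ := norm_sum_le _ _
  have h3 : ∀ t : ℕ, ‖ψ (((t : ℕ) : ZMod q) * (y0 : ZMod q)) *
      ∏ i ∈ range W, (1 + ψ (((t : ℕ) : ZMod q) * (y i : ZMod q)))‖ = 2 ^ W *
      ∏ i ∈ range W, phi ((((((t : ℤ) * y i : ℤ) : ℝ) / (q : ℝ) : ℝ)) : UnitAddCircle) := by
    intro t
    rw [norm_mul, norm_prod]
    have e1 : ‖ψ (((t : ℕ) : ZMod q) * (y0 : ZMod q))‖ = 1 := by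
      rw [hψ]
      exact AddChar.norm_apply _ _
    have e0 : (2 : ℝ) ^ W = ∏ i ∈ range W, (2 : ℝ) := by rw [prod_const, card_range]
    rw [e1, one_mul, e0, ← prod_mul_distrib]
    apply prod_congr rfl
    intro i _
    rw [← norm_one_add_exp]
    have e2 : ((t : ℕ) : ZMod q) * (y i : ZMod q) = (((t : ℤ) * y i : ℤ) : ZMod q) := by
      push_cast; rfl
    rw [e2, hψ, ZMod.stdAddChar_coe]
    congr 2
    push_cast
    ring_nf
  have h4 : ∑ t ∈ univ.erase (0 : ZMod q),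
      ‖ψ (t * (y0 : ZMod q)) * ∏ i ∈ range W, (1 + ψ (t * (y i : ZMod q)))‖ =
      2 ^ W * ∑ t ∈ range q, (if t = 0 then 0 else
      ∏ i ∈ range W, phi ((((((t : ℤ) * y i : ℤ) : ℝ) / (q : ℝ) : ℝ)) : UnitAddCircle)) := by
    have e1 : ∑ t ∈ univ.erase (0 : ZMod q),
      ‖ψ (t * (y0 : ZMod q)) * ∏ i ∈ range W, (1 + ψ (t * (y i : ZMod q)))‖ =
      ∑ t : ZMod q, (if t = 0 then 0 else
      ‖ψ (t * (y0 : ZMod q)) * ∏ i ∈ range W, (1 + ψ (t * (y i : ZMod q)))‖) := by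
      rw [← add_sum_erase univ _ (mem_univ (0 : ZMod q)), if_pos rfl, zero_add]
      apply sum_congr rfl
      intro t ht
      rw [if_neg (ne_of_mem_erase ht)]
    rw [e1, sum_zmod, mul_sum]
    apply sum_congr rfl
    intro t ht
    rw [mem_range] at ht
    have e2 : (((t : ℕ) : ZMod q) = 0) ↔ t = 0 := by
      rw [ZMod.natCast_eq_zero_iff]
      constructor
      · intro h5
        by_contra h6
        have := Nat.le_of_dvd (by omega) h5
        omega
      · rintro rfl; exact dvd_zero _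
    by_cases ht0 : t = 0
    · rw [if_pos (e2.2 ht0), if_pos ht0, mul_zero]
    · rw [if_neg (fun h5 => ht0 (e2.1 h5)), if_neg ht0]
      exact h3 t
  rw [h4] at h1
  have h5 : (0 : ℝ) < 2 ^ W := by positivity
  have h6 := mul_lt_mul_of_pos_left h h5
  linarith

end Pool.Agent.FacLarge
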