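import Pool.Agent.FacLarge.Sub

/-!
The chain inequality for the normalised number of solutions.
-/

set_option autoImplicit false

namespace Pool.Agent.FacLarge

open Finset

theorem VV_add (p k1 k2 r : ℕ) : VV p (k1 + k2) r = VV p k1 r + VV p k2 (r + k1) := by
  unfold VV
  rw [sum_range_add]
  congr 1
  apply sum_congr rfl
  intro i _
  congr 2
  ring

theorem VV_one (p r : ℕ) : VV p 1 r = 1 + padicValNat p (r + 1) := by
  simp [VV]

theorem exists_unit_part {p : ℕ} (hp : p.Prime) (n : ℕ) :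
    ∃ u : ℤ, ¬ (p : ℤ) ∣ u ∧ (n : ℤ) + 1 = u * p ^ (padicValNat p (n + 1)) := by
  have hfact : Fact p.Prime := ⟨hp⟩
  obtain ⟨u, hu⟩ : p ^ (padicValNat p (n + 1)) ∣ n + 1 := pow_padicValNat_dvd
  refine ⟨(u : ℤ), ?_, ?_⟩
  · intro h
    have h1 : p ∣ u := by exact_mod_cast h
    obtain ⟨u', hu'⟩ := h1
    apply pow_succ_padicValNat_not_dvd (p := p) (n := n + 1) (by omega)
    rw [hu', ← mul_assoc, ← pow_succ] at hu
    exact ⟨u', hu⟩
  · have h1 : ((n + 1 : ℕ) : ℤ) = ((p ^ (padicValNat p (n + 1)) * u : ℕ) : ℤ) := by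
      exact_mod_cast hu
    push_cast at h1
    rw [h1]
    ring

theorem rp_val {p : ℕ} (hp : p.Prime) {a : ℤ} {s n : ℕ} (hs : s < p)
    (ha : a + s + 1 = p * ((n : ℤ) + 1)) (j : ℕ) :
    ∃ g : ℤ, ¬ (p : ℤ) ∣ g ∧ rp a (s + 1 + p * j) = g * p ^ (VV p (j + 1) n) := by
  have hpi := Nat.prime_iff_prime_int.1 hp
  induction j with
  | zero =>
    obtain ⟨u, hu1, hu2⟩ := exists_unit_part hp n
    refine ⟨rp a s * u, ?_, ?_⟩
    · intro h
      rcases hpi.dvd_or_dvd h with h1 | h1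
      · exact not_dvd_rp_partial hp hs ha le_rfl h1
      · exact hu1 h1
    · rw [mul_zero, add_zero, rp_succ, ha, hu2, zero_add, VV_one, pow_add, pow_one]
      ring
  | succ j ih =>
    obtain ⟨g, hg1, hg2⟩ := ih
    obtain ⟨u, hu1, hu2⟩ := exists_unit_part hp (n + 1 + j)
    have e1 : a + ((s + 1 + p * j : ℕ) : ℤ) = p * ((n + 1 + j : ℕ) : ℤ) := by
      push_cast
      linarith
    refine ⟨g * (rp (p * ((n + 1 + j : ℕ) : ℤ)) (p - 1) * u), ?_, ?_⟩
    · intro h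
      rcases hpi.dvd_or_dvd h with h1 | h1
      · exact hg1 h1
      · rcases hpi.dvd_or_dvd h1 with h2 | h2
        · exact not_dvd_rp hp _ (by have := hp.pos; omega) h2
        · exact hu1 h2
    · rw [show s + 1 + p * (j + 1) = s + 1 + p * j + p by ring, rp_add, hg2, e1, rp_self hp.pos,
        hu2, VV_add p (j + 1) 1 n, VV_one]
      rw [show n + (j + 1) + 1 = n + 1 + j + 1 by ring, pow_add, pow_add, pow_one]
      ring

theorem exists_inv_mod {p : ℕ} (hp : p.Prime) {g : ℤ} (hg : ¬ (p : ℤ) ∣ g) (S : ℕ) (z : ℤ) :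
    ∃ σ : ℤ, (p : ℤ) ^ S ∣ g * σ - z := by
  have hcop : IsCoprime ((p : ℤ) ^ S) g := by
    apply IsCoprime.pow_left
    exact (Nat.prime_iff_prime_int.1 hp).coprime_iff_not_dvd.2 hg
  obtain ⟨u, v, huv⟩ := hcop
  refine ⟨v * z, ⟨-(u * z), ?_⟩⟩
  have : g * (v * z) - z = (v * g - 1) * z := by ring
  rw [this]
  have h2 : v * g - 1 = -(u * p ^ S) := by linarith
  rw [h2]
  ring

/-- the frequencies that die in the last of the blocks `b, ..., b + m` -/
noncomputable def Dd (p m b : ℕ) : ℝ := ∑ μ ∈ Ico (VV p m b) (VV p (m + 1) b), U0 p (m + 1) μ b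

theorem Dd_nonneg (p m b : ℕ) : 0 ≤ Dd p m b := sum_nonneg fun _ _ => U0_nonneg _ _ _ _

/-- the normalised number of solutions before block `j` -/
noncomputable def wj (p : ℕ) (a : ℤ) (s n j : ℕ) : ℝ :=
  (p : ℝ) ^ (VV p (j + 1) n) * SS (s + p * j) (fun i => rp a (i + 1)) 1
    (ind p (VV p (j + 1) n)) / 2 ^ (s + p * j)

theorem ind_shift {p : ℕ} (hp : p.Prime) {g : ℤ} (hg : ¬ (p : ℤ) ∣ g) {V S S1 : ℕ} (hS : S ≤ S1)
    {z z' σ : ℤ} (hz : z = p ^ V * z') (hσ : (p : ℤ) ^ S1 ∣ g * σ - z') (u : ℤ) :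
    ind p (V + S) (z + g * p ^ V * u) = ind p S (σ + u) := by
  have hp0 : (p : ℤ) ^ V ≠ 0 := by
    have : (p : ℤ) ≠ 0 := by exact_mod_cast hp.ne_zero
    exact pow_ne_zero _ this
  have e1 : z + g * p ^ V * u = p ^ V * (z' + g * u) := by rw [hz]; ring
  have h1 : (p : ℤ) ^ (V + S) ∣ z + g * p ^ V * u ↔ (p : ℤ) ^ S ∣ z' + g * u := by
    rw [e1, pow_add]
    exact mul_dvd_mul_iff_left hp0
  have h2 : (p : ℤ) ^ S ∣ z' + g * u ↔ (p : ℤ) ^ S ∣ g * (σ + u) := by
    apply dvd_congr_left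
    have h3 := (dvd_neg (α := ℤ)).2 ((pow_dvd_pow (p : ℤ) hS).trans hσ)
    have e2 : -(g * σ - z') = z' + g * u - g * (σ + u) := by ring
    rwa [e2] at h3
  have h4 : (p : ℤ) ^ S ∣ g * (σ + u) ↔ (p : ℤ) ^ S ∣ σ + u := by
    have hcop : IsCoprime ((p : ℤ) ^ S) g := by
      apply IsCoprime.pow_left
      exact (Nat.prime_iff_prime_int.1 hp).coprime_iff_not_dvd.2 hg
    exact ⟨fun h => hcop.dvd_of_dvd_mul_left h, fun h => h.mul_left _⟩
  have h5 := h1.trans (h2.trans h4)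
  by_cases h6 : (p : ℤ) ^ S ∣ σ + u
  · rw [ind_of_dvd h6, ind_of_dvd (h5.2 h6)]
  · rw [ind_of_not h6, ind_of_not (fun h => h6 (h5.1 h))]

theorem SS_block {p : ℕ} (hp : p.Prime) {a : ℤ} {s n : ℕ} (hs : s < p)
    (ha : a + s + 1 = p * ((n : ℤ) + 1)) (j k : ℕ) :
    SS (s + p * j + k) (fun i => rp a (i + 1)) 1 (ind p (VV p (j + 1) n)) =
      2 ^ k * SS (s + p * j) (fun i => rp a (i + 1)) 1 (ind p (VV p (j + 1) n)) := by
  rw [SS_append]
  have h1 : ∀ z : ℤ, SS k (fun i => rp a (s + p * j + i + 1)) z (ind p (VV p (j + 1) n)) =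
      2 ^ k * ind p (VV p (j + 1) n) z := by
    intro z
    apply SS_stable
    intro i
    obtain ⟨g, _, hg⟩ := rp_val hp hs ha j
    rw [show s + p * j + i + 1 = s + 1 + p * j + i by ring, rp_add, hg]
    exact (dvd_mul_left _ _).mul_right _
  simp only [h1]
  exact SS_mul_left _ _ _ _ _

theorem chain {p : ℕ} (hp : p.Prime) {a : ℤ} {s n : ℕ} (hs : s < p)
    (ha : a + s + 1 = p * ((n : ℤ) + 1)) (j0 m : ℕ) :
    wj p a s n (j0 + m) - wj p a s n j0 * Dd p m (n + 1 + j0) ≤ wj p a s n (j0 + m + 1) := by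
  have hp0 := hp.pos
  obtain ⟨y, hy⟩ : ∃ y : ℕ → ℤ, y = fun i => rp a (i + 1) := ⟨_, rfl⟩
  obtain ⟨V, hV⟩ : ∃ V, V = VV p (j0 + 1) n := ⟨_, rfl⟩
  obtain ⟨b, hb⟩ : ∃ b, b = n + 1 + j0 := ⟨_, rfl⟩
  obtain ⟨S0, hS0⟩ : ∃ S0, S0 = VV p m b := ⟨_, rfl⟩
  obtain ⟨S1, hS1⟩ : ∃ S1, S1 = VV p (m + 1) b := ⟨_, rfl⟩
  have hS01 : S0 ≤ S1 := by
    rw [hS0, hS1, VV_add p m 1 b]; omega
  have hV0 : VV p (j0 + m + 1) n = V + S0 := by
    rw [hV, hS0, hb, show j0 + m + 1 = (j0 + 1) + m by ring, VV_add]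
    congr 2
    ring
  have hV1 : VV p (j0 + m + 1 + 1) n = V + S1 := by
    rw [hV, hS1, hb, show j0 + m + 1 + 1 = (j0 + 1) + (m + 1) by ring, VV_add]
    congr 2
    ring
  obtain ⟨g, hg, hgR⟩ := rp_val hp hs ha j0
  rw [← hV] at hgR
  have hpb : a + ((s + 1 + p * j0 : ℕ) : ℤ) = p * (b : ℤ) := by
    rw [hb]; push_cast; linarith
  have hyi : ∀ i, y (s + p * j0 + i) = g * p ^ V * rp (p * (b : ℤ)) i := by
    intro i
    rw [hy]
    simp only
    rw [show s + p * j0 + i + 1 = s + 1 + p * j0 + i by ring, rp_add, hgR, hpb]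
  obtain ⟨D, hD⟩ : ∃ D, D = Dd p m b := ⟨_, rfl⟩
  -- pointwise inequality
  have hpt : ∀ z : ℤ, (p : ℝ) ^ (V + S0) *
      SS (p * (m + 1)) (fun i => y (s + p * j0 + i)) z (ind p (V + S0)) +
      (-(2 ^ (p * (m + 1)) * D * (p : ℝ) ^ V)) * ind p V z ≤
      (p : ℝ) ^ (V + S1) *
      SS (p * (m + 1)) (fun i => y (s + p * j0 + i)) z (ind p (V + S1)) := by
    intro z
    simp only [hyi]
    by_cases hz : (p : ℤ) ^ V ∣ z
    · obtain ⟨z', hz'⟩ := hz
      obtain ⟨σ, hσ⟩ := exists_inv_mod hp hg S1 z'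
      have h0 : SS (p * (m + 1)) (fun i => g * p ^ V * rp (p * (b : ℤ)) i) z (ind p (V + S0)) =
          SS (p * (m + 1)) (fun i => rp (p * (b : ℤ)) i) σ (ind p S0) :=
        SS_shift _ _ z σ _ _ (ind_shift hp hg hS01 hz' hσ)
      have h1 : SS (p * (m + 1)) (fun i => g * p ^ V * rp (p * (b : ℤ)) i) z (ind p (V + S1)) =
          SS (p * (m + 1)) (fun i => rp (p * (b : ℤ)) i) σ (ind p S1) :=
        SS_shift _ _ z σ _ _ (ind_shift hp hg le_rfl hz' hσ)
      rw [h0, h1, ind_of_dvd ⟨z', hz'⟩]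
      have h2 := SS_steps hp0 hS01 (p * (m + 1)) (fun i => rp (p * (b : ℤ)) i) σ
      have h3 : ∑ μ ∈ Ico S0 S1, ∑ t ∈ range (p ^ (μ + 1)), (if (p : ℤ) ∣ (t : ℤ) then 0 else
          ∏ i ∈ range (p * (m + 1)), phi (rp (p * (b : ℤ)) i • ((t : ℤ) • eps p (μ + 1)))) = D := by
        rw [hD, hS0, hS1]
        rfl
      rw [h3] at h2
      have h4 := (abs_le.1 h2).1
      have h5 : (0 : ℝ) < (p : ℝ) ^ V := by positivity
      have h6 := mul_le_mul_of_nonneg_left h4 h5.le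
      rw [pow_add, pow_add]
      linarith
    · rw [ind_of_not hz]
      have h0 : ∀ S, SS (p * (m + 1)) (fun i => g * p ^ V * rp (p * (b : ℤ)) i) z
          (ind p (V + S)) = 0 := by
        intro S
        rw [SS_shift (p * (m + 1)) (fun i => rp (p * (b : ℤ)) i) z 0 (ind p (V + S))
          (fun _ => 0), SS_const, mul_zero]
        intro u
        apply ind_of_not
        intro h
        apply hz
        have h7 : (p : ℤ) ^ V ∣ z + g * p ^ V * u := (pow_dvd_pow _ (by omega)).trans h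
        have h8 : (p : ℤ) ^ V ∣ g * p ^ V * u := (dvd_mul_left _ _).mul_right _
        have := dvd_sub h7 h8
        rwa [add_sub_cancel_right] at this
      rw [h0, h0]
      simp
  have hsum := SS_mono (s + p * j0) y 1 _ _ hpt
  rw [SS_lin (s + p * j0) y 1
    (fun z => SS (p * (m + 1)) (fun i => y (s + p * j0 + i)) z (ind p (V + S0))) (ind p V)
    ((p : ℝ) ^ (V + S0)) (-(2 ^ (p * (m + 1)) * D * (p : ℝ) ^ V)),
    SS_mul_left, ← SS_append, ← SS_append] at hsum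
  have hst : SS (s + p * j0 + p * (m + 1)) y 1 (ind p (V + S0)) =
      2 ^ p * SS (s + p * (j0 + m)) y 1 (ind p (V + S0)) := by
    have h1 := SS_block hp hs ha (j0 + m) p
    rw [hV0] at h1
    rw [hy, ← h1]
    congr 1
    ring
  rw [hst] at hsum
  unfold wj
  rw [hV0, hV1, ← hV, ← hb, ← hD, ← hy]
  have e1 : s + p * j0 + p * (m + 1) = s + p * (j0 + m + 1) := by ring
  rw [e1] at hsum
  have f1 : (2 : ℝ) ^ (s + p * (j0 + m + 1)) = 2 ^ (s + p * (j0 + m)) * 2 ^ p := by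
    rw [← pow_add]; congr 1; ring
  have f2 : (2 : ℝ) ^ (s + p * (j0 + m + 1)) = 2 ^ (s + p * j0) * 2 ^ (p * (m + 1)) := by
    rw [← pow_add]; congr 1; ring
  have g1 : (p : ℝ) ^ (V + S0) * SS (s + p * (j0 + m)) y 1 (ind p (V + S0)) /
      2 ^ (s + p * (j0 + m)) = (p : ℝ) ^ (V + S0) * (2 ^ p *
      SS (s + p * (j0 + m)) y 1 (ind p (V + S0))) / 2 ^ (s + p * (j0 + m + 1)) := by
    rw [f1]; field_simp
  have g2 : (p : ℝ) ^ V * SS (s + p * j0) y 1 (ind p V) / 2 ^ (s + p * j0) * D =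
      (2 ^ (p * (m + 1)) * D * (p : ℝ) ^ V) * SS (s + p * j0) y 1 (ind p V) /
      2 ^ (s + p * (j0 + m + 1)) := by
    rw [f2]; field_simp
  rw [g1, g2, ← sub_div]
  apply div_le_div_of_nonneg_right _ (by positivity)
  linarith

theorem start {p : ℕ} (hp : p.Prime) {a : ℤ} {s n : ℕ} (hs : s < p)
    (ha : a + s + 1 = p * ((n : ℤ) + 1)) {R j : ℕ} (hj : j ≤ R) (hR : VV p (j + 1) n ≤ R) :
    |wj p a s n j - 1| ≤ ∑ M ∈ range R, Zs p R (M + 1) s a ((n : ℤ) + 1) := by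
  have hp0 := hp.pos
  obtain ⟨V, hV⟩ : ∃ V, V = VV p (j + 1) n := ⟨_, rfl⟩
  have h1 := SS_steps hp0 (Nat.zero_le V) (s + p * R) (fun i => rp a (i + 1)) 1
  have h2 : SS (s + p * R) (fun i => rp a (i + 1)) 1 (ind p V) =
      2 ^ (p * (R - j)) * SS (s + p * j) (fun i => rp a (i + 1)) 1 (ind p V) := by
    have h3 := SS_block hp hs ha j (p * (R - j))
    rw [← hV] at h3
    rw [← h3]
    congr 1
    rw [add_assoc, ← mul_add]
    congr 2
    omega
  have h3 : SS (s + p * R) (fun i => rp a (i + 1)) 1 (ind p 0) = 2 ^ (s + p * R) := by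
    have h4 : ind p 0 = fun _ => (1 : ℝ) := by
      funext z
      exact ind_of_dvd (by simp)
    rw [h4, SS_const, mul_one]
  rw [h2, h3, pow_zero, one_mul] at h1
  have h4 : ∑ μ ∈ Ico 0 V, ∑ t ∈ range (p ^ (μ + 1)), (if (p : ℤ) ∣ (t : ℤ) then 0 else
        ∏ i ∈ range (s + p * R), phi (rp a (i + 1) • ((t : ℤ) • eps p (μ + 1)))) ≤
      ∑ M ∈ range R, Zs p R (M + 1) s a ((n : ℤ) + 1) := by
    have h5 : ∀ μ ∈ Ico 0 V, ∑ t ∈ range (p ^ (μ + 1)), (if (p : ℤ) ∣ (t : ℤ) then 0 else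
        ∏ i ∈ range (s + p * R), phi (rp a (i + 1) • ((t : ℤ) • eps p (μ + 1)))) =
        Zs p R (μ + 1) s a ((n : ℤ) + 1) := by
      intro μ _
      unfold Zs
      apply sum_congr rfl
      intro t _
      split_ifs
      · rfl
      · exact prod_split p R s ha _
    rw [sum_congr rfl h5]
    apply sum_le_sum_of_subset_of_nonneg
    · intro μ hμ
      rw [mem_Ico] at hμ
      rw [mem_range]
      omega
    · intro μ _ _
      exact Zs_nonneg _ _ _ _ _ _
  have h5 : (0 : ℝ) < 2 ^ (s + p * R) := by positivity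
  have h6 := h1.trans (mul_le_mul_of_nonneg_left h4 h5.le)
  have e1 : (2 : ℝ) ^ (s + p * R) = 2 ^ (s + p * j) * 2 ^ (p * (R - j)) := by
    rw [← pow_add, add_assoc, ← mul_add]
    congr 3
    omega
  have e2 : (p : ℝ) ^ V * (2 ^ (p * (R - j)) * SS (s + p * j) (fun i => rp a (i + 1)) 1
      (ind p V)) - 2 ^ (s + p * R) = 2 ^ (s + p * R) * (wj p a s n j - 1) := by
    unfold wj
    rw [← hV, e1]
    field_simp
  rw [e2, abs_mul, abs_of_pos h5] at h6
  exact le_of_mul_le_mul_left h6 h5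

/-- the final induction -/
theorem good_of_chain {p : ℕ} (hp : p.Prime) {a : ℤ} {s n : ℕ} (hs : s < p)
    (ha : a + s + 1 = p * ((n : ℤ) + 1)) {R m T : ℕ} (hm : m ≤ R) (hR : VV p (m + 1) n ≤ R)
    (h1 : ∑ M ∈ range R, Zs p R (M + 1) s a ((n : ℤ) + 1) ≤ 1 / 2)
    (h2 : ∀ t < T, 6 * 2 ^ m * Dd p m (n + 1 + t) ≤ 1) : GoodA p T a := by
  have hstart : ∀ j ≤ m, 1 / 2 ≤ wj p a s n j ∧ wj p a s n j ≤ 3 / 2 := by
    intro j hj
    have hVj : VV p (j + 1) n ≤ R := by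
      have e := VV_add p (j + 1) (m - j) n
      rw [show j + 1 + (m - j) = m + 1 by omega] at e
      omega
    have h3 := (start hp hs ha (hj.trans hm) hVj).trans h1
    have h4 := abs_le.1 h3
    constructor <;> linarith [h4.1, h4.2]
  have key : ∀ j, j ≤ m + T → 0 < wj p a s n j ∧ ∀ i, i ≤ j → j ≤ i + m →
      wj p a s n i ≤ 3 * 2 ^ (j - i) * wj p a s n j := by
    intro j
    induction j with
    | zero =>
      intro _
      have h3 := hstart 0 (Nat.zero_le _)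
      refine ⟨by linarith, fun i hi _ => ?_⟩
      have hi0 : i = 0 := by omega
      subst hi0
      simp only [Nat.sub_self, pow_zero]
      linarith
    | succ j ih =>
      intro hj
      obtain ⟨hpos, hrat⟩ := ih (by omega)
      by_cases hjm : j + 1 ≤ m
      · have h3 := hstart (j + 1) hjm
        refine ⟨by linarith, fun i hi _ => ?_⟩
        have h4 := hstart i (by omega)
        have h5 : (1 : ℝ) ≤ 2 ^ (j + 1 - i) := one_le_pow₀ (by norm_num)
        nlinarith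
      · have hmj : m ≤ j := by omega
        obtain ⟨j0, rfl⟩ : ∃ j0, j = j0 + m := ⟨j - m, by omega⟩
        have h3 := chain hp hs ha j0 m
        have h4 := hrat j0 (by omega) le_rfl
        rw [show j0 + m - j0 = m by omega] at h4
        have h5 := h2 j0 (by omega)
        have hD := Dd_nonneg p m (n + 1 + j0)
        have h6 : wj p a s n j0 * Dd p m (n + 1 + j0) ≤ wj p a s n (j0 + m) / 2 := by
          calc wj p a s n j0 * Dd p m (n + 1 + j0) ≤
                3 * 2 ^ m * wj p a s n (j0 + m) * Dd p m (n + 1 + j0) :=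
                mul_le_mul_of_nonneg_right h4 hD
            _ = wj p a s n (j0 + m) / 2 * (6 * 2 ^ m * Dd p m (n + 1 + j0)) := by ring
            _ ≤ wj p a s n (j0 + m) / 2 * 1 := mul_le_mul_of_nonneg_left h5 (by linarith)
            _ = _ := by ring
        have h7 : wj p a s n (j0 + m) / 2 ≤ wj p a s n (j0 + m + 1) := by linarith
        refine ⟨by linarith, fun i hi hi2 => ?_⟩
        rcases Nat.eq_or_lt_of_le hi with h8 | h8
        · rw [← h8]
          simp only [Nat.sub_self, pow_zero]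
          rw [h8]
          linarith
        · have h9 := hrat i (by omega) (by omega)
          have e : (2 : ℝ) ^ (j0 + m + 1 - i) = 2 ^ (j0 + m - i) * 2 := by
            rw [← pow_succ]; congr 1; omega
          rw [e]
          have h10 : (0 : ℝ) < 2 ^ (j0 + m - i) := by positivity
          calc wj p a s n i ≤ 3 * 2 ^ (j0 + m - i) * wj p a s n (j0 + m) := h9
            _ ≤ 3 * 2 ^ (j0 + m - i) * (2 * wj p a s n (j0 + m + 1)) :=
              mul_le_mul_of_nonneg_left (by linarith) (by positivity)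
            _ = _ := by ring
  have hfin := (key (m + T) le_rfl).1
  have hSS : SS (s + p * (m + T)) (fun i => rp a (i + 1)) 1 (ind p (VV p (m + T + 1) n)) ≠ 0 := by
    intro h
    unfold wj at hfin
    rw [h] at hfin
    simp at hfin
  unfold ind at hSS
  obtain ⟨I, hI⟩ := SS_exists _ _ _ hSS
  refine ⟨I, (pow_dvd_pow _ ?_).trans hI⟩
  have := le_VV p (m + T + 1) n
  omega

end Pool.Agent.FacLarge
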