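import Pool.Agent.FacLarge.Div

/-!
Counting lemma for short vectors in the sequence `c (i + 1) ≡ (b + i + 1) c i`.
-/

set_option autoImplicit false

namespace Pool.Agent.FacLarge

open Finset

theorem not_dvd_c {p b s : ℕ} (hp : p.Prime) (hbs : b + s ≤ p) {c : ℕ → ℤ}
    (h0 : ¬ (p : ℤ) ∣ c 0)
    (hrec : ∀ i, i + 1 < s → (p : ℤ) ∣ c (i + 1) - ((b + i + 1 : ℕ) : ℤ) * c i) :
    ∀ i, i < s → ¬ (p : ℤ) ∣ c i := by
  intro i
  induction i with
  | zero => intro _; exact h0
  | succ i ih =>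
    intro hi hd
    have h1 := hrec i hi
    have h2 : (p : ℤ) ∣ ((b + i + 1 : ℕ) : ℤ) * c i := by
      have := dvd_sub hd h1
      simpa using this
    rcases (Nat.prime_iff_prime_int.1 hp).dvd_or_dvd h2 with h3 | h3
    · have h4 : p ∣ b + i + 1 := by exact_mod_cast h3
      have := Nat.le_of_dvd (by omega) h4
      omega
    · exact ih (by omega) h3

/-- the set of `i` such that three consecutive terms are small -/
def smallTriples (s X : ℕ) (c : ℕ → ℤ) : Finset ℕ :=
  (range s).filter fun i => i + 2 < s ∧ |c i| ≤ X ∧ |c (i + 1)| ≤ X ∧ |c (i + 2)| ≤ X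

def kk (p : ℕ) (c : ℕ → ℤ) (i : ℕ) : ℤ :=
  (c i * c (i + 2) - c i * c (i + 1) - c (i + 1) ^ 2) / p

theorem card_natAbs_mem_le (S : Finset ℕ) (T : Finset ℤ) (hT : ∀ u ∈ T, u.natAbs ∈ S) :
    T.card ≤ 2 * S.card := by
  have h1 : T ⊆ S.image (fun n : ℕ => (n : ℤ)) ∪ S.image (fun n : ℕ => -(n : ℤ)) := by
    intro u hu
    have h2 := hT u hu
    rw [mem_union, mem_image, mem_image]
    rcases Int.natAbs_eq u with h3 | h3
    · left; exact ⟨u.natAbs, h2, h3.symm⟩
    · right; exact ⟨u.natAbs, h2, h3.symm⟩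
  calc T.card ≤ _ := card_le_card h1
    _ ≤ _ := card_union_le _ _
    _ ≤ S.card + S.card := add_le_add card_image_le card_image_le
    _ = 2 * S.card := by ring

theorem card_smallTriples_le {p b s X D : ℕ} (hp : p.Prime) (hbs : b + s ≤ p) {c : ℕ → ℤ}
    (h0 : ¬ (p : ℤ) ∣ c 0)
    (hrec : ∀ i, i + 1 < s → (p : ℤ) ∣ c (i + 1) - ((b + i + 1 : ℕ) : ℤ) * c i)
    (hD : ∀ n : ℕ, n ≠ 0 → n ≤ 2 * X ^ 2 → n.divisors.card ≤ D) :
    (smallTriples s X c).card ≤ 2 * D * ((2 * X + 1) * (2 * (3 * X ^ 2 / p) + 1)) := by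
  classical
  have hnd := not_dvd_c hp hbs h0 hrec
  have hp0 : (0 : ℤ) < p := by exact_mod_cast hp.pos
  have hk : ∀ i, i + 2 < s → (p : ℤ) * kk p c i =
      c i * c (i + 2) - c i * c (i + 1) - c (i + 1) ^ 2 := by
    intro i hi
    unfold kk
    apply Int.mul_ediv_cancel'
    obtain ⟨x, hx⟩ := hrec i (by omega)
    obtain ⟨y, hy⟩ := hrec (i + 1) (by omega)
    refine ⟨c i * y - c (i + 1) * x, ?_⟩
    have e1 : c (i + 2) = p * y + ((b + (i + 1) + 1 : ℕ) : ℤ) * c (i + 1) := by
      have : c (i + 1 + 1) = c (i + 2) := rfl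
      rw [this] at hy
      linarith
    have e2 : c (i + 1) = p * x + ((b + i + 1 : ℕ) : ℤ) * c i := by linarith
    rw [e1]
    push_cast at e2 ⊢
    have e3 : c (i + 1) ^ 2 = c (i + 1) * (p * x + (b + i + 1) * c i) := by
      rw [← e2]; ring
    rw [e3]
    ring
  have hne : ∀ i, i + 2 < s → c i * (c (i + 2) - c (i + 1)) ≠ 0 := by
    intro i hi h
    rcases mul_eq_zero.1 h with h1 | h1
    · exact hnd i (by omega) (h1 ▸ dvd_zero _)
    · have h2 := hrec (i + 1) (by omega)
      have h3 : c (i + 1 + 1) = c (i + 1) := by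
        have : c (i + 1 + 1) = c (i + 2) := rfl
        rw [this]; linarith
      rw [h3] at h2
      have h4 : (p : ℤ) ∣ ((b + i + 1 : ℕ) : ℤ) * c (i + 1) := by
        have h5 := (dvd_neg (α := ℤ)).2 h2
        have h6 : -(c (i + 1) - ((b + (i + 1) + 1 : ℕ) : ℤ) * c (i + 1)) =
            ((b + i + 1 : ℕ) : ℤ) * c (i + 1) := by
          push_cast; ring
        rwa [h6] at h5
      rcases (Nat.prime_iff_prime_int.1 hp).dvd_or_dvd h4 with h5 | h5
      · have h6 : p ∣ b + i + 1 := by exact_mod_cast h5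
        have := Nat.le_of_dvd (by omega) h6
        omega
      · exact hnd (i + 1) (by omega) h5
  -- projection to `(c (i + 1), kk i)`
  have hfib := Finset.card_le_mul_card_image (s := smallTriples s X c)
    (f := fun i => (c (i + 1), kk p c i)) (2 * D) ?_
  · refine hfib.trans (Nat.mul_le_mul_left _ ?_)
    have hsub : (smallTriples s X c).image (fun i => (c (i + 1), kk p c i)) ⊆
        (Icc (-(X : ℤ)) X) ×ˢ (Icc (-((3 * X ^ 2 / p : ℕ) : ℤ)) ((3 * X ^ 2 / p : ℕ) : ℤ)) := by
      intro y hy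
      rw [mem_image] at hy
      obtain ⟨i, hi, rfl⟩ := hy
      rw [smallTriples, mem_filter] at hi
      obtain ⟨_, h2, h3, h4, h5⟩ := hi
      rw [mem_product, mem_Icc, mem_Icc]
      refine ⟨abs_le.1 h4, ?_⟩
      rw [← abs_le]
      have h6 := hk i h2
      have h7 : |(p : ℤ) * kk p c i| ≤ 3 * X ^ 2 := by
        rw [h6]
        have a1 : |c i * c (i + 2)| ≤ (X : ℤ) * X := by
          rw [abs_mul]; exact mul_le_mul h3 h5 (abs_nonneg _) (by positivity)
        have a2 : |c i * c (i + 1)| ≤ (X : ℤ) * X := by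
          rw [abs_mul]; exact mul_le_mul h3 h4 (abs_nonneg _) (by positivity)
        have a3 : |c (i + 1) ^ 2| ≤ (X : ℤ) * X := by
          rw [pow_two, abs_mul]; exact mul_le_mul h4 h4 (abs_nonneg _) (by positivity)
        rw [abs_le] at a1 a2 a3 ⊢
        constructor <;> nlinarith [a1.1, a1.2, a2.1, a2.2, a3.1, a3.2]
      rw [abs_mul, abs_of_pos hp0] at h7
      have h8 : (p : ℤ) * |kk p c i| ≤ ((3 * X ^ 2 : ℕ) : ℤ) := by push_cast; exact h7
      have h9 : |kk p c i| ≤ ((3 * X ^ 2 : ℕ) : ℤ) / (p : ℤ) := by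
        rw [Int.le_ediv_iff_mul_le hp0]
        linarith
      have h10 : ((3 * X ^ 2 : ℕ) : ℤ) / (p : ℤ) = ((3 * X ^ 2 / p : ℕ) : ℤ) := by
        push_cast; rfl
      rw [h10] at h9
      exact h9
    refine (card_le_card hsub).trans ?_
    rw [card_product, Int.card_Icc, Int.card_Icc]
    apply le_of_eq
    congr 1 <;> omega
  · intro y hy
    rw [mem_image] at hy
    obtain ⟨i0, hi0, rfl⟩ := hy
    have hinj : ((smallTriples s X c).filter
        (fun i => (c (i + 1), kk p c i) = (c (i0 + 1), kk p c i0))).card =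
        (((smallTriples s X c).filter
        (fun i => (c (i + 1), kk p c i) = (c (i0 + 1), kk p c i0))).image c).card := by
      rw [card_image_of_injOn]
      intro i hi j hj hij
      have hi' := mem_filter.1 (Finset.mem_coe.1 hi)
      have hj' := mem_filter.1 (Finset.mem_coe.1 hj)
      have his := (mem_filter.1 hi'.1).2.1
      have hjs := (mem_filter.1 hj'.1).2.1
      have e1 : c (i + 1) = c (j + 1) := by
        rw [(Prod.mk.inj hi'.2).1, (Prod.mk.inj hj'.2).1]
      have r1 := hrec i (by omega)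
      have r2 := hrec j (by omega)
      have hij' : c i = c j := hij
      rw [e1, hij'] at r1
      have r3 := dvd_sub r2 r1
      have r4 : c (j + 1) - ((b + j + 1 : ℕ) : ℤ) * c j -
          (c (j + 1) - ((b + i + 1 : ℕ) : ℤ) * c j) = ((i : ℤ) - j) * c j := by
        push_cast; ring
      rw [r4] at r3
      rcases (Nat.prime_iff_prime_int.1 hp).dvd_or_dvd r3 with h5 | h5
      · have h6 : (i : ℤ) - j = 0 := by
          apply Int.eq_zero_of_abs_lt_dvd h5
          rw [abs_lt]
          constructor <;> omega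
        omega
      · exact absurd h5 (hnd j (by omega))
    rw [hinj]
    have hi0' := (mem_filter.1 hi0).2
    have hN : ∀ i, i ∈ smallTriples s X c →
        (c (i + 1), kk p c i) = (c (i0 + 1), kk p c i0) →
        c i * (c (i + 2) - c (i + 1)) = c (i0 + 1) ^ 2 + p * kk p c i0 := by
      intro i hi he
      have h1 := hk i (mem_filter.1 hi).2.1
      rw [← (Prod.mk.inj he).1, ← (Prod.mk.inj he).2, h1]
      ring
    have hn0 := hN i0 hi0 rfl
    have hne0 : c (i0 + 1) ^ 2 + p * kk p c i0 ≠ 0 := by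
      rw [← hn0]; exact hne i0 hi0'.1
    have hbd : (c (i0 + 1) ^ 2 + p * kk p c i0).natAbs ≤ 2 * X ^ 2 := by
      rw [← hn0, Int.natAbs_mul]
      have a1 : (c i0).natAbs ≤ X := by
        have := abs_le.1 hi0'.2.1
        omega
      have a2 : (c (i0 + 2) - c (i0 + 1)).natAbs ≤ 2 * X := by
        have h4 := abs_le.1 hi0'.2.2.1
        have h5 := abs_le.1 hi0'.2.2.2
        omega
      calc _ ≤ X * (2 * X) := Nat.mul_le_mul a1 a2
        _ = 2 * X ^ 2 := by ring
    refine (card_natAbs_mem_le (c (i0 + 1) ^ 2 + p * kk p c i0).natAbs.divisors _ ?_).trans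
      (Nat.mul_le_mul_left _ (hD _ (by simpa using hne0) hbd))
    intro u hu
    rw [mem_image] at hu
    obtain ⟨i, hi, rfl⟩ := hu
    rw [mem_filter] at hi
    rw [Nat.mem_divisors]
    refine ⟨?_, by simpa using hne0⟩
    rw [Int.natAbs_dvd_natAbs, ← hN i hi.1 hi.2]
    exact dvd_mul_right _ _

end Pool.Agent.FacLarge
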