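import Pool.Agent.FacLarge.Rec

/-!
Deterministic estimates.
-/

set_option autoImplicit false

namespace Pool.Agent.FacLarge

open Finset

/-- sum over frequencies of exact order `p ^ (m + 1)` -/
noncomputable def U0 (p K m : ℕ) (n : ℤ) : ℝ :=
  ∑ w ∈ range (p ^ (m + 1)), if (p : ℤ) ∣ (w : ℤ) then 0 else FK p K n ((w : ℤ) • eps p (m + 1))

theorem U0_nonneg (p K m : ℕ) (n : ℤ) : 0 ≤ U0 p K m n := by
  unfold U0
  apply sum_nonneg
  intro w _
  split_ifs
  · exact le_rfl
  · exact FK_nonneg _ _ _ _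

theorem down_one {p : ℕ} (hp : p.Prime) (m : ℕ) {g : ℤ} (hg : ¬ (p : ℤ) ∣ g)
    (G : UnitAddCircle → ℝ) :
    ∑ w ∈ range (p ^ (m + 2)), (if (p : ℤ) ∣ (w : ℤ) then 0 else
      G ((g * p) • ((w : ℤ) • eps p (m + 2)))) =
    p * ∑ w ∈ range (p ^ (m + 1)), (if (p : ℤ) ∣ (w : ℤ) then 0 else
      G ((w : ℤ) • eps p (m + 1))) := by
  have hp0 := hp.pos
  obtain ⟨H, hH⟩ : ∃ H : ℤ → ℝ, H = fun z =>
      if (p : ℤ) ∣ z then 0 else G (z • eps p (m + 1)) := ⟨_, rfl⟩
  have hHper : ∀ x y : ℤ, ((p ^ (m + 1) : ℕ) : ℤ) ∣ x - y → H x = H y := by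
    intro x y h
    rw [hH]
    push_cast at h
    have h1 : (p : ℤ) ∣ x - y := (dvd_pow_self _ (by omega)).trans h
    simp only [zsmul_eps_congr hp0 h, dvd_congr_left h1]
  have h1 : ∀ w ∈ range (p ^ (m + 2)), (if (p : ℤ) ∣ (w : ℤ) then 0 else
      G ((g * p) • ((w : ℤ) • eps p (m + 2)))) = (fun w : ℤ => H (g * w)) w := by
    intro w _
    have e1 : (g * p) • ((w : ℤ) • eps p (m + 2)) = (g * w) • eps p (m + 1) := by
      rw [← mul_zsmul]
      have e2 : g * (p : ℤ) * w = g * w * p := by ring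
      rw [e2, mul_zsmul, eps_succ hp0 (m + 1)]
    rw [e1]
    simp only [hH]
    have e4 : (p : ℤ) ∣ g * w ↔ (p : ℤ) ∣ w := by
      constructor
      · intro h
        exact ((Nat.prime_iff_prime_int.1 hp).dvd_or_dvd h).resolve_left hg
      · intro h; exact h.mul_left _
    simp only [e4]
  rw [sum_congr rfl h1]
  have e5 : p ^ (m + 2) = p ^ (m + 1) * p := by ring
  rw [e5]
  have h2 := sum_period (A := p ^ (m + 1)) (H := fun w : ℤ => H (g * w)) ?_ p
  · rw [h2]
    have h3 := sum_perm (q := p ^ (m + 1)) (by positivity) hHper (σ := fun w => g * w) ?_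
    · rw [h3, hH]
    · intro x y hxy
      rw [← mul_sub] at hxy
      have hcop : IsCoprime (((p ^ (m + 1) : ℕ) : ℤ)) g := by
        push_cast
        apply IsCoprime.pow_left
        exact (Nat.prime_iff_prime_int.1 hp).coprime_iff_not_dvd.2 hg
      exact hcop.dvd_of_dvd_mul_left hxy
  · intro x y hxy
    apply hHper
    rw [← mul_sub]
    exact hxy.mul_left _

theorem det_step {p : ℕ} (hp : p.Prime) (hGd : Gd p) (m : ℕ) {b s : ℕ} (hbs : b + s ≤ p)
    (hs : (p : ℝ) ^ (83 / 100 : ℝ) ≤ s) {c : ℕ → ℤ} (h0 : ¬ (p : ℤ) ∣ c 0)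
    (hrec : ∀ i, i + 1 < s → (p : ℤ) ∣ c (i + 1) - ((b + i + 1 : ℕ) : ℤ) * c i)
    {g : ℤ} (hg : ¬ (p : ℤ) ∣ g) (G : UnitAddCircle → ℝ) (hG0 : ∀ θ, 0 ≤ G θ) :
    ∑ w ∈ range (p ^ (m + 2)), (if (p : ℤ) ∣ (w : ℤ) then 0 else
      (∏ i ∈ range s, phi (c i • ((w : ℤ) • eps p (m + 2)))) *
      G ((g * p) • ((w : ℤ) • eps p (m + 2)))) ≤
    (1 + ((p : ℝ) ^ 26)⁻¹) * ∑ w ∈ range (p ^ (m + 1)), (if (p : ℤ) ∣ (w : ℤ) then 0 else
      G ((w : ℤ) • eps p (m + 1))) := by
  have hp0 := hp.pos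
  have hp0' : (0 : ℝ) < p := by exact_mod_cast hp0
  obtain ⟨F, hF⟩ : ∃ F : ℤ → ℝ, F = fun w => (if (p : ℤ) ∣ w then 0 else
      (∏ i ∈ range s, phi (c i • (w • eps p (m + 2)))) *
      G ((g * p) • (w • eps p (m + 2)))) := ⟨_, rfl⟩
  have hFper : ∀ x y : ℤ, ((p ^ (m + 2) : ℕ) : ℤ) ∣ x - y → F x = F y := by
    intro x y h
    rw [hF]
    push_cast at h
    have h1 : (p : ℤ) ∣ x - y := (dvd_pow_self _ (by omega)).trans h
    simp only [zsmul_eps_congr hp0 h, dvd_congr_left h1]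
  have hkey : (p : ℝ) * ∑ w ∈ range (p ^ (m + 2)), F w ≤
      (1 + ((p : ℝ) ^ 26)⁻¹) * ∑ w ∈ range (p ^ (m + 2)), (if (p : ℤ) ∣ (w : ℤ) then 0 else
      G ((g * p) • ((w : ℤ) • eps p (m + 2)))) := by
    have h1 : (p : ℝ) * ∑ w ∈ range (p ^ (m + 2)), F w =
        ∑ t ∈ range p, ∑ w ∈ range (p ^ (m + 2)), F (w + p ^ (m + 1) * (t : ℤ)) := by
      have h2 : ∀ t ∈ range p, ∑ w ∈ range (p ^ (m + 2)), F (w + p ^ (m + 1) * (t : ℤ)) =
          ∑ w ∈ range (p ^ (m + 2)), F w := by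
        intro t _
        refine sum_perm (q := p ^ (m + 2)) (by positivity) (H := F) hFper
          (σ := fun w => w + p ^ (m + 1) * (t : ℤ)) ?_
        intro x y hxy
        simpa using hxy
      rw [sum_congr rfl h2, sum_const, card_range, nsmul_eq_mul]
    rw [h1, sum_comm, mul_sum]
    apply sum_le_sum
    intro w _
    by_cases hw : (p : ℤ) ∣ (w : ℤ)
    · rw [if_pos hw, mul_zero]
      apply le_of_eq
      apply sum_eq_zero
      intro t _
      rw [hF]
      simp only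
      rw [if_pos]
      exact dvd_add hw ((dvd_pow_self _ (by omega)).mul_right _)
    · rw [if_neg hw]
      have h3 : ∀ t ∈ range p, F (w + p ^ (m + 1) * (t : ℤ)) =
          (∏ i ∈ range s, phi (c i • ((w : ℤ) • eps p (m + 2)) + ((t : ℤ) * c i) • eps p 1)) *
          G ((g * p) • ((w : ℤ) • eps p (m + 2))) := by
        intro t _
        rw [hF]
        simp only
        have e0 : ((w : ℤ) + p ^ (m + 1) * (t : ℤ)) • eps p (m + 2) =
            (w : ℤ) • eps p (m + 2) + (t : ℤ) • eps p 1 := by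
          rw [add_zsmul]
          congr 1
          have := pow_zsmul_eps hp0 1 (m + 1)
          rw [show 1 + (m + 1) = m + 2 by ring] at this
          rw [mul_comm, mul_zsmul, this]
        rw [if_neg, e0]
        · congr 1
          · apply prod_congr rfl
            intro i _
            rw [zsmul_add, ← mul_zsmul (eps p 1), mul_comm (c i) (t : ℤ)]
          · rw [zsmul_add]
            have e1 : (g * (p : ℤ)) • ((t : ℤ) • eps p 1) = 0 := by
              rw [← mul_zsmul]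
              apply zsmul_eps_eq_zero hp0
              exact ⟨g * t, by ring⟩
            rw [e1, add_zero]
        · intro h
          apply hw
          have h4 : (p : ℤ) ∣ (w : ℤ) + p ^ (m + 1) * t - w := by
            rw [add_sub_cancel_left]
            exact (dvd_pow_self _ (by omega)).mul_right _
          exact (dvd_congr_left h4).1 h
      rw [sum_congr rfl h3, ← sum_mul]
      apply mul_le_mul_of_nonneg_right _ (hG0 _)
      exact block_one hp hGd hbs hs h0 hrec _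
  rw [down_one hp m hg G] at hkey
  have h6 : (p : ℝ) * ∑ w ∈ range (p ^ (m + 2)), F w ≤ (p : ℝ) *
      ((1 + ((p : ℝ) ^ 26)⁻¹) * ∑ w ∈ range (p ^ (m + 1)), (if (p : ℤ) ∣ (w : ℤ) then 0 else
      G ((w : ℤ) • eps p (m + 1)))) := by
    calc _ ≤ _ := hkey
      _ = _ := by ring
  have h7 := le_of_mul_le_mul_left h6 hp0'
  rw [hF] at h7
  exact h7

theorem U0_zero {p : ℕ} (hp : p.Prime) (hGd : Gd p) (K : ℕ) (n : ℤ) :
    U0 p (K + 1) 0 n ≤ ((p : ℝ) ^ 107)⁻¹ := by
  have hp0' : (0 : ℝ) < p := by exact_mod_cast hp.pos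
  unfold U0
  calc _ ≤ ∑ w ∈ range (p ^ (0 + 1)), ((p : ℝ) ^ 108)⁻¹ := by
        apply sum_le_sum
        intro w _
        split_ifs with hw
        · positivity
        · rw [FK_succ]
          refine (mul_le_of_le_one_right (prod_phi_nonneg _ _) (FK_le_one _ _ _ _)).trans ?_
          have h1 := block_death hp hGd (b := 0) (s := p) (by omega) (rpow_le_self hp.one_lt.le)
            (c := fun i => rp (p * n) i * w) ?_ ?_
          · refine le_trans (le_of_eq ?_) h1
            apply prod_congr rfl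
            intro i _
            rw [← mul_zsmul]
          · simpa [rp_zero] using hw
          · intro i _
            simp only [rp_succ]
            refine ⟨n * (rp (p * n) i * w), ?_⟩
            push_cast
            ring
    _ = p * ((p : ℝ) ^ 108)⁻¹ := by
      rw [sum_const, card_range, nsmul_eq_mul]
      push_cast
      rw [pow_one]
    _ = ((p : ℝ) ^ 107)⁻¹ := by field_simp

theorem U0_succ {p : ℕ} (hp : p.Prime) (hGd : Gd p) (K m : ℕ) {n : ℤ}
    (hn : ¬ (p : ℤ) ∣ n + 1) :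
    U0 p (K + 1) (m + 1) n ≤ (1 + ((p : ℝ) ^ 26)⁻¹) * U0 p K m (n + 1) := by
  have hp0 := hp.pos
  obtain ⟨g, hg⟩ : ∃ g : ℤ, g = rp (p * n) (p - 1) * (n + 1) := ⟨_, rfl⟩
  have hgd : ¬ (p : ℤ) ∣ g := by
    rw [hg]
    intro h
    rcases (Nat.prime_iff_prime_int.1 hp).dvd_or_dvd h with h1 | h1
    · exact not_dvd_rp hp n (by omega) h1
    · exact hn h1
  have h1 := det_step hp hGd m (b := 0) (s := p) (by omega) (rpow_le_self hp.one_lt.le)
    (c := fun i => rp (p * n) i) ?_ ?_ hgd (FK p K (n + 1)) (FK_nonneg p K (n + 1))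
  · refine le_trans (le_of_eq ?_) h1
    unfold U0
    apply sum_congr rfl
    intro w _
    split_ifs
    · rfl
    · rw [FK_succ]
      have e1 : rp (p * n) p = g * p := by rw [rp_self hp0, hg]; ring
      rw [e1]
  · simp only [rp_zero]
    intro h
    have : p ∣ 1 := by exact_mod_cast h
    exact hp.one_lt.ne' (Nat.dvd_one.1 this)
  · intro i _
    simp only [rp_succ]
    refine ⟨n * rp (p * n) i, ?_⟩
    push_cast
    ring

theorem U0_bound {p : ℕ} (hp : p.Prime) (hGd : Gd p) (m : ℕ) : ∀ (K : ℕ) (n : ℤ), m < K →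
    (∀ i : ℕ, i < m → ¬ (p : ℤ) ∣ n + i + 1) →
    U0 p K m n ≤ (1 + ((p : ℝ) ^ 26)⁻¹) ^ m * ((p : ℝ) ^ 107)⁻¹ := by
  induction m with
  | zero =>
    intro K n hK _
    obtain ⟨K', rfl⟩ : ∃ K', K = K' + 1 := ⟨K - 1, by omega⟩
    simpa using U0_zero hp hGd K' n
  | succ m ih =>
    intro K n hK hn
    obtain ⟨K', rfl⟩ : ∃ K', K = K' + 1 := ⟨K - 1, by omega⟩
    have h0 := hn 0 (by omega)
    have h1 := U0_succ hp hGd K' m (n := n) (by simpa using h0)
    have h2 := ih K' (n + 1) (by omega) (by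
      intro i hi
      have := hn (i + 1) (by omega)
      push_cast at this
      have e : n + 1 + (i : ℤ) + 1 = n + ((i : ℤ) + 1) + 1 := by ring
      rw [e]
      exact this)
    have h3 : (0 : ℝ) ≤ 1 + ((p : ℝ) ^ 26)⁻¹ := by positivity
    calc _ ≤ _ := h1
      _ ≤ (1 + ((p : ℝ) ^ 26)⁻¹) * ((1 + ((p : ℝ) ^ 26)⁻¹) ^ m * ((p : ℝ) ^ 107)⁻¹) :=
        mul_le_mul_of_nonneg_left h2 h3
      _ = _ := by ring

/-! ### the first, partial block -/

noncomputable def Zs (p K M s : ℕ) (a n : ℤ) : ℝ :=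
  ∑ w ∈ range (p ^ M), if (p : ℤ) ∣ (w : ℤ) then 0 else
    (∏ i ∈ range s, phi (rp a (i + 1) • ((w : ℤ) • eps p M))) *
      FK p K n (rp a (s + 1) • ((w : ℤ) • eps p M))

theorem Zs_nonneg (p K M s : ℕ) (a n : ℤ) : 0 ≤ Zs p K M s a n := by
  unfold Zs
  apply sum_nonneg
  intro w _
  split_ifs
  · exact le_rfl
  · exact mul_nonneg (prod_phi_nonneg _ _) (FK_nonneg _ _ _ _)

theorem not_dvd_rp_partial {p : ℕ} (hp : p.Prime) {a n : ℤ} {s : ℕ} (hs : s < p)
    (ha : a + s + 1 = p * n) {i : ℕ} (hi : i ≤ s) : ¬ (p : ℤ) ∣ rp a i := by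
  induction i with
  | zero =>
    rw [rp_zero]
    intro h
    have : p ∣ 1 := by exact_mod_cast h
    exact hp.one_lt.ne' (Nat.dvd_one.1 this)
  | succ i ih =>
    rw [rp_succ]
    intro h
    rcases (Nat.prime_iff_prime_int.1 hp).dvd_or_dvd h with h1 | h1
    · exact ih (by omega) h1
    · have h2 : (p : ℤ) ∣ ((s - i : ℕ) : ℤ) := by
        have e : ((s - i : ℕ) : ℤ) = p * n - (a + i + 1) := by
          rw [← ha]
          push_cast [Nat.cast_sub (show i ≤ s by omega)]
          ring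
        rw [e]
        exact dvd_sub (dvd_mul_right _ _) h1
      have h3 : p ∣ s - i := by exact_mod_cast h2
      have := Nat.le_of_dvd (by omega) h3
      omega

theorem Zs_one {p : ℕ} (hp : p.Prime) (hGd : Gd p) (K : ℕ) {a n : ℤ} {s : ℕ} (hs : s < p)
    (ha : a + s + 1 = p * n) (hs' : (p : ℝ) ^ (83 / 100 : ℝ) ≤ s) :
    Zs p K 1 s a n ≤ ((p : ℝ) ^ 107)⁻¹ := by
  have hp0' : (0 : ℝ) < p := by exact_mod_cast hp.pos
  have hs1 : 1 ≤ s := by
    by_contra h
    have : s = 0 := by omega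
    rw [this] at hs'
    have : (0 : ℝ) < (p : ℝ) ^ (83 / 100 : ℝ) := by positivity
    simp at hs'
    linarith
  unfold Zs
  calc _ ≤ ∑ w ∈ range (p ^ 1), ((p : ℝ) ^ 108)⁻¹ := by
        apply sum_le_sum
        intro w _
        split_ifs with hw
        · positivity
        · refine (mul_le_of_le_one_right (prod_phi_nonneg _ _) (FK_le_one _ _ _ _)).trans ?_
          have h1 := block_death hp hGd (b := p - s) (s := s) (by omega) hs'
            (c := fun i => rp a (i + 1) * w) ?_ ?_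
          · refine le_trans (le_of_eq ?_) h1
            apply prod_congr rfl
            intro i _
            rw [← mul_zsmul]
          · intro h
            rcases (Nat.prime_iff_prime_int.1 hp).dvd_or_dvd h with h1 | h1
            · exact not_dvd_rp_partial hp hs ha (by omega) h1
            · exact hw h1
          · intro i _
            simp only [rp_succ a (i + 1)]
            refine ⟨(n - 1) * (rp a (i + 1) * w), ?_⟩
            push_cast [Nat.cast_sub (show s ≤ p by omega)]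
            have : a = p * n - s - 1 := by linarith
            rw [this]
            ring
    _ = p * ((p : ℝ) ^ 108)⁻¹ := by
      rw [sum_const, card_range, nsmul_eq_mul]
      push_cast
      rw [pow_one]
    _ = ((p : ℝ) ^ 107)⁻¹ := by field_simp

theorem Zs_det {p : ℕ} (hp : p.Prime) (hGd : Gd p) (K m : ℕ) {a n : ℤ} {s : ℕ} (hs : s < p)
    (ha : a + s + 1 = p * n) (hs' : (p : ℝ) ^ (83 / 100 : ℝ) ≤ s) (hn : ¬ (p : ℤ) ∣ n) :
    Zs p K (m + 2) s a n ≤ (1 + ((p : ℝ) ^ 26)⁻¹) * U0 p K m n := by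
  have hp0' : (0 : ℝ) < p := by exact_mod_cast hp.pos
  have hs1 : 1 ≤ s := by
    by_contra h
    have : s = 0 := by omega
    rw [this] at hs'
    have : (0 : ℝ) < (p : ℝ) ^ (83 / 100 : ℝ) := by positivity
    simp at hs'
    linarith
  obtain ⟨g, hg⟩ : ∃ g : ℤ, g = rp a s * n := ⟨_, rfl⟩
  have hgd : ¬ (p : ℤ) ∣ g := by
    rw [hg]
    intro h
    rcases (Nat.prime_iff_prime_int.1 hp).dvd_or_dvd h with h1 | h1
    · exact not_dvd_rp_partial hp hs ha le_rfl h1
    · exact hn h1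
  have h1 := det_step hp hGd m (b := p - s) (s := s) (by omega) hs'
    (c := fun i => rp a (i + 1)) ?_ ?_ hgd (FK p K n) (FK_nonneg p K n)
  · refine le_trans (le_of_eq ?_) h1
    unfold Zs
    apply sum_congr rfl
    intro w _
    split_ifs
    · rfl
    · have e1 : rp a (s + 1) = g * p := by rw [rp_succ, ha, hg]; ring
      rw [e1]
  · exact not_dvd_rp_partial hp hs ha (by omega)
  · intro i _
    simp only [rp_succ a (i + 1)]
    refine ⟨(n - 1) * (rp a (i + 1)), ?_⟩
    push_cast [Nat.cast_sub (show s ≤ p by omega)]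
    have : a = p * n - s - 1 := by linarith
    rw [this]
    ring

theorem Zs_trivial {p : ℕ} (hp : p.Prime) (K m : ℕ) {a n : ℤ} {s : ℕ} (hs : s < p)
    (ha : a + s + 1 = p * n) (hn : ¬ (p : ℤ) ∣ n) :
    Zs p K (m + 2) s a n ≤ p * U0 p K m n := by
  obtain ⟨g, hg⟩ : ∃ g : ℤ, g = rp a s * n := ⟨_, rfl⟩
  have hgd : ¬ (p : ℤ) ∣ g := by
    rw [hg]
    intro h
    rcases (Nat.prime_iff_prime_int.1 hp).dvd_or_dvd h with h1 | h1
    · exact not_dvd_rp_partial hp hs ha le_rfl h1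
    · exact hn h1
  have h1 := down_one hp m hgd (FK p K n)
  have h2 : Zs p K (m + 2) s a n ≤ ∑ w ∈ range (p ^ (m + 2)), (if (p : ℤ) ∣ (w : ℤ) then 0 else
      FK p K n ((g * p) • ((w : ℤ) • eps p (m + 2)))) := by
    unfold Zs
    apply sum_le_sum
    intro w _
    split_ifs
    · exact le_rfl
    · have e1 : rp a (s + 1) = g * p := by rw [rp_succ, ha, hg]; ring
      rw [e1]
      exact mul_le_of_le_one_left (FK_nonneg _ _ _ _) (prod_phi_le_one _ _)
  rw [h1] at h2
  exact h2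

end Pool.Agent.FacLarge
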