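import Pool.Agent.FacLarge.Bnd
import Pool.Agent.FacLarge.Char

/-!
Total exponential sum and averages over residue classes.
-/

set_option autoImplicit false

namespace Pool.Agent.FacLarge

open Finset

/-- some `1 + ∑ (a+1)...(a+i+1)` is divisible by `p ^ T` -/
def GoodA (p T : ℕ) (a : ℤ) : Prop :=
  ∃ I : Finset ℕ, (p : ℤ) ^ T ∣ 1 + ∑ i ∈ I, rp a (i + 1)

theorem order_split {p : ℕ} (hp : p.Prime) (f : UnitAddCircle → ℝ) (T : ℕ) :
    ∑ t ∈ range (p ^ T), (if t = 0 then 0 else f ((t : ℤ) • eps p T)) =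
    ∑ M ∈ range T, ∑ w ∈ range (p ^ (M + 1)), (if (p : ℤ) ∣ (w : ℤ) then 0 else
      f ((w : ℤ) • eps p (M + 1))) := by
  have hp0 := hp.pos
  induction T with
  | zero => simp
  | succ T ih =>
    rw [sum_range_succ, ← ih]
    have h1 : ∀ t ∈ range (p ^ (T + 1)), (if t = 0 then 0 else f ((t : ℤ) • eps p (T + 1))) =
        (if p ∣ t then (if t = 0 then 0 else f ((t : ℤ) • eps p (T + 1))) else 0) +
        (if (p : ℤ) ∣ (t : ℤ) then 0 else f ((t : ℤ) • eps p (T + 1))) := by
      intro t _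
      by_cases ht : p ∣ t
      · have ht' : (p : ℤ) ∣ (t : ℤ) := by exact_mod_cast ht
        rw [if_pos ht, if_pos ht', add_zero]
      · have ht' : ¬ (p : ℤ) ∣ (t : ℤ) := fun h => ht (by exact_mod_cast h)
        rw [if_neg ht, if_neg ht', zero_add, if_neg]
        rintro rfl
        exact ht (dvd_zero _)
    rw [sum_congr rfl h1, sum_add_distrib]
    congr 1
    rw [← sum_filter]
    have h2 : (range (p ^ (T + 1))).filter (fun t => p ∣ t) =
        (range (p ^ T)).image (fun t => p * t) := by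
      ext t
      rw [mem_filter, mem_image, mem_range]
      constructor
      · rintro ⟨h3, t', rfl⟩
        refine ⟨t', mem_range.2 ?_, rfl⟩
        rw [pow_succ, mul_comm] at h3
        exact lt_of_mul_lt_mul_right h3 (Nat.zero_le _)
      · rintro ⟨t', h3, rfl⟩
        rw [mem_range] at h3
        refine ⟨?_, dvd_mul_right _ _⟩
        rw [pow_succ, mul_comm]
        exact mul_lt_mul_of_pos_right h3 hp0
    rw [h2, sum_image]
    · apply sum_congr rfl
      intro t _
      have e1 : ((p * t : ℕ) : ℤ) • eps p (T + 1) = (t : ℤ) • eps p T := by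
        rw [← eps_succ hp0 T, ← mul_zsmul]
        congr 1
        push_cast
        ring
      rw [e1]
      by_cases ht : t = 0
      · simp [ht]
      · rw [if_neg ht, if_neg]
        exact (Nat.mul_pos hp0 (Nat.pos_of_ne_zero ht)).ne'
    · intro x _ y _ hxy
      exact Nat.eq_of_mul_eq_mul_left hp0 hxy

theorem prod_split (p K s : ℕ) {a n : ℤ} (ha : a + s + 1 = p * n) (θ : UnitAddCircle) :
    ∏ i ∈ range (s + p * K), phi (rp a (i + 1) • θ) =
      (∏ i ∈ range s, phi (rp a (i + 1) • θ)) * FK p K n (rp a (s + 1) • θ) := by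
  rw [prod_range_add]
  congr 1
  unfold FK
  apply prod_congr rfl
  intro i _
  rw [← mul_zsmul]
  congr 2
  have e1 : s + i + 1 = s + 1 + i := by ring
  rw [e1, rp_add, mul_comm]
  congr 2
  push_cast
  linarith

theorem goodA_of_sum {p : ℕ} (hp : p.Prime) (T K s : ℕ) {a n : ℤ} (ha : a + s + 1 = p * n)
    (h : ∑ M ∈ range T, Zs p K (M + 1) s a n < 1) : GoodA p T a := by
  have hp0 := hp.pos
  have h1 : ∑ M ∈ range T, Zs p K (M + 1) s a n =
      ∑ t ∈ range (p ^ T), (if t = 0 then 0 else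
        ∏ i ∈ range (s + p * K), phi (rp a (i + 1) • ((t : ℤ) • eps p T))) := by
    rw [order_split hp (fun θ => ∏ i ∈ range (s + p * K), phi (rp a (i + 1) • θ)) T]
    apply sum_congr rfl
    intro M _
    unfold Zs
    apply sum_congr rfl
    intro w _
    split_ifs
    · rfl
    · rw [prod_split p K s ha]
  rw [h1] at h
  obtain ⟨I, _, hI⟩ := exists_subset_sum (q := p ^ T) (by positivity) 1
    (fun i => rp a (i + 1)) (s + p * K) (by
      refine lt_of_le_of_lt (le_of_eq ?_) h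
      apply sum_congr rfl
      intro t _
      split_ifs
      · rfl
      · apply prod_congr rfl
        intro i _
        congr 1
        rw [← mul_zsmul, zsmul_eps, mul_comm (rp a (i + 1))]
        push_cast
        rfl)
  exact ⟨I, by exact_mod_cast hI⟩

theorem goodA_congr {p T : ℕ} {a a' : ℤ} (h : (p : ℤ) ^ T ∣ a - a') (hg : GoodA p T a) :
    GoodA p T a' := by
  obtain ⟨I, hI⟩ := hg
  refine ⟨I, ?_⟩
  have h1 : (p : ℤ) ^ T ∣ (1 + ∑ i ∈ I, rp a (i + 1)) - (1 + ∑ i ∈ I, rp a' (i + 1)) := by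
    rw [add_sub_add_left_eq_sub, ← sum_sub_distrib]
    exact dvd_sum fun i _ => rp_congr h _
  exact (dvd_congr_left h1).1 hI

theorem U_eq (p K m L : ℕ) (r : ℤ) :
    U p K m L r = ∑ n ∈ range (p ^ m), (if (p : ℤ) ^ L ∣ (n : ℤ) - r then U0 p K m n else 0) := by
  unfold U U0
  apply sum_congr rfl
  intro n _
  by_cases hn : (p : ℤ) ^ L ∣ (n : ℤ) - r
  · rw [if_pos hn]
    apply sum_congr rfl
    intro w _
    unfold term
    by_cases hw : (p : ℤ) ∣ (w : ℤ)
    · rw [if_pos hw, if_neg]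
      exact fun h => h.2 hw
    · rw [if_neg hw, if_pos ⟨hn, hw⟩]
  · rw [if_neg hn]
    apply sum_eq_zero
    intro w _
    unfold term
    rw [if_neg]
    exact fun h => hn h.1

theorem U0_congr {p : ℕ} (hp : 0 < p) {K m : ℕ} {n n' : ℤ} (h : (p : ℤ) ^ m ∣ n - n') :
    U0 p K m n = U0 p K m n' := by
  unfold U0
  apply sum_congr rfl
  intro w _
  split_ifs
  · rfl
  · apply FK_congr hp
    rw [← mul_sub, pow_succ, mul_comm]
    exact mul_dvd_mul_left _ h

/-- sum of `U0` over the `n < p ^ T` avoiding multiples of `p ^ L` just after `n` -/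
theorem sum_U0_le {p : ℕ} (hp : p.Prime) (hGd : Gd p) (hp4 : 4 ≤ p)
    (hlog : 30 * Real.log p ≤ p - 1) {K m L T k0 : ℕ} (hk0 : k0 + 1 ≤ p) (hL1 : 1 ≤ L)
    (hLm : L ≤ m) (hmT : m ≤ T)
    (hK : m ≤ K) (hmL : m + 1 < L * k0) (P : ℕ → Prop) [DecidablePred P]
    (hP : ∀ n, P n → ∀ i < L * k0, ¬ p ^ L ∣ n + 1 + i) :
    ∑ n ∈ range (p ^ T), (if P n then U0 p K m ((n : ℤ) + 1) else 0) ≤
      (p : ℝ) ^ T * Real.exp (-(m : ℝ) / 5 + 6 * L * Real.log p) := by
  classical
  have hp0 := hp.pos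
  have hp0' : (0 : ℝ) < p := by exact_mod_cast hp0
  obtain ⟨V, hV⟩ : ∃ V : ℕ → Prop, V = fun r => ∀ i ≤ m, ¬ p ^ L ∣ r + 1 + i := ⟨_, rfl⟩
  have h1 : ∀ n ∈ range (p ^ T), (if P n then U0 p K m ((n : ℤ) + 1) else 0) ≤
      ∑ r ∈ (range (p ^ L)).filter V, (if (p : ℤ) ^ L ∣ ((n : ℤ) + 1) - r then
        U0 p K m ((n : ℤ) + 1) else 0) := by
    intro n _
    have hnn : ∀ r ∈ (range (p ^ L)).filter V, 0 ≤ (if (p : ℤ) ^ L ∣ ((n : ℤ) + 1) - r then
        U0 p K m ((n : ℤ) + 1) else 0) := by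
      intro r _
      split_ifs
      · exact U0_nonneg _ _ _ _
      · exact le_rfl
    split_ifs with hn
    · have hr0 : (n + 1) % p ^ L ∈ (range (p ^ L)).filter V := by
        rw [mem_filter, mem_range, hV]
        refine ⟨Nat.mod_lt _ (by positivity), fun i hi hd => ?_⟩
        have h2 := hP n hn (i + 1) (by omega)
        apply h2
        have h3 : (n + 1) % p ^ L + 1 + i ≡ n + 1 + (i + 1) [MOD p ^ L] := by
          have h4 : (n + 1) % p ^ L ≡ n + 1 [MOD p ^ L] := Nat.mod_modEq _ _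
          have h5 := h4.add_right (1 + i)
          rw [show n + 1 + (i + 1) = n + 1 + (1 + i) by ring,
            show (n + 1) % p ^ L + 1 + i = (n + 1) % p ^ L + (1 + i) by ring]
          exact h5
        exact (h3.dvd_iff (dvd_refl _)).1 hd
      have h6 : (p : ℤ) ^ L ∣ ((n : ℤ) + 1) - (((n + 1) % p ^ L : ℕ) : ℤ) := by
        push_cast
        exact Int.dvd_self_sub_emod
      have h7 := single_le_sum hnn hr0
      rw [if_pos h6] at h7
      exact h7
    · exact sum_nonneg hnn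
  have h2 : ∀ r ∈ (range (p ^ L)).filter V, ∑ n ∈ range (p ^ T),
      (if (p : ℤ) ^ L ∣ ((n : ℤ) + 1) - r then U0 p K m ((n : ℤ) + 1) else 0) ≤
      (p : ℝ) ^ (T - L) * Real.exp (-(m : ℝ) / 5 + 6 * L * Real.log p) := by
    intro r hr
    rw [mem_filter, mem_range, hV] at hr
    obtain ⟨H, hH⟩ : ∃ H : ℤ → ℝ, H = fun n =>
      (if (p : ℤ) ^ L ∣ n - r then U0 p K m n else 0) := ⟨_, rfl⟩
    have hHper : ∀ x y : ℤ, ((p ^ m : ℕ) : ℤ) ∣ x - y → H x = H y := by
      intro x y h
      push_cast at h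
      have h3 : (p : ℤ) ^ L ∣ (x - r) - (y - r) := by
        rw [sub_sub_sub_cancel_right]
        exact (pow_dvd_pow _ hLm).trans h
      rw [hH]
      simp only [dvd_congr_left h3, U0_congr hp0 h]
    have h3 : ∑ n ∈ range (p ^ T),
      (if (p : ℤ) ^ L ∣ ((n : ℤ) + 1) - r then U0 p K m ((n : ℤ) + 1) else 0) =
      ∑ n ∈ range (p ^ m * p ^ (T - m)), (fun n : ℤ => H (n + 1)) n := by
      have e1 : p ^ m * p ^ (T - m) = p ^ T := by rw [← pow_add]; congr 1; omega
      rw [e1, hH]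
    rw [h3, sum_period (A := p ^ m) (H := fun n : ℤ => H (n + 1)) (by
      intro x y h
      apply hHper
      simpa using h) (p ^ (T - m))]
    rw [sum_perm (q := p ^ m) (by positivity) hHper (σ := fun n => n + 1) (by
      intro x y h
      simpa using h)]
    have h4 : ∑ w ∈ range (p ^ m), H w = U p K m L r := by rw [U_eq, hH]
    rw [h4]
    have hLr : L * k0 ≤ p ^ L * (p - 1) := by
      apply Nat.mul_le_mul
      · exact (Nat.lt_pow_self hp.one_lt).le
      · omega
    have h5 := U_bound hp hGd hp4 hlog (K := K) (m := m) (L := L) (r := r) hL1 hLm hK ?_ hr.2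
    · calc _ ≤ ((p ^ (T - m) : ℕ) : ℝ) * ((p : ℝ) ^ (m - L) *
            Real.exp (-(m : ℝ) / 5 + 6 * L * Real.log p)) :=
          mul_le_mul_of_nonneg_left h5 (by positivity)
        _ = _ := by
          push_cast
          rw [← mul_assoc, ← pow_add]
          congr 2
          omega
    · have h6 : p ^ L + p ^ L * (p - 1) = p ^ (L + 1) := by
        obtain ⟨q, rfl⟩ : ∃ q, p = q + 1 := ⟨p - 1, by omega⟩
        rw [Nat.add_sub_cancel]; ring
      have := hr.1
      omega
  calc _ ≤ ∑ n ∈ range (p ^ T), ∑ r ∈ (range (p ^ L)).filter V,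
        (if (p : ℤ) ^ L ∣ ((n : ℤ) + 1) - r then U0 p K m ((n : ℤ) + 1) else 0) := sum_le_sum h1
    _ = ∑ r ∈ (range (p ^ L)).filter V, ∑ n ∈ range (p ^ T),
        (if (p : ℤ) ^ L ∣ ((n : ℤ) + 1) - r then U0 p K m ((n : ℤ) + 1) else 0) := sum_comm
    _ ≤ ∑ r ∈ (range (p ^ L)).filter V,
        (p : ℝ) ^ (T - L) * Real.exp (-(m : ℝ) / 5 + 6 * L * Real.log p) := sum_le_sum h2
    _ ≤ ∑ r ∈ range (p ^ L),
        (p : ℝ) ^ (T - L) * Real.exp (-(m : ℝ) / 5 + 6 * L * Real.log p) := by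
      apply sum_le_sum_of_subset_of_nonneg (filter_subset _ _)
      intro _ _ _
      positivity
    _ = _ := by
      rw [sum_const, card_range, nsmul_eq_mul]
      push_cast
      rw [← mul_assoc, ← pow_add]
      congr 2
      omega

end Pool.Agent.FacLarge
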