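import Pool.Agent.FacLarge.Norm2
import Pool.Agent.FacLarge.Tot

/-!
Deterministic crossing of multiples of `p` of bounded valuation.
-/

set_option autoImplicit false

namespace Pool.Agent.FacLarge

open Finset

def GE (p : ℕ) (ε : ℝ) (E K : ℕ) : Prop := ∀ e, 1 ≤ e → e ≤ E → ∀ (A : ℤ) (s : ℕ), s ≤ p →
    (p : ℝ) ^ ε ≤ s → ∀ c : ℕ → ℤ, (∀ i < s, ¬ (p : ℤ) ∣ c i) →
    (∀ i, i + 1 < s → (p : ℤ) ^ e ∣ c (i + 1) - (A + i + 1) * c i) →
    (K : ℝ) * Real.log p < ∑ i ∈ range s, ‖(c i) • eps p e‖ ^ 2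

theorem exists_GE {ε : ℝ} (hε : 0 < ε) (hε1 : ε ≤ 1) (E K : ℕ) :
    ∃ P0 : ℕ, ∀ p : ℕ, P0 ≤ p → p.Prime → GE p ε E K := by
  induction E with
  | zero => exact ⟨0, fun p _ _ e h1 h2 => absurd h1 (by omega)⟩
  | succ E ih =>
    obtain ⟨P1, h1⟩ := ih
    obtain ⟨P2, h2⟩ := normSq_sum_gt2 hε hε1 (e := E + 1) (by omega) (K : ℝ)
    refine ⟨max P1 P2, fun p hp hpp e he1 he2 => ?_⟩
    by_cases he : e = E + 1
    · rw [he]
      exact h2 p (le_trans (le_max_right _ _) hp) hpp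
    · exact h1 p (le_trans (le_max_left _ _) hp) hpp e he1 (by omega)

theorem GE.gd {p : ℕ} (hp : p.Prime) {ε : ℝ} (hε : ε ≤ 83 / 100) {E K : ℕ} (hE : 1 ≤ E)
    (hK : 54 ≤ K) (h : GE p ε E K) : Gd p := by
  intro b s hbs hs c h0 hrec
  have hp1 : (1 : ℝ) ≤ p := by exact_mod_cast hp.one_lt.le
  have h1 := h 1 le_rfl hE (b : ℤ) s (by omega)
    ((Real.rpow_le_rpow_of_exponent_le hp1 hε).trans hs) c (not_dvd_c hp hbs h0 hrec) (by
      intro i hi
      have := hrec i hi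
      rw [pow_one]
      push_cast at this
      exact this)
  have hlog : 0 ≤ Real.log p := Real.log_natCast_nonneg p
  have h2 : (54 : ℝ) * Real.log p ≤ (K : ℝ) * Real.log p :=
    mul_le_mul_of_nonneg_right (by exact_mod_cast hK) hlog
  linarith

section

variable {p : ℕ} {ε : ℝ} {E K : ℕ}

theorem gblock_death (hp : p.Prime) (hG : GE p ε E K) {e : ℕ} (he1 : 1 ≤ e) (heE : e ≤ E)
    {A : ℤ} {s : ℕ} (hs : s ≤ p) (hs' : (p : ℝ) ^ ε ≤ s) {c : ℕ → ℤ}
    (h0 : ∀ i < s, ¬ (p : ℤ) ∣ c i)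
    (hrec : ∀ i, i + 1 < s → c (i + 1) = (A + i + 1) * c i) :
    ∏ i ∈ range s, phi ((c i) • eps p e) ≤ ((p : ℝ) ^ (2 * K))⁻¹ := by
  apply prod_phi_le_inv_pow hp.one_lt.le
  have := hG e he1 heE A s hs hs' c h0 (by
    intro i hi
    rw [hrec i hi, sub_self]
    exact dvd_zero _)
  push_cast
  linarith

/-- decomposition of a nonzero number below `p ^ v` -/
theorem exists_pow_mul {p : ℕ} (hp : p.Prime) {v : ℕ} {z : ℤ} (hz : z ≠ 0)
    (hzv : |z| < (p : ℤ) ^ v) : ∃ (j : ℕ) (u : ℤ), j < v ∧ z = p ^ j * u ∧ ¬ (p : ℤ) ∣ u := by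
  have hfin : FiniteMultiplicity (p : ℤ) z := by
    apply Int.finiteMultiplicity_iff.2
    refine ⟨?_, hz⟩
    have := hp.one_lt
    simp only [Int.natAbs_natCast]
    omega
  obtain ⟨u, hu1, hu2⟩ := hfin.exists_eq_pow_mul_and_not_dvd
  refine ⟨multiplicity (p : ℤ) z, u, ?_, hu1, hu2⟩
  by_contra hcon
  rw [not_lt] at hcon
  have h1 : (p : ℤ) ^ v ∣ z := by
    rw [hu1]
    exact (pow_dvd_pow _ hcon).mul_right _
  exact hz (Int.eq_zero_of_abs_lt_dvd h1 hzv)

theorem gblock_one (hp : p.Prime) (hG : GE p ε E K) {Q : ℕ} (hK : 2 * (E + Q) ≤ K)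
    {v : ℕ} (hvE : v ≤ E)
    {A : ℤ} {s : ℕ} (hs : s ≤ p) (hs' : (p : ℝ) ^ ε ≤ s) {c : ℕ → ℤ}
    (h0 : ∀ i < s, ¬ (p : ℤ) ∣ c i)
    (hrec : ∀ i, i + 1 < s → c (i + 1) = (A + i + 1) * c i)
    (x : ℕ → UnitAddCircle) :
    ∑ t ∈ range (p ^ v), ∏ i ∈ range s, phi (x i + ((t : ℤ) * c i) • eps p v) ≤
      1 + ((p : ℝ) ^ Q)⁻¹ := by
  have hp0 : (0 : ℝ) < p := by exact_mod_cast hp.pos
  have hp1 : (1 : ℝ) ≤ p := by exact_mod_cast hp.one_lt.le
  have hlog : 0 ≤ Real.log p := Real.log_natCast_nonneg p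
  have hpv : 0 < p ^ v := Nat.pow_pos hp.pos
  obtain ⟨t0, ht0, hmin⟩ := exists_min_image (range (p ^ v))
    (fun t => ∑ i ∈ range s, ‖x i + ((t : ℤ) * c i) • eps p v‖ ^ 2)
    ⟨0, mem_range.2 hpv⟩
  rw [← add_sum_erase _ _ ht0]
  apply add_le_add (prod_phi_le_one _ _)
  have h1 : ∀ t ∈ (range (p ^ v)).erase t0,
      ∏ i ∈ range s, phi (x i + ((t : ℤ) * c i) • eps p v) ≤ ((p : ℝ) ^ (E + Q))⁻¹ := by
    intro t ht
    rw [mem_erase, mem_range] at ht
    rw [mem_range] at ht0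
    have h2 := hmin t (mem_range.2 ht.2)
    have htv : (t : ℤ) < (p : ℤ) ^ v := by exact_mod_cast ht.2
    have ht0v : (t0 : ℤ) < (p : ℤ) ^ v := by exact_mod_cast ht0
    obtain ⟨j, u, hj, hju, hu⟩ := exists_pow_mul hp (z := (t : ℤ) - t0) (v := v)
      (by intro h; apply ht.1; omega) (by rw [abs_lt]; constructor <;> omega)
    have h3 := hG (v - j) (by omega) (by omega) A s hs hs' (fun i => u * c i) ?_ ?_
    · apply prod_phi_le_inv_pow hp.one_lt.le
      have h4 : ∑ i ∈ range s, ‖(u * c i) • eps p (v - j)‖ ^ 2 ≤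
          2 * (∑ i ∈ range s, ‖x i + ((t : ℤ) * c i) • eps p v‖ ^ 2 +
            ∑ i ∈ range s, ‖x i + ((t0 : ℤ) * c i) • eps p v‖ ^ 2) := by
        rw [← sum_add_distrib, mul_sum]
        apply sum_le_sum
        intro i _
        have h5 : (u * c i) • eps p (v - j) =
            (x i + ((t : ℤ) * c i) • eps p v) - (x i + ((t0 : ℤ) * c i) • eps p v) := by
          have e1 : (x i + ((t : ℤ) * c i) • eps p v) - (x i + ((t0 : ℤ) * c i) • eps p v) =
              (((t : ℤ) - t0) * c i) • eps p v := by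
            rw [sub_mul, sub_zsmul]; abel
          have e2 := pow_zsmul_eps hp.pos (v - j) j
          rw [show v - j + j = v by omega] at e2
          rw [e1, hju, ← e2, ← mul_zsmul]
          congr 1
          ring
        rw [h5]
        exact norm_sub_sq_le _ _
      have h6 : (2 * ((E + Q : ℕ) : ℝ)) * Real.log p ≤ (K : ℝ) * Real.log p := by
        apply mul_le_mul_of_nonneg_right _ hlog
        exact_mod_cast hK
      linarith
    · intro i hi h
      rcases (Nat.prime_iff_prime_int.1 hp).dvd_or_dvd h with h5 | h5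
      · exact hu h5
      · exact h0 i hi h5
    · intro i hi
      have e1 : u * c (i + 1) - (A + i + 1) * (u * c i) = 0 := by
        rw [hrec i hi]; ring
      rw [e1]
      exact dvd_zero _
  calc _ ≤ ∑ t ∈ (range (p ^ v)).erase t0, ((p : ℝ) ^ (E + Q))⁻¹ := sum_le_sum h1
    _ = ((range (p ^ v)).erase t0).card * ((p : ℝ) ^ (E + Q))⁻¹ := by
      rw [sum_const, nsmul_eq_mul]
    _ ≤ (p : ℝ) ^ E * ((p : ℝ) ^ (E + Q))⁻¹ := by
      apply mul_le_mul_of_nonneg_right _ (by positivity)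
      have := card_erase_le (s := range (p ^ v)) (a := t0)
      rw [card_range] at this
      calc ((((range (p ^ v)).erase t0).card : ℕ) : ℝ) ≤ ((p ^ v : ℕ) : ℝ) := by
            exact_mod_cast this
        _ = (p : ℝ) ^ v := by push_cast; rfl
        _ ≤ _ := pow_le_pow_right₀ hp1 hvE
    _ = ((p : ℝ) ^ Q)⁻¹ := by
      rw [pow_add]
      field_simp

theorem gdown (hp : p.Prime) (m v : ℕ) {g : ℤ} (hg : ¬ (p : ℤ) ∣ g)
    (G : UnitAddCircle → ℝ) :
    ∑ w ∈ range (p ^ (m + 1 + v)), (if (p : ℤ) ∣ (w : ℤ) then 0 else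
      G ((g * p ^ v) • ((w : ℤ) • eps p (m + 1 + v)))) =
    (p : ℝ) ^ v * ∑ w ∈ range (p ^ (m + 1)), (if (p : ℤ) ∣ (w : ℤ) then 0 else
      G ((w : ℤ) • eps p (m + 1))) := by
  have hp0 := hp.pos
  obtain ⟨H, hH⟩ : ∃ H : ℤ → ℝ, H = fun z =>
      if (p : ℤ) ∣ z then 0 else G (z • eps p (m + 1)) := ⟨_, rfl⟩
  have hHper : ∀ x y : ℤ, ((p ^ (m + 1) : ℕ) : ℤ) ∣ x - y → H x = H y := by
    intro x y h
    rw [hH]
    push_cast at h
    have h1 : (p : ℤ) ∣ x - y := (dvd_pow_self _ (by omega)).trans h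
    simp only [zsmul_eps_congr hp0 h, dvd_congr_left h1]
  have h1 : ∀ w ∈ range (p ^ (m + 1 + v)), (if (p : ℤ) ∣ (w : ℤ) then 0 else
      G ((g * p ^ v) • ((w : ℤ) • eps p (m + 1 + v)))) = (fun w : ℤ => H (g * w)) w := by
    intro w _
    have e1 : (g * p ^ v) • ((w : ℤ) • eps p (m + 1 + v)) = (g * w) • eps p (m + 1) := by
      rw [← mul_zsmul]
      have e2 : g * (p : ℤ) ^ v * w = g * w * p ^ v := by ring
      rw [e2, mul_zsmul, pow_zsmul_eps hp0 (m + 1) v]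
    rw [e1]
    simp only [hH]
    have e4 : (p : ℤ) ∣ g * w ↔ (p : ℤ) ∣ w := by
      constructor
      · intro h
        exact ((Nat.prime_iff_prime_int.1 hp).dvd_or_dvd h).resolve_left hg
      · intro h; exact h.mul_left _
    simp only [e4]
  rw [sum_congr rfl h1]
  have e5 : p ^ (m + 1 + v) = p ^ (m + 1) * p ^ v := by rw [pow_add]
  rw [e5]
  have h2 := sum_period (A := p ^ (m + 1)) (H := fun w : ℤ => H (g * w)) ?_ (p ^ v)
  · rw [h2]
    have h3 := sum_perm (q := p ^ (m + 1)) (by positivity) hHper (σ := fun w => g * w) ?_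
    · rw [h3, hH]
      push_cast
      rfl
    · intro x y hxy
      rw [← mul_sub] at hxy
      have hcop : IsCoprime (((p ^ (m + 1) : ℕ) : ℤ)) g := by
        push_cast
        apply IsCoprime.pow_left
        exact (Nat.prime_iff_prime_int.1 hp).coprime_iff_not_dvd.2 hg
      exact hcop.dvd_of_dvd_mul_left hxy
  · intro x y hxy
    apply hHper
    rw [← mul_sub]
    exact hxy.mul_left _

theorem gdet_step (hp : p.Prime) (hGE : GE p ε E K) {Q : ℕ} (hK : 2 * (E + Q) ≤ K)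
    (m : ℕ) {v : ℕ} (hvE : v ≤ E)
    {A : ℤ} {s : ℕ} (hs : s ≤ p) (hs' : (p : ℝ) ^ ε ≤ s) {c : ℕ → ℤ}
    (h0 : ∀ i < s, ¬ (p : ℤ) ∣ c i)
    (hrec : ∀ i, i + 1 < s → c (i + 1) = (A + i + 1) * c i)
    {g : ℤ} (hg : ¬ (p : ℤ) ∣ g) (G : UnitAddCircle → ℝ) (hG0 : ∀ θ, 0 ≤ G θ) :
    ∑ w ∈ range (p ^ (m + 1 + v)), (if (p : ℤ) ∣ (w : ℤ) then 0 else
      (∏ i ∈ range s, phi (c i • ((w : ℤ) • eps p (m + 1 + v)))) *
      G ((g * p ^ v) • ((w : ℤ) • eps p (m + 1 + v)))) ≤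
    (1 + ((p : ℝ) ^ Q)⁻¹) * ∑ w ∈ range (p ^ (m + 1)), (if (p : ℤ) ∣ (w : ℤ) then 0 else
      G ((w : ℤ) • eps p (m + 1))) := by
  have hp0 := hp.pos
  have hp0' : (0 : ℝ) < (p : ℝ) ^ v := by
    have : (0 : ℝ) < p := by exact_mod_cast hp0
    positivity
  obtain ⟨F, hF⟩ : ∃ F : ℤ → ℝ, F = fun w => (if (p : ℤ) ∣ w then 0 else
      (∏ i ∈ range s, phi (c i • (w • eps p (m + 1 + v)))) *
      G ((g * p ^ v) • (w • eps p (m + 1 + v)))) := ⟨_, rfl⟩
  have hFper : ∀ x y : ℤ, ((p ^ (m + 1 + v) : ℕ) : ℤ) ∣ x - y → F x = F y := by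
    intro x y h
    rw [hF]
    push_cast at h
    have h1 : (p : ℤ) ∣ x - y := (dvd_pow_self _ (by omega)).trans h
    simp only [zsmul_eps_congr hp0 h, dvd_congr_left h1]
  have hkey : ((p ^ v : ℕ) : ℝ) * ∑ w ∈ range (p ^ (m + 1 + v)), F w ≤
      (1 + ((p : ℝ) ^ Q)⁻¹) * ∑ w ∈ range (p ^ (m + 1 + v)), (if (p : ℤ) ∣ (w : ℤ) then 0 else
      G ((g * p ^ v) • ((w : ℤ) • eps p (m + 1 + v)))) := by
    have h1 : ((p ^ v : ℕ) : ℝ) * ∑ w ∈ range (p ^ (m + 1 + v)), F w =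
        ∑ t ∈ range (p ^ v), ∑ w ∈ range (p ^ (m + 1 + v)), F (w + p ^ (m + 1) * (t : ℤ)) := by
      have h2 : ∀ t ∈ range (p ^ v), ∑ w ∈ range (p ^ (m + 1 + v)), F (w + p ^ (m + 1) * (t : ℤ)) =
          ∑ w ∈ range (p ^ (m + 1 + v)), F w := by
        intro t _
        refine sum_perm (q := p ^ (m + 1 + v)) (by positivity) (H := F) hFper
          (σ := fun w => w + p ^ (m + 1) * (t : ℤ)) ?_
        intro x y hxy
        simpa using hxy
      rw [sum_congr rfl h2, sum_const, card_range, nsmul_eq_mul]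
    rw [h1, sum_comm, mul_sum]
    apply sum_le_sum
    intro w _
    by_cases hw : (p : ℤ) ∣ (w : ℤ)
    · rw [if_pos hw, mul_zero]
      apply le_of_eq
      apply sum_eq_zero
      intro t _
      rw [hF]
      simp only
      rw [if_pos]
      exact dvd_add hw ((dvd_pow_self _ (by omega)).mul_right _)
    · rw [if_neg hw]
      have h3 : ∀ t ∈ range (p ^ v), F (w + p ^ (m + 1) * (t : ℤ)) =
          (∏ i ∈ range s, phi (c i • ((w : ℤ) • eps p (m + 1 + v)) +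
            ((t : ℤ) * c i) • eps p v)) *
          G ((g * p ^ v) • ((w : ℤ) • eps p (m + 1 + v))) := by
        intro t _
        rw [hF]
        simp only
        have e0 : ((w : ℤ) + p ^ (m + 1) * (t : ℤ)) • eps p (m + 1 + v) =
            (w : ℤ) • eps p (m + 1 + v) + (t : ℤ) • eps p v := by
          rw [add_zsmul]
          congr 1
          have := pow_zsmul_eps hp0 v (m + 1)
          rw [show v + (m + 1) = m + 1 + v by ring] at this
          rw [mul_comm, mul_zsmul, this]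
        rw [if_neg, e0]
        · congr 1
          · apply prod_congr rfl
            intro i _
            rw [zsmul_add, ← mul_zsmul (eps p v), mul_comm (c i) (t : ℤ)]
          · rw [zsmul_add]
            have e1 : (g * (p : ℤ) ^ v) • ((t : ℤ) • eps p v) = 0 := by
              rw [← mul_zsmul]
              apply zsmul_eps_eq_zero hp0
              exact ⟨g * t, by ring⟩
            rw [e1, add_zero]
        · intro h
          apply hw
          have h4 : (p : ℤ) ∣ (w : ℤ) + p ^ (m + 1) * t - w := by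
            rw [add_sub_cancel_left]
            exact (dvd_pow_self _ (by omega)).mul_right _
          exact (dvd_congr_left h4).1 h
      rw [sum_congr rfl h3, ← sum_mul]
      apply mul_le_mul_of_nonneg_right _ (hG0 _)
      exact gblock_one hp hGE hK hvE hs hs' h0 hrec _
  rw [gdown hp m v hg G] at hkey
  push_cast at hkey
  have h6 : (p : ℝ) ^ v * ∑ w ∈ range (p ^ (m + 1 + v)), F w ≤ (p : ℝ) ^ v *
      ((1 + ((p : ℝ) ^ Q)⁻¹) * ∑ w ∈ range (p ^ (m + 1)), (if (p : ℤ) ∣ (w : ℤ) then 0 else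
      G ((w : ℤ) • eps p (m + 1)))) := by
    calc _ ≤ _ := hkey
      _ = _ := by ring
  have h7 := le_of_mul_le_mul_left h6 hp0'
  rw [hF] at h7
  exact h7

end

end Pool.Agent.FacLarge
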