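import Pool.Agent.FacLarge.Det2

/-!
Deterministic bounds for all deaths.
-/

set_option autoImplicit false

namespace Pool.Agent.FacLarge

open Finset

section

variable {p : ℕ} {ε : ℝ} {E K : ℕ}

theorem rpow_le_self' (hp : 1 ≤ p) (hε : ε ≤ 1) : (p : ℝ) ^ ε ≤ p := by
  have h : (1 : ℝ) ≤ p := by exact_mod_cast hp
  calc (p : ℝ) ^ ε ≤ (p : ℝ) ^ (1 : ℝ) := Real.rpow_le_rpow_of_exponent_le h hε
    _ = p := Real.rpow_one _

theorem exists_val {p : ℕ} {m : ℕ} {z : ℤ} (h : ¬ (p : ℤ) ^ m ∣ z) :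
    ∃ f < m, (p : ℤ) ^ f ∣ z ∧ ¬ (p : ℤ) ^ (f + 1) ∣ z := by
  classical
  have hex : ∃ k, ¬ (p : ℤ) ^ k ∣ z := ⟨m, h⟩
  obtain ⟨k, hk⟩ : ∃ k, k = Nat.find hex := ⟨_, rfl⟩
  have h1 : ¬ (p : ℤ) ^ k ∣ z := by rw [hk]; exact Nat.find_spec hex
  have h2 : k ≤ m := by rw [hk]; exact Nat.find_min' hex h
  have hk0 : k ≠ 0 := by
    rintro h3
    apply h1
    rw [h3, pow_zero]
    exact one_dvd _
  have h4 : (p : ℤ) ^ (k - 1) ∣ z := by
    by_contra h5
    have h6 := Nat.find_min' hex h5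
    omega
  refine ⟨k - 1, by omega, h4, ?_⟩
  rw [show k - 1 + 1 = k by omega]
  exact h1

theorem gU0_death (hp : p.Prime) (hε : ε ≤ 1) (hGE : GE p ε E K) (K' : ℕ) {m : ℕ}
    (hm : m + 1 ≤ E) (n : ℤ) :
    U0 p (K' + 1) m n ≤ (p : ℝ) ^ E * ((p : ℝ) ^ (2 * K))⁻¹ := by
  have hp1 : (1 : ℝ) ≤ p := by exact_mod_cast hp.one_lt.le
  unfold U0
  calc _ ≤ ∑ w ∈ range (p ^ (m + 1)), ((p : ℝ) ^ (2 * K))⁻¹ := by
        apply sum_le_sum
        intro w _
        split_ifs with hw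
        · positivity
        · rw [FK_succ]
          refine (mul_le_of_le_one_right (prod_phi_nonneg _ _) (FK_le_one _ _ _ _)).trans ?_
          have h1 := gblock_death hp hGE (e := m + 1) (by omega) hm (A := p * n) (s := p) le_rfl
            (rpow_le_self' hp.one_lt.le hε)
            (c := fun i => rp (p * n) i * w) ?_ ?_
          · refine le_trans (le_of_eq ?_) h1
            apply prod_congr rfl
            intro i _
            rw [← mul_zsmul]
          · intro i hi h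
            rcases (Nat.prime_iff_prime_int.1 hp).dvd_or_dvd h with h5 | h5
            · exact not_dvd_rp hp n hi h5
            · exact hw h5
          · intro i _
            simp only [rp_succ]
            ring
    _ = (p : ℝ) ^ (m + 1) * ((p : ℝ) ^ (2 * K))⁻¹ := by
      rw [sum_const, card_range, nsmul_eq_mul]
      push_cast
      rfl
    _ ≤ _ := by
      apply mul_le_mul_of_nonneg_right _ (by positivity)
      exact pow_le_pow_right₀ hp1 hm

theorem gU0_step (hp : p.Prime) (hε : ε ≤ 1) (hGE : GE p ε E K) {Q : ℕ}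
    (hK : 2 * (E + Q) ≤ K) (K' m : ℕ) {f : ℕ} (hfE : f + 1 ≤ E) {n : ℤ}
    (h1 : (p : ℤ) ^ f ∣ n + 1) (h2 : ¬ (p : ℤ) ^ (f + 1) ∣ n + 1) :
    U0 p (K' + 1) (m + (f + 1)) n ≤ (1 + ((p : ℝ) ^ Q)⁻¹) * U0 p K' m (n + 1) := by
  have hp0 := hp.pos
  obtain ⟨u, hu⟩ := h1
  have hud : ¬ (p : ℤ) ∣ u := by
    rintro ⟨y, hy⟩
    apply h2
    rw [hu, hy]
    exact ⟨y, by ring⟩
  obtain ⟨g, hg⟩ : ∃ g : ℤ, g = rp (p * n) (p - 1) * u := ⟨_, rfl⟩
  have hgd : ¬ (p : ℤ) ∣ g := by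
    rw [hg]
    intro h
    rcases (Nat.prime_iff_prime_int.1 hp).dvd_or_dvd h with h1 | h1
    · exact not_dvd_rp hp n (by omega) h1
    · exact hud h1
  have h3 := gdet_step hp hGE hK m (v := f + 1) hfE (A := p * n) (s := p) le_rfl
    (rpow_le_self' hp.one_lt.le hε)
    (c := fun i => rp (p * n) i) (fun i hi => not_dvd_rp hp n hi)
    (by intro i _; simp only [rp_succ]; ring) hgd (FK p K' (n + 1)) (FK_nonneg p K' (n + 1))
  refine le_trans (le_of_eq ?_) h3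
  unfold U0
  rw [show m + (f + 1) + 1 = m + 1 + (f + 1) by ring]
  apply sum_congr rfl
  intro w _
  split_ifs
  · rfl
  · rw [FK_succ]
    have e1 : rp (p * n) p = g * p ^ (f + 1) := by rw [rp_self hp0, hu, hg]; ring
    rw [e1]

theorem gU0_bound (hp : p.Prime) (hε : ε ≤ 1) (hGE : GE p ε E K) {Q : ℕ}
    (hK : 2 * (E + Q) ≤ K) (m : ℕ) : ∀ (K' : ℕ) (n : ℤ), m < K' →
    (m + 1 ≤ E ∨ ∀ i : ℕ, i ≤ m → ¬ (p : ℤ) ^ E ∣ n + 1 + i) →
    U0 p K' m n ≤ (1 + ((p : ℝ) ^ Q)⁻¹) ^ m * ((p : ℝ) ^ E * ((p : ℝ) ^ (2 * K))⁻¹) := by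
  induction m using Nat.strong_induction_on with
  | _ m ih =>
    intro K' n hK' hcond
    obtain ⟨K'', rfl⟩ : ∃ K'', K' = K'' + 1 := ⟨K' - 1, by omega⟩
    have hone : (1 : ℝ) ≤ 1 + ((p : ℝ) ^ Q)⁻¹ := by
      have : (0 : ℝ) ≤ ((p : ℝ) ^ Q)⁻¹ := by positivity
      linarith
    by_cases hdeath : (p : ℤ) ^ m ∣ n + 1
    · have hmE : m + 1 ≤ E := by
        rcases hcond with h | h
        · exact h
        · by_contra hcon
          apply h 0 (Nat.zero_le _)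
          rw [Nat.cast_zero, add_zero]
          exact (pow_dvd_pow _ (by omega)).trans hdeath
      refine (gU0_death hp hε hGE K'' hmE n).trans ?_
      exact le_mul_of_one_le_left (by positivity) (one_le_pow₀ hone)
    · obtain ⟨f, hfm, hf1, hf2⟩ := exists_val hdeath
      have hfE : f + 1 ≤ E := by
        rcases hcond with h | h
        · omega
        · by_contra hcon
          apply h 0 (Nat.zero_le _)
          rw [Nat.cast_zero, add_zero]
          exact (pow_dvd_pow _ (by omega)).trans hf1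
      obtain ⟨m', hm'⟩ : ∃ m', m = m' + (f + 1) := ⟨m - (f + 1), by omega⟩
      have h3 := gU0_step hp hε hGE hK K'' m' hfE hf1 hf2
      rw [← hm'] at h3
      have h4 := ih m' (by omega) K'' (n + 1) (by omega) (by
        rcases hcond with h | h
        · left; omega
        · right
          intro i hi
          have := h (i + 1) (by omega)
          push_cast at this
          rw [show n + 1 + 1 + (i : ℤ) = n + 1 + (i + 1) by ring]
          exact this)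
      calc _ ≤ _ := h3
        _ ≤ (1 + ((p : ℝ) ^ Q)⁻¹) *
            ((1 + ((p : ℝ) ^ Q)⁻¹) ^ m' * ((p : ℝ) ^ E * ((p : ℝ) ^ (2 * K))⁻¹)) :=
          mul_le_mul_of_nonneg_left h4 (by linarith)
        _ = (1 + ((p : ℝ) ^ Q)⁻¹) ^ (m' + 1) * ((p : ℝ) ^ E * ((p : ℝ) ^ (2 * K))⁻¹) := by ring
        _ ≤ _ := by
          apply mul_le_mul_of_nonneg_right _ (by positivity)
          exact pow_le_pow_right₀ hone (by omega)

/-! ### the first, partial block -/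

theorem gZs_death (hp : p.Prime) (hGE : GE p ε E K) (K' : ℕ) {M : ℕ}
    (hM1 : 1 ≤ M) (hME : M ≤ E) {a n : ℤ} {s : ℕ} (hs : s < p) (ha : a + s + 1 = p * n)
    (hs' : (p : ℝ) ^ ε ≤ s) :
    Zs p K' M s a n ≤ (p : ℝ) ^ E * ((p : ℝ) ^ (2 * K))⁻¹ := by
  have hp1 : (1 : ℝ) ≤ p := by exact_mod_cast hp.one_lt.le
  unfold Zs
  calc _ ≤ ∑ w ∈ range (p ^ M), ((p : ℝ) ^ (2 * K))⁻¹ := by
        apply sum_le_sum
        intro w _
        split_ifs with hw
        · positivity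
        · refine (mul_le_of_le_one_right (prod_phi_nonneg _ _) (FK_le_one _ _ _ _)).trans ?_
          have h1 := gblock_death hp hGE (e := M) hM1 hME (A := a + 1) (s := s) hs.le hs'
            (c := fun i => rp a (i + 1) * w) ?_ ?_
          · refine le_trans (le_of_eq ?_) h1
            apply prod_congr rfl
            intro i _
            rw [← mul_zsmul]
          · intro i hi h
            rcases (Nat.prime_iff_prime_int.1 hp).dvd_or_dvd h with h5 | h5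
            · exact not_dvd_rp_partial hp hs ha (by omega) h5
            · exact hw h5
          · intro i _
            simp only [rp_succ a (i + 1)]
            push_cast
            ring
    _ = (p : ℝ) ^ M * ((p : ℝ) ^ (2 * K))⁻¹ := by
      rw [sum_const, card_range, nsmul_eq_mul]
      push_cast
      rfl
    _ ≤ _ := by
      apply mul_le_mul_of_nonneg_right _ (by positivity)
      exact pow_le_pow_right₀ hp1 hME

theorem gZs_step (hp : p.Prime) (hGE : GE p ε E K) {Q : ℕ}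
    (hK : 2 * (E + Q) ≤ K) (K' m : ℕ) {f : ℕ} (hfE : f + 1 ≤ E) {a n : ℤ} {s : ℕ} (hs : s < p)
    (ha : a + s + 1 = p * n) (hs' : (p : ℝ) ^ ε ≤ s)
    (h1 : (p : ℤ) ^ f ∣ n) (h2 : ¬ (p : ℤ) ^ (f + 1) ∣ n) :
    Zs p K' (m + 1 + (f + 1)) s a n ≤ (1 + ((p : ℝ) ^ Q)⁻¹) * U0 p K' m n := by
  obtain ⟨u, hu⟩ := h1
  have hud : ¬ (p : ℤ) ∣ u := by
    rintro ⟨y, hy⟩
    apply h2
    rw [hu, hy]
    exact ⟨y, by ring⟩
  obtain ⟨g, hg⟩ : ∃ g : ℤ, g = rp a s * u := ⟨_, rfl⟩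
  have hgd : ¬ (p : ℤ) ∣ g := by
    rw [hg]
    intro h
    rcases (Nat.prime_iff_prime_int.1 hp).dvd_or_dvd h with h1 | h1
    · exact not_dvd_rp_partial hp hs ha le_rfl h1
    · exact hud h1
  have h3 := gdet_step hp hGE hK m (v := f + 1) hfE (A := a + 1) (s := s) hs.le hs'
    (c := fun i => rp a (i + 1)) (fun i hi => not_dvd_rp_partial hp hs ha (by omega))
    (by intro i _; simp only [rp_succ a (i + 1)]; push_cast; ring) hgd (FK p K' n)
    (FK_nonneg p K' n)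
  refine le_trans (le_of_eq ?_) h3
  unfold Zs
  apply sum_congr rfl
  intro w _
  split_ifs
  · rfl
  · have e1 : rp a (s + 1) = g * p ^ (f + 1) := by rw [rp_succ, ha, hu, hg]; ring
    rw [e1]

theorem gZs_trivial (hp : p.Prime) (K' m : ℕ) {f : ℕ} {a n : ℤ} {s : ℕ} (hs : s < p)
    (ha : a + s + 1 = p * n)
    (h1 : (p : ℤ) ^ f ∣ n) (h2 : ¬ (p : ℤ) ^ (f + 1) ∣ n) :
    Zs p K' (m + 1 + (f + 1)) s a n ≤ (p : ℝ) ^ (f + 1) * U0 p K' m n := by
  obtain ⟨u, hu⟩ := h1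
  have hud : ¬ (p : ℤ) ∣ u := by
    rintro ⟨y, hy⟩
    apply h2
    rw [hu, hy]
    exact ⟨y, by ring⟩
  obtain ⟨g, hg⟩ : ∃ g : ℤ, g = rp a s * u := ⟨_, rfl⟩
  have hgd : ¬ (p : ℤ) ∣ g := by
    rw [hg]
    intro h
    rcases (Nat.prime_iff_prime_int.1 hp).dvd_or_dvd h with h1 | h1
    · exact not_dvd_rp_partial hp hs ha le_rfl h1
    · exact hud h1
  have h3 := gdown hp m (f + 1) hgd (FK p K' n)
  have h4 : Zs p K' (m + 1 + (f + 1)) s a n ≤
      ∑ w ∈ range (p ^ (m + 1 + (f + 1))), (if (p : ℤ) ∣ (w : ℤ) then 0 else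
      FK p K' n ((g * p ^ (f + 1)) • ((w : ℤ) • eps p (m + 1 + (f + 1))))) := by
    unfold Zs
    apply sum_le_sum
    intro w _
    split_ifs
    · exact le_rfl
    · have e1 : rp a (s + 1) = g * p ^ (f + 1) := by rw [rp_succ, ha, hu, hg]; ring
      rw [e1]
      exact mul_le_of_le_one_left (FK_nonneg _ _ _ _) (prod_phi_le_one _ _)
  rw [h3] at h4
  exact h4

theorem gZs_bound (hp : p.Prime) (hε : ε ≤ 1) (hGE : GE p ε E K) {Q : ℕ}
    (hK : 2 * (E + Q) ≤ K) (M K' : ℕ) (hMK : M ≤ K') {a n : ℤ} {s : ℕ} (hs : s < p)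
    (ha : a + s + 1 = p * n) (hs' : (p : ℝ) ^ ε ≤ s)
    (hcond : M + 1 ≤ E ∨ ∀ i : ℕ, i ≤ M → ¬ (p : ℤ) ^ E ∣ n + i) :
    Zs p K' (M + 1) s a n ≤
      (1 + ((p : ℝ) ^ Q)⁻¹) ^ M * ((p : ℝ) ^ E * ((p : ℝ) ^ (2 * K))⁻¹) := by
  have hone : (1 : ℝ) ≤ 1 + ((p : ℝ) ^ Q)⁻¹ := by
    have : (0 : ℝ) ≤ ((p : ℝ) ^ Q)⁻¹ := by positivity
    linarith
  by_cases hdeath : (p : ℤ) ^ M ∣ n
  · have hME : M + 1 ≤ E := by
      rcases hcond with h | h
      · exact h
      · by_contra hcon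
        apply h 0 (Nat.zero_le _)
        rw [Nat.cast_zero, add_zero]
        exact (pow_dvd_pow _ (by omega)).trans hdeath
    refine (gZs_death hp hGE K' (by omega) hME hs ha hs').trans ?_
    exact le_mul_of_one_le_left (by positivity) (one_le_pow₀ hone)
  · obtain ⟨f, hfm, hf1, hf2⟩ := exists_val hdeath
    have hfE : f + 1 ≤ E := by
      rcases hcond with h | h
      · omega
      · by_contra hcon
        apply h 0 (Nat.zero_le _)
        rw [Nat.cast_zero, add_zero]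
        exact (pow_dvd_pow _ (by omega)).trans hf1
    obtain ⟨m, hm⟩ : ∃ m, M + 1 = m + 1 + (f + 1) := ⟨M - (f + 1), by omega⟩
    rw [hm]
    have h3 := gZs_step hp hGE hK K' m hfE hs ha hs' hf1 hf2
    have h4 := gU0_bound hp hε hGE hK m K' n (by omega) (by
      rcases hcond with h | h
      · left; omega
      · right
        intro i hi
        have := h (i + 1) (by omega)
        push_cast at this
        rw [show n + 1 + (i : ℤ) = n + (i + 1) by ring]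
        exact this)
    calc _ ≤ _ := h3
      _ ≤ (1 + ((p : ℝ) ^ Q)⁻¹) *
          ((1 + ((p : ℝ) ^ Q)⁻¹) ^ m * ((p : ℝ) ^ E * ((p : ℝ) ^ (2 * K))⁻¹)) :=
        mul_le_mul_of_nonneg_left h4 (by linarith)
      _ = (1 + ((p : ℝ) ^ Q)⁻¹) ^ (m + 1) * ((p : ℝ) ^ E * ((p : ℝ) ^ (2 * K))⁻¹) := by ring
      _ ≤ _ := by
        apply mul_le_mul_of_nonneg_right _ (by positivity)
        exact pow_le_pow_right₀ hone (by omega)

theorem one_add_pow_le3 {Q : ℕ} (hp : 1 ≤ p) {k : ℕ} (hk : k ≤ p ^ Q) :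
    (1 + ((p : ℝ) ^ Q)⁻¹) ^ k ≤ 3 := by
  have hp0' : (0 : ℝ) < p := by exact_mod_cast hp
  have h1 : 1 + ((p : ℝ) ^ Q)⁻¹ ≤ Real.exp (((p : ℝ) ^ Q)⁻¹) := by
    have := Real.add_one_le_exp (((p : ℝ) ^ Q)⁻¹)
    linarith
  calc (1 + ((p : ℝ) ^ Q)⁻¹) ^ k ≤ (Real.exp (((p : ℝ) ^ Q)⁻¹)) ^ k :=
        pow_le_pow_left₀ (by positivity) h1 k
    _ = Real.exp (k * ((p : ℝ) ^ Q)⁻¹) := by rw [← Real.exp_nat_mul]
    _ ≤ Real.exp 1 := by
      apply Real.exp_le_exp.2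
      have h2 : (k : ℝ) ≤ (p : ℝ) ^ Q := by exact_mod_cast hk
      calc (k : ℝ) * ((p : ℝ) ^ Q)⁻¹ ≤ (p : ℝ) ^ Q * ((p : ℝ) ^ Q)⁻¹ :=
            mul_le_mul_of_nonneg_right h2 (by positivity)
        _ = 1 := by field_simp
    _ ≤ 3 := by
      have := Real.exp_one_lt_d9
      linarith

/-- deterministic theorem -/
theorem goodA_det (hp : p.Prime) (hp4 : 4 ≤ p) (hε : ε ≤ 1) (hE : 1 ≤ E) (hGE : GE p ε E (4 * E))
    (T : ℕ) {a n : ℤ} {s : ℕ} (hs : s < p)
    (ha : a + s + 1 = p * n) (hs' : (p : ℝ) ^ ε ≤ s)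
    (hcond : ∀ i : ℕ, i < T → ¬ (p : ℤ) ^ E ∣ n + i) : GoodA p T a := by
  have hp1 : (1 : ℝ) ≤ p := by exact_mod_cast hp.one_lt.le
  have hp4' : (4 : ℝ) ≤ p := by exact_mod_cast hp4
  have hT : T ≤ p ^ E := by
    by_contra hcon
    rw [not_le] at hcon
    have hq : (0 : ℤ) < (p : ℤ) ^ E := by have := hp.pos; positivity
    obtain ⟨i, hi⟩ : ∃ i : ℕ, (i : ℤ) = (-n) % (p : ℤ) ^ E :=
      ⟨((-n) % (p : ℤ) ^ E).toNat, Int.toNat_of_nonneg (Int.emod_nonneg _ hq.ne')⟩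
    have h1 := Int.emod_lt_of_pos (-n) hq
    have h2 : i < T := by
      have h3 : (i : ℤ) < ((p ^ E : ℕ) : ℤ) := by rw [hi]; push_cast; exact h1
      omega
    apply hcond i h2
    rw [hi]
    have h4 := Int.emod_add_mul_ediv (-n) ((p : ℤ) ^ E)
    exact ⟨-((-n) / (p : ℤ) ^ E), by linarith⟩
  apply goodA_of_sum hp T T s ha
  have hterm : ∀ M ∈ range T, Zs p T (M + 1) s a n ≤ 3 * ((p : ℝ) ^ E * ((p : ℝ) ^ (8 * E))⁻¹) := by
    intro M hM
    rw [mem_range] at hM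
    have h1 := gZs_bound hp hε hGE (Q := E) (by omega) M T (by omega) hs ha hs'
      (Or.inr fun i hi => hcond i (by omega))
    refine h1.trans ?_
    have h2 := one_add_pow_le3 (p := p) (Q := E) (by omega) (k := M) (by omega)
    rw [show 2 * (4 * E) = 8 * E by ring]
    exact mul_le_mul_of_nonneg_right h2 (by positivity)
  calc _ ≤ ∑ M ∈ range T, 3 * ((p : ℝ) ^ E * ((p : ℝ) ^ (8 * E))⁻¹) := sum_le_sum hterm
    _ = T * (3 * ((p : ℝ) ^ E * ((p : ℝ) ^ (8 * E))⁻¹)) := by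
      rw [sum_const, card_range, nsmul_eq_mul]
    _ ≤ (p : ℝ) ^ E * (3 * ((p : ℝ) ^ E * ((p : ℝ) ^ (8 * E))⁻¹)) := by
      apply mul_le_mul_of_nonneg_right _ (by positivity)
      exact_mod_cast hT
    _ = 3 * ((p : ℝ) ^ (6 * E))⁻¹ := by
      rw [show 8 * E = E + E + 6 * E by ring, pow_add, pow_add]
      field_simp
    _ < 1 := by
      rw [mul_inv_lt_iff₀ (by positivity), one_mul]
      calc (3 : ℝ) < p := by linarith
        _ = (p : ℝ) ^ 1 := (pow_one _).symm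
        _ ≤ _ := pow_le_pow_right₀ hp1 (by omega)

end

end Pool.Agent.FacLarge
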