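import Pool.Agent.FacLarge.App

/-!
The deterministic theorem with `E` further digits.
-/

set_option autoImplicit false

namespace Pool.Agent.FacLarge

open Finset

section

variable {p : ℕ} {ε : ℝ} {E K : ℕ}

theorem gU0_bound2 (hp : p.Prime) (hε : ε ≤ 1) (hGE : GE p ε E K) {Q : ℕ}
    (hK : 2 * (E + Q) ≤ K) {E0 : ℕ} (hE0 : E0 + 1 ≤ E) (m : ℕ) :
    ∀ (K' T : ℕ) (n : ℤ), m < K' → m + 1 ≤ T + E0 →
    (∀ i : ℕ, i < T → ¬ (p : ℤ) ^ E0 ∣ n + 1 + i) →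
    U0 p K' m n ≤ (1 + ((p : ℝ) ^ Q)⁻¹) ^ m * ((p : ℝ) ^ E * ((p : ℝ) ^ (2 * K))⁻¹) := by
  induction m using Nat.strong_induction_on with
  | _ m ih =>
    intro K' T n hK' hmT hcond
    obtain ⟨K'', rfl⟩ : ∃ K'', K' = K'' + 1 := ⟨K' - 1, by omega⟩
    have hone : (1 : ℝ) ≤ 1 + ((p : ℝ) ^ Q)⁻¹ := by
      have : (0 : ℝ) ≤ ((p : ℝ) ^ Q)⁻¹ := by positivity
      linarith
    by_cases hdeath : m + 1 ≤ E
    · refine (gU0_death hp hε hGE K'' hdeath n).trans ?_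
      exact le_mul_of_one_le_left (by positivity) (one_le_pow₀ hone)
    · have h0 : ¬ (p : ℤ) ^ E0 ∣ n + 1 := by
        have := hcond 0 (by omega)
        simpa using this
      have hdm : ¬ (p : ℤ) ^ m ∣ n + 1 := fun h => h0 ((pow_dvd_pow _ (by omega)).trans h)
      obtain ⟨f, hfm, hf1, hf2⟩ := exists_val hdm
      have hfE : f + 1 ≤ E0 := by
        by_contra hcon
        exact h0 ((pow_dvd_pow _ (by omega)).trans hf1)
      obtain ⟨m', hm'⟩ : ∃ m', m = m' + (f + 1) := ⟨m - (f + 1), by omega⟩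
      have h3 := gU0_step hp hε hGE hK K'' m' (by omega) hf1 hf2
      rw [← hm'] at h3
      have h4 := ih m' (by omega) K'' (T - 1) (n + 1) (by omega) (by omega) (by
        intro i hi
        have := hcond (i + 1) (by omega)
        push_cast at this
        rw [show n + 1 + 1 + (i : ℤ) = n + 1 + (i + 1) by ring]
        exact this)
      calc _ ≤ _ := h3
        _ ≤ (1 + ((p : ℝ) ^ Q)⁻¹) *
            ((1 + ((p : ℝ) ^ Q)⁻¹) ^ m' * ((p : ℝ) ^ E * ((p : ℝ) ^ (2 * K))⁻¹)) :=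
          mul_le_mul_of_nonneg_left h4 (by linarith)
        _ = (1 + ((p : ℝ) ^ Q)⁻¹) ^ (m' + 1) * ((p : ℝ) ^ E * ((p : ℝ) ^ (2 * K))⁻¹) := by ring
        _ ≤ _ := by
          apply mul_le_mul_of_nonneg_right _ (by positivity)
          exact pow_le_pow_right₀ hone (by omega)

theorem gZs_bound2 (hp : p.Prime) (hε : ε ≤ 1) (hGE : GE p ε E K) {Q : ℕ}
    (hK : 2 * (E + Q) ≤ K) {E0 : ℕ} (hE0 : E0 + 1 ≤ E) (M K' T : ℕ) (hMK : M ≤ K')
    (hMT : M + 1 ≤ T + E0) {a n : ℤ} {s : ℕ} (hs : s < p)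
    (ha : a + s + 1 = p * n) (hs' : (p : ℝ) ^ ε ≤ s)
    (hcond : ∀ i : ℕ, i < T → ¬ (p : ℤ) ^ E0 ∣ n + i) :
    Zs p K' (M + 1) s a n ≤
      (1 + ((p : ℝ) ^ Q)⁻¹) ^ M * ((p : ℝ) ^ E * ((p : ℝ) ^ (2 * K))⁻¹) := by
  have hone : (1 : ℝ) ≤ 1 + ((p : ℝ) ^ Q)⁻¹ := by
    have : (0 : ℝ) ≤ ((p : ℝ) ^ Q)⁻¹ := by positivity
    linarith
  by_cases hdeath : M + 1 ≤ E
  · refine (gZs_death hp hGE K' (by omega) hdeath hs ha hs').trans ?_
    exact le_mul_of_one_le_left (by positivity) (one_le_pow₀ hone)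
  · have h0 : ¬ (p : ℤ) ^ E0 ∣ n := by
      have := hcond 0 (by omega)
      simpa using this
    have hdm : ¬ (p : ℤ) ^ M ∣ n := fun h => h0 ((pow_dvd_pow _ (by omega)).trans h)
    obtain ⟨f, hfm, hf1, hf2⟩ := exists_val hdm
    have hfE : f + 1 ≤ E0 := by
      by_contra hcon
      exact h0 ((pow_dvd_pow _ (by omega)).trans hf1)
    obtain ⟨m, hm⟩ : ∃ m, M + 1 = m + 1 + (f + 1) := ⟨M - (f + 1), by omega⟩
    rw [hm]
    have h3 := gZs_step hp hGE hK K' m (by omega) hs ha hs' hf1 hf2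
    have h4 := gU0_bound2 hp hε hGE hK hE0 m K' (T - 1) n (by omega) (by omega) (by
      intro i hi
      have := hcond (i + 1) (by omega)
      push_cast at this
      rw [show n + 1 + (i : ℤ) = n + (i + 1) by ring]
      exact this)
    calc _ ≤ _ := h3
      _ ≤ (1 + ((p : ℝ) ^ Q)⁻¹) *
          ((1 + ((p : ℝ) ^ Q)⁻¹) ^ m * ((p : ℝ) ^ E * ((p : ℝ) ^ (2 * K))⁻¹)) :=
        mul_le_mul_of_nonneg_left h4 (by linarith)
      _ = (1 + ((p : ℝ) ^ Q)⁻¹) ^ (m + 1) * ((p : ℝ) ^ E * ((p : ℝ) ^ (2 * K))⁻¹) := by ring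
      _ ≤ _ := by
        apply mul_le_mul_of_nonneg_right _ (by positivity)
        exact pow_le_pow_right₀ hone (by omega)

/-- deterministic theorem, with `E0` further digits -/
theorem goodA_det2 (hp : p.Prime) {E0 : ℕ} (hp4 : E0 + 4 ≤ p) (hε : ε ≤ 1)
    (hGE : GE p ε (E0 + 1) (4 * (E0 + 1)))
    (T : ℕ) {a n : ℤ} {s : ℕ} (hs : s < p)
    (ha : a + s + 1 = p * n) (hs' : (p : ℝ) ^ ε ≤ s)
    (hcond : ∀ i : ℕ, i < T → ¬ (p : ℤ) ^ E0 ∣ n + i) : GoodA p (T + E0) a := by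
  have hp1 : (1 : ℝ) ≤ p := by exact_mod_cast hp.one_lt.le
  have hp4' : (4 : ℝ) ≤ p := by exact_mod_cast (show 4 ≤ p by omega)
  have hT : T ≤ p ^ E0 := by
    by_contra hcon
    rw [not_le] at hcon
    have hq : (0 : ℤ) < (p : ℤ) ^ E0 := by have := hp.pos; positivity
    obtain ⟨i, hi⟩ : ∃ i : ℕ, (i : ℤ) = (-n) % (p : ℤ) ^ E0 :=
      ⟨((-n) % (p : ℤ) ^ E0).toNat, Int.toNat_of_nonneg (Int.emod_nonneg _ hq.ne')⟩
    have h1 := Int.emod_lt_of_pos (-n) hq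
    have h2 : i < T := by
      have h3 : (i : ℤ) < ((p ^ E0 : ℕ) : ℤ) := by rw [hi]; push_cast; exact h1
      omega
    apply hcond i h2
    rw [hi]
    have h4 := Int.emod_add_mul_ediv (-n) ((p : ℤ) ^ E0)
    exact ⟨-((-n) / (p : ℤ) ^ E0), by linarith⟩
  have hT2 : T + E0 ≤ p ^ (E0 + 1) := by
    have h1 : 1 ≤ p ^ E0 := Nat.one_le_pow _ _ hp.pos
    calc T + E0 ≤ p ^ E0 + E0 * p ^ E0 := Nat.add_le_add hT (Nat.le_mul_of_pos_right _ h1)
      _ = (E0 + 1) * p ^ E0 := by ring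
      _ ≤ p * p ^ E0 := Nat.mul_le_mul_right _ (by omega)
      _ = _ := by rw [pow_succ, mul_comm]
  obtain ⟨E, hE⟩ : ∃ E, E = E0 + 1 := ⟨_, rfl⟩
  rw [← hE] at hGE hT2
  apply goodA_of_sum hp (T + E0) (T + E0) s ha
  have hterm : ∀ M ∈ range (T + E0), Zs p (T + E0) (M + 1) s a n ≤
      3 * ((p : ℝ) ^ E * ((p : ℝ) ^ (8 * E))⁻¹) := by
    intro M hM
    rw [mem_range] at hM
    have h1 := gZs_bound2 hp hε hGE (Q := E) (by omega) (E0 := E0) (by omega) M (T + E0) T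
      (by omega) (by omega) hs ha hs' hcond
    refine h1.trans ?_
    have h2 := one_add_pow_le3 (p := p) (Q := E) (by omega) (k := M) (by omega)
    rw [show 2 * (4 * E) = 8 * E by ring]
    exact mul_le_mul_of_nonneg_right h2 (by positivity)
  calc _ ≤ ∑ M ∈ range (T + E0), 3 * ((p : ℝ) ^ E * ((p : ℝ) ^ (8 * E))⁻¹) := sum_le_sum hterm
    _ = ((T + E0 : ℕ) : ℝ) * (3 * ((p : ℝ) ^ E * ((p : ℝ) ^ (8 * E))⁻¹)) := by
      rw [sum_const, card_range, nsmul_eq_mul]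
    _ ≤ (p : ℝ) ^ E * (3 * ((p : ℝ) ^ E * ((p : ℝ) ^ (8 * E))⁻¹)) := by
      apply mul_le_mul_of_nonneg_right _ (by positivity)
      exact_mod_cast hT2
    _ = 3 * ((p : ℝ) ^ (6 * E))⁻¹ := by
      rw [show 8 * E = E + E + 6 * E by ring, pow_add, pow_add]
      field_simp
    _ < 1 := by
      rw [mul_inv_lt_iff₀ (by positivity), one_mul]
      calc (3 : ℝ) < p := by linarith
        _ = (p : ℝ) ^ 1 := (pow_one _).symm
        _ ≤ _ := pow_le_pow_right₀ hp1 (by omega)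

end

end Pool.Agent.FacLarge
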