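import Mathlib

/-!
Divisor bound `τ(n) ^ k ≤ C n`.
-/

set_option autoImplicit false

namespace Pool.Agent.FacLarge

open Finset

theorem exists_pow_le (k : ℕ) : ∃ C : ℕ, 1 ≤ C ∧ ∀ e : ℕ, (e + 1) ^ k ≤ C * 2 ^ e := by
  have h := tendsto_pow_const_div_const_pow_of_one_lt k (r := (2 : ℝ)) (by norm_num)
  have hb := h.bddAbove_range
  obtain ⟨M, hM⟩ := hb
  obtain ⟨C, hC⟩ := exists_nat_ge (2 * M)
  refine ⟨C + 1, by omega, fun e => ?_⟩
  have h1 : ((e + 1 : ℕ) : ℝ) ^ k / 2 ^ (e + 1) ≤ M := hM ⟨e + 1, rfl⟩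
  have h2 : (0 : ℝ) < 2 ^ (e + 1) := by positivity
  rw [div_le_iff₀ h2] at h1
  have h3 : ((e + 1 : ℕ) : ℝ) ^ k ≤ (C + 1) * 2 ^ e := by
    calc ((e + 1 : ℕ) : ℝ) ^ k ≤ M * 2 ^ (e + 1) := h1
      _ = (2 * M) * 2 ^ e := by ring
      _ ≤ (C + 1) * 2 ^ e := by
        apply mul_le_mul_of_nonneg_right _ (by positivity)
        linarith
  exact_mod_cast h3

theorem card_divisors_pow_le (k : ℕ) : ∃ C : ℕ, 1 ≤ C ∧ ∀ n : ℕ, n ≠ 0 →
    (n.divisors.card) ^ k ≤ C * n := by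
  obtain ⟨C0, hC0, hC⟩ := exists_pow_le k
  refine ⟨C0 ^ (2 ^ k), Nat.one_le_pow _ _ hC0, fun n hn => ?_⟩
  rw [Nat.card_divisors hn, ← Finset.prod_pow]
  have h1 : ∀ x ∈ n.primeFactors, (n.factorization x + 1) ^ k ≤
      (if x < 2 ^ k then C0 else 1) * x ^ (n.factorization x) := by
    intro x hx
    have hx2 : 2 ≤ x := (Nat.prime_of_mem_primeFactors hx).two_le
    split_ifs with h
    · exact (hC _).trans (Nat.mul_le_mul_left _ (Nat.pow_le_pow_left hx2 _))
    · rw [not_lt] at h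
      rw [one_mul]
      calc (n.factorization x + 1) ^ k ≤ (2 ^ (n.factorization x)) ^ k :=
            Nat.pow_le_pow_left (Nat.lt_two_pow_self) k
        _ = (2 ^ k) ^ (n.factorization x) := by rw [← pow_mul, ← pow_mul, mul_comm]
        _ ≤ x ^ (n.factorization x) := Nat.pow_le_pow_left h _
  refine (Finset.prod_le_prod' h1).trans ?_
  rw [Finset.prod_mul_distrib]
  have h2 : ∏ x ∈ n.primeFactors, x ^ (n.factorization x) = n :=
    Nat.prod_factorization_pow_eq_self hn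
  rw [h2]
  apply Nat.mul_le_mul_right
  rw [← Finset.prod_filter]
  rw [Finset.prod_const]
  apply Nat.pow_le_pow_right hC0
  calc (n.primeFactors.filter (fun x => x < 2 ^ k)).card ≤ (range (2 ^ k)).card := by
        apply Finset.card_le_card
        intro x hx
        rw [mem_filter] at hx
        exact mem_range.2 hx.2
    _ = 2 ^ k := card_range _

end Pool.Agent.FacLarge
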