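import Pool.Agent.FacLarge.Main

/-!
Final count.
-/

set_option autoImplicit false

namespace Pool.Agent.FacLarge

open Finset Filter

theorem eventually_fin : ∃ P0 : ℕ, ∀ p : ℕ, P0 ≤ p → 16 ≤ p ∧ 30 * Real.log p ≤ p - 1 ∧
    120 * Real.log p + 3 ≤ p ∧
    (p : ℝ) ^ (83 / 100 : ℝ) + (240 * Real.log p + 5) ≤ (p : ℝ) ^ (5 / 6 : ℝ) := by
  have h1 := (isLittleO_log_rpow_atTop (r := (83 / 100 : ℝ)) (by norm_num)).def
    (c := 1 / 480) (by norm_num)
  have h2 := (tendsto_rpow_atTop (y := (1 / 300 : ℝ)) (by norm_num)).eventually_ge_atTop 3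
  have h4 := (tendsto_rpow_atTop (y := (83 / 100 : ℝ)) (by norm_num)).eventually_ge_atTop 20
  have h5 := (Real.isLittleO_log_id_atTop).def (c := 1 / 240) (by norm_num)
  have h3 := (((h1.and h2).and h4).and h5).and (eventually_ge_atTop (16 : ℝ))
  obtain ⟨x0, hx0⟩ := eventually_atTop.1 h3
  refine ⟨⌈x0⌉₊, fun p hp => ?_⟩
  have hp' : x0 ≤ (p : ℝ) := (Nat.le_ceil x0).trans (by exact_mod_cast hp)
  obtain ⟨⟨⟨⟨a1, a2⟩, a3⟩, a4⟩, a5⟩ := hx0 p hp'
  have hp0 : (0 : ℝ) < p := by linarith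
  have hl : 0 ≤ Real.log p := Real.log_nonneg (by linarith)
  have h8 : (0 : ℝ) ≤ (p : ℝ) ^ (83 / 100 : ℝ) := by positivity
  rw [Real.norm_of_nonneg hl, Real.norm_of_nonneg h8] at a1
  rw [Real.norm_of_nonneg hl, id, Real.norm_of_nonneg hp0.le] at a4
  have h9 : (p : ℝ) ^ (5 / 6 : ℝ) = (p : ℝ) ^ (1 / 300 : ℝ) * (p : ℝ) ^ (83 / 100 : ℝ) := by
    rw [← Real.rpow_add hp0]; norm_num
  refine ⟨by exact_mod_cast a5, by linarith, by linarith, ?_⟩
  rw [h9]
  nlinarith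

theorem card_small_le (p : ℕ) {x : ℝ} (hx : 0 ≤ x) :
    (((range p).filter (fun j => ((p - 1 - j : ℕ) : ℝ) < x)).card : ℝ) ≤ x + 1 := by
  have h1 : ((range p).filter (fun j => ((p - 1 - j : ℕ) : ℝ) < x)).card ≤
      (range ⌈x⌉₊).card := by
    apply card_le_card_of_injOn (fun j => p - 1 - j)
    · intro j hj
      have hj' := mem_filter.1 (mem_coe.1 hj)
      rw [mem_coe, mem_range]
      exact Nat.lt_ceil.2 hj'.2
    · intro i hi j hj hij
      have hi' := mem_range.1 (mem_filter.1 (mem_coe.1 hi)).1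
      have hj' := mem_range.1 (mem_filter.1 (mem_coe.1 hj)).1
      simp only at hij
      omega
  rw [card_range] at h1
  calc _ ≤ ((⌈x⌉₊ : ℕ) : ℝ) := by exact_mod_cast h1
    _ ≤ x + 1 := (Nat.ceil_lt_add_one hx).le

theorem sum_bad_le {p : ℕ} (hp : p.Prime) (hGd : Gd p) (hp4 : 16 ≤ p)
    (hlog : 30 * Real.log p ≤ p - 1) {T k0 : ℕ} (hk0 : k0 + 1 ≤ p) (hk4 : 4 ≤ k0)
    (hk120 : 120 * Real.log p ≤ k0) (B : ℤ → Prop) [DecidablePred B]
    (hB : ∀ a, B a → ¬ GoodA p T a) :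
    ∑ j ∈ range p, ∑ n ∈ range (p ^ T), (if B ((p : ℤ) * n + j) then (1 : ℝ) else 0) ≤
      (p : ℝ) ^ T * ((p : ℝ) ^ (83 / 100 : ℝ) + 2 * k0 + 3) := by
  classical
  have hp0 := hp.pos
  have hp0' : (0 : ℝ) < p := by exact_mod_cast hp0
  have h1 : ∀ j ∈ range p, ∀ n ∈ range (p ^ T), (if B ((p : ℤ) * n + j) then (1 : ℝ) else 0) ≤
      (if ((p - 1 - j : ℕ) : ℝ) < (p : ℝ) ^ (83 / 100 : ℝ) then 1 else 0) +
      (if ¬ PG p T k0 n then 1 else 0) +
      ∑ M ∈ range T, (if (p : ℝ) ^ (83 / 100 : ℝ) ≤ ((p - 1 - j : ℕ) : ℝ) ∧ PG p T k0 n then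
        Zs p T (M + 1) (p - 1 - j) ((p : ℤ) * n + j) ((n : ℤ) + 1) else 0) := by
    intro j hj n hn
    rw [mem_range] at hj
    have hnn : 0 ≤ ∑ M ∈ range T, (if (p : ℝ) ^ (83 / 100 : ℝ) ≤ ((p - 1 - j : ℕ) : ℝ) ∧
        PG p T k0 n then
        Zs p T (M + 1) (p - 1 - j) ((p : ℤ) * n + j) ((n : ℤ) + 1) else 0) := by
      apply sum_nonneg
      intro M _
      split_ifs
      · exact Zs_nonneg _ _ _ _ _ _
      · exact le_rfl
    by_cases hBn : B ((p : ℤ) * n + j)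
    · rw [if_pos hBn]
      by_cases c1 : ((p - 1 - j : ℕ) : ℝ) < (p : ℝ) ^ (83 / 100 : ℝ)
      · rw [if_pos c1]
        have : (0 : ℝ) ≤ (if ¬ PG p T k0 n then 1 else 0) := by split_ifs <;> norm_num
        linarith
      · by_cases c2 : PG p T k0 n
        · have hsa : (p : ℤ) * n + j + ((p - 1 - j : ℕ) : ℤ) + 1 = p * ((n : ℤ) + 1) := by
            have : ((p - 1 - j : ℕ) : ℤ) = (p : ℤ) - 1 - j := by omega
            rw [this]; ring
          have h2 : 1 ≤ ∑ M ∈ range T,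
              Zs p T (M + 1) (p - 1 - j) ((p : ℤ) * n + j) ((n : ℤ) + 1) := by
            by_contra hcon
            rw [not_le] at hcon
            exact hB _ hBn (goodA_of_sum hp T T (p - 1 - j) hsa hcon)
          rw [if_neg c1, if_neg (not_not.2 c2)]
          have h3 : ∑ M ∈ range T, (if (p : ℝ) ^ (83 / 100 : ℝ) ≤ ((p - 1 - j : ℕ) : ℝ) ∧
              PG p T k0 n then
              Zs p T (M + 1) (p - 1 - j) ((p : ℤ) * n + j) ((n : ℤ) + 1) else 0) =
              ∑ M ∈ range T,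
              Zs p T (M + 1) (p - 1 - j) ((p : ℤ) * n + j) ((n : ℤ) + 1) := by
            apply sum_congr rfl
            intro M _
            rw [if_pos ⟨not_lt.1 c1, c2⟩]
          rw [h3]
          linarith
        · rw [if_pos c2]
          have : (0 : ℝ) ≤ (if ((p - 1 - j : ℕ) : ℝ) < (p : ℝ) ^ (83 / 100 : ℝ) then 1 else 0) := by
            split_ifs <;> norm_num
          linarith
    · rw [if_neg hBn]
      have e1 : (0 : ℝ) ≤ (if ((p - 1 - j : ℕ) : ℝ) < (p : ℝ) ^ (83 / 100 : ℝ) then 1 else 0) := by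
        split_ifs <;> norm_num
      have e2 : (0 : ℝ) ≤ (if ¬ PG p T k0 n then 1 else 0) := by split_ifs <;> norm_num
      linarith
  refine (sum_le_sum fun j hj => sum_le_sum fun n hn => h1 j hj n hn).trans ?_
  simp only [sum_add_distrib]
  have s1 : ∑ j ∈ range p, ∑ _n ∈ range (p ^ T),
      (if ((p - 1 - j : ℕ) : ℝ) < (p : ℝ) ^ (83 / 100 : ℝ) then (1 : ℝ) else 0) ≤
      (p : ℝ) ^ T * ((p : ℝ) ^ (83 / 100 : ℝ) + 1) := by
    simp only [sum_const, card_range, nsmul_eq_mul]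
    rw [← mul_sum, ← sum_filter, sum_const, nsmul_eq_mul, mul_one]
    push_cast
    apply mul_le_mul_of_nonneg_left _ (by positivity)
    exact card_small_le p (by positivity)
  have s2 : ∑ _j ∈ range p, ∑ n ∈ range (p ^ T), (if ¬ PG p T k0 n then (1 : ℝ) else 0) ≤
      2 * k0 * (p : ℝ) ^ T := by
    rw [sum_const, card_range, nsmul_eq_mul, ← sum_filter, sum_const, nsmul_eq_mul, mul_one,
      mul_comm]
    exact count_not_PG (by omega) T k0
  have s3 : ∑ j ∈ range p, ∑ n ∈ range (p ^ T), ∑ M ∈ range T,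
      (if (p : ℝ) ^ (83 / 100 : ℝ) ≤ ((p - 1 - j : ℕ) : ℝ) ∧ PG p T k0 n then
        Zs p T (M + 1) (p - 1 - j) ((p : ℤ) * n + j) ((n : ℤ) + 1) else 0) ≤
      2 * (p : ℝ) ^ T := by
    refine le_trans (le_of_eq ?_) (sum_Zs_le hp hGd hp4 hlog (T := T) hk0 hk4 hk120)
    rw [sum_comm' (s := range T) (t := fun _ => range p) (t' := range p) (s' := fun _ => range T)
      (by intro x y; tauto)]
    apply sum_congr rfl
    intro j _
    rw [sum_comm]
  calc _ ≤ (p : ℝ) ^ T * ((p : ℝ) ^ (83 / 100 : ℝ) + 1) + 2 * k0 * (p : ℝ) ^ T +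
        2 * (p : ℝ) ^ T := add_le_add (add_le_add s1 s2) s3
    _ = _ := by ring

theorem sum_blocks (H : ℤ → ℝ) (p N : ℕ) :
    ∑ a ∈ range (p * N), H a = ∑ n ∈ range N, ∑ j ∈ range p, H ((p : ℤ) * n + j) := by
  induction N with
  | zero => simp
  | succ N ih =>
    rw [Nat.mul_succ, sum_range_add, ih, sum_range_succ]
    congr 1

theorem count_good {p : ℕ} (hp : p.Prime) (hGd : Gd p) (hp4 : 16 ≤ p)
    (hlog : 30 * Real.log p ≤ p - 1) (hlog2 : 120 * Real.log p + 3 ≤ p)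
    (hfin : (p : ℝ) ^ (83 / 100 : ℝ) + (240 * Real.log p + 5) ≤ (p : ℝ) ^ (5 / 6 : ℝ))
    (T b : ℕ) :
    (1 - (p : ℝ) ^ (-(1 / 6) : ℝ)) * (p : ℝ) ^ T ≤
      ({a : ℕ | b ≤ a ∧ a < b + p ^ T ∧ GoodA p T a}.ncard : ℝ) := by
  classical
  have hp0 := hp.pos
  have hp16' : (16 : ℝ) ≤ p := by exact_mod_cast hp4
  have hp0' : (0 : ℝ) < p := by linarith
  obtain ⟨k0, hk0⟩ : ∃ k0, k0 = ⌈120 * Real.log p⌉₊ := ⟨_, rfl⟩
  have hl2 : Real.log 2 ≤ Real.log p := Real.log_le_log (by norm_num) (by linarith)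
  have hl2' := Real.log_two_gt_d9
  have hk120 : 120 * Real.log p ≤ k0 := by rw [hk0]; exact Nat.le_ceil _
  have hk0lt : (k0 : ℝ) < 120 * Real.log p + 1 := by
    rw [hk0]; exact Nat.ceil_lt_add_one (by linarith)
  have hk4 : 4 ≤ k0 := by
    have : (4 : ℝ) ≤ k0 := by linarith
    exact_mod_cast this
  have hk0p : k0 + 1 ≤ p := by
    have : (k0 : ℝ) + 1 ≤ p := by linarith
    exact_mod_cast this
  obtain ⟨H, hH⟩ : ∃ H : ℤ → ℝ, H = fun a => if GoodA p T a then (1 : ℝ) else 0 := ⟨_, rfl⟩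
  have hHper : ∀ x y : ℤ, ((p ^ T : ℕ) : ℤ) ∣ x - y → H x = H y := by
    intro x y h
    push_cast at h
    have h' : (p : ℤ) ^ T ∣ y - x := by
      have := (dvd_neg (α := ℤ)).2 h
      rwa [neg_sub] at this
    have h1 : GoodA p T x ↔ GoodA p T y := ⟨goodA_congr h, goodA_congr h'⟩
    rw [hH]
    simp only [h1]
  have hbad := sum_bad_le hp hGd hp4 hlog (T := T) hk0p hk4 hk120
    (fun a => ¬ GoodA p T a) (fun a ha => ha)
  have htot : ∑ a ∈ range (p ^ T * p), H a =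
      (p : ℝ) ^ T * p - ∑ j ∈ range p, ∑ n ∈ range (p ^ T),
        (if ¬ GoodA p T ((p : ℤ) * n + j) then (1 : ℝ) else 0) := by
    rw [mul_comm (p ^ T) p, sum_blocks, sum_comm, eq_sub_iff_add_eq, ← sum_add_distrib]
    have h2 : ∀ j ∈ range p, (∑ n ∈ range (p ^ T), H ((p : ℤ) * n + j) +
        ∑ n ∈ range (p ^ T), (if ¬ GoodA p T ((p : ℤ) * n + j) then (1 : ℝ) else 0)) =
        (p : ℝ) ^ T := by
      intro j _
      rw [← sum_add_distrib]
      have h3 : ∀ n ∈ range (p ^ T), H ((p : ℤ) * n + j) +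
          (if ¬ GoodA p T ((p : ℤ) * n + j) then (1 : ℝ) else 0) = 1 := by
        intro n _
        rw [hH]
        by_cases h4 : GoodA p T ((p : ℤ) * n + j)
        · simp [h4]
        · simp [h4]
      rw [sum_congr rfl h3, sum_const, card_range, nsmul_eq_mul]
      push_cast
      ring
    rw [sum_congr rfl h2, sum_const, card_range, nsmul_eq_mul]
    ring
  have hper := sum_period (A := p ^ T) hHper p
  have hshift := sum_perm (q := p ^ T) (by positivity) hHper (σ := fun a => a + b) (by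
    intro x y h
    simpa using h)
  have hcard : ({a : ℕ | b ≤ a ∧ a < b + p ^ T ∧ GoodA p T a}.ncard : ℝ) =
      ∑ a ∈ range (p ^ T), H ((a : ℤ) + b) := by
    have h2 : {a : ℕ | b ≤ a ∧ a < b + p ^ T ∧ GoodA p T a} =
        ((((range (p ^ T)).filter (fun a : ℕ => GoodA p T ((a : ℤ) + b))).image
          (fun a => a + b) : Finset ℕ) : Set ℕ) := by
      ext a
      rw [Set.mem_ofPred_eq, mem_coe, mem_image]
      constructor
      · rintro ⟨h3, h4, h5⟩
        refine ⟨a - b, ?_, by omega⟩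
        rw [mem_filter, mem_range]
        refine ⟨by omega, ?_⟩
        have : ((a - b : ℕ) : ℤ) + b = a := by omega
        rw [this]
        exact h5
      · rintro ⟨c, h3, rfl⟩
        rw [mem_filter, mem_range] at h3
        refine ⟨by omega, by omega, ?_⟩
        push_cast
        exact h3.2
    rw [h2, Set.ncard_coe_finset, card_image_of_injective _ (add_left_injective b), hH,
      ← sum_filter, sum_const, nsmul_eq_mul, mul_one]
  rw [hcard, hshift]
  rw [hper] at htot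
  have h5 : (p : ℝ) * ((1 - (p : ℝ) ^ (-(1 / 6) : ℝ)) * (p : ℝ) ^ T) =
      (p : ℝ) ^ T * p - (p : ℝ) ^ T * (p : ℝ) ^ (5 / 6 : ℝ) := by
    have e1 : (p : ℝ) * (p : ℝ) ^ (-(1 / 6) : ℝ) = (p : ℝ) ^ (5 / 6 : ℝ) := by
      nth_rw 1 [← Real.rpow_one (p : ℝ)]
      rw [← Real.rpow_add hp0']
      norm_num
    rw [← e1]
    ring
  have h6 : (p : ℝ) * ((1 - (p : ℝ) ^ (-(1 / 6) : ℝ)) * (p : ℝ) ^ T) ≤
      p * ∑ w ∈ range (p ^ T), H w := by
    rw [h5, htot]
    apply sub_le_sub_left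
    refine hbad.trans ?_
    apply mul_le_mul_of_nonneg_left _ (by positivity)
    linarith
  exact le_of_mul_le_mul_left h6 hp0'

end Pool.Agent.FacLarge
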