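import Pool.Agent.FacLarge.Main2
import Pool.Agent.FacLarge.Fin

/-!
Final count, second version: the exceptional set away from the top residues.
-/

set_option autoImplicit false

namespace Pool.Agent.FacLarge

open Finset Filter

theorem sum_bad_le2 {p : ℕ} {ε : ℝ} {E K : ℕ} (hp : p.Prime) (hε : ε ≤ 83 / 100) (hE : 1 ≤ E)
    (hGE : GE p ε E K) {Q : ℕ} (hK : 2 * (E + Q) ≤ K) (hK54 : 54 ≤ K) (hp4 : 16 ≤ p)
    (hlog : 30 * Real.log p ≤ p - 1) {T k0 : ℕ} (hk0 : k0 + 1 ≤ p) (hk4 : 4 ≤ k0)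
    (hEQ : E * k0 ≤ p ^ Q)
    (hk120 : 120 * Real.log p ≤ k0) (B : ℤ → Prop) [DecidablePred B]
    (hB : ∀ a, B a → ¬ GoodA p T a) :
    (∑ j ∈ range p, ∑ n ∈ range (p ^ T),
      (if (p : ℝ) ^ ε ≤ ((p - 1 - j : ℕ) : ℝ) ∧ B ((p : ℤ) * n + j) then (1 : ℝ) else 0)) *
        (p : ℝ) ^ E ≤
      2 * E * k0 * (p : ℝ) ^ (T + 1) +
      ((p : ℝ) ^ (T + 1) * (E * k0 * (3 * ((p : ℝ) ^ E * ((p : ℝ) ^ (2 * K))⁻¹))) +
      (p : ℝ) ^ (T + 1) * (E * (p : ℝ) ^ E *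
        (11 * Real.exp (-((E * k0 : ℕ) : ℝ) / 10 + E / 5)))) * (p : ℝ) ^ E := by
  classical
  have hp0 := hp.pos
  have hp0' : (0 : ℝ) < p := by exact_mod_cast hp0
  have h1 : ∀ j ∈ range p, ∀ n ∈ range (p ^ T),
      (if (p : ℝ) ^ ε ≤ ((p - 1 - j : ℕ) : ℝ) ∧ B ((p : ℤ) * n + j) then (1 : ℝ) else 0) ≤
      (if ¬ PG2 p E T k0 n then 1 else 0) +
      ∑ M ∈ range T, (if (p : ℝ) ^ ε ≤ ((p - 1 - j : ℕ) : ℝ) ∧ PG2 p E T k0 n then
        Zs p T (M + 1) (p - 1 - j) ((p : ℤ) * n + j) ((n : ℤ) + 1) else 0) := by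
    intro j hj n hn
    rw [mem_range] at hj
    have hnn : 0 ≤ ∑ M ∈ range T, (if (p : ℝ) ^ ε ≤ ((p - 1 - j : ℕ) : ℝ) ∧
        PG2 p E T k0 n then
        Zs p T (M + 1) (p - 1 - j) ((p : ℤ) * n + j) ((n : ℤ) + 1) else 0) := by
      apply sum_nonneg
      intro M _
      split_ifs
      · exact Zs_nonneg _ _ _ _ _ _
      · exact le_rfl
    by_cases hBn : (p : ℝ) ^ ε ≤ ((p - 1 - j : ℕ) : ℝ) ∧ B ((p : ℤ) * n + j)
    · rw [if_pos hBn]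
      by_cases c2 : PG2 p E T k0 n
      · have hsa : (p : ℤ) * n + j + ((p - 1 - j : ℕ) : ℤ) + 1 = p * ((n : ℤ) + 1) := by
          have : ((p - 1 - j : ℕ) : ℤ) = (p : ℤ) - 1 - j := by omega
          rw [this]; ring
        have h2 : 1 ≤ ∑ M ∈ range T,
            Zs p T (M + 1) (p - 1 - j) ((p : ℤ) * n + j) ((n : ℤ) + 1) := by
          by_contra hcon
          rw [not_le] at hcon
          exact hB _ hBn.2 (goodA_of_sum hp T T (p - 1 - j) hsa hcon)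
        rw [if_neg (not_not.2 c2)]
        have h3 : ∑ M ∈ range T, (if (p : ℝ) ^ ε ≤ ((p - 1 - j : ℕ) : ℝ) ∧
            PG2 p E T k0 n then
            Zs p T (M + 1) (p - 1 - j) ((p : ℤ) * n + j) ((n : ℤ) + 1) else 0) =
            ∑ M ∈ range T,
            Zs p T (M + 1) (p - 1 - j) ((p : ℤ) * n + j) ((n : ℤ) + 1) := by
          apply sum_congr rfl
          intro M _
          rw [if_pos ⟨hBn.1, c2⟩]
        rw [h3]
        linarith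
      · rw [if_pos c2]
        linarith
    · rw [if_neg hBn]
      have e2 : (0 : ℝ) ≤ (if ¬ PG2 p E T k0 n then 1 else 0) := by split_ifs <;> norm_num
      linarith
  have hmain : ∑ j ∈ range p, ∑ n ∈ range (p ^ T),
      (if (p : ℝ) ^ ε ≤ ((p - 1 - j : ℕ) : ℝ) ∧ B ((p : ℤ) * n + j) then (1 : ℝ) else 0) ≤
      (∑ _j ∈ range p, ∑ n ∈ range (p ^ T), (if ¬ PG2 p E T k0 n then (1 : ℝ) else 0)) +
      ∑ j ∈ range p, ∑ n ∈ range (p ^ T), ∑ M ∈ range T,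
      (if (p : ℝ) ^ ε ≤ ((p - 1 - j : ℕ) : ℝ) ∧ PG2 p E T k0 n then
        Zs p T (M + 1) (p - 1 - j) ((p : ℤ) * n + j) ((n : ℤ) + 1) else 0) := by
    refine (sum_le_sum fun j hj => sum_le_sum fun n hn => h1 j hj n hn).trans ?_
    simp only [sum_add_distrib]
    exact le_rfl
  have s2 : (∑ _j ∈ range p, ∑ n ∈ range (p ^ T), (if ¬ PG2 p E T k0 n then (1 : ℝ) else 0)) *
      (p : ℝ) ^ E ≤ 2 * E * k0 * (p : ℝ) ^ (T + 1) := by
    rw [sum_const, card_range, nsmul_eq_mul, ← sum_filter, sum_const, nsmul_eq_mul, mul_one]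
    have h3 := count_not_PG2 (p := p) (by omega) hE T k0
    calc _ = p * ((((range (p ^ T)).filter (fun n => ¬ PG2 p E T k0 n)).card : ℝ) *
          (p : ℝ) ^ E) := by ring
      _ ≤ p * (2 * E * k0 * (p : ℝ) ^ T) := mul_le_mul_of_nonneg_left h3 hp0'.le
      _ = _ := by ring
  have s3 : ∑ j ∈ range p, ∑ n ∈ range (p ^ T), ∑ M ∈ range T,
      (if (p : ℝ) ^ ε ≤ ((p - 1 - j : ℕ) : ℝ) ∧ PG2 p E T k0 n then
        Zs p T (M + 1) (p - 1 - j) ((p : ℤ) * n + j) ((n : ℤ) + 1) else 0) ≤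
      (p : ℝ) ^ (T + 1) * (E * k0 * (3 * ((p : ℝ) ^ E * ((p : ℝ) ^ (2 * K))⁻¹))) +
      (p : ℝ) ^ (T + 1) * (E * (p : ℝ) ^ E *
        (11 * Real.exp (-((E * k0 : ℕ) : ℝ) / 10 + E / 5))) := by
    refine le_trans (le_of_eq ?_) (sum_Zs_le2 hp hε hE hGE hK hK54 hp4 hlog (T := T) hk0 hk4 hEQ
      hk120)
    rw [sum_comm' (s := range T) (t := fun _ => range p) (t' := range p) (s' := fun _ => range T)
      (by intro x y; tauto)]
    apply sum_congr rfl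
    intro j _
    rw [sum_comm]
  calc _ ≤ ((∑ _j ∈ range p, ∑ n ∈ range (p ^ T), (if ¬ PG2 p E T k0 n then (1 : ℝ) else 0)) +
      ∑ j ∈ range p, ∑ n ∈ range (p ^ T), ∑ M ∈ range T,
      (if (p : ℝ) ^ ε ≤ ((p - 1 - j : ℕ) : ℝ) ∧ PG2 p E T k0 n then
        Zs p T (M + 1) (p - 1 - j) ((p : ℤ) * n + j) ((n : ℤ) + 1) else 0)) * (p : ℝ) ^ E :=
        mul_le_mul_of_nonneg_right hmain (by positivity)
    _ ≤ _ := by
      rw [add_mul]
      exact add_le_add s2 (mul_le_mul_of_nonneg_right s3 (by positivity))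

/-- numerical clean-up of `sum_bad_le2` -/
theorem sum_bad_le3 {p : ℕ} {ε : ℝ} (A : ℕ) (hp : p.Prime) (hε : ε ≤ 83 / 100)
    (hGE : GE p ε (A + 3) (2 * (A + 3 + (A + 4)) + 54)) (hp4 : 33 * (A + 3) ≤ p)
    (hlog : 30 * Real.log p ≤ p - 1) (hlog2 : 120 * Real.log p + 3 ≤ p) (T : ℕ)
    (B : ℤ → Prop) [DecidablePred B]
    (hB : ∀ a, B a → ¬ GoodA p T a) :
    (∑ j ∈ range p, ∑ n ∈ range (p ^ T),
      (if (p : ℝ) ^ ε ≤ ((p - 1 - j : ℕ) : ℝ) ∧ B ((p : ℤ) * n + j) then (1 : ℝ) else 0)) *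
        (p : ℝ) ^ A ≤ (p : ℝ) ^ (T + 1) := by
  have hp16 : 16 ≤ p := by omega
  have hp16' : (16 : ℝ) ≤ p := by exact_mod_cast hp16
  have hp0' : (0 : ℝ) < p := by linarith
  have hp1' : (1 : ℝ) ≤ p := by linarith
  obtain ⟨k0, hk0⟩ : ∃ k0, k0 = ⌈120 * Real.log p⌉₊ := ⟨_, rfl⟩
  have hl2 : Real.log 2 ≤ Real.log p := Real.log_le_log (by norm_num) (by linarith)
  have hl2' := Real.log_two_gt_d9
  have hk120 : 120 * Real.log p ≤ k0 := by rw [hk0]; exact Nat.le_ceil _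
  have hk0lt : (k0 : ℝ) < 120 * Real.log p + 1 := by
    rw [hk0]; exact Nat.ceil_lt_add_one (by linarith)
  have hk4 : 4 ≤ k0 := by
    have : (4 : ℝ) ≤ k0 := by linarith
    exact_mod_cast this
  have hk0p' : (k0 : ℝ) + 1 ≤ p := by linarith
  have hk0p : k0 + 1 ≤ p := by exact_mod_cast hk0p'
  obtain ⟨E, hEdef⟩ : ∃ E, E = A + 3 := ⟨_, rfl⟩
  have hE1 : 1 ≤ E := by omega
  obtain ⟨Q, hQ⟩ : ∃ Q, Q = A + 4 := ⟨_, rfl⟩
  rw [← hEdef, ← hQ] at hGE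
  rw [← hEdef] at hp4
  have hEp : (33 : ℝ) * E ≤ p := by exact_mod_cast hp4
  have hE0 : (1 : ℝ) ≤ E := by exact_mod_cast hE1
  have hEk : (E : ℝ) * k0 * 33 ≤ p ^ 2 := by
    have h2 : (k0 : ℝ) ≤ p := by linarith
    nlinarith
  have hEQ : E * k0 ≤ p ^ Q := by
    have h1 : ((E * k0 : ℕ) : ℝ) ≤ ((p ^ 2 : ℕ) : ℝ) := by
      push_cast
      have : (0 : ℝ) ≤ (E : ℝ) * k0 := by positivity
      linarith
    have h2 : E * k0 ≤ p ^ 2 := by exact_mod_cast h1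
    exact h2.trans (Nat.pow_le_pow_right hp.pos (by omega))
  have hmain := sum_bad_le2 hp hε hE1 hGE (Q := Q) (by omega) (by omega) hp16 hlog (T := T)
    hk0p hk4 hEQ hk120 B hB
  obtain ⟨S, hS⟩ : ∃ S, S = ∑ j ∈ range p, ∑ n ∈ range (p ^ T),
      (if (p : ℝ) ^ ε ≤ ((p - 1 - j : ℕ) : ℝ) ∧ B ((p : ℤ) * n + j) then (1 : ℝ) else 0) :=
    ⟨_, rfl⟩
  rw [← hS] at hmain ⊢
  obtain ⟨X, hX⟩ : ∃ X, X = (p : ℝ) ^ (T + 1) := ⟨_, rfl⟩
  rw [← hX] at hmain ⊢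
  have hX0 : 0 < X := by rw [hX]; positivity
  -- bound of the second term
  have t2 : (E : ℝ) * k0 * (3 * ((p : ℝ) ^ E * ((p : ℝ) ^ (2 * (2 * (E + Q) + 54)))⁻¹)) *
      (p : ℝ) ^ E ≤ 1 := by
    have e1 : (p : ℝ) ^ (2 * (2 * (E + Q) + 54)) =
        (p : ℝ) ^ 2 * ((p : ℝ) ^ E * (p : ℝ) ^ E) * (p : ℝ) ^ (2 * E + 4 * Q + 106) := by
      rw [← pow_add, ← pow_add, ← pow_add]; congr 1; omega
    have e2 : (1 : ℝ) ≤ (p : ℝ) ^ (2 * E + 4 * Q + 106) := one_le_pow₀ hp1'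
    have e3 : (E : ℝ) * k0 * 3 ≤ (p : ℝ) ^ 2 * (p : ℝ) ^ (2 * E + 4 * Q + 106) := by
      have : (0 : ℝ) ≤ (E : ℝ) * k0 := by positivity
      have h5 : (p : ℝ) ^ 2 ≤ (p : ℝ) ^ 2 * (p : ℝ) ^ (2 * E + 4 * Q + 106) :=
        le_mul_of_one_le_right (by positivity) e2
      linarith
    have e4 : (E : ℝ) * k0 * (3 * ((p : ℝ) ^ E * ((p : ℝ) ^ (2 * (2 * (E + Q) + 54)))⁻¹)) *
        (p : ℝ) ^ E = (E : ℝ) * k0 * 3 * ((p : ℝ) ^ 2 * (p : ℝ) ^ (2 * E + 4 * Q + 106))⁻¹ := by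
      rw [e1]
      field_simp
    rw [e4, ← div_eq_mul_inv]
    rw [div_le_one (by positivity)]
    exact e3
  -- bound of the third term
  have t3 : (E : ℝ) * (p : ℝ) ^ E * (11 * Real.exp (-((E * k0 : ℕ) : ℝ) / 10 + E / 5)) *
      (p : ℝ) ^ E ≤ 1 := by
    have e1 : Real.exp (-((E * k0 : ℕ) : ℝ) / 10 + E / 5) ≤
        ((p : ℝ) ^ (12 * E))⁻¹ * (p : ℝ) ^ E := by
      have h1 : -((E * k0 : ℕ) : ℝ) / 10 + E / 5 ≤ -((12 * E : ℕ) : ℝ) * Real.log p +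
          E * Real.log p := by
        push_cast
        have h2 : (E : ℝ) * (120 * Real.log p) ≤ E * k0 :=
          mul_le_mul_of_nonneg_left hk120 (by positivity)
        have h3 : (1 / 5 : ℝ) ≤ Real.log p := by linarith
        have h4 : (E : ℝ) * (1 / 5) ≤ E * Real.log p :=
          mul_le_mul_of_nonneg_left h3 (by positivity)
        linarith
      calc _ ≤ Real.exp (-((12 * E : ℕ) : ℝ) * Real.log p + E * Real.log p) :=
            Real.exp_le_exp.2 h1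
        _ = _ := by
          rw [Real.exp_add, neg_mul, Real.exp_neg, Real.exp_nat_mul, Real.exp_nat_mul,
            Real.exp_log hp0']
    have e2 : (E : ℝ) * (p : ℝ) ^ E * (11 * Real.exp (-((E * k0 : ℕ) : ℝ) / 10 + E / 5)) *
        (p : ℝ) ^ E ≤ (E : ℝ) * (p : ℝ) ^ E * (11 * (((p : ℝ) ^ (12 * E))⁻¹ * (p : ℝ) ^ E)) *
        (p : ℝ) ^ E := by
      apply mul_le_mul_of_nonneg_right _ (by positivity)
      apply mul_le_mul_of_nonneg_left _ (by positivity)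
      linarith
    refine e2.trans ?_
    have e3 : (p : ℝ) ^ (12 * E) = (p : ℝ) ^ E * (p : ℝ) ^ E * (p : ℝ) ^ E * (p : ℝ) ^ (9 * E) := by
      rw [← pow_add, ← pow_add, ← pow_add]; congr 1; omega
    have e4 : (E : ℝ) * (p : ℝ) ^ E * (11 * (((p : ℝ) ^ (12 * E))⁻¹ * (p : ℝ) ^ E)) *
        (p : ℝ) ^ E = (E : ℝ) * 11 * ((p : ℝ) ^ (9 * E))⁻¹ := by
      rw [e3]
      field_simp
    rw [e4, ← div_eq_mul_inv, div_le_one (by positivity)]
    calc (E : ℝ) * 11 ≤ p := by linarith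
      _ = (p : ℝ) ^ 1 := (pow_one _).symm
      _ ≤ _ := pow_le_pow_right₀ hp1' (by omega)
  -- combination
  have hfin : S * (p : ℝ) ^ E ≤ X * (p : ℝ) ^ 3 := by
    refine hmain.trans ?_
    have h1 : 2 * (E : ℝ) * k0 * X ≤ X * (p : ℝ) ^ 2 := by
      have : (0 : ℝ) ≤ (E : ℝ) * k0 := by positivity
      have h5 : 2 * (E : ℝ) * k0 ≤ (p : ℝ) ^ 2 := by linarith
      calc 2 * (E : ℝ) * k0 * X ≤ (p : ℝ) ^ 2 * X := mul_le_mul_of_nonneg_right h5 hX0.le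
        _ = _ := by ring
    have h2 : (X * (E * k0 * (3 * ((p : ℝ) ^ E * ((p : ℝ) ^ (2 * (2 * (E + Q) + 54)))⁻¹))) +
        X * (E * (p : ℝ) ^ E * (11 * Real.exp (-((E * k0 : ℕ) : ℝ) / 10 + E / 5)))) *
        (p : ℝ) ^ E ≤ X * 2 := by
      calc _ = X * ((E : ℝ) * k0 * (3 * ((p : ℝ) ^ E * ((p : ℝ) ^ (2 * (2 * (E + Q) + 54)))⁻¹)) *
          (p : ℝ) ^ E + (E : ℝ) * (p : ℝ) ^ E *
          (11 * Real.exp (-((E * k0 : ℕ) : ℝ) / 10 + E / 5)) * (p : ℝ) ^ E) := by ring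
        _ ≤ X * 2 := mul_le_mul_of_nonneg_left (by linarith) hX0.le
    have h3 : X * (p : ℝ) ^ 2 + X * 2 ≤ X * (p : ℝ) ^ 3 := by
      rw [← mul_add]
      apply mul_le_mul_of_nonneg_left _ hX0.le
      nlinarith [sq_nonneg ((p : ℝ) - 2)]
    linarith
  have h6 : S * (p : ℝ) ^ A * (p : ℝ) ^ 3 ≤ X * (p : ℝ) ^ 3 := by
    calc _ = S * (p : ℝ) ^ E := by rw [hEdef, pow_add]; ring
      _ ≤ _ := hfin
  exact le_of_mul_le_mul_right h6 (by positivity)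

theorem count_bad2 {p : ℕ} {ε : ℝ} (A : ℕ) (hp : p.Prime) (hε : ε ≤ 83 / 100)
    (hGE : GE p ε (A + 3) (2 * (A + 3 + (A + 4)) + 54)) (hp4 : 33 * (A + 3) ≤ p)
    (hlog : 30 * Real.log p ≤ p - 1) (hlog2 : 120 * Real.log p + 3 ≤ p) (T b : ℕ) :
    ({a : ℕ | b ≤ a ∧ a < b + p ^ T ∧ (p : ℝ) ^ ε ≤ ((p - 1 - a % p : ℕ) : ℝ) ∧
      ¬ GoodA p T a}.ncard : ℝ) * (p : ℝ) ^ A ≤ (p : ℝ) ^ T := by
  classical
  have hp0 := hp.pos
  have hp0' : (0 : ℝ) < p := by exact_mod_cast hp0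
  rcases Nat.eq_zero_or_pos T with hT | hT
  · have h1 : {a : ℕ | b ≤ a ∧ a < b + p ^ T ∧ (p : ℝ) ^ ε ≤ ((p - 1 - a % p : ℕ) : ℝ) ∧
        ¬ GoodA p T a} = ∅ := by
      ext a
      rw [Set.mem_ofPred_eq]
      constructor
      · rintro ⟨_, _, _, h⟩
        exfalso
        apply h
        rw [hT]
        exact ⟨∅, by simp⟩
      · intro h
        exact absurd h (Set.notMem_empty _)
    rw [h1, Set.ncard_empty, Nat.cast_zero, zero_mul]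
    positivity
  obtain ⟨H, hH⟩ : ∃ H : ℤ → ℝ, H = fun a : ℤ =>
    if (p : ℝ) ^ ε ≤ ((p - 1 - (a % (p : ℤ)).toNat : ℕ) : ℝ) ∧
    ¬ GoodA p T a then (1 : ℝ) else 0 := ⟨_, rfl⟩
  have hHper : ∀ x y : ℤ, ((p ^ T : ℕ) : ℤ) ∣ x - y → H x = H y := by
    intro x y h
    push_cast at h
    have h' : (p : ℤ) ^ T ∣ y - x := by
      have := (dvd_neg (α := ℤ)).2 h
      rwa [neg_sub] at this
    have h1 : GoodA p T x ↔ GoodA p T y := ⟨goodA_congr h, goodA_congr h'⟩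
    have h2 : x % (p : ℤ) = y % (p : ℤ) := by
      have h3 : (p : ℤ) ∣ x - y := (dvd_pow_self _ (by omega)).trans h
      exact (Int.modEq_iff_dvd.2 h3).symm
    rw [hH]
    simp only [h1, h2]
  have hbad := sum_bad_le3 A hp hε hGE hp4 hlog hlog2 T (fun a => ¬ GoodA p T a)
    (fun a ha => ha)
  have htot : ∑ a ∈ range (p ^ T * p), H a = ∑ j ∈ range p, ∑ n ∈ range (p ^ T),
      (if (p : ℝ) ^ ε ≤ ((p - 1 - j : ℕ) : ℝ) ∧ ¬ GoodA p T ((p : ℤ) * n + j) then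
        (1 : ℝ) else 0) := by
    rw [mul_comm (p ^ T) p, sum_blocks, sum_comm]
    apply sum_congr rfl
    intro j hj
    rw [mem_range] at hj
    apply sum_congr rfl
    intro n _
    rw [hH]
    have e : (((p : ℤ) * n + j) % p).toNat = j := by
      rw [add_comm, Int.add_mul_emod_self_left, Int.emod_eq_of_lt (by omega) (by omega)]
      simp
    simp only [e]
  have hper := sum_period (A := p ^ T) hHper p
  have hshift := sum_perm (q := p ^ T) (by positivity) hHper (σ := fun a => a + b) (by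
    intro x y h
    simpa using h)
  have hcard : ({a : ℕ | b ≤ a ∧ a < b + p ^ T ∧ (p : ℝ) ^ ε ≤ ((p - 1 - a % p : ℕ) : ℝ) ∧
      ¬ GoodA p T a}.ncard : ℝ) = ∑ a ∈ range (p ^ T), H ((a : ℤ) + b) := by
    have h2 : {a : ℕ | b ≤ a ∧ a < b + p ^ T ∧ (p : ℝ) ^ ε ≤ ((p - 1 - a % p : ℕ) : ℝ) ∧
      ¬ GoodA p T a} =
        ((((range (p ^ T)).filter (fun a : ℕ => (p : ℝ) ^ ε ≤
          ((p - 1 - (((a : ℤ) + b) % p).toNat : ℕ) : ℝ) ∧ ¬ GoodA p T ((a : ℤ) + b))).image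
          (fun a => a + b) : Finset ℕ) : Set ℕ) := by
      ext a
      rw [Set.mem_ofPred_eq, mem_coe, mem_image]
      have hmod : ∀ c : ℕ, (((c : ℤ)) % p).toNat = c % p := by
        intro c
        have : ((c : ℤ) % p) = ((c % p : ℕ) : ℤ) := by push_cast; rfl
        rw [this, Int.toNat_natCast]
      constructor
      · rintro ⟨h3, h4, h5, h6⟩
        refine ⟨a - b, ?_, by omega⟩
        rw [mem_filter, mem_range]
        have : ((a - b : ℕ) : ℤ) + b = a := by omega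
        rw [this, hmod]
        exact ⟨by omega, h5, h6⟩
      · rintro ⟨c, h3, rfl⟩
        rw [mem_filter, mem_range] at h3
        obtain ⟨h3, h4, h5⟩ := h3
        have : ((c : ℕ) : ℤ) + b = ((c + b : ℕ) : ℤ) := by push_cast; ring
        rw [this, hmod] at h4
        rw [this] at h5
        exact ⟨by omega, by omega, h4, h5⟩
    rw [h2, Set.ncard_coe_finset, card_image_of_injective _ (add_left_injective b), hH,
      ← sum_filter, sum_const, nsmul_eq_mul, mul_one]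
  rw [hcard, hshift]
  rw [hper] at htot
  rw [← htot] at hbad
  have h6 : (p : ℝ) * ((∑ w ∈ range (p ^ T), H w) * (p : ℝ) ^ A) ≤ p * (p : ℝ) ^ T := by
    calc _ = (p : ℝ) * (∑ w ∈ range (p ^ T), H w) * (p : ℝ) ^ A := by ring
      _ ≤ (p : ℝ) ^ (T + 1) := hbad
      _ = _ := by ring
  exact le_of_mul_le_mul_left h6 hp0'

end Pool.Agent.FacLarge
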