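import Pool.Agent.FacLarge.Bdd

/-!
The sum of the bounding function.
-/

set_option autoImplicit false

namespace Pool.Agent.FacLarge

open Finset Filter

theorem sum_ex_le {p L R S : ℕ} (hp : 0 < p) (hLR : L ≤ R) :
    ∑ n ∈ range (p ^ R), (if ∃ x < S, p ^ L ∣ n + 1 + x then (1 : ℝ) else 0) ≤
      S * (p : ℝ) ^ (R - L) := by
  have h1 : ∀ n ∈ range (p ^ R), (if ∃ x < S, p ^ L ∣ n + 1 + x then (1 : ℝ) else 0) ≤
      ∑ x ∈ range S, (if (p : ℤ) ^ L ∣ (n : ℤ) - (-(1 + (x : ℤ))) then (1 : ℝ) else 0) := by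
    intro n _
    have hnn : ∀ x ∈ range S, (0 : ℝ) ≤
        (if (p : ℤ) ^ L ∣ (n : ℤ) - (-(1 + (x : ℤ))) then (1 : ℝ) else 0) := by
      intro x _; split_ifs <;> norm_num
    split_ifs with h
    · obtain ⟨x, hx, hd⟩ := h
      refine le_trans ?_ (single_le_sum hnn (mem_range.2 hx))
      rw [if_pos]
      have : (n : ℤ) - (-(1 + (x : ℤ))) = ((n + 1 + x : ℕ) : ℤ) := by push_cast; ring
      rw [this]
      exact_mod_cast hd
    · exact sum_nonneg hnn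
  refine (sum_le_sum h1).trans ?_
  rw [sum_comm]
  refine (sum_le_sum fun x _ => count_class hp hLR _).trans ?_
  rw [sum_const, card_range, nsmul_eq_mul]

/-- the constants -/
theorem const_le {p Q k : ℕ} (hp30 : 2 ^ 30 ≤ p) (hk : 1 ≤ k) :
    6 * (2 : ℝ) ^ (12 * k) * (((2 * k + 1 : ℕ) : ℝ) * (1 + ((p : ℝ) ^ Q)⁻¹) ^ (12 * k + 1)) ≤
      (p : ℝ) ^ k := by
  have hp1 : (1 : ℝ) ≤ p := by
    have : ((2 ^ 30 : ℕ) : ℝ) ≤ p := by exact_mod_cast hp30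
    norm_num at this ⊢
    linarith
  have h1 : (1 + ((p : ℝ) ^ Q)⁻¹) ≤ 2 := by
    have : ((p : ℝ) ^ Q)⁻¹ ≤ 1 := inv_le_one_of_one_le₀ (one_le_pow₀ hp1)
    linarith
  have h2 : (1 + ((p : ℝ) ^ Q)⁻¹) ^ (12 * k + 1) ≤ 2 ^ (12 * k + 1) :=
    pow_le_pow_left₀ (by positivity) h1 _
  have h3 : (12 * (2 * k + 1) : ℕ) ≤ 2 ^ (6 * k) := by
    have e1 : 2 ^ (6 * k) = 32 ^ k * 2 ^ k := by
      rw [← mul_pow, pow_mul]; norm_num
    have e2 : 32 ≤ 32 ^ k := Nat.le_self_pow (by omega) 32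
    have e3 : k + 1 ≤ 2 ^ k := Nat.lt_two_pow_self
    rw [e1]
    calc 12 * (2 * k + 1) ≤ 32 * (k + 1) := by omega
      _ ≤ _ := Nat.mul_le_mul e2 e3
  have h3' : (12 : ℝ) * ((2 * k + 1 : ℕ) : ℝ) ≤ 2 ^ (6 * k) := by exact_mod_cast h3
  have h4 : ((2 : ℝ) ^ 30) ^ k ≤ (p : ℝ) ^ k :=
    pow_le_pow_left₀ (by positivity) (by exact_mod_cast hp30) _
  calc 6 * (2 : ℝ) ^ (12 * k) * (((2 * k + 1 : ℕ) : ℝ) * (1 + ((p : ℝ) ^ Q)⁻¹) ^ (12 * k + 1))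
      ≤ 6 * (2 : ℝ) ^ (12 * k) * (((2 * k + 1 : ℕ) : ℝ) * 2 ^ (12 * k + 1)) := by
        apply mul_le_mul_of_nonneg_left _ (by positivity)
        exact mul_le_mul_of_nonneg_left h2 (by positivity)
    _ = (12 * ((2 * k + 1 : ℕ) : ℝ)) * 2 ^ (24 * k) := by
        have : (2 : ℝ) ^ (24 * k) = 2 ^ (12 * k) * 2 ^ (12 * k) := by
          rw [← pow_add]; congr 1; omega
        rw [this]; ring
    _ ≤ 2 ^ (6 * k) * 2 ^ (24 * k) := mul_le_mul_of_nonneg_right h3' (by positivity)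
    _ = ((2 : ℝ) ^ 30) ^ k := by rw [← pow_add, ← pow_mul]; congr 1; omega
    _ ≤ _ := h4

/-- side conditions -/
theorem side {p k R : ℕ} (hp30 : 2 ^ 30 ≤ p) (hk : 7 ≤ k) (hR : 15 * k ≤ R) :
    p ^ (2 * k + 1) + (12 * k + 1) < p ^ (2 * k + 1 + 1) ∧
    (12 * k + 1) + ((12 * k + 1) / (p - 1) + (2 * k + 1)) ≤ R ∧
    4 * ((12 * k + 1) / (p - 1)) ≤ k := by
  have h4 : 4 * ((12 * k + 1) / (p - 1)) ≤ k := by
    have h5 : (12 * k + 1) / (p - 1) ≤ (12 * k + 1) / 100 :=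
      Nat.div_le_div_left (by omega) (by norm_num)
    omega
  refine ⟨?_, by omega, h4⟩
  have h1 : 2 * k + 1 < p ^ (2 * k + 1) :=
    Nat.lt_pow_self (by omega)
  have h2 : 8 * p ^ (2 * k + 1) ≤ p ^ (2 * k + 1 + 1) := by
    rw [pow_succ, mul_comm]
    exact Nat.mul_le_mul_left _ (by omega)
  omega

/-- the part of the sum from the window conditions -/
theorem part4 {p : ℕ} {ε : ℝ} {E K0 : ℕ} (hp : p.Prime) (hG : GE p ε E K0) (hε : ε ≤ 1)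
    (hE : 2 ≤ E) {Q : ℕ} (hK0 : 2 * (E + Q) ≤ K0) (hp30 : 2 ^ 30 ≤ p) {k R T : ℕ} (hk : 7 ≤ k)
    (hR : 15 * k ≤ R) (hT : T * p ^ (E + 7) ≤ p ^ (2 * k))
    [∀ n t : ℕ, Decidable (∀ i ≤ 12 * k, ¬ p ^ (2 * k + 1) ∣ n + (1 + t) + 1 + i)] :
    (∑ _j ∈ range p, ∑ n ∈ range (p ^ R), ∑ t ∈ range T, 6 * (2 : ℝ) ^ (12 * k) *
      (if (∀ i ≤ 12 * k, ¬ p ^ (2 * k + 1) ∣ n + (1 + t) + 1 + i) then
        Dd p (12 * k) (n + (1 + t)) else 0)) * (p : ℝ) ^ E ≤ (p : ℝ) ^ (R + 1) := by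
  classical
  obtain ⟨s1, s2, s3⟩ := side hp30 hk hR
  have hp0' : (0 : ℝ) < p := by exact_mod_cast hp.pos
  have hp1' : (1 : ℝ) ≤ p := by exact_mod_cast hp.one_lt.le
  obtain ⟨κ, hκ⟩ : ∃ κ, κ = (12 * k + 1) / (p - 1) := ⟨_, rfl⟩
  obtain ⟨B, hB⟩ : ∃ B : ℝ, B = (p : ℝ) ^ (2 * k + 1) * (((2 * k + 1 : ℕ) : ℝ) *
      ((p : ℝ) ^ (R - 12 * k) * ((1 + ((p : ℝ) ^ Q)⁻¹) ^ (12 * k + 1) *
        (p : ℝ) ^ (2 * k + 1 + 1 + 2 * ((κ + (2 * k + 1)) + (κ + 1)))))) := ⟨_, rfl⟩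
  have hB0 : 0 ≤ B := by rw [hB]; positivity
  have h1 : ∀ t ∈ range T, ∑ n ∈ range (p ^ R), 6 * (2 : ℝ) ^ (12 * k) *
      (if (∀ i ≤ 12 * k, ¬ p ^ (2 * k + 1) ∣ n + (1 + t) + 1 + i) then
        Dd p (12 * k) (n + (1 + t)) else 0) ≤ 6 * (2 : ℝ) ^ (12 * k) * B := by
    intro t _
    rw [← mul_sum]
    apply mul_le_mul_of_nonneg_left _ (by positivity)
    have h2 := sum_Dd_le hp hG hε hE hK0 (L := 2 * k + 1) (m := 12 * k) (R := R) (by omega)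
      (by omega) s1 s2 (1 + t)
    rw [← hκ] at h2
    rw [hB]
    refine le_trans (le_of_eq ?_) h2
    apply sum_congr rfl
    intro n _
    congr 1
  have h3 : ∑ _j ∈ range p, ∑ n ∈ range (p ^ R), ∑ t ∈ range T, 6 * (2 : ℝ) ^ (12 * k) *
      (if (∀ i ≤ 12 * k, ¬ p ^ (2 * k + 1) ∣ n + (1 + t) + 1 + i) then
        Dd p (12 * k) (n + (1 + t)) else 0) ≤ p * (T * (6 * (2 : ℝ) ^ (12 * k) * B)) := by
    rw [sum_const, card_range, nsmul_eq_mul]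
    apply mul_le_mul_of_nonneg_left _ hp0'.le
    rw [sum_comm]
    refine (sum_le_sum h1).trans ?_
    rw [sum_const, card_range, nsmul_eq_mul]
  have hc := const_le (Q := Q) hp30 (show 1 ≤ k by omega)
  have hT' : (T : ℝ) * (p : ℝ) ^ (E + 7) ≤ (p : ℝ) ^ (2 * k) := by exact_mod_cast hT
  have h5 : (p * (T * (6 * (2 : ℝ) ^ (12 * k) * B))) * (p : ℝ) ^ E * (p : ℝ) ^ 7 ≤
      (p : ℝ) ^ (R + 1) * (p : ℝ) ^ 7 := by
    obtain ⟨e, he⟩ : ∃ e, e = 1 + ((2 * k + 1) + ((R - 12 * k) +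
      (2 * k + 1 + 1 + 2 * ((κ + (2 * k + 1)) + (κ + 1))))) := ⟨_, rfl⟩
    have e1 : (p * (T * (6 * (2 : ℝ) ^ (12 * k) * B))) * (p : ℝ) ^ E * (p : ℝ) ^ 7 =
        (6 * (2 : ℝ) ^ (12 * k) * (((2 * k + 1 : ℕ) : ℝ) *
          (1 + ((p : ℝ) ^ Q)⁻¹) ^ (12 * k + 1))) * ((T : ℝ) * (p : ℝ) ^ (E + 7)) *
          (p : ℝ) ^ e := by
      rw [hB, he, pow_add (p : ℝ) E 7, pow_add (p : ℝ) 1, pow_add (p : ℝ) (2 * k + 1)
        (R - 12 * k + _), pow_add (p : ℝ) (R - 12 * k), pow_one]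
      ring
    rw [e1]
    calc _ ≤ (p : ℝ) ^ k * (p : ℝ) ^ (2 * k) * (p : ℝ) ^ e := by
          apply mul_le_mul_of_nonneg_right _ (by positivity)
          exact mul_le_mul hc hT' (by positivity) (by positivity)
      _ = (p : ℝ) ^ (k + 2 * k + e) := by rw [pow_add, pow_add]
      _ ≤ (p : ℝ) ^ (R + 1 + 7) := by
          apply pow_le_pow_right₀ hp1'
          rw [he]
          rw [← hκ] at s3
          omega
      _ = _ := pow_add _ _ _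
  have h6 := le_of_mul_le_mul_right h5 (by positivity)
  exact (mul_le_mul_of_nonneg_right h3 (by positivity)).trans h6

/-- the part of the sum from multiples of a high power -/
theorem part3 {p E k R T : ℕ} (hp30 : 2 ^ 30 ≤ p) (hk : E + 7 ≤ k)
    (hR : 15 * k ≤ R) (hT : T * p ^ (E + 7) ≤ p ^ (2 * k)) :
    (∑ _j ∈ range p, ∑ n ∈ range (p ^ R),
      (if ∃ x < T + 12 * k + 1, p ^ (2 * k + 1) ∣ n + 1 + x then (1 : ℝ) else 0)) *
        (p : ℝ) ^ E ≤ (p : ℝ) ^ (R + 1) := by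
  have hp0 : 0 < p := by omega
  have hp0' : (0 : ℝ) < p := by exact_mod_cast hp0
  have hp1' : (1 : ℝ) ≤ p := by exact_mod_cast hp0
  rw [sum_const, card_range, nsmul_eq_mul]
  have h1 := sum_ex_le (p := p) (L := 2 * k + 1) (R := R) (S := T + 12 * k + 1) hp0 (by omega)
  have h2 : (12 * k + 1) * p ^ (E + 7) ≤ p ^ (2 * k) := by
    have e1 : 12 * k + 1 ≤ 2 ^ (6 * k) := by
      have e1 : 2 ^ (6 * k) = 32 ^ k * 2 ^ k := by
        rw [← mul_pow, pow_mul]; norm_num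
      have e2 : 32 ≤ 32 ^ k := Nat.le_self_pow (by omega) 32
      have e3 : k + 1 ≤ 2 ^ k := Nat.lt_two_pow_self
      rw [e1]
      calc 12 * k + 1 ≤ 32 * (k + 1) := by omega
        _ ≤ _ := Nat.mul_le_mul e2 e3
    have e2 : 2 ^ (6 * k) ≤ p ^ k := by
      rw [pow_mul]
      exact Nat.pow_le_pow_left (by omega) _
    calc (12 * k + 1) * p ^ (E + 7) ≤ p ^ k * p ^ k :=
          Nat.mul_le_mul (e1.trans e2) (Nat.pow_le_pow_right hp0 hk)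
      _ = p ^ (2 * k) := by rw [← pow_add]; congr 1; omega
  have h3 : (T + 12 * k + 1) * p ^ (E + 7) ≤ 2 * p ^ (2 * k) := by
    calc _ = T * p ^ (E + 7) + (12 * k + 1) * p ^ (E + 7) := by ring
      _ ≤ _ := by omega
  have h3' : ((T + 12 * k + 1 : ℕ) : ℝ) * (p : ℝ) ^ (E + 7) ≤ 2 * (p : ℝ) ^ (2 * k) := by
    exact_mod_cast h3
  have h4 : (p * (((T + 12 * k + 1 : ℕ) : ℝ) * (p : ℝ) ^ (R - (2 * k + 1)))) * (p : ℝ) ^ E *
      (p : ℝ) ^ 7 ≤ (p : ℝ) ^ (R + 1) * (p : ℝ) ^ 7 := by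
    calc _ = (((T + 12 * k + 1 : ℕ) : ℝ) * (p : ℝ) ^ (E + 7)) *
          (p : ℝ) ^ (1 + (R - (2 * k + 1))) := by
            rw [pow_add (p : ℝ) E 7, pow_add (p : ℝ) 1, pow_one]; ring
      _ ≤ (2 * (p : ℝ) ^ (2 * k)) * (p : ℝ) ^ (1 + (R - (2 * k + 1))) :=
          mul_le_mul_of_nonneg_right h3' (by positivity)
      _ = 2 * (p : ℝ) ^ R := by
          rw [mul_assoc, ← pow_add]; congr 2; omega
      _ ≤ (p : ℝ) ^ 1 * (p : ℝ) ^ R := by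
          rw [pow_one]
          apply mul_le_mul_of_nonneg_right _ (by positivity)
          have : ((2 : ℕ) : ℝ) ≤ p := by
            exact_mod_cast (show 2 ≤ p by omega)
          exact_mod_cast this
      _ = (p : ℝ) ^ (1 + R) := by rw [pow_add]
      _ ≤ (p : ℝ) ^ (R + 1 + 7) := pow_le_pow_right₀ hp1' (by omega)
      _ = _ := pow_add _ _ _
  have h5 := le_of_mul_le_mul_right h4 (by positivity)
  refine le_trans ?_ h5
  apply mul_le_mul_of_nonneg_right _ (by positivity)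
  exact mul_le_mul_of_nonneg_left h1 hp0'.le

/-- the second part, numerically -/
theorem part2_num {p E k0 : ℕ} (hp33 : 33 * E ≤ p) (hE : 1 ≤ E) (hk0p : k0 + 1 ≤ p)
    (hk120 : 120 * Real.log p ≤ k0) {X : ℝ} (hX0 : 0 ≤ X) :
    2 * (X * (E * k0 * (3 * ((p : ℝ) ^ E * ((p : ℝ) ^ (2 * (2 * (E + (E + 1)) + 54)))⁻¹))) +
      X * (E * (p : ℝ) ^ E * (11 * Real.exp (-((E * k0 : ℕ) : ℝ) / 10 + E / 5)))) *
      (p : ℝ) ^ E ≤ 4 * X := by
  have hp33' : (33 : ℝ) * E ≤ p := by exact_mod_cast hp33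
  have hE0 : (1 : ℝ) ≤ E := by exact_mod_cast hE
  have hp0' : (0 : ℝ) < p := by linarith
  have hp1' : (1 : ℝ) ≤ p := by linarith
  have hk0p' : (k0 : ℝ) + 1 ≤ p := by exact_mod_cast hk0p
  have hl2 : Real.log 2 ≤ Real.log p := Real.log_le_log (by norm_num) (by linarith)
  have hl2' := Real.log_two_gt_d9
  obtain ⟨Q, hQ⟩ : ∃ Q, Q = E + 1 := ⟨_, rfl⟩
  rw [← hQ]
  have hEk : (E : ℝ) * k0 * 33 ≤ p ^ 2 := by
    have h2 : (k0 : ℝ) ≤ p := by linarith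
    nlinarith
  -- bound of the second term
  have t2 : (E : ℝ) * k0 * (3 * ((p : ℝ) ^ E * ((p : ℝ) ^ (2 * (2 * (E + Q) + 54)))⁻¹)) *
      (p : ℝ) ^ E ≤ 1 := by
    have e1 : (p : ℝ) ^ (2 * (2 * (E + Q) + 54)) =
        (p : ℝ) ^ 2 * ((p : ℝ) ^ E * (p : ℝ) ^ E) * (p : ℝ) ^ (2 * E + 4 * Q + 106) := by
      rw [← pow_add, ← pow_add, ← pow_add]; congr 1; omega
    have e2 : (1 : ℝ) ≤ (p : ℝ) ^ (2 * E + 4 * Q + 106) := one_le_pow₀ hp1'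
    have e3 : (E : ℝ) * k0 * 3 ≤ (p : ℝ) ^ 2 * (p : ℝ) ^ (2 * E + 4 * Q + 106) := by
      have : (0 : ℝ) ≤ (E : ℝ) * k0 := by positivity
      have h5 : (p : ℝ) ^ 2 ≤ (p : ℝ) ^ 2 * (p : ℝ) ^ (2 * E + 4 * Q + 106) :=
        le_mul_of_one_le_right (by positivity) e2
      linarith
    have e4 : (E : ℝ) * k0 * (3 * ((p : ℝ) ^ E * ((p : ℝ) ^ (2 * (2 * (E + Q) + 54)))⁻¹)) *
        (p : ℝ) ^ E = (E : ℝ) * k0 * 3 * ((p : ℝ) ^ 2 * (p : ℝ) ^ (2 * E + 4 * Q + 106))⁻¹ := by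
      rw [e1]
      field_simp
    rw [e4, ← div_eq_mul_inv]
    rw [div_le_one (by positivity)]
    exact e3
  -- bound of the third term
  have t3 : (E : ℝ) * (p : ℝ) ^ E * (11 * Real.exp (-((E * k0 : ℕ) : ℝ) / 10 + E / 5)) *
      (p : ℝ) ^ E ≤ 1 := by
    have e1 : Real.exp (-((E * k0 : ℕ) : ℝ) / 10 + E / 5) ≤
        ((p : ℝ) ^ (12 * E))⁻¹ * (p : ℝ) ^ E := by
      have h1 : -((E * k0 : ℕ) : ℝ) / 10 + E / 5 ≤ -((12 * E : ℕ) : ℝ) * Real.log p +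
          E * Real.log p := by
        push_cast
        have h2 : (E : ℝ) * (120 * Real.log p) ≤ E * k0 :=
          mul_le_mul_of_nonneg_left hk120 (by positivity)
        have h3 : (1 / 5 : ℝ) ≤ Real.log p := by linarith
        have h4 : (E : ℝ) * (1 / 5) ≤ E * Real.log p :=
          mul_le_mul_of_nonneg_left h3 (by positivity)
        linarith
      calc _ ≤ Real.exp (-((12 * E : ℕ) : ℝ) * Real.log p + E * Real.log p) :=
            Real.exp_le_exp.2 h1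
        _ = _ := by
          rw [Real.exp_add, neg_mul, Real.exp_neg, Real.exp_nat_mul, Real.exp_nat_mul,
            Real.exp_log hp0']
    have e2 : (E : ℝ) * (p : ℝ) ^ E * (11 * Real.exp (-((E * k0 : ℕ) : ℝ) / 10 + E / 5)) *
        (p : ℝ) ^ E ≤ (E : ℝ) * (p : ℝ) ^ E * (11 * (((p : ℝ) ^ (12 * E))⁻¹ * (p : ℝ) ^ E)) *
        (p : ℝ) ^ E := by
      apply mul_le_mul_of_nonneg_right _ (by positivity)
      apply mul_le_mul_of_nonneg_left _ (by positivity)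
      linarith
    refine e2.trans ?_
    have e3 : (p : ℝ) ^ (12 * E) = (p : ℝ) ^ E * (p : ℝ) ^ E * (p : ℝ) ^ E * (p : ℝ) ^ (9 * E) := by
      rw [← pow_add, ← pow_add, ← pow_add]; congr 1; omega
    have e4 : (E : ℝ) * (p : ℝ) ^ E * (11 * (((p : ℝ) ^ (12 * E))⁻¹ * (p : ℝ) ^ E)) *
        (p : ℝ) ^ E = (E : ℝ) * 11 * ((p : ℝ) ^ (9 * E))⁻¹ := by
      rw [e3]
      field_simp
    rw [e4, ← div_eq_mul_inv, div_le_one (by positivity)]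
    calc (E : ℝ) * 11 ≤ p := by linarith
      _ = (p : ℝ) ^ 1 := (pow_one _).symm
      _ ≤ _ := pow_le_pow_right₀ hp1' (by omega)
  calc _ = 2 * (X * ((E : ℝ) * k0 *
      (3 * ((p : ℝ) ^ E * ((p : ℝ) ^ (2 * (2 * (E + Q) + 54)))⁻¹)) *
      (p : ℝ) ^ E + (E : ℝ) * (p : ℝ) ^ E *
      (11 * Real.exp (-((E * k0 : ℕ) : ℝ) / 10 + E / 5)) * (p : ℝ) ^ E)) := by ring
    _ ≤ 2 * (X * 2) := by
      apply mul_le_mul_of_nonneg_left _ (by norm_num)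
      exact mul_le_mul_of_nonneg_left (by linarith) hX0
    _ = _ := by ring

theorem Bd_nonneg {p E R k0 m L T : ℕ} {ε : ℝ} (j n : ℕ) : 0 ≤ Bd p E R k0 m L T ε j n := by
  classical
  unfold Bd
  have h1 : (0 : ℝ) ≤ (if PG2 p E R k0 n then 0 else 1) := by split_ifs <;> norm_num
  have h2 : 0 ≤ ∑ M ∈ range R, (if (p : ℝ) ^ ε ≤ ((p - 1 - j : ℕ) : ℝ) ∧ PG2 p E R k0 n then
      Zs p R (M + 1) (p - 1 - j) ((p : ℤ) * n + j) ((n : ℤ) + 1) else 0) := by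
    apply sum_nonneg
    intro M _
    split_ifs
    · exact Zs_nonneg _ _ _ _ _ _
    · exact le_rfl
  have h3 : (0 : ℝ) ≤ (if ∃ x < T + m + 1, p ^ L ∣ n + 1 + x then 1 else 0) := by
    split_ifs <;> norm_num
  have h4 : 0 ≤ ∑ t ∈ range T, 6 * (2 : ℝ) ^ m *
      (if (∀ i ≤ m, ¬ p ^ L ∣ n + (1 + t) + 1 + i) then
      Dd p m (n + (1 + t)) else 0) := by
    apply sum_nonneg
    intro t _
    apply mul_nonneg (by positivity)
    split_ifs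
    · exact Dd_nonneg _ _ _
    · exact le_rfl
  linarith

theorem sum_Bd_le {p : ℕ} {ε : ℝ} (A : ℕ) (hp : p.Prime) (hε : ε ≤ 83 / 100)
    (hGE : GE p ε (A + 3) (2 * (A + 3 + (A + 4)) + 54)) (hp33 : 33 * (A + 3) ≤ p)
    (hp30 : 2 ^ 30 ≤ p)
    (hlog : 30 * Real.log p ≤ p - 1) (hlog2 : 120 * Real.log p + 3 ≤ p) {k R T k0 : ℕ}
    (hk0 : k0 = ⌈120 * Real.log p⌉₊) (hk : A + 10 ≤ k) (hR : 15 * k ≤ R)
    (hT : T * p ^ (A + 10) ≤ p ^ (2 * k)) :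
    (∑ j ∈ range p, ∑ n ∈ range (p ^ R), Bd p (A + 3) R k0 (12 * k) (2 * k + 1) T ε j n) *
      (p : ℝ) ^ A ≤ (p : ℝ) ^ (R + 1) := by
  classical
  have hp0 := hp.pos
  have hp16 : 16 ≤ p := by omega
  have hp16' : (16 : ℝ) ≤ p := by exact_mod_cast hp16
  have hp0' : (0 : ℝ) < p := by linarith
  have hp1' : (1 : ℝ) ≤ p := by linarith
  have hl2 : Real.log 2 ≤ Real.log p := Real.log_le_log (by norm_num) (by linarith)
  have hl2' := Real.log_two_gt_d9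
  have hk120 : 120 * Real.log p ≤ k0 := by rw [hk0]; exact Nat.le_ceil _
  have hk0lt : (k0 : ℝ) < 120 * Real.log p + 1 := by
    rw [hk0]; exact Nat.ceil_lt_add_one (by linarith)
  have hk4 : 4 ≤ k0 := by
    have : (4 : ℝ) ≤ k0 := by linarith
    exact_mod_cast this
  have hk0p' : (k0 : ℝ) + 1 ≤ p := by linarith
  have hk0p : k0 + 1 ≤ p := by exact_mod_cast hk0p'
  obtain ⟨E, hEdef⟩ : ∃ E, E = A + 3 := ⟨_, rfl⟩
  have hE1 : 1 ≤ E := by omega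
  rw [← hEdef, show A + 4 = E + 1 by omega] at hGE
  rw [← hEdef] at hp33 ⊢
  have hEp : (33 : ℝ) * E ≤ p := by exact_mod_cast hp33
  have hE0 : (1 : ℝ) ≤ E := by exact_mod_cast hE1
  have hEk : (E : ℝ) * k0 * 33 ≤ p ^ 2 := by
    have h2 : (k0 : ℝ) ≤ p := by linarith
    nlinarith
  have hEQ : E * k0 ≤ p ^ (E + 1) := by
    have h1 : ((E * k0 : ℕ) : ℝ) ≤ ((p ^ 2 : ℕ) : ℝ) := by
      push_cast
      have : (0 : ℝ) ≤ (E : ℝ) * k0 := by positivity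
      linarith
    have h2 : E * k0 ≤ p ^ 2 := by exact_mod_cast h1
    exact h2.trans (Nat.pow_le_pow_right hp.pos (by omega))
  obtain ⟨X, hX⟩ : ∃ X, X = (p : ℝ) ^ (R + 1) := ⟨_, rfl⟩
  have hX0 : 0 < X := by rw [hX]; positivity
  -- part 1
  have q1 : (∑ _j ∈ range p, ∑ n ∈ range (p ^ R),
      (if PG2 p E R k0 n then (0 : ℝ) else 1)) * (p : ℝ) ^ E ≤ 2 * E * k0 * X := by
    have e : ∀ n, (if PG2 p E R k0 n then (0 : ℝ) else 1) =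
        (if ¬ PG2 p E R k0 n then (1 : ℝ) else 0) := by
      intro n; split_ifs <;> rfl
    rw [sum_const, card_range, nsmul_eq_mul, sum_congr rfl (fun n _ => e n), ← sum_filter,
      sum_const, nsmul_eq_mul, mul_one]
    have h3 := count_not_PG2 (p := p) (by omega) hE1 R k0
    calc _ = p * ((((range (p ^ R)).filter (fun n => ¬ PG2 p E R k0 n)).card : ℝ) *
          (p : ℝ) ^ E) := by ring
      _ ≤ p * (2 * E * k0 * (p : ℝ) ^ R) := mul_le_mul_of_nonneg_left h3 hp0'.le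
      _ = _ := by rw [hX]; ring
  -- part 2
  have q2 : (∑ j ∈ range p, ∑ n ∈ range (p ^ R), 2 * ∑ M ∈ range R,
      (if (p : ℝ) ^ ε ≤ ((p - 1 - j : ℕ) : ℝ) ∧ PG2 p E R k0 n then
        Zs p R (M + 1) (p - 1 - j) ((p : ℤ) * n + j) ((n : ℤ) + 1) else 0)) *
        (p : ℝ) ^ E ≤ 4 * X := by
    have h1 := sum_Zs_le2 hp hε hE1 hGE (Q := E + 1) le_self_add (by omega) hp16 hlog
      (T := R) hk0p hk4 hEQ hk120
    have h2 : ∑ j ∈ range p, ∑ n ∈ range (p ^ R), 2 * ∑ M ∈ range R,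
        (if (p : ℝ) ^ ε ≤ ((p - 1 - j : ℕ) : ℝ) ∧ PG2 p E R k0 n then
          Zs p R (M + 1) (p - 1 - j) ((p : ℤ) * n + j) ((n : ℤ) + 1) else 0) =
        2 * ∑ M ∈ range R, ∑ j ∈ range p, ∑ n ∈ range (p ^ R),
        (if (p : ℝ) ^ ε ≤ ((p - 1 - j : ℕ) : ℝ) ∧ PG2 p E R k0 n then
          Zs p R (M + 1) (p - 1 - j) ((p : ℤ) * n + j) ((n : ℤ) + 1) else 0) := by
      rw [sum_comm' (s := range R) (t := fun _ => range p) (t' := range p)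
        (s' := fun _ => range R) (by intro x y; tauto), mul_sum]
      apply sum_congr rfl
      intro j _
      rw [← mul_sum, sum_comm]
    rw [h2]
    have h3 := part2_num hp33 hE1 hk0p hk120 hX0.le
    refine le_trans ?_ h3
    apply mul_le_mul_of_nonneg_right _ (by positivity)
    rw [hX]
    linarith
  -- part 3
  have hT' : T * p ^ (E + 7) ≤ p ^ (2 * k) := by
    rw [hEdef, show A + 3 + 7 = A + 10 by omega]; exact hT
  have q3 := part3 (T := T) (R := R) (E := E) hp30 (by omega) hR hT'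
  -- part 4
  have q4 := part4 hp hGE (by linarith) (by omega) (Q := E + 1) le_self_add hp30 (k := k)
    (by omega) hR hT'
  rw [← hX] at q3 q4 ⊢
  have hsum : (∑ j ∈ range p, ∑ n ∈ range (p ^ R), Bd p E R k0 (12 * k) (2 * k + 1) T ε j n) =
      (∑ _j ∈ range p, ∑ n ∈ range (p ^ R), (if PG2 p E R k0 n then (0 : ℝ) else 1)) +
      (∑ j ∈ range p, ∑ n ∈ range (p ^ R), 2 * ∑ M ∈ range R,
      (if (p : ℝ) ^ ε ≤ ((p - 1 - j : ℕ) : ℝ) ∧ PG2 p E R k0 n then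
        Zs p R (M + 1) (p - 1 - j) ((p : ℤ) * n + j) ((n : ℤ) + 1) else 0)) +
      (∑ _j ∈ range p, ∑ n ∈ range (p ^ R),
      (if ∃ x < T + 12 * k + 1, p ^ (2 * k + 1) ∣ n + 1 + x then (1 : ℝ) else 0)) +
      (∑ _j ∈ range p, ∑ n ∈ range (p ^ R), ∑ t ∈ range T, 6 * (2 : ℝ) ^ (12 * k) *
      (if (∀ i ≤ 12 * k, ¬ p ^ (2 * k + 1) ∣ n + (1 + t) + 1 + i) then
        Dd p (12 * k) (n + (1 + t)) else 0)) := by
    unfold Bd
    simp only [sum_add_distrib]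
  have hfin : (∑ j ∈ range p, ∑ n ∈ range (p ^ R),
      Bd p E R k0 (12 * k) (2 * k + 1) T ε j n) * (p : ℝ) ^ E ≤ X * (p : ℝ) ^ 3 := by
    rw [hsum, add_mul, add_mul, add_mul]
    have h1 : 2 * (E : ℝ) * k0 * X ≤ X * (p : ℝ) ^ 2 := by
      have : (0 : ℝ) ≤ (E : ℝ) * k0 := by positivity
      have h5 : 2 * (E : ℝ) * k0 ≤ (p : ℝ) ^ 2 := by linarith
      calc 2 * (E : ℝ) * k0 * X ≤ (p : ℝ) ^ 2 * X := mul_le_mul_of_nonneg_right h5 hX0.le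
        _ = _ := by ring
    have h3 : X * (p : ℝ) ^ 2 + X * 6 ≤ X * (p : ℝ) ^ 3 := by
      rw [← mul_add]
      apply mul_le_mul_of_nonneg_left _ hX0.le
      nlinarith [sq_nonneg ((p : ℝ) - 2)]
    linarith
  have h6 : (∑ j ∈ range p, ∑ n ∈ range (p ^ R),
      Bd p E R k0 (12 * k) (2 * k + 1) T ε j n) * (p : ℝ) ^ A * (p : ℝ) ^ 3 ≤
      X * (p : ℝ) ^ 3 := by
    have e3 : (p : ℝ) ^ E = (p : ℝ) ^ A * (p : ℝ) ^ 3 := by rw [hEdef, pow_add]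
    rw [mul_assoc, ← e3]
    exact hfin
  exact le_of_mul_le_mul_right h6 (by positivity)

end Pool.Agent.FacLarge
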