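import Pool.Agent.FacLarge.Fin3

/-!
The final count, with polynomial excess.
-/

set_option autoImplicit false

namespace Pool.Agent.FacLarge

open Finset Filter

theorem count_bad3 {p : ℕ} {ε : ℝ} (A : ℕ) (hp : p.Prime) (hε : ε ≤ 83 / 100)
    (hGE : GE p ε (A + 3) (2 * (A + 3 + (A + 4)) + 54)) (hp33 : 33 * (A + 3) ≤ p)
    (hp30 : 2 ^ 30 ≤ p)
    (hlog : 30 * Real.log p ≤ p - 1) (hlog2 : 120 * Real.log p + 3 ≤ p) {k R T : ℕ}
    (hk : A + 10 ≤ k) (hR : 15 * k ≤ R)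
    (hT : T * p ^ (A + 10) ≤ p ^ (2 * k)) (b : ℕ) :
    ({a : ℕ | b ≤ a ∧ a < b + p ^ (R + 1) ∧ (p : ℝ) ^ ε ≤ ((p - 1 - a % p : ℕ) : ℝ) ∧
      ¬ GoodA p T a}.ncard : ℝ) * (p : ℝ) ^ A ≤ (p : ℝ) ^ (R + 1) := by
  classical
  have hp0 := hp.pos
  have hpz : (p : ℤ) ≠ 0 := by exact_mod_cast hp0.ne'
  obtain ⟨k0, hk0⟩ : ∃ k0, k0 = ⌈120 * Real.log p⌉₊ := ⟨_, rfl⟩
  obtain ⟨s1, s2, s3⟩ := side hp30 (show 7 ≤ k by omega) hR
  obtain ⟨F, hF⟩ : ∃ F : ℕ → ℕ → ℝ, F = fun j n =>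
    Bd p (A + 3) R k0 (12 * k) (2 * k + 1) T ε j n := ⟨_, rfl⟩
  have hF0 : ∀ j n, 0 ≤ F j n := by
    intro j n; rw [hF]; exact Bd_nonneg j n
  have hFper : ∀ j n n', n ≡ n' [MOD p ^ R] → F j n = F j n' := by
    intro j n n' h
    rw [hF]
    exact Bd_congr hp (by omega) s1 s2 h
  obtain ⟨H, hH⟩ : ∃ H : ℤ → ℝ, H = fun z : ℤ =>
    F (z % (p : ℤ)).toNat ((z / (p : ℤ)) % ((p ^ R : ℕ) : ℤ)).toNat := ⟨_, rfl⟩
  have hHnat : ∀ a : ℕ, H a = F (a % p) (a / p) := by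
    intro a
    rw [hH]
    have e1 : ((a : ℤ) % (p : ℤ)) = ((a % p : ℕ) : ℤ) := by push_cast; rfl
    have e2 : ((a : ℤ) / (p : ℤ)) % ((p ^ R : ℕ) : ℤ) = (((a / p) % p ^ R : ℕ) : ℤ) := by
      push_cast; rfl
    simp only
    rw [e1, e2, Int.toNat_natCast, Int.toNat_natCast]
    exact hFper _ _ _ (Nat.mod_modEq _ _)
  have hHper : ∀ x y : ℤ, ((p ^ (R + 1) : ℕ) : ℤ) ∣ x - y → H x = H y := by
    intro x y h
    obtain ⟨c, hc⟩ := h
    have e : x = y + (p : ℤ) * (((p ^ R : ℕ) : ℤ) * c) := by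
      have : x = y + ((p ^ (R + 1) : ℕ) : ℤ) * c := by linarith
      rw [this]; push_cast; ring
    have e1 : x % (p : ℤ) = y % (p : ℤ) := by rw [e, Int.add_mul_emod_self_left]
    have e2 : (x / (p : ℤ)) % ((p ^ R : ℕ) : ℤ) = (y / (p : ℤ)) % ((p ^ R : ℕ) : ℤ) := by
      rw [e, Int.add_mul_ediv_left _ _ hpz, Int.add_mul_emod_self_left]
    rw [hH]
    simp only [e1, e2]
  have hbad := sum_Bd_le A hp hε hGE hp33 hp30 hlog hlog2 hk0 hk hR hT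
  have htot : ∑ a ∈ range (p ^ (R + 1)), H a = ∑ j ∈ range p, ∑ n ∈ range (p ^ R), F j n := by
    rw [show p ^ (R + 1) = p * p ^ R by rw [pow_succ, mul_comm], sum_blocks, sum_comm]
    apply sum_congr rfl
    intro j hj
    rw [mem_range] at hj
    apply sum_congr rfl
    intro n _
    have e : ((p : ℤ) * n + j) = ((p * n + j : ℕ) : ℤ) := by push_cast; ring
    rw [e, hHnat]
    congr 1
    · rw [Nat.mul_add_mod, Nat.mod_eq_of_lt hj]
    · rw [Nat.mul_add_div hp0, Nat.div_eq_of_lt hj, add_zero]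
  have hshift := sum_perm (q := p ^ (R + 1)) (by positivity) hHper (σ := fun a => a + b) (by
    intro x y h
    simpa using h)
  obtain ⟨S, hS⟩ : ∃ S : Finset ℕ, S = (range (p ^ (R + 1))).filter (fun w : ℕ =>
      (p : ℝ) ^ ε ≤ ((p - 1 - (w + b) % p : ℕ) : ℝ) ∧ ¬ GoodA p T ((w + b : ℕ) : ℤ)) :=
    ⟨_, rfl⟩
  have hset : {a : ℕ | b ≤ a ∧ a < b + p ^ (R + 1) ∧
      (p : ℝ) ^ ε ≤ ((p - 1 - a % p : ℕ) : ℝ) ∧ ¬ GoodA p T a} =
      ((S.image (fun w => w + b) : Finset ℕ) : Set ℕ) := by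
    ext a
    rw [Set.mem_ofPred_eq, mem_coe, mem_image, hS]
    constructor
    · rintro ⟨h3, h4, h5, h6⟩
      refine ⟨a - b, ?_, by omega⟩
      rw [mem_filter, mem_range]
      have e : a - b + b = a := by omega
      rw [e]
      exact ⟨by omega, h5, h6⟩
    · rintro ⟨c, h3, rfl⟩
      rw [mem_filter, mem_range] at h3
      obtain ⟨h3, h4, h5⟩ := h3
      exact ⟨by omega, by omega, h4, h5⟩
  rw [hset, Set.ncard_coe_finset, card_image_of_injective _ (add_left_injective b)]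
  have hcard : (S.card : ℝ) ≤ ∑ w ∈ range (p ^ (R + 1)), H ((w : ℤ) + b) := by
    calc (S.card : ℝ) = ∑ w ∈ S, (1 : ℝ) := by simp
      _ ≤ ∑ w ∈ S, H ((w : ℤ) + b) := by
        apply sum_le_sum
        intro w hw
        rw [hS, mem_filter] at hw
        obtain ⟨_, h4, h5⟩ := hw
        have e : (w : ℤ) + b = ((w + b : ℕ) : ℤ) := by push_cast; ring
        rw [e, hHnat, hF]
        apply one_le_Bd hp (Nat.mod_lt _ hp0) s1 s2 h4
        have e2 : (p : ℤ) * ((w + b) / p : ℕ) + ((w + b) % p : ℕ) = ((w + b : ℕ) : ℤ) := by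
          exact_mod_cast Nat.div_add_mod (w + b) p
        rw [e2]
        exact h5
      _ ≤ _ := by
        apply sum_le_sum_of_subset_of_nonneg
        · rw [hS]; exact filter_subset _ _
        · intro w _ _
          rw [hH]
          exact hF0 _ _
  calc (S.card : ℝ) * (p : ℝ) ^ A ≤ (∑ w ∈ range (p ^ (R + 1)), H ((w : ℤ) + b)) *
        (p : ℝ) ^ A := mul_le_mul_of_nonneg_right hcard (by positivity)
    _ = (∑ j ∈ range p, ∑ n ∈ range (p ^ R), F j n) * (p : ℝ) ^ A := by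
        rw [hshift, htot]
    _ ≤ _ := by rw [hF]; exact hbad

/-- intervals of any length, from intervals of length `q` -/
theorem count_intervals {P : ℕ → Prop} {q x M B : ℕ} (hq : 0 < q)
    (h : ∀ b, {a : ℕ | b ≤ a ∧ a < b + q ∧ P a}.ncard * M ≤ B) (b : ℕ) :
    {a : ℕ | b ≤ a ∧ a < b + x ∧ P a}.ncard * M ≤ (x / q + 1) * B := by
  classical
  have h1 : ∀ c : ℕ, ∀ b, {a : ℕ | b ≤ a ∧ a < b + c * q ∧ P a}.ncard * M ≤ c * B := by
    intro c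
    induction c with
    | zero =>
      intro b
      have : {a : ℕ | b ≤ a ∧ a < b + 0 * q ∧ P a} = ∅ := by
        ext a
        rw [Set.mem_ofPred_eq]
        constructor
        · rintro ⟨h1, h2, _⟩; omega
        · intro h; exact absurd h (Set.notMem_empty _)
      rw [this]
      simp
    | succ c ih =>
      intro b
      have hsub : {a : ℕ | b ≤ a ∧ a < b + (c + 1) * q ∧ P a} ⊆
          {a : ℕ | b ≤ a ∧ a < b + q ∧ P a} ∪
          {a : ℕ | b + q ≤ a ∧ a < b + q + c * q ∧ P a} := by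
        rintro a ⟨h2, h3, h4⟩
        by_cases h5 : a < b + q
        · exact Or.inl ⟨h2, h5, h4⟩
        · refine Or.inr ⟨by omega, ?_, h4⟩
          have : (c + 1) * q = q + c * q := by ring
          omega
      have hfin : ({a : ℕ | b ≤ a ∧ a < b + q ∧ P a} ∪
          {a : ℕ | b + q ≤ a ∧ a < b + q + c * q ∧ P a}).Finite := by
        apply Set.Finite.union
        · exact (Set.finite_Ico b (b + q)).subset fun a ha => ⟨ha.1, ha.2.1⟩
        · exact (Set.finite_Ico (b + q) (b + q + c * q)).subset fun a ha => ⟨ha.1, ha.2.1⟩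
      calc _ ≤ ({a : ℕ | b ≤ a ∧ a < b + q ∧ P a} ∪
          {a : ℕ | b + q ≤ a ∧ a < b + q + c * q ∧ P a}).ncard * M :=
            Nat.mul_le_mul_right _ (Set.ncard_le_ncard hsub hfin)
        _ ≤ ({a : ℕ | b ≤ a ∧ a < b + q ∧ P a}.ncard +
          {a : ℕ | b + q ≤ a ∧ a < b + q + c * q ∧ P a}.ncard) * M :=
            Nat.mul_le_mul_right _ (Set.ncard_union_le _ _)
        _ ≤ B + c * B := by rw [add_mul]; exact Nat.add_le_add (h b) (ih (b + q))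
        _ = _ := by ring
  refine le_trans (Nat.mul_le_mul_right _ ?_) (h1 (x / q + 1) b)
  apply Set.ncard_le_ncard
  · rintro a ⟨h2, h3, h4⟩
    refine ⟨h2, ?_, h4⟩
    have : x < (x / q + 1) * q := by
      rw [mul_comm]
      exact Nat.lt_mul_div_succ x hq
    omega
  · exact (Set.finite_Ico b (b + (x / q + 1) * q)).subset fun a ha => ⟨ha.1, ha.2.1⟩

/-- the parameters -/
theorem params3 {p A x T : ℕ} (hp : 1 < p) (hx : p ^ (120 * (A + 14)) ≤ x) (hT : T ^ 8 ≤ x) :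
    ∃ R k, A + 11 ≤ k ∧ 15 * k ≤ R ∧ p ^ (R + 1) ≤ x ∧ T * p ^ (A + 11) ≤ p ^ (2 * k) := by
  have hx0 : x ≠ 0 := by
    have := pow_pos (show 0 < p by omega) (120 * (A + 14))
    omega
  obtain ⟨r, hr⟩ : ∃ r, r = Nat.log p x := ⟨_, rfl⟩
  have h1 : p ^ r ≤ x := by rw [hr]; exact Nat.pow_log_le_self p hx0
  have h2 : x < p ^ (r + 1) := by rw [hr]; exact Nat.lt_pow_succ_log_self hp x
  have h3 : 120 * (A + 14) ≤ r := by
    rw [hr]
    exact Nat.le_log_of_pow_le hp hx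
  refine ⟨r - 1, (r - 1) / 15, by omega, by omega, ?_, ?_⟩
  · rw [show r - 1 + 1 = r by omega]; exact h1
  · have h4 : (T * p ^ (A + 11)) ^ 8 ≤ (p ^ (2 * ((r - 1) / 15))) ^ 8 := by
      rw [mul_pow, ← pow_mul, ← pow_mul]
      calc T ^ 8 * p ^ ((A + 11) * 8) ≤ p ^ (r + 1) * p ^ ((A + 11) * 8) :=
            Nat.mul_le_mul_right _ (hT.trans h2.le)
        _ = p ^ (r + 1 + (A + 11) * 8) := by rw [← pow_add]
        _ ≤ p ^ (2 * ((r - 1) / 15) * 8) := Nat.pow_le_pow_right (by omega) (by omega)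
    exact (Nat.pow_le_pow_iff_left (by norm_num)).1 h4

theorem most_residues3 {δ : ℝ} (hδ : 0 < δ) (A : ℕ) : ∃ P0 : ℕ, ∀ p : ℕ, P0 ≤ p → p.Prime →
    ∀ x T b : ℕ, p ^ (120 * (A + 14)) ≤ x → T ^ 8 ≤ x →
    {a : ℕ | b ≤ a ∧ a < b + x ∧ ((a % p : ℕ) : ℝ) + (p : ℝ) ^ δ ≤ p ∧
      ¬ GoodA p T a}.ncard * p ^ A ≤ x := by
  obtain ⟨ε, hε1, P1, h1⟩ := exists_params hδ (A + 1 + 3) (2 * (A + 1 + 3 + (A + 1 + 4)) + 54)
  obtain ⟨P2, h2⟩ := eventually_fin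
  refine ⟨max (max P1 P2) (max (33 * (A + 1 + 3)) (2 ^ 30)), fun p hp hpp x T b hx hT => ?_⟩
  have hp1 : P1 ≤ p := le_trans (le_trans (le_max_left _ _) (le_max_left _ _)) hp
  have hp2 : P2 ≤ p := le_trans (le_trans (le_max_right _ _) (le_max_left _ _)) hp
  have hp3 : 33 * (A + 1 + 3) ≤ p :=
    le_trans (le_trans (le_max_left _ _) (le_max_right _ _)) hp
  have hp4 : 2 ^ 30 ≤ p := le_trans (le_trans (le_max_right _ _) (le_max_right _ _)) hp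
  obtain ⟨hGE, hpow⟩ := h1 p hp1 hpp
  obtain ⟨a1, a2, a3, a4⟩ := h2 p hp2
  obtain ⟨R, k, r1, r2, r3, r4⟩ := params3 hpp.one_lt hx hT
  have hq0 : 0 < p ^ (R + 1) := pow_pos hpp.pos _
  have hbase : ∀ b, {a : ℕ | b ≤ a ∧ a < b + p ^ (R + 1) ∧
      (((a % p : ℕ) : ℝ) + (p : ℝ) ^ δ ≤ p ∧ ¬ GoodA p T a)}.ncard * p ^ (A + 1) ≤
      p ^ (R + 1) := by
    intro b
    have h3 := count_bad3 (A + 1) hpp hε1 hGE hp3 hp4 a2 a3 (k := k) (R := R) (T := T)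
      (by omega) r2 (by rw [show A + 1 + 10 = A + 11 by omega]; exact r4) b
    have hfin : {a : ℕ | b ≤ a ∧ a < b + p ^ (R + 1) ∧ (p : ℝ) ^ ε ≤
        ((p - 1 - a % p : ℕ) : ℝ) ∧ ¬ GoodA p T a}.Finite :=
      (Set.finite_Ico b (b + p ^ (R + 1))).subset fun a ha => ⟨ha.1, ha.2.1⟩
    have hsub : {a : ℕ | b ≤ a ∧ a < b + p ^ (R + 1) ∧
        (((a % p : ℕ) : ℝ) + (p : ℝ) ^ δ ≤ p ∧ ¬ GoodA p T a)} ⊆
        {a : ℕ | b ≤ a ∧ a < b + p ^ (R + 1) ∧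
        (p : ℝ) ^ ε ≤ ((p - 1 - a % p : ℕ) : ℝ) ∧ ¬ GoodA p T a} :=
      fun a ha => ⟨ha.1, ha.2.1, residue_cond hpp.pos hpow ha.2.2.1, ha.2.2.2⟩
    have h4 : {a : ℕ | b ≤ a ∧ a < b + p ^ (R + 1) ∧ (p : ℝ) ^ ε ≤
        ((p - 1 - a % p : ℕ) : ℝ) ∧ ¬ GoodA p T a}.ncard * p ^ (A + 1) ≤ p ^ (R + 1) := by
      exact_mod_cast h3
    exact (Nat.mul_le_mul_right _ (Set.ncard_le_ncard hsub hfin)).trans h4
  have h5 := count_intervals (x := x) hq0 hbase b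
  have h6 : (x / p ^ (R + 1) + 1) * p ^ (R + 1) ≤ p * x := by
    calc _ = x / p ^ (R + 1) * p ^ (R + 1) + p ^ (R + 1) := by ring
      _ ≤ x + x := Nat.add_le_add (Nat.div_mul_le_self _ _) r3
      _ = 2 * x := by ring
      _ ≤ p * x := Nat.mul_le_mul_right _ hpp.two_le
  have h7 : p * ({a : ℕ | b ≤ a ∧ a < b + x ∧ (((a % p : ℕ) : ℝ) + (p : ℝ) ^ δ ≤ p ∧
      ¬ GoodA p T a)}.ncard * p ^ A) ≤ p * x := by
    calc _ = {a : ℕ | b ≤ a ∧ a < b + x ∧ (((a % p : ℕ) : ℝ) + (p : ℝ) ^ δ ≤ p ∧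
      ¬ GoodA p T a)}.ncard * p ^ (A + 1) := by rw [pow_succ]; ring
      _ ≤ _ := h5.trans h6
  exact Nat.le_of_mul_le_mul_left h7 hpp.pos

end Pool.Agent.FacLarge
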