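import Pool.Agent.FacLarge.Lam

/-!
Small multiples of `1, s, s ^ 2, ...` modulo `p ^ e` force `s` to be a root modulo `p ^ e` of an
integer polynomial of bounded degree with small values at many small integers.
-/

set_option autoImplicit false

namespace Pool.Agent.FacLarge

open Polynomial

noncomputable def polyF {m : ℕ} (g : Fin (m + 1) → ℕ) : ℤ[X] :=
  ∑ i : Fin (m + 1), C ((g i : ℕ) : ℤ) * X ^ (i : ℕ)

theorem polyF_coeff {m : ℕ} (g : Fin (m + 1) → ℕ) (l : Fin (m + 1)) :
    (polyF g).coeff l = g l := by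
  unfold polyF
  rw [Polynomial.finsetSum_coeff, Finset.sum_eq_single l]
  · simp
  · intro b _ hb
    rw [Polynomial.coeff_C_mul_X_pow, if_neg]
    intro h
    exact hb (Fin.ext h.symm)
  · intro h; exact absurd (Finset.mem_univ _) h

theorem polyF_coeff_of_lt {m : ℕ} (g : Fin (m + 1) → ℕ) {l : ℕ} (hl : m < l) :
    (polyF g).coeff l = 0 := by
  unfold polyF
  rw [Polynomial.finsetSum_coeff]
  apply Finset.sum_eq_zero
  intro i _
  rw [Polynomial.coeff_C_mul_X_pow, if_neg]
  have := i.2
  omega

theorem polyF_natDegree {m : ℕ} (g : Fin (m + 1) → ℕ) : (polyF g).natDegree ≤ m := by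
  rw [Polynomial.natDegree_le_iff_coeff_eq_zero]
  intro N hN
  exact polyF_coeff_of_lt g (by omega)

theorem polyF_sub_natDegree {m : ℕ} (g g' : Fin (m + 1) → ℕ) :
    (polyF g - polyF g').natDegree ≤ m := by
  have h := Polynomial.natDegree_sub_le_of_le (polyF_natDegree g) (polyF_natDegree g')
  rwa [max_self] at h

theorem polyF_injective {m : ℕ} : Function.Injective (polyF (m := m)) := by
  intro g g' h
  funext l
  have h1 := polyF_coeff g l
  rw [h, polyF_coeff g' l] at h1
  exact_mod_cast h1.symm

theorem polyF_sub_coeff_abs {m H : ℕ} {g g' : Fin (m + 1) → ℕ} (hg : ∀ i, g i ≤ H)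
    (hg' : ∀ i, g' i ≤ H) (l : ℕ) : |(polyF g - polyF g').coeff l| ≤ H := by
  rw [Polynomial.coeff_sub]
  by_cases hl : l ≤ m
  · have e1 := polyF_coeff g ⟨l, by omega⟩
    have e2 := polyF_coeff g' ⟨l, by omega⟩
    simp only at e1 e2
    rw [e1, e2, abs_le]
    have h1 := hg ⟨l, by omega⟩
    have h2 := hg' ⟨l, by omega⟩
    omega
  · rw [polyF_coeff_of_lt g (by omega), polyF_coeff_of_lt g' (by omega)]
    simp

theorem eval_abs_le {m H : ℕ} {P : ℤ[X]} (hP : P.natDegree ≤ m) (hc : ∀ l, |P.coeff l| ≤ H)
    {c : ℕ} (hcm : c ≤ m) : |P.eval (c : ℤ)| ≤ ((m + 1) ^ (m + 1) * H : ℕ) := by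
  rw [Polynomial.eval_eq_sum_range' (show P.natDegree < m + 1 by omega)]
  calc |∑ i ∈ Finset.range (m + 1), P.coeff i * (c : ℤ) ^ i|
      ≤ ∑ i ∈ Finset.range (m + 1), |P.coeff i * (c : ℤ) ^ i| := Finset.abs_sum_le_sum_abs _ _
    _ ≤ ∑ i ∈ Finset.range (m + 1), ((H : ℤ) * ((m : ℤ) + 1) ^ m) := by
      apply Finset.sum_le_sum
      intro i hi
      rw [Finset.mem_range] at hi
      rw [abs_mul, abs_pow]
      apply mul_le_mul (hc i) _ (by positivity) (by positivity)
      have h1 : |(c : ℤ)| ≤ (m : ℤ) + 1 := by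
        rw [abs_of_nonneg (by positivity)]
        omega
      calc |(c : ℤ)| ^ i ≤ ((m : ℤ) + 1) ^ i := pow_le_pow_left₀ (abs_nonneg _) h1 i
        _ ≤ _ := pow_le_pow_right₀ (by omega) (by omega)
    _ = _ := by
      rw [Finset.sum_const, Finset.card_range, nsmul_eq_mul]
      push_cast
      ring

theorem ann_of_small {v : ℕ → ℤ} {s q : ℤ} {N m X' H : ℕ}
    (hv : ∀ l ≤ N, |v l| ≤ X') (hs : ∀ l ≤ N, q ∣ v l - s ^ l * v 0)
    (h2 : (((m + 1) * H * X' : ℕ) : ℤ) < q) (hmN : m ≤ N) {P : ℤ[X]} (hP : P.natDegree ≤ m)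
    (hc : ∀ l, |P.coeff l| ≤ H) (hPs : q ∣ P.eval s) : Ann v (N - m) P := by
  intro j hj
  rw [Lf_eq_sum v j P hP]
  apply Int.eq_zero_of_abs_lt_dvd (m := q)
  · have h1 : (q : ℤ) ∣ ∑ l ∈ Finset.range (m + 1), (P.coeff l * v (j + l) -
        P.coeff l * (s ^ (j + l) * v 0)) := by
      apply Finset.dvd_sum
      intro l hl
      rw [Finset.mem_range] at hl
      rw [← mul_sub]
      exact (hs (j + l) (by omega)).mul_left _
    rw [Finset.sum_sub_distrib] at h1
    have h3 : ∑ l ∈ Finset.range (m + 1), P.coeff l * (s ^ (j + l) * v 0) =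
        s ^ j * v 0 * P.eval s := by
      rw [Polynomial.eval_eq_sum_range' (show P.natDegree < m + 1 by omega), Finset.mul_sum]
      apply Finset.sum_congr rfl
      intro l _
      rw [pow_add]; ring
    rw [h3] at h1
    have h4 := dvd_add h1 (hPs.mul_left (s ^ j * v 0))
    rwa [sub_add_cancel] at h4
  · refine lt_of_le_of_lt ?_ h2
    calc |∑ l ∈ Finset.range (m + 1), P.coeff l * v (j + l)|
        ≤ ∑ l ∈ Finset.range (m + 1), |P.coeff l * v (j + l)| := Finset.abs_sum_le_sum_abs _ _
      _ ≤ ∑ l ∈ Finset.range (m + 1), ((H : ℤ) * X') := by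
        apply Finset.sum_le_sum
        intro l hl
        rw [Finset.mem_range] at hl
        rw [abs_mul]
        exact mul_le_mul (hc l) (hv (j + l) (by omega)) (abs_nonneg _) (by positivity)
      _ = _ := by
        rw [Finset.sum_const, Finset.card_range, nsmul_eq_mul]
        push_cast
        ring

theorem card_multiples_le (d : ℤ) (hd : d ≠ 0) (B : ℕ) :
    ((Finset.Icc (-(B : ℤ)) B).filter (fun z => d ∣ z)).card ≤ 2 * (B / d.natAbs) + 1 := by
  have h1 : ((Finset.Icc (-(B : ℤ)) B).filter (fun z => d ∣ z)).card ≤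
      (Finset.Icc (-((B / d.natAbs : ℕ) : ℤ)) ((B / d.natAbs : ℕ) : ℤ)).card := by
    apply Finset.card_le_card_of_injOn (fun z => z / d)
    · intro z hz
      have hz' := Finset.mem_filter.1 (Finset.mem_coe.1 hz)
      rw [Finset.mem_Icc] at hz'
      obtain ⟨⟨hz1, hz2⟩, y, rfl⟩ := hz'
      rw [Finset.mem_coe, Finset.mem_Icc]
      have e1 : d * y / d = y := Int.mul_ediv_cancel_left y hd
      show -((B / d.natAbs : ℕ) : ℤ) ≤ d * y / d ∧ d * y / d ≤ ((B / d.natAbs : ℕ) : ℤ)
      rw [e1]
      have h3 : (d * y).natAbs ≤ B := by omega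
      rw [Int.natAbs_mul] at h3
      have h4 : y.natAbs ≤ B / d.natAbs := by
        rw [Nat.le_div_iff_mul_le (Int.natAbs_pos.2 hd), mul_comm]
        exact h3
      omega
    · intro z hz z' hz' h
      have hz1 := (Finset.mem_filter.1 (Finset.mem_coe.1 hz)).2
      have hz1' := (Finset.mem_filter.1 (Finset.mem_coe.1 hz')).2
      obtain ⟨y, rfl⟩ := hz1
      obtain ⟨y', rfl⟩ := hz1'
      simp only at h
      rw [Int.mul_ediv_cancel_left y hd, Int.mul_ediv_cancel_left y' hd] at h
      rw [h]
  refine h1.trans ?_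
  rw [Int.card_Icc]
  omega

theorem lemmaK {p e n m X' H Y : ℕ} (hp : p.Prime) (hnm : n ≤ m) {v : ℕ → ℤ} {s : ℤ}
    (hv : ∀ l ≤ 2 * m + n, |v l| ≤ X') (hs : ∀ l ≤ 2 * m + n, (p : ℤ) ^ e ∣ v l - s ^ l * v 0)
    (hv0 : ¬ (p : ℤ) ∣ v 0) (h1 : p ^ e < (H + 1) ^ (n + 1))
    (h2 : (m + 1) * H * X' < p ^ e)
    (h3 : p ^ e * (3 * (m + 1) ^ (m + 1)) ^ (m + 1) < Y ^ (m + 1 - n)) (hYH : Y ≤ H) :
    ∃ D : ℤ[X], D.IsPrimitive ∧ D.natDegree ≤ n ∧ (p : ℤ) ^ e ∣ D.eval s ∧
      D.natDegree + 1 ≤
        ((Finset.range (m + 1)).filter (fun c : ℕ => |D.eval (c : ℤ)| ≤ (Y : ℤ))).card := by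
  classical
  have hp0 := hp.pos
  have hq0 : 0 < p ^ e := by positivity
  have : NeZero (p ^ e) := ⟨hq0.ne'⟩
  have hqz : (0 : ℤ) < (p : ℤ) ^ e := by positivity
  have h2' : (((m + 1) * H * X' : ℕ) : ℤ) < (p : ℤ) ^ e := by exact_mod_cast h2
  -- a first annihilator
  have hfirst : ∃ P : ℤ[X], P ≠ 0 ∧ P.natDegree ≤ n ∧ Ann v (m + n) P := by
    have hcard : (Finset.univ : Finset (ZMod (p ^ e))).card <
        (Fintype.piFinset (fun _ : Fin (n + 1) => Finset.range (H + 1))).card := by
      rw [Fintype.card_piFinset_const, Finset.card_range, Finset.card_univ, ZMod.card]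
      exact h1
    obtain ⟨g, hg, g', hg', hne, heq⟩ := Finset.exists_ne_map_eq_of_card_lt_of_maps_to hcard
      (f := fun g => (((polyF g).eval s : ℤ) : ZMod (p ^ e))) (fun _ _ => Finset.mem_univ _)
    rw [Fintype.mem_piFinset] at hg hg'
    have hg2 : ∀ i, g i ≤ H := fun i => by
      have := Finset.mem_range.1 (hg i); omega
    have hg2' : ∀ i, g' i ≤ H := fun i => by
      have := Finset.mem_range.1 (hg' i); omega
    refine ⟨polyF g - polyF g', sub_ne_zero.2 (fun h => hne (polyF_injective h)), ?_, ?_⟩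
    · exact polyF_sub_natDegree g g'
    · have hdeg : (polyF g - polyF g').natDegree ≤ m :=
        (polyF_sub_natDegree g g').trans hnm
      have h4 := ann_of_small (N := 2 * m + n) (m := m) (H := H) hv hs h2' (by omega) hdeg
        (polyF_sub_coeff_abs hg2 hg2') ?_
      · have e1 : 2 * m + n - m = m + n := by omega
        rwa [e1] at h4
      · rw [Polynomial.eval_sub]
        have h5 : (((polyF g).eval s - (polyF g').eval s : ℤ) : ZMod (p ^ e)) = 0 := by
          push_cast
          rw [heq, sub_self]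
        have h6 := (ZMod.intCast_zmod_eq_zero_iff_dvd _ (p ^ e)).1 h5
        exact_mod_cast h6
  obtain ⟨D, hDp, hDn, hDa, hDdvd⟩ := exists_min_ann hfirst le_rfl
  refine ⟨D, hDp, hDn, ?_, ?_⟩
  · -- `D(s) = 0` modulo `p ^ e`
    have h4 := hDa 0 (Nat.zero_le _)
    rw [Lf_eq_sum v 0 D hDn] at h4
    have h5 : (p : ℤ) ^ e ∣ ∑ l ∈ Finset.range (n + 1), (D.coeff l * v (0 + l) -
        D.coeff l * (s ^ l * v 0)) := by
      apply Finset.dvd_sum
      intro l hl
      rw [Finset.mem_range] at hl
      rw [← mul_sub, zero_add]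
      exact (hs l (by omega)).mul_left _
    rw [Finset.sum_sub_distrib, h4, zero_sub, dvd_neg] at h5
    have h6 : ∑ l ∈ Finset.range (n + 1), D.coeff l * (s ^ l * v 0) = D.eval s * v 0 := by
      rw [Polynomial.eval_eq_sum_range' (show D.natDegree < n + 1 by omega), Finset.sum_mul]
      apply Finset.sum_congr rfl
      intro l _
      ring
    rw [h6] at h5
    have hcop : IsCoprime ((p : ℤ) ^ e) (v 0) := by
      apply IsCoprime.pow_left
      exact (Nat.prime_iff_prime_int.1 hp).coprime_iff_not_dvd.2 hv0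
    exact hcop.dvd_of_dvd_mul_right h5
  · by_contra hcon
    rw [not_le] at hcon
    obtain ⟨Z, hZ⟩ : ∃ Z : Finset ℕ, Z =
        (Finset.range (m + 1)).filter (fun c : ℕ => |D.eval (c : ℤ)| ≤ (Y : ℤ)) := ⟨_, rfl⟩
    rw [← hZ] at hcon
    obtain ⟨B, hB⟩ : ∃ B : ℕ, B = (m + 1) ^ (m + 1) * H := ⟨_, rfl⟩
    have hH1 : 1 ≤ H := by
      by_contra h
      have hH0 : H = 0 := by omega
      rw [hH0] at h1
      simp at h1
      omega
    have hBH : H ≤ B := by
      rw [hB]
      exact Nat.le_mul_of_pos_left _ (by positivity)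
    obtain ⟨Tc, hTc⟩ : ∃ Tc : ℕ → Finset ℤ, Tc = fun c : ℕ =>
      (Finset.Icc (-(B : ℤ)) B).filter (fun z => D.eval (c : ℤ) ∣ z) := ⟨_, rfl⟩
    have hTcard : ∀ c, (Tc c).card ≤ 3 * B := by
      intro c
      rw [hTc]
      refine (Finset.card_filter_le _ _).trans ?_
      rw [Int.card_Icc]
      omega
    have hTcard2 : ∀ c ∈ Finset.range (m + 1), c ∉ Z → (Tc c).card * Y ≤ 3 * B := by
      intro c hc hcZ
      rw [hZ, Finset.mem_filter, not_and, not_le] at hcZ
      have h4 := hcZ hc
      have hd0 : D.eval (c : ℤ) ≠ 0 := by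
        intro h
        rw [h, abs_zero] at h4
        omega
      have h5 : Y ≤ (D.eval (c : ℤ)).natAbs := by
        have : (Y : ℤ) < ((D.eval (c : ℤ)).natAbs : ℤ) := by
          rw [Int.natCast_natAbs]; exact h4
        omega
      have h6 := card_multiples_le _ hd0 B
      rw [hTc]
      calc _ ≤ (2 * (B / (D.eval (c : ℤ)).natAbs) + 1) * Y := Nat.mul_le_mul_right _ h6
        _ = 2 * (B / (D.eval (c : ℤ)).natAbs * Y) + Y := by ring
        _ ≤ 2 * (B / (D.eval (c : ℤ)).natAbs * (D.eval (c : ℤ)).natAbs) + Y := by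
          have := Nat.mul_le_mul_left (B / (D.eval (c : ℤ)).natAbs) h5
          omega
        _ ≤ 2 * B + Y := by
          have := Nat.div_mul_le_self B (D.eval (c : ℤ)).natAbs
          omega
        _ ≤ 3 * B := by omega
    -- fibres
    have hfib := Finset.card_le_mul_card_image
      (s := Fintype.piFinset (fun _ : Fin (m + 1) => Finset.range (H + 1)))
      (f := fun g => (((polyF g).eval s : ℤ) : ZMod (p ^ e)))
      (∏ c ∈ Finset.range (m + 1), (Tc c).card) ?_
    · rw [Fintype.card_piFinset_const, Finset.card_range] at hfib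
      have h4 : ((Fintype.piFinset (fun _ : Fin (m + 1) => Finset.range (H + 1))).image
          (fun g => (((polyF g).eval s : ℤ) : ZMod (p ^ e)))).card ≤ p ^ e := by
        calc _ ≤ (Finset.univ : Finset (ZMod (p ^ e))).card :=
              Finset.card_le_card (Finset.subset_univ _)
          _ = p ^ e := by rw [Finset.card_univ, ZMod.card]
      have h5 : (∏ c ∈ Finset.range (m + 1), (Tc c).card) * Y ^ (m + 1 - Z.card) ≤
          (3 * B) ^ (m + 1) := by
        have hZsub : Z ⊆ Finset.range (m + 1) := by rw [hZ]; exact Finset.filter_subset _ _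
        have e1 : (∏ c ∈ Finset.range (m + 1), (if c ∈ Z then 1 else Y)) =
            Y ^ (m + 1 - Z.card) := by
          rw [← Finset.prod_sdiff hZsub]
          have e2 : ∏ c ∈ Z, (if c ∈ Z then 1 else Y) = 1 := by
            apply Finset.prod_eq_one
            intro c hc
            rw [if_pos hc]
          have e3 : ∏ c ∈ Finset.range (m + 1) \ Z, (if c ∈ Z then 1 else Y) =
              ∏ c ∈ Finset.range (m + 1) \ Z, Y := by
            apply Finset.prod_congr rfl
            intro c hc
            rw [if_neg (Finset.mem_sdiff.1 hc).2]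
          rw [e2, e3, mul_one, Finset.prod_const, Finset.card_sdiff_of_subset hZsub,
            Finset.card_range]
        rw [← e1, ← Finset.prod_mul_distrib]
        calc _ ≤ ∏ c ∈ Finset.range (m + 1), (3 * B) := by
              apply Finset.prod_le_prod'
              intro c hc
              by_cases hcZ : c ∈ Z
              · rw [if_pos hcZ, mul_one]; exact hTcard c
              · rw [if_neg hcZ]; exact hTcard2 c hc hcZ
          _ = _ := by rw [Finset.prod_const, Finset.card_range]
      have hZn : Z.card ≤ n := by omega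
      have hY1 : 1 ≤ Y := by
        by_contra h
        have hY0 : Y = 0 := by omega
        rw [hY0, zero_pow (by omega)] at h3
        omega
      have h6 : Y ^ (m + 1 - n) ≤ Y ^ (m + 1 - Z.card) := Nat.pow_le_pow_right hY1 (by omega)
      have h7 : (H + 1) ^ (m + 1) * Y ^ (m + 1 - n) ≤ p ^ e * (3 * B) ^ (m + 1) := by
        calc (H + 1) ^ (m + 1) * Y ^ (m + 1 - n) ≤
              ((∏ c ∈ Finset.range (m + 1), (Tc c).card) * p ^ e) * Y ^ (m + 1 - Z.card) :=
            Nat.mul_le_mul (hfib.trans (Nat.mul_le_mul_left _ h4)) h6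
          _ = p ^ e * ((∏ c ∈ Finset.range (m + 1), (Tc c).card) * Y ^ (m + 1 - Z.card)) := by
            ring
          _ ≤ _ := Nat.mul_le_mul_left _ h5
      have h8 : p ^ e * (3 * B) ^ (m + 1) =
          (p ^ e * (3 * (m + 1) ^ (m + 1)) ^ (m + 1)) * H ^ (m + 1) := by
        have e9 : 3 * ((m + 1) ^ (m + 1) * H) = 3 * (m + 1) ^ (m + 1) * H := by ring
        rw [hB, e9, mul_pow _ H, mul_assoc]
      rw [h8] at h7
      have h9 : (p ^ e * (3 * (m + 1) ^ (m + 1)) ^ (m + 1)) * H ^ (m + 1) <
          (H + 1) ^ (m + 1) * Y ^ (m + 1 - n) := by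
        calc _ < Y ^ (m + 1 - n) * H ^ (m + 1) :=
              Nat.mul_lt_mul_of_pos_right h3 (by positivity)
          _ ≤ Y ^ (m + 1 - n) * (H + 1) ^ (m + 1) :=
            Nat.mul_le_mul_left _ (Nat.pow_le_pow_left (by omega) _)
          _ = _ := mul_comm _ _
      omega
    · intro ρ hρ
      rw [Finset.mem_image] at hρ
      obtain ⟨g0, hg0, rfl⟩ := hρ
      rw [Fintype.mem_piFinset] at hg0
      have hg02 : ∀ i, g0 i ≤ H := fun i => by
        have := Finset.mem_range.1 (hg0 i); omega
      calc _ ≤ (Fintype.piFinset (fun c : Fin (m + 1) => Tc c)).card := by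
            apply Finset.card_le_card_of_injOn
              (fun g => fun c : Fin (m + 1) => (polyF g - polyF g0).eval ((c : ℕ) : ℤ))
            · intro g hg
              have hg' := Finset.mem_filter.1 (Finset.mem_coe.1 hg)
              have hg2 : ∀ i, g i ≤ H := fun i => by
                have := Finset.mem_range.1 ((Fintype.mem_piFinset.1 hg'.1) i); omega
              rw [Finset.mem_coe, Fintype.mem_piFinset]
              intro c
              have hdeg : (polyF g - polyF g0).natDegree ≤ m :=
                polyF_sub_natDegree g g0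
              have hcoef := polyF_sub_coeff_abs hg2 hg02
              have hann := ann_of_small (N := 2 * m + n) (m := m) (H := H) hv hs h2'
                (by omega) hdeg hcoef (by
                  rw [Polynomial.eval_sub]
                  have h5 : (((polyF g).eval s - (polyF g0).eval s : ℤ) : ZMod (p ^ e)) = 0 := by
                    push_cast
                    have := hg'.2
                    rw [this, sub_self]
                  have h6 := (ZMod.intCast_zmod_eq_zero_iff_dvd _ (p ^ e)).1 h5
                  exact_mod_cast h6)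
              have e1 : 2 * m + n - m = m + n := by omega
              rw [e1] at hann
              have hdvd := hDdvd _ hdeg hann
              have habs := eval_abs_le hdeg hcoef (c := c) (by have := c.2; omega)
              rw [← hB] at habs
              rw [hTc]
              simp only [Finset.mem_filter, Finset.mem_Icc]
              exact ⟨abs_le.1 habs, Polynomial.eval_dvd hdvd⟩
            · intro g hg g' hg' h
              have h4 : polyF g - polyF g0 = polyF g' - polyF g0 := by
                apply Polynomial.eq_of_degrees_lt_of_eval_index_eq (Finset.univ : Finset (Fin (m+1)))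
                  (v := fun c : Fin (m + 1) => ((c : ℕ) : ℤ))
                · intro a _ b _ hab
                  simp only [Nat.cast_inj] at hab
                  exact Fin.ext hab
                · rw [Finset.card_univ, Fintype.card_fin]
                  refine lt_of_le_of_lt Polynomial.degree_le_natDegree ?_
                  have := polyF_sub_natDegree g g0
                  exact_mod_cast Nat.lt_succ_of_le this
                · rw [Finset.card_univ, Fintype.card_fin]
                  refine lt_of_le_of_lt Polynomial.degree_le_natDegree ?_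
                  have := polyF_sub_natDegree g' g0
                  exact_mod_cast Nat.lt_succ_of_le this
                · intro c _
                  exact congrFun h c
              exact polyF_injective (sub_left_injective h4)
        _ = ∏ c : Fin (m + 1), (Tc c).card := Fintype.card_piFinset _
        _ = _ := by rw [Finset.prod_range]

end Pool.Agent.FacLarge
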