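import Mathlib

/-!
Exact linear recurrences and annihilating polynomials.
-/

set_option autoImplicit false

namespace Pool.Agent.FacLarge

open Polynomial

/-- `P ↦ ∑ P_l v (j + l)` -/
noncomputable def Lf (v : ℕ → ℤ) (j : ℕ) : ℤ[X] →ₗ[ℤ] ℤ :=
  Polynomial.lsum fun l => LinearMap.mulRight ℤ (v (j + l))

theorem Lf_apply (v : ℕ → ℤ) (j : ℕ) (P : ℤ[X]) :
    Lf v j P = P.sum fun l a => a * v (j + l) := by
  unfold Lf
  rw [Polynomial.lsum_apply]
  rfl

theorem Lf_eq_sum (v : ℕ → ℤ) (j : ℕ) (P : ℤ[X]) {m : ℕ} (hm : P.natDegree ≤ m) :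
    Lf v j P = ∑ l ∈ Finset.range (m + 1), P.coeff l * v (j + l) := by
  rw [Lf_apply, Polynomial.sum_over_range' P (by intro n; simp) (m + 1) (by omega)]

theorem Lf_C_mul (v : ℕ → ℤ) (j : ℕ) (a : ℤ) (P : ℤ[X]) :
    Lf v j (C a * P) = a * Lf v j P := by
  rw [← Polynomial.smul_eq_C_mul, map_smul, smul_eq_mul]

theorem Lf_X_pow_mul (v : ℕ → ℤ) (j k : ℕ) (P : ℤ[X]) :
    Lf v j (X ^ k * P) = Lf v (j + k) P := by
  induction P using Polynomial.induction_on' with
  | add p q hp hq => rw [mul_add, map_add, map_add, hp, hq]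
  | monomial n a =>
    rw [Polynomial.X_pow_mul_monomial, Lf_apply, Lf_apply, Polynomial.sum_monomial_index _ _
      (by simp), Polynomial.sum_monomial_index _ _ (by simp)]
    congr 2
    ring

theorem Lf_mul (v : ℕ → ℤ) (j : ℕ) (Q P : ℤ[X]) {m : ℕ} (hm : Q.natDegree ≤ m) :
    Lf v j (Q * P) = ∑ k ∈ Finset.range (m + 1), Q.coeff k * Lf v (j + k) P := by
  conv_lhs => rw [Polynomial.as_sum_range_C_mul_X_pow' (p := Q) (n := m + 1) (by omega)]
  rw [Finset.sum_mul, map_sum]
  apply Finset.sum_congr rfl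
  intro k _
  rw [mul_assoc, Lf_C_mul, Lf_X_pow_mul]

def Ann (v : ℕ → ℤ) (J : ℕ) (P : ℤ[X]) : Prop := ∀ j ≤ J, Lf v j P = 0

theorem Ann.mul {v : ℕ → ℤ} {J k : ℕ} {P : ℤ[X]} (h : Ann v J P) (hk : k ≤ J) {Q : ℤ[X]}
    (hQ : Q.natDegree ≤ k) : Ann v (J - k) (Q * P) := by
  intro j hj
  rw [Lf_mul v j Q P hQ]
  apply Finset.sum_eq_zero
  intro i hi
  rw [Finset.mem_range] at hi
  rw [h (j + i) (by omega), mul_zero]

theorem Ann.mono {v : ℕ → ℤ} {J J' : ℕ} {P : ℤ[X]} (h : Ann v J P) (hk : J' ≤ J) :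
    Ann v J' P := fun j hj => h j (hj.trans hk)

theorem Ann.sub {v : ℕ → ℤ} {J : ℕ} {P Q : ℤ[X]} (h : Ann v J P) (h' : Ann v J Q) :
    Ann v J (P - Q) := fun j hj => by rw [map_sub, h j hj, h' j hj, sub_zero]

theorem Ann.C_mul {v : ℕ → ℤ} {J : ℕ} {P : ℤ[X]} (h : Ann v J P) (a : ℤ) :
    Ann v J (C a * P) := fun j hj => by rw [Lf_C_mul, h j hj, mul_zero]

/-- extension of the range of annihilation -/
theorem ann_ext {v : ℕ → ℤ} {J J' : ℕ} {D R : ℤ[X]} (hD0 : D ≠ 0) (hD : Ann v J D)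
    (hR : Ann v J' R) (hdeg : R.natDegree < D.natDegree) (hJ : D.natDegree ≤ J' + 1) :
    Ann v J R := by
  intro i
  induction i using Nat.strong_induction_on with
  | _ i ih =>
    intro hi
    by_cases hi' : i ≤ J'
    · exact hR i hi'
    · obtain ⟨r, hr⟩ : ∃ r, r = D.natDegree := ⟨_, rfl⟩
      obtain ⟨j, hj⟩ : ∃ j, i = j + r := ⟨i - r, by omega⟩
      have h1 : Lf v j (R * D) = 0 := by
        rw [Lf_mul v j R D (le_refl _)]
        apply Finset.sum_eq_zero
        intro k hk
        rw [Finset.mem_range] at hk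
        rw [hD (j + k) (by omega), mul_zero]
      rw [mul_comm, Lf_mul v j D R (le_refl _), Finset.sum_range_succ, ← hr, ← hj] at h1
      have h2 : ∑ k ∈ Finset.range r, D.coeff k * Lf v (j + k) R = 0 := by
        apply Finset.sum_eq_zero
        intro k hk
        rw [Finset.mem_range] at hk
        rw [ih (j + k) (by omega) (by omega), mul_zero]
      rw [h2, zero_add] at h1
      rcases mul_eq_zero.1 h1 with h3 | h3
      · exfalso
        rw [hr] at h3
        exact hD0 (Polynomial.leadingCoeff_eq_zero.1 h3)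
      · exact h3

theorem pseudo_div {D : ℤ[X]} (hD : D ≠ 0) (P : ℤ[X]) :
    ∃ (a : ℤ) (Q R : ℤ[X]), a ≠ 0 ∧ C a * P = Q * D + R ∧
      Q.natDegree ≤ P.natDegree - D.natDegree ∧ (R = 0 ∨ R.natDegree < D.natDegree) := by
  induction hn : P.natDegree using Nat.strong_induction_on generalizing P with
  | _ n ih =>
    by_cases h1 : P.natDegree < D.natDegree
    · exact ⟨1, 0, P, one_ne_zero, by simp, by simp, Or.inr h1⟩
    · rw [not_lt] at h1
      by_cases h0 : D.natDegree = 0
      · -- `D` constant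
        obtain ⟨d, hd⟩ : ∃ d, D = C d := ⟨D.coeff 0, Polynomial.eq_C_of_natDegree_eq_zero h0⟩
        have hd0 : d ≠ 0 := by
          rintro rfl
          apply hD
          rw [hd, C_0]
        refine ⟨d, P, 0, hd0, by rw [hd, add_zero, mul_comm], by omega, Or.inl rfl⟩
      · obtain ⟨P', hP'⟩ : ∃ P', P' = C D.leadingCoeff * P -
            C P.leadingCoeff * X ^ (P.natDegree - D.natDegree) * D := ⟨_, rfl⟩
        have hle : P'.natDegree ≤ n - 1 := by
          rw [Polynomial.natDegree_le_iff_coeff_eq_zero]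
          intro N hN
          rw [hP', coeff_sub, coeff_C_mul, mul_assoc, coeff_C_mul, coeff_X_pow_mul',
            if_pos (by omega)]
          by_cases hNn : N = n
          · have e1 : N - (P.natDegree - D.natDegree) = D.natDegree := by omega
            have e2 : N = P.natDegree := by omega
            rw [e1, e2, Polynomial.coeff_natDegree, Polynomial.coeff_natDegree]
            ring
          · rw [Polynomial.coeff_eq_zero_of_natDegree_lt (p := P) (by omega),
              Polynomial.coeff_eq_zero_of_natDegree_lt (p := D) (by omega)]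
            ring
        obtain ⟨a', Q', R, ha', he, hQ', hR⟩ := ih P'.natDegree (by omega) P' rfl
        refine ⟨a' * D.leadingCoeff,
          Q' + C (a' * P.leadingCoeff) * X ^ (P.natDegree - D.natDegree), R,
          mul_ne_zero ha' (fun h => hD (Polynomial.leadingCoeff_eq_zero.1 h)), ?_, ?_, hR⟩
        · have e1 : C D.leadingCoeff * P = P' +
              C P.leadingCoeff * X ^ (P.natDegree - D.natDegree) * D := by rw [hP']; ring
          rw [C_mul, mul_assoc, e1, mul_add, he, C_mul]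
          ring
        · apply Polynomial.natDegree_add_le_of_degree_le
          · omega
          · refine (Polynomial.natDegree_C_mul_X_pow_le _ _).trans ?_
            omega

theorem isPrimitive_dvd_of_dvd_C_mul {D P : ℤ[X]} (hD : D.IsPrimitive) {a : ℤ} (ha : a ≠ 0)
    (h : D ∣ C a * P) : D ∣ P := by
  by_cases hP : P = 0
  · rw [hP]; exact dvd_zero _
  · have hne : C a * P ≠ 0 := mul_ne_zero (by simpa using ha) hP
    have h1 : D ∣ (C a * P).primPart := (hD.dvd_primPart_iff_dvd hne).2 h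
    rw [Polynomial.primPart_mul hne] at h1
    have h2 : IsUnit (C a : ℤ[X]).primPart := Polynomial.isUnit_primPart_C a
    have h3 : D ∣ P.primPart := (IsUnit.dvd_mul_left h2).1 h1
    exact (hD.dvd_primPart_iff_dvd hP).1 h3

/-- the minimal annihilator divides all annihilators -/
theorem exists_min_ann {v : ℕ → ℤ} {J n m : ℕ} (hn : ∃ P : ℤ[X], P ≠ 0 ∧ P.natDegree ≤ n ∧
    Ann v J P) (hJ : m + n ≤ J) :
    ∃ D : ℤ[X], D.IsPrimitive ∧ D.natDegree ≤ n ∧ Ann v J D ∧
      ∀ P : ℤ[X], P.natDegree ≤ m → Ann v J P → D ∣ P := by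
  classical
  have hex : ∃ r : ℕ, ∃ P : ℤ[X], P ≠ 0 ∧ P.natDegree = r ∧ Ann v J P := by
    obtain ⟨P, h1, _, h3⟩ := hn
    exact ⟨_, P, h1, rfl, h3⟩
  obtain ⟨D0, hD0, hD0r, hD0a⟩ := Nat.find_spec hex
  have hmin : ∀ P : ℤ[X], P ≠ 0 → Ann v J P → Nat.find hex ≤ P.natDegree :=
    fun P h1 h2 => Nat.find_min' hex ⟨P, h1, rfl, h2⟩
  have hrn : Nat.find hex ≤ n := by
    obtain ⟨P, h1, h2, h3⟩ := hn
    exact (hmin P h1 h3).trans h2
  obtain ⟨D, hDdef⟩ : ∃ D, D = D0.primPart := ⟨_, rfl⟩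
  have hDp : D.IsPrimitive := by rw [hDdef]; exact D0.isPrimitive_primPart
  have hcont : D0 = C D0.content * D := by rw [hDdef]; exact D0.eq_C_content_mul_primPart
  have hcne : D0.content ≠ 0 := by
    intro h
    rw [h, C_0, zero_mul] at hcont
    exact hD0 hcont
  have hDdeg : D.natDegree = Nat.find hex := by
    rw [hDdef, Polynomial.natDegree_primPart, hD0r]
  have hDa : Ann v J D := by
    intro j hj
    have h1 := hD0a j hj
    rw [hcont, Lf_C_mul] at h1
    exact (mul_eq_zero.1 h1).resolve_left hcne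
  refine ⟨D, hDp, by omega, hDa, fun P hPm hPa => ?_⟩
  obtain ⟨a, Q, R, ha, he, hQ, hR⟩ := pseudo_div hDp.ne_zero P
  have hR0 : R = 0 := by
    by_contra hRne
    have hRlt : R.natDegree < D.natDegree := hR.resolve_left hRne
    have hRa : Ann v (J - m) R := by
      have e1 : R = C a * P - Q * D := by rw [he]; ring
      rw [e1]
      apply Ann.sub
      · exact (hPa.C_mul a).mono (by omega)
      · exact hDa.mul (by omega) (by omega)
    have h2 := ann_ext hDp.ne_zero hDa hRa hRlt (by omega)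
    have := hmin R hRne h2
    omega
  rw [hR0, add_zero] at he
  exact isPrimitive_dvd_of_dvd_C_mul hDp ha ⟨Q, by rw [he]; ring⟩

end Pool.Agent.FacLarge
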