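import Pool.Agent.FacLarge.Tot

/-!
Counting the good residues.
-/

set_option autoImplicit false

namespace Pool.Agent.FacLarge

open Finset

/-- no term `n + 1 + i` with `i < L k0` is divisible by `p ^ L`, for `1 ≤ L ≤ T` -/
def PG (p T k0 n : ℕ) : Prop := ∀ L, 1 ≤ L → L ≤ T → ∀ i < L * k0, ¬ p ^ L ∣ n + 1 + i

theorem count_not_PG {p : ℕ} (hp4 : 4 ≤ p) (T k0 : ℕ) [DecidablePred (PG p T k0)] :
    (((range (p ^ T)).filter (fun n => ¬ PG p T k0 n)).card : ℝ) * p ≤ 2 * k0 * (p : ℝ) ^ T := by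
  classical
  have hp0 : 0 < p := by omega
  have hp4' : (4 : ℝ) ≤ p := by exact_mod_cast hp4
  have hp0' : (0 : ℝ) < p := by linarith
  have hsub : (range (p ^ T)).filter (fun n => ¬ PG p T k0 n) ⊆
      (range T).biUnion (fun l => (range ((l + 1) * k0)).biUnion (fun i =>
        (range (p ^ T)).filter (fun n : ℕ => (p : ℤ) ^ (l + 1) ∣ (n : ℤ) - (-(1 + (i : ℤ)))))) := by
    intro n hn
    rw [mem_filter] at hn
    obtain ⟨hn1, hn2⟩ := hn
    unfold PG at hn2
    push Not at hn2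
    obtain ⟨L, hL1, hLT, i, hi, hd⟩ := hn2
    rw [mem_biUnion]
    refine ⟨L - 1, mem_range.2 (by omega), ?_⟩
    rw [mem_biUnion]
    have e : L - 1 + 1 = L := by omega
    refine ⟨i, mem_range.2 (by rw [e]; exact hi), ?_⟩
    rw [mem_filter]
    refine ⟨hn1, ?_⟩
    rw [e]
    have e2 : (n : ℤ) - (-(1 + (i : ℤ))) = ((n + 1 + i : ℕ) : ℤ) := by push_cast; ring
    rw [e2]
    exact_mod_cast hd
  have hcard : (((range (p ^ T)).filter (fun n => ¬ PG p T k0 n)).card : ℝ) ≤
      ∑ l ∈ range T, ∑ i ∈ range ((l + 1) * k0), (p : ℝ) ^ (T - (l + 1)) := by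
    have hnat := (card_le_card hsub).trans (card_biUnion_le.trans
      (sum_le_sum fun l _ => card_biUnion_le))
    have hreal := (Nat.cast_le (α := ℝ)).2 hnat
    refine hreal.trans ?_
    rw [Nat.cast_sum]
    apply sum_le_sum
    intro l hl
    rw [mem_range] at hl
    rw [Nat.cast_sum]
    apply sum_le_sum
    intro i _
    have h1 := count_class hp0 (m := T) (L := l + 1) (by omega) (-(1 + (i : ℤ)))
    rw [← sum_filter, sum_const, nsmul_eq_mul, mul_one] at h1
    exact h1
  have hterm : ∀ l ∈ range T, (∑ i ∈ range ((l + 1) * k0), (p : ℝ) ^ (T - (l + 1))) * p ≤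
      k0 * (p : ℝ) ^ T * (1 / 2) ^ l := by
    intro l hl
    rw [mem_range] at hl
    rw [sum_const, card_range, nsmul_eq_mul]
    have h1 : ((l + 1 : ℕ) : ℝ) ≤ 2 ^ l := by
      exact_mod_cast (Nat.lt_two_pow_self (n := l))
    have h2 : (p : ℝ) ^ (T - (l + 1)) * p * (4 : ℝ) ^ l ≤ (p : ℝ) ^ T := by
      calc (p : ℝ) ^ (T - (l + 1)) * p * (4 : ℝ) ^ l ≤ (p : ℝ) ^ (T - (l + 1)) * p * (p : ℝ) ^ l := by
            apply mul_le_mul_of_nonneg_left _ (by positivity)
            exact pow_le_pow_left₀ (by norm_num) hp4' l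
        _ = (p : ℝ) ^ T := by
          rw [← pow_succ, ← pow_add]; congr 1; omega
    have h3 : (4 : ℝ) ^ l * (1 / 2) ^ l = 2 ^ l := by
      rw [← mul_pow]; norm_num
    have h4 : (0 : ℝ) < (4 : ℝ) ^ l := by positivity
    have h5 : (p : ℝ) ^ (T - (l + 1)) * p * 2 ^ l ≤ (p : ℝ) ^ T * (1 / 2) ^ l := by
      rw [← h3]
      calc _ = (p : ℝ) ^ (T - (l + 1)) * p * (4 : ℝ) ^ l * (1 / 2) ^ l := by ring
        _ ≤ _ := mul_le_mul_of_nonneg_right h2 (by positivity)
    calc ((((l + 1) * k0 : ℕ) : ℝ)) * (p : ℝ) ^ (T - (l + 1)) * p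
        = k0 * ((p : ℝ) ^ (T - (l + 1)) * p * ((l + 1 : ℕ) : ℝ)) := by push_cast; ring
      _ ≤ k0 * ((p : ℝ) ^ (T - (l + 1)) * p * 2 ^ l) := by
        apply mul_le_mul_of_nonneg_left _ (by positivity)
        exact mul_le_mul_of_nonneg_left h1 (by positivity)
      _ ≤ k0 * ((p : ℝ) ^ T * (1 / 2) ^ l) := mul_le_mul_of_nonneg_left h5 (by positivity)
      _ = _ := by ring
  calc _ ≤ (∑ l ∈ range T, ∑ i ∈ range ((l + 1) * k0), (p : ℝ) ^ (T - (l + 1))) * p :=
        mul_le_mul_of_nonneg_right hcard hp0'.le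
    _ = ∑ l ∈ range T, (∑ i ∈ range ((l + 1) * k0), (p : ℝ) ^ (T - (l + 1))) * p := by
      rw [sum_mul]
    _ ≤ ∑ l ∈ range T, k0 * (p : ℝ) ^ T * (1 / 2) ^ l := sum_le_sum hterm
    _ = k0 * (p : ℝ) ^ T * ∑ l ∈ range T, (1 / 2 : ℝ) ^ l := by rw [mul_sum]
    _ ≤ k0 * (p : ℝ) ^ T * 2 := by
      apply mul_le_mul_of_nonneg_left _ (by positivity)
      rw [geom_sum_eq (by norm_num), div_le_iff_of_neg (by norm_num)]
      have : (0 : ℝ) < (1 / 2) ^ T := by positivity
      linarith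
    _ = _ := by ring

theorem one_add_pow_le {p : ℕ} (hp4 : 4 ≤ p) {k : ℕ} (hk : k ≤ p) :
    (1 + ((p : ℝ) ^ 26)⁻¹) ^ k ≤ 2 := by
  have hp4' : (4 : ℝ) ≤ p := by exact_mod_cast hp4
  have hp0' : (0 : ℝ) < p := by linarith
  have h1 : 1 + ((p : ℝ) ^ 26)⁻¹ ≤ Real.exp (((p : ℝ) ^ 26)⁻¹) := by
    have := Real.add_one_le_exp (((p : ℝ) ^ 26)⁻¹)
    linarith
  calc (1 + ((p : ℝ) ^ 26)⁻¹) ^ k ≤ (Real.exp (((p : ℝ) ^ 26)⁻¹)) ^ k :=
        pow_le_pow_left₀ (by positivity) h1 k
    _ = Real.exp (k * ((p : ℝ) ^ 26)⁻¹) := by rw [← Real.exp_nat_mul]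
    _ ≤ Real.exp (1 / 2) := by
      apply Real.exp_le_exp.2
      have h2 : (k : ℝ) ≤ p := by exact_mod_cast hk
      have h3 : (p : ℝ) * ((p : ℝ) ^ 26)⁻¹ ≤ 1 / 2 := by
        have h4 : (p : ℝ) * ((p : ℝ) ^ 26)⁻¹ = ((p : ℝ) ^ 25)⁻¹ := by field_simp
        rw [h4]
        have h5 : (2 : ℝ) ≤ (p : ℝ) ^ 25 := by
          calc (2 : ℝ) ≤ (4 : ℝ) ^ 25 := by norm_num
            _ ≤ _ := pow_le_pow_left₀ (by norm_num) hp4' 25
        calc ((p : ℝ) ^ 25)⁻¹ ≤ 2⁻¹ := inv_anti₀ (by norm_num) h5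
          _ = _ := by norm_num
      have h6 : (0 : ℝ) < ((p : ℝ) ^ 26)⁻¹ := by positivity
      calc _ ≤ (p : ℝ) * ((p : ℝ) ^ 26)⁻¹ := mul_le_mul_of_nonneg_right h2 h6.le
        _ ≤ _ := h3
    _ ≤ 5 / 3 := exp_half_le
    _ ≤ 2 := by norm_num

theorem natlog_bound {p M k0 : ℕ} (hk0 : 120 * Real.log p ≤ k0) (hk4 : 4 ≤ k0) (hM : k0 ≤ M) :
    -((M - 1 : ℕ) : ℝ) / 5 + 6 * ((M / k0 + 1 : ℕ) : ℝ) * Real.log p ≤
      -(M : ℝ) / 10 + 1 / 5 := by
  have h1 : ((M - 1 : ℕ) : ℝ) = M - 1 := by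
    push_cast [Nat.cast_sub (show 1 ≤ M by omega)]; ring
  have hk0' : (0 : ℝ) < k0 := by
    have : (4 : ℝ) ≤ k0 := by exact_mod_cast hk4
    linarith
  have hM' : (k0 : ℝ) ≤ M := by exact_mod_cast hM
  have hl : 0 ≤ Real.log p := Real.log_natCast_nonneg p
  have h2 : ((M / k0 : ℕ) : ℝ) ≤ M / k0 := Nat.cast_div_le
  have h3 : ((M / k0 : ℕ) : ℝ) * Real.log p ≤ M / 120 := by
    calc _ ≤ (M / k0 : ℝ) * Real.log p := mul_le_mul_of_nonneg_right h2 hl
      _ ≤ (M / k0 : ℝ) * (k0 / 120) := by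
        apply mul_le_mul_of_nonneg_left _ (by positivity)
        linarith
      _ = M / 120 := by field_simp
  have h4 : Real.log p ≤ M / 120 := by linarith
  rw [h1]
  push_cast
  nlinarith

/-- total bound for the sum of the exponential sums over good `(n, j)` -/
theorem sum_Zs_le {p : ℕ} (hp : p.Prime) (hGd : Gd p) (hp4 : 16 ≤ p)
    (hlog : 30 * Real.log p ≤ p - 1) {T k0 : ℕ} (hk0 : k0 + 1 ≤ p) (hk4 : 4 ≤ k0)
    (hk120 : 120 * Real.log p ≤ k0) [DecidablePred (PG p T k0)] :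
    ∑ M ∈ range T, ∑ j ∈ range p, ∑ n ∈ range (p ^ T),
      (if (p : ℝ) ^ (83 / 100 : ℝ) ≤ ((p - 1 - j : ℕ) : ℝ) ∧ PG p T k0 n then
        Zs p T (M + 1) (p - 1 - j) ((p : ℤ) * n + j) ((n : ℤ) + 1) else 0) ≤
      2 * (p : ℝ) ^ T := by
  have hp16' : (16 : ℝ) ≤ p := by exact_mod_cast hp4
  have hp0' : (0 : ℝ) < p := by linarith
  have hp0 := hp.pos
  have hbound : ∀ M ∈ range T, ∑ j ∈ range p, ∑ n ∈ range (p ^ T),
      (if (p : ℝ) ^ (83 / 100 : ℝ) ≤ ((p - 1 - j : ℕ) : ℝ) ∧ PG p T k0 n then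
        Zs p T (M + 1) (p - 1 - j) ((p : ℤ) * n + j) ((n : ℤ) + 1) else 0) ≤
      (p : ℝ) ^ (T + 1) * (if M < k0 then 2 * ((p : ℝ) ^ 107)⁻¹ else 0) +
      (p : ℝ) ^ (T + 2) * (if k0 ≤ M then Real.exp (-(M : ℝ) / 10 + 1 / 5) else 0) := by
    intro M hM
    rw [mem_range] at hM
    by_cases hMk : M < k0
    · rw [if_pos hMk, if_neg (by omega), mul_zero, add_zero]
      calc _ ≤ ∑ j ∈ range p, ∑ n ∈ range (p ^ T), 2 * ((p : ℝ) ^ 107)⁻¹ := by
            apply sum_le_sum
            intro j hj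
            rw [mem_range] at hj
            apply sum_le_sum
            intro n _
            split_ifs with hc
            · have hsa : (p : ℤ) * n + j + ((p - 1 - j : ℕ) : ℤ) + 1 = p * ((n : ℤ) + 1) := by
                have : ((p - 1 - j : ℕ) : ℤ) = (p : ℤ) - 1 - j := by omega
                rw [this]; ring
              rcases Nat.eq_zero_or_pos M with hM0 | hM0
              · rw [hM0]
                have h1 := Zs_one hp hGd T (s := p - 1 - j) (by omega) hsa hc.1
                have h2 : (0 : ℝ) < ((p : ℝ) ^ 107)⁻¹ := by positivity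
                rw [zero_add]
                linarith
              · obtain ⟨m, rfl⟩ : ∃ m, M = m + 1 := ⟨M - 1, by omega⟩
                have hPG1 := hc.2 1 le_rfl (by omega)
                rw [one_mul] at hPG1
                have hn1 : ¬ (p : ℤ) ∣ (n : ℤ) + 1 := by
                  intro h
                  apply hPG1 0 (by omega)
                  rw [pow_one, add_zero]
                  exact_mod_cast h
                have h1 := Zs_det hp hGd T m (s := p - 1 - j) (by omega) hsa hc.1 hn1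
                have h2 := U0_bound hp hGd m T ((n : ℤ) + 1) (by omega) (by
                  intro i hi h
                  apply hPG1 (i + 1) (by omega)
                  rw [pow_one]
                  have e : (n : ℤ) + 1 + i + 1 = ((n + 1 + (i + 1) : ℕ) : ℤ) := by
                    push_cast; ring
                  rw [e] at h
                  exact_mod_cast h)
                have h3 := one_add_pow_le (p := p) (by omega) (k := m + 1) (by omega)
                have h4 : (0 : ℝ) < ((p : ℝ) ^ 107)⁻¹ := by positivity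
                calc _ ≤ _ := h1
                  _ ≤ (1 + ((p : ℝ) ^ 26)⁻¹) *
                      ((1 + ((p : ℝ) ^ 26)⁻¹) ^ m * ((p : ℝ) ^ 107)⁻¹) :=
                    mul_le_mul_of_nonneg_left h2 (by positivity)
                  _ = (1 + ((p : ℝ) ^ 26)⁻¹) ^ (m + 1) * ((p : ℝ) ^ 107)⁻¹ := by ring
                  _ ≤ _ := mul_le_mul_of_nonneg_right h3 h4.le
            · positivity
        _ = _ := by
          rw [sum_const, sum_const, card_range, card_range, nsmul_eq_mul, nsmul_eq_mul]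
          push_cast
          ring
    · rw [if_neg hMk, if_pos (by omega), mul_zero, zero_add]
      rw [not_lt] at hMk
      obtain ⟨m, rfl⟩ : ∃ m, M = m + 1 := ⟨M - 1, by omega⟩
      have hdiv : (m + 1) / k0 ≤ (m + 1) / 4 := Nat.div_le_div_left hk4 (by norm_num)
      have hlt : m + 1 < ((m + 1) / k0 + 1) * k0 := by
        have := Nat.lt_mul_div_succ (m + 1) (show 0 < k0 by omega)
        rw [mul_comm] at this
        exact this
      have hexp := natlog_bound (p := p) (M := m + 1) (k0 := k0) hk120 hk4 hMk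
      rw [Nat.add_sub_cancel] at hexp
      obtain ⟨L, hL⟩ : ∃ L, L = (m + 1) / k0 + 1 := ⟨_, rfl⟩
      have hL1 : 1 ≤ L := by rw [hL]; exact Nat.le_add_left _ _
      have hL2 : L ≤ (m + 1) / 4 + 1 := by rw [hL]; exact Nat.add_le_add_right hdiv 1
      rw [← hL] at hexp hlt
      have hsum := sum_U0_le hp hGd (by omega) hlog (K := T) (m := m)
        (L := L) (T := T) (k0 := k0) hk0 hL1 (by omega) (by omega)
        (by omega) hlt (PG p T k0) (fun n hn i hi => hn _ hL1 (by omega) i hi)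
      calc _ ≤ ∑ j ∈ range p, ∑ n ∈ range (p ^ T),
            (p : ℝ) * (if PG p T k0 n then U0 p T m ((n : ℤ) + 1) else 0) := by
            apply sum_le_sum
            intro j hj
            rw [mem_range] at hj
            apply sum_le_sum
            intro n _
            by_cases hPGn : PG p T k0 n
            · rw [if_pos hPGn]
              split_ifs with hc
              · have hsa : (p : ℤ) * n + j + ((p - 1 - j : ℕ) : ℤ) + 1 = p * ((n : ℤ) + 1) := by
                  have : ((p - 1 - j : ℕ) : ℤ) = (p : ℤ) - 1 - j := by omega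
                  rw [this]; ring
                have hPG1 := hc.2 1 le_rfl (by omega)
                rw [one_mul] at hPG1
                have hn1 : ¬ (p : ℤ) ∣ (n : ℤ) + 1 := by
                  intro h
                  apply hPG1 0 (by omega)
                  rw [pow_one, add_zero]
                  exact_mod_cast h
                exact Zs_trivial hp T m (s := p - 1 - j) (by omega) hsa hn1
              · exact mul_nonneg hp0'.le (U0_nonneg _ _ _ _)
            · rw [if_neg hPGn, if_neg (fun h => hPGn h.2), mul_zero]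
        _ = p * (p * ∑ n ∈ range (p ^ T),
            (if PG p T k0 n then U0 p T m ((n : ℤ) + 1) else 0)) := by
          rw [sum_const, card_range, nsmul_eq_mul]
          simp only [mul_sum]
        _ ≤ p * (p * ((p : ℝ) ^ T *
            Real.exp (-(m : ℝ) / 5 + 6 * (L : ℝ) * Real.log p))) := by
          apply mul_le_mul_of_nonneg_left _ hp0'.le
          exact mul_le_mul_of_nonneg_left hsum hp0'.le
        _ ≤ p * (p * ((p : ℝ) ^ T * Real.exp (-((m + 1 : ℕ) : ℝ) / 10 + 1 / 5))) := by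
          apply mul_le_mul_of_nonneg_left _ hp0'.le
          apply mul_le_mul_of_nonneg_left _ hp0'.le
          apply mul_le_mul_of_nonneg_left _ (by positivity)
          exact Real.exp_le_exp.2 hexp
        _ = _ := by ring
  refine (sum_le_sum hbound).trans ?_
  rw [sum_add_distrib, ← mul_sum, ← mul_sum]
  have h1 : ∑ M ∈ range T, (if M < k0 then 2 * ((p : ℝ) ^ 107)⁻¹ else 0) ≤
      k0 * (2 * ((p : ℝ) ^ 107)⁻¹) := by
    rw [← sum_filter, sum_const, nsmul_eq_mul]
    apply mul_le_mul_of_nonneg_right _ (by positivity)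
    have : ((range T).filter (fun M => M < k0)).card ≤ k0 := by
      calc _ ≤ (range k0).card := by
            apply card_le_card
            intro M hM
            exact mem_range.2 (mem_filter.1 hM).2
        _ = k0 := card_range _
    exact_mod_cast this
  have h2 : ∑ M ∈ range T, (if k0 ≤ M then Real.exp (-(M : ℝ) / 10 + 1 / 5) else 0) ≤
      14 * ((p : ℝ) ^ 12)⁻¹ := by
    have hq1 : Real.exp (-(1 / 10)) ≤ 10 / 11 := by
      rw [Real.exp_neg]
      have : (11 / 10 : ℝ) ≤ Real.exp (1 / 10) := by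
        have := Real.add_one_le_exp (1 / 10 : ℝ)
        linarith
      calc (Real.exp (1 / 10))⁻¹ ≤ (11 / 10)⁻¹ := inv_anti₀ (by norm_num) this
        _ = _ := by norm_num
    have hq0 := Real.exp_pos (-(1 / 10) : ℝ)
    have hgeo : ∀ N : ℕ, ∑ i ∈ range N, (Real.exp (-(1 / 10))) ^ i ≤ 11 := by
      intro N
      have hne : Real.exp (-(1 / 10)) ≠ 1 := by linarith
      have h3 := geom_sum_mul_neg (Real.exp (-(1 / 10))) N
      have h4 : 0 < (Real.exp (-(1 / 10))) ^ N := by positivity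
      have h5 : (0 : ℝ) ≤ ∑ i ∈ range N, (Real.exp (-(1 / 10))) ^ i :=
        sum_nonneg fun _ _ => by positivity
      nlinarith
    have h3 : ∑ M ∈ range T, (if k0 ≤ M then Real.exp (-(M : ℝ) / 10 + 1 / 5) else 0) ≤
        Real.exp (-(k0 : ℝ) / 10 + 1 / 5) * ∑ i ∈ range T, (Real.exp (-(1 / 10))) ^ i := by
      rw [← sum_filter, mul_sum]
      calc ∑ M ∈ (range T).filter (fun M => k0 ≤ M), Real.exp (-(M : ℝ) / 10 + 1 / 5)
          ≤ ∑ M ∈ (range T).image (fun i => k0 + i), Real.exp (-(M : ℝ) / 10 + 1 / 5) := by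
            apply sum_le_sum_of_subset_of_nonneg
            · intro M hM
              rw [mem_filter, mem_range] at hM
              rw [mem_image]
              exact ⟨M - k0, mem_range.2 (by omega), by omega⟩
            · intro _ _ _
              positivity
        _ = _ := by
          rw [sum_image (by intro x _ y _ h; simpa using h)]
          apply sum_congr rfl
          intro i _
          rw [← Real.exp_nat_mul, ← Real.exp_add]
          congr 1
          push_cast
          ring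
    have h4 : Real.exp (-(k0 : ℝ) / 10 + 1 / 5) ≤ 5 / 4 * ((p : ℝ) ^ 12)⁻¹ := by
      have e1 : Real.exp (1 / 5) ≤ 5 / 4 := by
        have h5 := Real.exp_one_lt_d9
        have h6 : Real.exp (1 / 5) ^ 5 = Real.exp 1 := by
          rw [← Real.exp_nat_mul]; norm_num
        by_contra hcon
        rw [not_le] at hcon
        have h7 : (5 / 4 : ℝ) ^ 5 < Real.exp (1 / 5) ^ 5 :=
          pow_lt_pow_left₀ hcon (by norm_num) (by norm_num)
        rw [h6] at h7
        norm_num at h7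
        linarith
      have e2 : Real.exp (-(k0 : ℝ) / 10) ≤ ((p : ℝ) ^ 12)⁻¹ := by
        have h7 : ((p : ℝ) ^ 12)⁻¹ = Real.exp (-((12 : ℕ) * Real.log p)) := by
          rw [Real.exp_neg, ← Real.log_pow, Real.exp_log (by positivity)]
        rw [h7]
        apply Real.exp_le_exp.2
        push_cast
        linarith
      rw [Real.exp_add]
      have h8 := Real.exp_pos (-(k0 : ℝ) / 10)
      calc _ ≤ ((p : ℝ) ^ 12)⁻¹ * (5 / 4) := mul_le_mul e2 e1 (Real.exp_pos _).le (by positivity)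
        _ = _ := by ring
    calc _ ≤ _ := h3
      _ ≤ (5 / 4 * ((p : ℝ) ^ 12)⁻¹) * 11 :=
        mul_le_mul h4 (hgeo T) (sum_nonneg fun _ _ => by positivity) (by positivity)
      _ ≤ _ := by
        have : (0 : ℝ) < ((p : ℝ) ^ 12)⁻¹ := by positivity
        linarith
  have h3 : (p : ℝ) ^ (T + 1) * (k0 * (2 * ((p : ℝ) ^ 107)⁻¹)) ≤ (p : ℝ) ^ T := by
    have hk : (k0 : ℝ) ≤ p := by
      have : k0 ≤ p := by omega
      exact_mod_cast this
    have e1 : (p : ℝ) ^ (T + 1) * (k0 * (2 * ((p : ℝ) ^ 107)⁻¹)) =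
        (p : ℝ) ^ T * (k0 * 2 * ((p : ℝ) ^ 106)⁻¹) := by
      field_simp
      ring
    rw [e1]
    have e2 : (k0 : ℝ) * 2 * ((p : ℝ) ^ 106)⁻¹ ≤ 1 := by
      rw [mul_inv_le_iff₀ (by positivity), one_mul]
      calc (k0 : ℝ) * 2 ≤ p * p := mul_le_mul hk (by linarith) (by norm_num) hp0'.le
        _ = (p : ℝ) ^ 2 := by ring
        _ ≤ _ := pow_le_pow_right₀ (by linarith) (by norm_num)
    calc _ ≤ (p : ℝ) ^ T * 1 := mul_le_mul_of_nonneg_left e2 (by positivity)
      _ = _ := mul_one _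
  have h4 : (p : ℝ) ^ (T + 2) * (14 * ((p : ℝ) ^ 12)⁻¹) ≤ (p : ℝ) ^ T := by
    have e1 : (p : ℝ) ^ (T + 2) * (14 * ((p : ℝ) ^ 12)⁻¹) =
        (p : ℝ) ^ T * (14 * ((p : ℝ) ^ 10)⁻¹) := by
      field_simp
      ring
    rw [e1]
    have e2 : (14 : ℝ) * ((p : ℝ) ^ 10)⁻¹ ≤ 1 := by
      rw [mul_inv_le_iff₀ (by positivity), one_mul]
      calc (14 : ℝ) ≤ p := by linarith
        _ = (p : ℝ) ^ 1 := (pow_one _).symm
        _ ≤ _ := pow_le_pow_right₀ (by linarith) (by norm_num)
    calc _ ≤ (p : ℝ) ^ T * 1 := mul_le_mul_of_nonneg_left e2 (by positivity)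
      _ = _ := mul_one _
  calc _ ≤ (p : ℝ) ^ (T + 1) * (k0 * (2 * ((p : ℝ) ^ 107)⁻¹)) +
        (p : ℝ) ^ (T + 2) * (14 * ((p : ℝ) ^ 12)⁻¹) := by
        apply add_le_add
        · exact mul_le_mul_of_nonneg_left h1 (by positivity)
        · exact mul_le_mul_of_nonneg_left h2 (by positivity)
    _ ≤ _ := by linarith

end Pool.Agent.FacLarge
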