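import Pool.Agent.FacLarge.Det3

/-!
Counting the bad residues, second version.
-/

set_option autoImplicit false

namespace Pool.Agent.FacLarge

open Finset

/-- no term `n + 1 + i` with `i < L k0` is divisible by `p ^ L`, for `E ≤ L ≤ T` -/
def PG2 (p E T k0 n : ℕ) : Prop := ∀ L, E ≤ L → L ≤ T → ∀ i < L * k0, ¬ p ^ L ∣ n + 1 + i

theorem count_not_PG2 {p : ℕ} (hp4 : 4 ≤ p) {E : ℕ} (hE : 1 ≤ E) (T k0 : ℕ)
    [DecidablePred (PG2 p E T k0)] :
    (((range (p ^ T)).filter (fun n => ¬ PG2 p E T k0 n)).card : ℝ) * (p : ℝ) ^ E ≤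
      2 * E * k0 * (p : ℝ) ^ T := by
  classical
  have hp0 : 0 < p := by omega
  have hp4' : (4 : ℝ) ≤ p := by exact_mod_cast hp4
  have hp0' : (0 : ℝ) < p := by linarith
  have hsub : (range (p ^ T)).filter (fun n => ¬ PG2 p E T k0 n) ⊆
      (range (T + 1 - E)).biUnion (fun l => (range ((E + l) * k0)).biUnion (fun i =>
        (range (p ^ T)).filter (fun n : ℕ => (p : ℤ) ^ (E + l) ∣ (n : ℤ) - (-(1 + (i : ℤ)))))) := by
    intro n hn
    rw [mem_filter] at hn
    obtain ⟨hn1, hn2⟩ := hn
    unfold PG2 at hn2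
    push Not at hn2
    obtain ⟨L, hL1, hLT, i, hi, hd⟩ := hn2
    rw [mem_biUnion]
    refine ⟨L - E, mem_range.2 (by omega), ?_⟩
    rw [mem_biUnion]
    have e : E + (L - E) = L := by omega
    refine ⟨i, mem_range.2 (by rw [e]; exact hi), ?_⟩
    rw [mem_filter]
    refine ⟨hn1, ?_⟩
    rw [e]
    have e2 : (n : ℤ) - (-(1 + (i : ℤ))) = ((n + 1 + i : ℕ) : ℤ) := by push_cast; ring
    rw [e2]
    exact_mod_cast hd
  have hcard : (((range (p ^ T)).filter (fun n => ¬ PG2 p E T k0 n)).card : ℝ) ≤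
      ∑ l ∈ range (T + 1 - E), ∑ i ∈ range ((E + l) * k0), (p : ℝ) ^ (T - (E + l)) := by
    have hnat := (card_le_card hsub).trans (card_biUnion_le.trans
      (sum_le_sum fun l _ => card_biUnion_le))
    have hreal := (Nat.cast_le (α := ℝ)).2 hnat
    refine hreal.trans ?_
    rw [Nat.cast_sum]
    apply sum_le_sum
    intro l hl
    rw [mem_range] at hl
    rw [Nat.cast_sum]
    apply sum_le_sum
    intro i _
    have h1 := count_class hp0 (m := T) (L := E + l) (by omega) (-(1 + (i : ℤ)))
    rw [← sum_filter, sum_const, nsmul_eq_mul, mul_one] at h1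
    exact h1
  have hterm : ∀ l ∈ range (T + 1 - E), (∑ i ∈ range ((E + l) * k0), (p : ℝ) ^ (T - (E + l))) *
      (p : ℝ) ^ E ≤ E * k0 * (p : ℝ) ^ T * (1 / 2) ^ l := by
    intro l hl
    rw [mem_range] at hl
    rw [sum_const, card_range, nsmul_eq_mul]
    have h1 : ((E + l : ℕ) : ℝ) ≤ E * 2 ^ l := by
      have h2 : l + 1 ≤ 2 ^ l := Nat.lt_two_pow_self
      have h3 : E + l ≤ E * 2 ^ l := by
        calc E + l ≤ E * (l + 1) := by nlinarith
          _ ≤ _ := Nat.mul_le_mul_left _ h2
      exact_mod_cast h3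
    have h2 : (p : ℝ) ^ (T - (E + l)) * (p : ℝ) ^ E * (4 : ℝ) ^ l ≤ (p : ℝ) ^ T := by
      calc (p : ℝ) ^ (T - (E + l)) * (p : ℝ) ^ E * (4 : ℝ) ^ l ≤
            (p : ℝ) ^ (T - (E + l)) * (p : ℝ) ^ E * (p : ℝ) ^ l := by
            apply mul_le_mul_of_nonneg_left _ (by positivity)
            exact pow_le_pow_left₀ (by norm_num) hp4' l
        _ = (p : ℝ) ^ T := by
          rw [← pow_add, ← pow_add]; congr 1; omega
    have h3 : (4 : ℝ) ^ l * (1 / 2) ^ l = 2 ^ l := by
      rw [← mul_pow]; norm_num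
    have h5 : (p : ℝ) ^ (T - (E + l)) * (p : ℝ) ^ E * 2 ^ l ≤ (p : ℝ) ^ T * (1 / 2) ^ l := by
      rw [← h3]
      calc _ = (p : ℝ) ^ (T - (E + l)) * (p : ℝ) ^ E * (4 : ℝ) ^ l * (1 / 2) ^ l := by ring
        _ ≤ _ := mul_le_mul_of_nonneg_right h2 (by positivity)
    calc ((((E + l) * k0 : ℕ) : ℝ)) * (p : ℝ) ^ (T - (E + l)) * (p : ℝ) ^ E
        = k0 * ((p : ℝ) ^ (T - (E + l)) * (p : ℝ) ^ E * ((E + l : ℕ) : ℝ)) := by push_cast; ring
      _ ≤ k0 * ((p : ℝ) ^ (T - (E + l)) * (p : ℝ) ^ E * (E * 2 ^ l)) := by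
        apply mul_le_mul_of_nonneg_left _ (by positivity)
        exact mul_le_mul_of_nonneg_left h1 (by positivity)
      _ = k0 * E * ((p : ℝ) ^ (T - (E + l)) * (p : ℝ) ^ E * 2 ^ l) := by ring
      _ ≤ k0 * E * ((p : ℝ) ^ T * (1 / 2) ^ l) := mul_le_mul_of_nonneg_left h5 (by positivity)
      _ = _ := by ring
  calc _ ≤ (∑ l ∈ range (T + 1 - E), ∑ i ∈ range ((E + l) * k0), (p : ℝ) ^ (T - (E + l))) *
        (p : ℝ) ^ E := mul_le_mul_of_nonneg_right hcard (by positivity)
    _ = ∑ l ∈ range (T + 1 - E), (∑ i ∈ range ((E + l) * k0), (p : ℝ) ^ (T - (E + l))) *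
        (p : ℝ) ^ E := by rw [sum_mul]
    _ ≤ ∑ l ∈ range (T + 1 - E), E * k0 * (p : ℝ) ^ T * (1 / 2) ^ l := sum_le_sum hterm
    _ = E * k0 * (p : ℝ) ^ T * ∑ l ∈ range (T + 1 - E), (1 / 2 : ℝ) ^ l := by rw [mul_sum]
    _ ≤ E * k0 * (p : ℝ) ^ T * 2 := by
      apply mul_le_mul_of_nonneg_left _ (by positivity)
      rw [geom_sum_eq (by norm_num), div_le_iff_of_neg (by norm_num)]
      have : (0 : ℝ) < (1 / 2) ^ (T + 1 - E) := by positivity
      linarith
    _ = _ := by ring

theorem natlog_bound2 {p M k0 : ℕ} (hk0 : 120 * Real.log p ≤ k0) (hk4 : 4 ≤ k0) (hM : k0 ≤ M) :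
    6 * ((M / k0 + 1 : ℕ) : ℝ) * Real.log p ≤ (M : ℝ) / 10 := by
  have hk0' : (0 : ℝ) < k0 := by
    have : (4 : ℝ) ≤ k0 := by exact_mod_cast hk4
    linarith
  have hM' : (k0 : ℝ) ≤ M := by exact_mod_cast hM
  have hl : 0 ≤ Real.log p := Real.log_natCast_nonneg p
  have h2 : ((M / k0 : ℕ) : ℝ) ≤ M / k0 := Nat.cast_div_le
  have h3 : ((M / k0 : ℕ) : ℝ) * Real.log p ≤ M / 120 := by
    calc _ ≤ (M / k0 : ℝ) * Real.log p := mul_le_mul_of_nonneg_right h2 hl
      _ ≤ (M / k0 : ℝ) * (k0 / 120) := by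
        apply mul_le_mul_of_nonneg_left _ (by positivity)
        linarith
      _ = M / 120 := by field_simp
  have h4 : Real.log p ≤ M / 120 := by linarith
  push_cast
  nlinarith

/-- geometric tail -/
theorem sum_exp_tail (T N : ℕ) (x : ℝ) :
    ∑ M ∈ range T, (if N ≤ M then Real.exp (-(M : ℝ) / 10 + x) else 0) ≤
      11 * Real.exp (-(N : ℝ) / 10 + x) := by
  have hq1 : Real.exp (-(1 / 10)) ≤ 10 / 11 := by
    rw [Real.exp_neg]
    have : (11 / 10 : ℝ) ≤ Real.exp (1 / 10) := by
      have := Real.add_one_le_exp (1 / 10 : ℝ)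
      linarith
    calc (Real.exp (1 / 10))⁻¹ ≤ (11 / 10)⁻¹ := inv_anti₀ (by norm_num) this
      _ = _ := by norm_num
  have hq0 := Real.exp_pos (-(1 / 10) : ℝ)
  have hgeo : ∀ N : ℕ, ∑ i ∈ range N, (Real.exp (-(1 / 10))) ^ i ≤ 11 := by
    intro N
    have h3 := geom_sum_mul_neg (Real.exp (-(1 / 10))) N
    have h4 : 0 < (Real.exp (-(1 / 10))) ^ N := by positivity
    have h5 : (0 : ℝ) ≤ ∑ i ∈ range N, (Real.exp (-(1 / 10))) ^ i :=
      sum_nonneg fun _ _ => by positivity
    nlinarith
  calc ∑ M ∈ range T, (if N ≤ M then Real.exp (-(M : ℝ) / 10 + x) else 0)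
      ≤ Real.exp (-(N : ℝ) / 10 + x) * ∑ i ∈ range T, (Real.exp (-(1 / 10))) ^ i := by
        rw [← sum_filter, mul_sum]
        calc ∑ M ∈ (range T).filter (fun M => N ≤ M), Real.exp (-(M : ℝ) / 10 + x)
            ≤ ∑ M ∈ (range T).image (fun i => N + i), Real.exp (-(M : ℝ) / 10 + x) := by
              apply sum_le_sum_of_subset_of_nonneg
              · intro M hM
                rw [mem_filter, mem_range] at hM
                rw [mem_image]
                exact ⟨M - N, mem_range.2 (by omega), by omega⟩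
              · intro _ _ _
                positivity
          _ = _ := by
            rw [sum_image (by intro x _ y _ h; simpa using h)]
            apply sum_congr rfl
            intro i _
            rw [← Real.exp_nat_mul, ← Real.exp_add]
            congr 1
            push_cast
            ring
    _ ≤ Real.exp (-(N : ℝ) / 10 + x) * 11 :=
      mul_le_mul_of_nonneg_left (hgeo T) (Real.exp_pos _).le
    _ = _ := by ring

/-- total bound for the sum of the exponential sums over good `(n, j)` -/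
theorem sum_Zs_le2 {p : ℕ} {ε : ℝ} {E K : ℕ} (hp : p.Prime) (hε : ε ≤ 83 / 100) (hE : 1 ≤ E)
    (hGE : GE p ε E K) {Q : ℕ} (hK : 2 * (E + Q) ≤ K) (hK54 : 54 ≤ K) (hp4 : 16 ≤ p)
    (hlog : 30 * Real.log p ≤ p - 1) {T k0 : ℕ} (hk0 : k0 + 1 ≤ p) (hk4 : 4 ≤ k0)
    (hEQ : E * k0 ≤ p ^ Q)
    (hk120 : 120 * Real.log p ≤ k0) [DecidablePred (PG2 p E T k0)] :
    ∑ M ∈ range T, ∑ j ∈ range p, ∑ n ∈ range (p ^ T),
      (if (p : ℝ) ^ ε ≤ ((p - 1 - j : ℕ) : ℝ) ∧ PG2 p E T k0 n then
        Zs p T (M + 1) (p - 1 - j) ((p : ℤ) * n + j) ((n : ℤ) + 1) else 0) ≤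
      (p : ℝ) ^ (T + 1) * (E * k0 * (3 * ((p : ℝ) ^ E * ((p : ℝ) ^ (2 * K))⁻¹))) +
      (p : ℝ) ^ (T + 1) * (E * (p : ℝ) ^ E *
        (11 * Real.exp (-((E * k0 : ℕ) : ℝ) / 10 + E / 5))) := by
  have hp16' : (16 : ℝ) ≤ p := by exact_mod_cast hp4
  have hp0' : (0 : ℝ) < p := by linarith
  have hp1' : (1 : ℝ) ≤ p := by linarith
  have hp0 := hp.pos
  have hGd : Gd p := hGE.gd hp hε hE hK54
  have hbound : ∀ M ∈ range T, ∑ j ∈ range p, ∑ n ∈ range (p ^ T),
      (if (p : ℝ) ^ ε ≤ ((p - 1 - j : ℕ) : ℝ) ∧ PG2 p E T k0 n then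
        Zs p T (M + 1) (p - 1 - j) ((p : ℤ) * n + j) ((n : ℤ) + 1) else 0) ≤
      (p : ℝ) ^ (T + 1) *
        (if M < E * k0 then 3 * ((p : ℝ) ^ E * ((p : ℝ) ^ (2 * K))⁻¹) else 0) +
      (p : ℝ) ^ (T + 1) * (E * (p : ℝ) ^ E *
        (if E * k0 ≤ M then Real.exp (-(M : ℝ) / 10 + E / 5) else 0)) := by
    intro M hM
    rw [mem_range] at hM
    by_cases hMk : M < E * k0
    · rw [if_pos hMk, if_neg (not_le.2 hMk), mul_zero, mul_zero, add_zero]
      calc _ ≤ ∑ j ∈ range p, ∑ n ∈ range (p ^ T),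
            3 * ((p : ℝ) ^ E * ((p : ℝ) ^ (2 * K))⁻¹) := by
            apply sum_le_sum
            intro j hj
            rw [mem_range] at hj
            apply sum_le_sum
            intro n _
            split_ifs with hc
            · have hsa : (p : ℤ) * n + j + ((p - 1 - j : ℕ) : ℤ) + 1 = p * ((n : ℤ) + 1) := by
                have : ((p - 1 - j : ℕ) : ℤ) = (p : ℤ) - 1 - j := by omega
                rw [this]; ring
              have h1 := gZs_bound hp (by linarith) hGE hK M T (by omega) (s := p - 1 - j)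
                (by omega) hsa hc.1 (by
                  by_cases hTE : E ≤ T
                  · right
                    intro i hi h
                    apply hc.2 E le_rfl hTE i (by omega)
                    have e : (n : ℤ) + 1 + i = ((n + 1 + i : ℕ) : ℤ) := by push_cast; ring
                    rw [e] at h
                    exact_mod_cast h
                  · left; omega)
              refine h1.trans ?_
              have h2 := one_add_pow_le3 (p := p) (Q := Q) (by omega) (k := M) (by omega)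
              exact mul_le_mul_of_nonneg_right h2 (by positivity)
            · positivity
        _ = _ := by
          rw [sum_const, sum_const, card_range, card_range, nsmul_eq_mul, nsmul_eq_mul]
          push_cast
          ring
    · rw [if_neg hMk, if_pos (not_lt.1 hMk), mul_zero, zero_add]
      rw [not_lt] at hMk
      have hkM : k0 ≤ M := (Nat.le_mul_of_pos_left k0 hE).trans hMk
      have hEM : 4 * E ≤ M := by
        calc 4 * E = E * 4 := by ring
          _ ≤ E * k0 := Nat.mul_le_mul_left _ hk4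
          _ ≤ M := hMk
      have hET : E ≤ T := by omega
      have hdiv : M / k0 ≤ M / 4 := Nat.div_le_div_left hk4 (by norm_num)
      have hEdiv : E ≤ M / k0 := by
        rw [Nat.le_div_iff_mul_le (by omega)]
        exact hMk
      have hlt : M < (M / k0 + 1) * k0 := by
        have := Nat.lt_mul_div_succ M (show 0 < k0 by omega)
        rw [mul_comm] at this
        exact this
      have hexp := natlog_bound2 (p := p) (M := M) (k0 := k0) hk120 hk4 hkM
      obtain ⟨L, hL⟩ : ∃ L, L = M / k0 + 1 := ⟨_, rfl⟩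
      have hL1 : E + 1 ≤ L := by rw [hL]; exact Nat.add_le_add_right hEdiv 1
      have hL2 : L ≤ M / 4 + 1 := by rw [hL]; exact Nat.add_le_add_right hdiv 1
      rw [← hL] at hexp hlt
      have hsum : ∀ f ∈ range E, ∑ n ∈ range (p ^ T),
          (if PG2 p E T k0 n then U0 p T (M - 1 - f) ((n : ℤ) + 1) else 0) ≤
          (p : ℝ) ^ T * Real.exp (-(M : ℝ) / 10 + E / 5) := by
        intro f hf
        rw [mem_range] at hf
        have h1 := sum_U0_le hp hGd (by omega) hlog (K := T) (m := M - 1 - f)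
          (L := L) (T := T) (k0 := k0) hk0 (by omega) (by omega) (by omega)
          (by omega) (by omega) (PG2 p E T k0) (fun n hn i hi => hn _ (by omega) (by omega) i hi)
        refine h1.trans ?_
        apply mul_le_mul_of_nonneg_left _ (by positivity)
        apply Real.exp_le_exp.2
        have h2 : ((M - 1 - f : ℕ) : ℝ) ≥ (M : ℝ) - E := by
          have h3 : (M : ℤ) - E ≤ ((M - 1 - f : ℕ) : ℤ) := by omega
          exact_mod_cast h3
        linarith
      calc _ ≤ ∑ j ∈ range p, ∑ n ∈ range (p ^ T), ∑ f ∈ range E,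
            (p : ℝ) ^ E * (if PG2 p E T k0 n then U0 p T (M - 1 - f) ((n : ℤ) + 1) else 0) := by
            apply sum_le_sum
            intro j hj
            rw [mem_range] at hj
            apply sum_le_sum
            intro n _
            have hnn : ∀ f ∈ range E, 0 ≤ (p : ℝ) ^ E *
                (if PG2 p E T k0 n then U0 p T (M - 1 - f) ((n : ℤ) + 1) else 0) := by
              intro f _
              split_ifs
              · exact mul_nonneg (by positivity) (U0_nonneg _ _ _ _)
              · rw [mul_zero]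
            by_cases hc : (p : ℝ) ^ ε ≤ ((p - 1 - j : ℕ) : ℝ) ∧ PG2 p E T k0 n
            · have hsa : (p : ℤ) * n + j + ((p - 1 - j : ℕ) : ℤ) + 1 = p * ((n : ℤ) + 1) := by
                have : ((p - 1 - j : ℕ) : ℤ) = (p : ℤ) - 1 - j := by omega
                rw [this]; ring
              have hnE : ¬ (p : ℤ) ^ E ∣ (n : ℤ) + 1 := by
                intro h
                apply hc.2 E le_rfl hET 0 (Nat.mul_pos (by omega) (by omega))
                rw [add_zero]
                exact_mod_cast h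
              obtain ⟨f, hfE, hf1, hf2⟩ := exists_val hnE
              have h1 := gZs_trivial hp T (M - 1 - f) (f := f) (s := p - 1 - j) (by omega) hsa
                hf1 hf2
              rw [show M - 1 - f + 1 + (f + 1) = M + 1 by omega] at h1
              rw [if_pos hc]
              refine h1.trans ?_
              have h2 := single_le_sum hnn (mem_range.2 hfE)
              refine le_trans ?_ h2
              rw [if_pos hc.2]
              apply mul_le_mul_of_nonneg_right _ (U0_nonneg _ _ _ _)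
              exact pow_le_pow_right₀ hp1' (by omega)
            · rw [if_neg hc]
              exact sum_nonneg hnn
        _ = p * ∑ f ∈ range E, ((p : ℝ) ^ E * ∑ n ∈ range (p ^ T),
            (if PG2 p E T k0 n then U0 p T (M - 1 - f) ((n : ℤ) + 1) else 0)) := by
          rw [sum_const, card_range, nsmul_eq_mul, sum_comm]
          congr 1
          apply sum_congr rfl
          intro f _
          rw [mul_sum]
        _ ≤ p * ∑ f ∈ range E, ((p : ℝ) ^ E *
            ((p : ℝ) ^ T * Real.exp (-(M : ℝ) / 10 + E / 5))) := by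
          apply mul_le_mul_of_nonneg_left _ hp0'.le
          apply sum_le_sum
          intro f hf
          exact mul_le_mul_of_nonneg_left (hsum f hf) (by positivity)
        _ = _ := by
          rw [sum_const, card_range, nsmul_eq_mul]
          ring
  refine (sum_le_sum hbound).trans ?_
  rw [sum_add_distrib, ← mul_sum, ← mul_sum, ← mul_sum]
  have h1 : ∑ M ∈ range T, (if M < E * k0 then 3 * ((p : ℝ) ^ E * ((p : ℝ) ^ (2 * K))⁻¹) else 0) ≤
      E * k0 * (3 * ((p : ℝ) ^ E * ((p : ℝ) ^ (2 * K))⁻¹)) := by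
    rw [← sum_filter, sum_const, nsmul_eq_mul]
    apply mul_le_mul_of_nonneg_right _ (by positivity)
    have : ((range T).filter (fun M => M < E * k0)).card ≤ E * k0 := by
      calc _ ≤ (range (E * k0)).card := by
            apply card_le_card
            intro M hM
            exact mem_range.2 (mem_filter.1 hM).2
        _ = E * k0 := card_range _
    exact_mod_cast this
  have h2 := sum_exp_tail T (E * k0) ((E : ℝ) / 5)
  apply add_le_add
  · exact mul_le_mul_of_nonneg_left h1 (by positivity)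
  · apply mul_le_mul_of_nonneg_left _ (by positivity)
    exact mul_le_mul_of_nonneg_left h2 (by positivity)

end Pool.Agent.FacLarge
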