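import Pool.Agent.FacLarge.Core

/-!
Lower bound for the sum of squared distances to the nearest integer.
-/

set_option autoImplicit false

namespace Pool.Agent.FacLarge

open Finset Filter

theorem eventually_small (A : ℝ) : ∃ P0 : ℕ, ∀ p : ℕ, P0 ≤ p →
    A + 162 * Real.log p < (p : ℝ) ^ (1 / 100 : ℝ) := by
  have h1 := (isLittleO_log_rpow_atTop (r := (1 / 100 : ℝ)) (by norm_num)).def
    (c := 1 / 400) (by norm_num)
  have h2 := (tendsto_rpow_atTop (y := (1 / 100 : ℝ)) (by norm_num)).eventually_gt_atTop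
    (2 * A)
  have h3 := (h1.and h2).and (eventually_gt_atTop (1 : ℝ))
  obtain ⟨x0, hx0⟩ := eventually_atTop.1 h3
  refine ⟨⌈x0⌉₊, fun p hp => ?_⟩
  have hp' : x0 ≤ (p : ℝ) := (Nat.le_ceil x0).trans (by exact_mod_cast hp)
  obtain ⟨⟨h4, h5⟩, h6⟩ := hx0 p hp'
  have h7 : 0 ≤ Real.log p := Real.log_nonneg h6.le
  have h8 : (0 : ℝ) ≤ (p : ℝ) ^ (1 / 100 : ℝ) := by positivity
  rw [Real.norm_of_nonneg h7, Real.norm_of_nonneg h8] at h4
  have h9 : (0 : ℝ) < (p : ℝ) ^ (1 / 100 : ℝ) := Real.rpow_pos_of_pos (by linarith) _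
  nlinarith

/-- centred residue -/
noncomputable def cen (p : ℕ) (z : ℤ) : ℤ := z - p * round ((z : ℝ) / p)

theorem norm_eq_cen {p : ℕ} (hp : 0 < p) (z : ℤ) :
    ‖(((z : ℝ) / p : ℝ) : UnitAddCircle)‖ = |(cen p z : ℝ)| / p := by
  rw [UnitAddCircle.norm_eq]
  have hp' : (0 : ℝ) < p := by exact_mod_cast hp
  have h1 : (z : ℝ) / p - (round ((z : ℝ) / p) : ℝ) = (cen p z : ℝ) / p := by
    unfold cen
    push_cast
    field_simp
  rw [h1, abs_div, abs_of_pos hp']

theorem dvd_cen_sub (p : ℕ) (z : ℤ) : (p : ℤ) ∣ cen p z - z := by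
  unfold cen
  exact ⟨-round ((z : ℝ) / p), by ring⟩

theorem normSq_sum_gt : ∃ P0 : ℕ, ∀ p : ℕ, P0 ≤ p → p.Prime → ∀ b s : ℕ, b + s ≤ p →
    (p : ℝ) ^ (83 / 100 : ℝ) ≤ s → ∀ c : ℕ → ℤ, ¬ (p : ℤ) ∣ c 0 →
    (∀ i, i + 1 < s → (p : ℤ) ∣ c (i + 1) - ((b + i + 1 : ℕ) : ℤ) * c i) →
    54 * Real.log p < ∑ i ∈ range s, ‖(((c i : ℝ) / p : ℝ) : UnitAddCircle)‖ ^ 2 := by
  classical
  obtain ⟨C, hC1, hC⟩ := card_divisors_pow_le 24
  obtain ⟨P0, hP0⟩ := eventually_small (84 * C + 2)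
  refine ⟨P0 + 1, fun p hpP hp b s hbs hs c h0 hrec => ?_⟩
  have hp1 : (1 : ℝ) ≤ p := by exact_mod_cast hp.one_lt.le
  have hp0 : (0 : ℝ) < p := by linarith
  by_contra hcon
  rw [not_lt] at hcon
  obtain ⟨d, hd⟩ : ∃ d : ℕ → ℤ, d = fun i => cen p (c i) := ⟨_, rfl⟩
  have hd0 : ¬ (p : ℤ) ∣ d 0 := by
    intro h
    apply h0
    have h1 : (p : ℤ) ∣ d 0 - c 0 := by rw [hd]; exact dvd_cen_sub p (c 0)
    have h2 := dvd_sub h h1
    have h3 : d 0 - (d 0 - c 0) = c 0 := by ring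
    rwa [h3] at h2
  have hdrec : ∀ i, i + 1 < s → (p : ℤ) ∣ d (i + 1) - ((b + i + 1 : ℕ) : ℤ) * d i := by
    intro i hi
    have h1 := dvd_cen_sub p (c (i + 1))
    have h2 := (dvd_cen_sub p (c i)).mul_left ((b + i + 1 : ℕ) : ℤ)
    have h3 := hrec i hi
    have h4 := dvd_sub (dvd_add h1 h3) h2
    have h5 : cen p (c (i + 1)) - c (i + 1) + (c (i + 1) - ((b + i + 1 : ℕ) : ℤ) * c i) -
        ((b + i + 1 : ℕ) : ℤ) * (cen p (c i) - c i) =
        cen p (c (i + 1)) - ((b + i + 1 : ℕ) : ℤ) * cen p (c i) := by ring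
    rw [h5] at h4
    rw [hd]
    exact h4
  have hnorm : ∀ i, ‖(((c i : ℝ) / p : ℝ) : UnitAddCircle)‖ = |(d i : ℝ)| / p := by
    intro i
    rw [norm_eq_cen hp.pos, hd]
  -- thresholds
  obtain ⟨Y, hY⟩ : ∃ Y : ℝ, Y = (p : ℝ) ^ (59 / 100 : ℝ) := ⟨_, rfl⟩
  have hY1 : 1 ≤ Y := by rw [hY]; exact Real.one_le_rpow hp1 (by norm_num)
  obtain ⟨X, hX⟩ : ∃ X : ℕ, X = ⌊Y⌋₊ := ⟨_, rfl⟩
  have hXle : (X : ℝ) ≤ Y := by rw [hX]; exact Nat.floor_le (by linarith)
  have hXlt : Y < X + 1 := by rw [hX]; exact Nat.lt_floor_add_one Y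
  obtain ⟨D, hD⟩ : ∃ D : ℕ, D = ⌊(2 * C * Y ^ 2) ^ (1 / 24 : ℝ)⌋₊ := ⟨_, rfl⟩
  have hYY : Y ^ 2 = (p : ℝ) ^ (118 / 100 : ℝ) := by
    rw [hY, ← Real.rpow_natCast, ← Real.rpow_mul hp0.le]
    norm_num
  have hDdiv : ∀ n : ℕ, n ≠ 0 → n ≤ 2 * X ^ 2 → n.divisors.card ≤ D := by
    intro n hn hn2
    have h1 := hC n hn
    rw [hD]
    apply Nat.le_floor
    have h2 : ((n.divisors.card : ℕ) : ℝ) ^ 24 ≤ 2 * C * Y ^ 2 := by
      calc ((n.divisors.card : ℕ) : ℝ) ^ 24 ≤ (C * n : ℝ) := by exact_mod_cast h1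
        _ ≤ C * (2 * X ^ 2) := by
          apply mul_le_mul_of_nonneg_left _ (by positivity)
          exact_mod_cast hn2
        _ ≤ C * (2 * Y ^ 2) := by
          apply mul_le_mul_of_nonneg_left _ (by positivity)
          have := pow_le_pow_left₀ (by positivity) hXle 2
          linarith
        _ = _ := by ring
    calc ((n.divisors.card : ℕ) : ℝ) = (((n.divisors.card : ℕ) : ℝ) ^ 24) ^ (1 / 24 : ℝ) := by
          rw [← Real.rpow_natCast, ← Real.rpow_mul (by positivity)]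
          norm_num
      _ ≤ _ := Real.rpow_le_rpow (by positivity) h2 (by norm_num)
  have hDle : (D : ℝ) ≤ 2 * C * (p : ℝ) ^ (5 / 100 : ℝ) := by
    calc (D : ℝ) ≤ (2 * C * Y ^ 2) ^ (1 / 24 : ℝ) := by
          rw [hD]; exact Nat.floor_le (by positivity)
      _ = (2 * C) ^ (1 / 24 : ℝ) * (p : ℝ) ^ (118 / 2400 : ℝ) := by
        rw [hYY, Real.mul_rpow (by positivity) (by positivity), ← Real.rpow_mul hp0.le]
        norm_num
      _ ≤ (2 * C) * (p : ℝ) ^ (5 / 100 : ℝ) := by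
        apply mul_le_mul _ _ (by positivity) (by positivity)
        · have hC1' : (1 : ℝ) ≤ C := by exact_mod_cast hC1
          calc ((2 * C : ℝ)) ^ (1 / 24 : ℝ) ≤ (2 * C : ℝ) ^ (1 : ℝ) :=
                Real.rpow_le_rpow_of_exponent_le (by linarith) (by norm_num)
            _ = _ := Real.rpow_one _
        · exact Real.rpow_le_rpow_of_exponent_le hp1 (by norm_num)
  have hcount := card_smallTriples_le hp hbs hd0 hdrec hDdiv
  -- bad indices
  obtain ⟨B, hB⟩ : ∃ B : Finset ℕ, B = (range s).filter (fun i => (X : ℤ) < |d i|) := ⟨_, rfl⟩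
  have hBcard : (B.card : ℝ) ≤ 54 * Real.log p * (p : ℝ) ^ (82 / 100 : ℝ) := by
    have h1 : ∑ i ∈ B, (Y / p) ^ 2 ≤
        ∑ i ∈ range s, ‖(((c i : ℝ) / p : ℝ) : UnitAddCircle)‖ ^ 2 := by
      calc ∑ i ∈ B, (Y / p) ^ 2 ≤ ∑ i ∈ B, ‖(((c i : ℝ) / p : ℝ) : UnitAddCircle)‖ ^ 2 := by
            apply sum_le_sum
            intro i hi
            rw [hB, mem_filter] at hi
            rw [hnorm i]
            have h2 : (X : ℤ) + 1 ≤ |d i| := by have := hi.2; omega
            have h3 : (X : ℝ) + 1 ≤ |(d i : ℝ)| := by exact_mod_cast h2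
            apply pow_le_pow_left₀ (by positivity)
            apply div_le_div_of_nonneg_right _ hp0.le
            linarith
        _ ≤ _ := by
            apply sum_le_sum_of_subset_of_nonneg
            · rw [hB]; exact filter_subset _ _
            · intro i _ _; positivity
    rw [sum_const, nsmul_eq_mul] at h1
    have h2 : (B.card : ℝ) * (Y / p) ^ 2 ≤ 54 * Real.log p := h1.trans hcon
    have h3 : (Y / p) ^ 2 * (p : ℝ) ^ (82 / 100 : ℝ) = 1 := by
      rw [div_pow, hYY, ← Real.rpow_natCast (p : ℝ) 2, ← Real.rpow_sub hp0,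
        ← Real.rpow_add hp0]
      norm_num
    calc (B.card : ℝ) = (B.card : ℝ) * ((Y / p) ^ 2 * (p : ℝ) ^ (82 / 100 : ℝ)) := by
          rw [h3, mul_one]
      _ = ((B.card : ℝ) * (Y / p) ^ 2) * (p : ℝ) ^ (82 / 100 : ℝ) := by ring
      _ ≤ _ := mul_le_mul_of_nonneg_right h2 (by positivity)
  have hcover : range s ⊆ smallTriples s X d ∪ (B ∪ (B.image (fun i => i - 1) ∪
      (B.image (fun i => i - 2) ∪ {s - 2, s - 1}))) := by
    intro i hi
    rw [mem_range] at hi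
    by_cases h2 : i + 2 < s
    · by_cases a0 : |d i| ≤ X
      · by_cases a1 : |d (i + 1)| ≤ X
        · by_cases a2 : |d (i + 2)| ≤ X
          · apply mem_union_left
            rw [smallTriples, mem_filter]
            exact ⟨mem_range.2 hi, h2, a0, a1, a2⟩
          · apply mem_union_right; apply mem_union_right; apply mem_union_right
            apply mem_union_left
            rw [mem_image]
            exact ⟨i + 2, by rw [hB, mem_filter]; exact ⟨mem_range.2 h2, not_le.1 a2⟩, by omega⟩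
        · apply mem_union_right; apply mem_union_right
          apply mem_union_left
          rw [mem_image]
          exact ⟨i + 1, by rw [hB, mem_filter]; exact ⟨mem_range.2 (by omega), not_le.1 a1⟩,
            by omega⟩
      · apply mem_union_right; apply mem_union_left
        rw [hB, mem_filter]; exact ⟨mem_range.2 hi, not_le.1 a0⟩
    · apply mem_union_right; apply mem_union_right; apply mem_union_right
      apply mem_union_right
      rw [mem_insert, mem_singleton]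
      omega
  have hscard : s ≤ (smallTriples s X d).card + (B.card + (B.card + (B.card + 2))) := by
    calc s = (range s).card := (card_range s).symm
      _ ≤ _ := card_le_card hcover
      _ ≤ _ := by
        refine (card_union_le _ _).trans (Nat.add_le_add_left ?_ _)
        refine (card_union_le _ _).trans (Nat.add_le_add_left ?_ _)
        refine (card_union_le _ _).trans (Nat.add_le_add card_image_le ?_)
        refine (card_union_le _ _).trans (Nat.add_le_add card_image_le ?_)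
        exact card_le_two
  -- numeric
  have hXX : ((3 * X ^ 2 / p : ℕ) : ℝ) ≤ 3 * (p : ℝ) ^ (18 / 100 : ℝ) := by
    calc ((3 * X ^ 2 / p : ℕ) : ℝ) ≤ ((3 * X ^ 2 : ℕ) : ℝ) / p := Nat.cast_div_le
      _ ≤ (3 * Y ^ 2) / p := by
        apply div_le_div_of_nonneg_right _ hp0.le
        push_cast
        have := pow_le_pow_left₀ (by positivity) hXle 2
        linarith
      _ = 3 * (p : ℝ) ^ (18 / 100 : ℝ) := by
        rw [hYY, mul_div_assoc]
        congr 1
        rw [← Real.rpow_sub_one hp0.ne']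
        norm_num
  have hsm : ((smallTriples s X d).card : ℝ) ≤ 84 * C * (p : ℝ) ^ (82 / 100 : ℝ) := by
    calc ((smallTriples s X d).card : ℝ) ≤
        ((2 * D * ((2 * X + 1) * (2 * (3 * X ^ 2 / p) + 1)) : ℕ) : ℝ) := by
          exact_mod_cast hcount
      _ = 2 * D * ((2 * X + 1) * (2 * ((3 * X ^ 2 / p : ℕ) : ℝ) + 1)) := by push_cast; ring
      _ ≤ 2 * (2 * C * (p : ℝ) ^ (5 / 100 : ℝ)) * ((3 * Y) * (7 * (p : ℝ) ^ (18 / 100 : ℝ))) := by
        have e1 : (1 : ℝ) ≤ (p : ℝ) ^ (18 / 100 : ℝ) := Real.one_le_rpow hp1 (by norm_num)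
        apply mul_le_mul
        · linarith
        · apply mul_le_mul
          · linarith
          · linarith
          · positivity
          · positivity
        · positivity
        · positivity
      _ = 84 * C * ((p : ℝ) ^ (5 / 100 : ℝ) * (Y * (p : ℝ) ^ (18 / 100 : ℝ))) := by ring
      _ = 84 * C * (p : ℝ) ^ (82 / 100 : ℝ) := by
        rw [hY, ← Real.rpow_add hp0, ← Real.rpow_add hp0]
        norm_num
  have hfin : (s : ℝ) ≤ (84 * C + 2 + 162 * Real.log p) * (p : ℝ) ^ (82 / 100 : ℝ) := by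
    have h1 : (s : ℝ) ≤ ((smallTriples s X d).card : ℝ) + (B.card + (B.card + (B.card + 2))) := by
      exact_mod_cast hscard
    have e1 : (1 : ℝ) ≤ (p : ℝ) ^ (82 / 100 : ℝ) := Real.one_le_rpow hp1 (by norm_num)
    nlinarith
  have hP := hP0 p (by omega)
  have e2 : (0 : ℝ) < (p : ℝ) ^ (82 / 100 : ℝ) := by positivity
  have h1 : (84 * C + 2 + 162 * Real.log p) * (p : ℝ) ^ (82 / 100 : ℝ) <
      (p : ℝ) ^ (83 / 100 : ℝ) := by
    calc _ < (p : ℝ) ^ (1 / 100 : ℝ) * (p : ℝ) ^ (82 / 100 : ℝ) :=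
          mul_lt_mul_of_pos_right hP e2
      _ = _ := by rw [← Real.rpow_add hp0]; norm_num
  linarith

end Pool.Agent.FacLarge
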