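import Pool.Agent.FacLarge.Bad

/-!
Lower bound for the sum of squared distances to the nearest integer, modulo prime powers and for
intervals of length `p ^ ε`.
-/

set_option autoImplicit false

namespace Pool.Agent.FacLarge

open Filter

theorem eventually_lt_rpow (A B : ℝ) {δ : ℝ} (hδ : 0 < δ) : ∃ P0 : ℕ, ∀ p : ℕ, P0 ≤ p →
    A + B * Real.log p < (p : ℝ) ^ δ := by
  have hc : (0 : ℝ) < 1 / (4 * (|B| + 1)) := by positivity
  have h1 := (isLittleO_log_rpow_atTop hδ).def hc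
  have h2 := (tendsto_rpow_atTop hδ).eventually_gt_atTop (2 * A)
  have h3 := (h1.and h2).and (eventually_gt_atTop (1 : ℝ))
  obtain ⟨x0, hx0⟩ := eventually_atTop.1 h3
  refine ⟨⌈x0⌉₊, fun p hp => ?_⟩
  have hp' : x0 ≤ (p : ℝ) := (Nat.le_ceil x0).trans (by exact_mod_cast hp)
  obtain ⟨⟨h4, h5⟩, h6⟩ := hx0 p hp'
  have h7 : 0 ≤ Real.log p := Real.log_nonneg h6.le
  have h8 : (0 : ℝ) ≤ (p : ℝ) ^ δ := by positivity
  rw [Real.norm_of_nonneg h7, Real.norm_of_nonneg h8] at h4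
  have h9 : (0 : ℝ) < (p : ℝ) ^ δ := Real.rpow_pos_of_pos (by linarith) _
  have h10 : B * Real.log p ≤ (|B| + 1) * Real.log p :=
    mul_le_mul_of_nonneg_right (by have := le_abs_self B; linarith) h7
  have h11 : (|B| + 1) * Real.log p ≤ 1 / 4 * (p : ℝ) ^ δ := by
    calc (|B| + 1) * Real.log p ≤ (|B| + 1) * (1 / (4 * (|B| + 1)) * (p : ℝ) ^ δ) :=
          mul_le_mul_of_nonneg_left h4 (by positivity)
      _ = _ := by field_simp
  linarith

theorem normSq_sum_gt2 {ε : ℝ} (hε : 0 < ε) (hε1 : ε ≤ 1) {e : ℕ} (he : 1 ≤ e) (K : ℝ) : ∃ P0 : ℕ, ∀ p : ℕ, P0 ≤ p → p.Prime → ∀ (A : ℤ) (s : ℕ), s ≤ p →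
    (p : ℝ) ^ ε ≤ s → ∀ c : ℕ → ℤ, (∀ i < s, ¬ (p : ℤ) ∣ c i) →
    (∀ i, i + 1 < s → (p : ℤ) ^ e ∣ c (i + 1) - (A + i + 1) * c i) →
    K * Real.log p < ∑ i ∈ Finset.range s, ‖(c i) • eps p e‖ ^ 2 := by
  classical
  have he' : (1 : ℝ) ≤ e := by exact_mod_cast he
  obtain ⟨η, hη⟩ : ∃ η : ℝ, η = ε / 4 := ⟨_, rfl⟩
  have hη0 : 0 < η := by rw [hη]; positivity
  have hη1 : η ≤ 1 / 4 := by rw [hη]; linarith
  obtain ⟨n, hn⟩ : ∃ n : ℕ, n = ⌈2 * e / η⌉₊ := ⟨_, rfl⟩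
  have hn1 : 2 * e / η ≤ n := by rw [hn]; exact Nat.le_ceil _
  have hn8 : (8 : ℝ) ≤ n := by
    refine le_trans ?_ hn1
    rw [le_div_iff₀ hη0]
    linarith
  have hn2 : (e : ℝ) < (n + 1) * (η / 2) := by
    rw [div_le_iff₀ hη0] at hn1
    nlinarith
  obtain ⟨θ, hθ⟩ : ∃ θ : ℝ, θ = η / (n + 1) := ⟨_, rfl⟩
  have hθ0 : 0 < θ := by rw [hθ]; positivity
  have hθn : θ * (n + 1) = η := by
    rw [hθ]; field_simp
  have hθ4 : θ ≤ η / 4 := by
    rw [hθ]
    apply div_le_div_of_nonneg_left hη0.le (by norm_num)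
    linarith
  obtain ⟨k, hk⟩ : ∃ k : ℕ, k = ⌈(e + 1) / θ⌉₊ := ⟨_, rfl⟩
  have hk1 : (e + 1) ≤ θ * k := by
    have : ((e : ℝ) + 1) / θ ≤ k := by rw [hk]; exact Nat.le_ceil _
    rw [div_le_iff₀ hθ0] at this
    linarith
  obtain ⟨m, hm⟩ : ∃ m : ℕ, m = n + k := ⟨_, rfl⟩
  obtain ⟨N, hN⟩ : ∃ N : ℕ, N = 2 * m + n := ⟨_, rfl⟩
  obtain ⟨P1, hP1⟩ := eventually_lt_rpow ((((m + 1) * (N + 1) ^ N : ℕ) : ℝ)) 0
    (δ := η / 2) (by positivity)
  obtain ⟨P2, hP2⟩ := eventually_lt_rpow ((((3 * (m + 1) ^ (m + 1)) ^ (m + 1) : ℕ) : ℝ)) 0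
    (δ := 1) (by positivity)
  obtain ⟨P3, hP3⟩ := eventually_lt_rpow 2 0 (δ := η / 4) (by positivity)
  obtain ⟨P4, hP4⟩ := eventually_lt_rpow
    ((N : ℝ) + n * (5 * ((m : ℝ) + 1)) ^ (n + 1)) ((N + 1) * K) (δ := ε / 2) (by positivity)
  refine ⟨max (max P1 P2) (max P3 P4) + 1, fun p hpP hp A s hsp hs c hc0 hrec => ?_⟩
  have g1 := hP1 p (by omega)
  have g2 := hP2 p (by omega)
  have g3 := hP3 p (by omega)
  have g4 := hP4 p (by omega)
  rw [zero_mul, add_zero] at g1 g2 g3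
  rw [Real.rpow_one] at g2
  have hp1 : (1 : ℝ) ≤ p := by exact_mod_cast hp.one_lt.le
  have hp0 : (0 : ℝ) < p := by linarith
  by_contra hcon
  rw [not_lt] at hcon
  obtain ⟨H, hH⟩ : ∃ H : ℕ, H = ⌊(p : ℝ) ^ (η / 2)⌋₊ := ⟨_, rfl⟩
  obtain ⟨X, hX⟩ : ∃ X : ℕ, X = ⌊(p : ℝ) ^ ((e : ℝ) - η)⌋₊ := ⟨_, rfl⟩
  obtain ⟨Y, hY⟩ : ∃ Y : ℕ, Y = ⌈(p : ℝ) ^ θ⌉₊ := ⟨_, rfl⟩
  have hHle : (H : ℝ) ≤ (p : ℝ) ^ (η / 2) := by rw [hH]; exact Nat.floor_le (by positivity)
  have hHlt : (p : ℝ) ^ (η / 2) < H + 1 := by rw [hH]; exact Nat.lt_floor_add_one _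
  have hXle : (X : ℝ) ≤ (p : ℝ) ^ ((e : ℝ) - η) := by rw [hX]; exact Nat.floor_le (by positivity)
  have hXlt : (p : ℝ) ^ ((e : ℝ) - η) < X + 1 := by rw [hX]; exact Nat.lt_floor_add_one _
  have hYle : (p : ℝ) ^ θ ≤ Y := by rw [hY]; exact Nat.le_ceil _
  have hYlt : (Y : ℝ) < (p : ℝ) ^ θ + 1 := by rw [hY]; exact Nat.ceil_lt_add_one (by positivity)
  have c1 : p ^ e < (H + 1) ^ (n + 1) := by
    have h1 : ((p : ℝ)) ^ (e : ℝ) < ((H : ℝ) + 1) ^ (n + 1) := by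
      calc (p : ℝ) ^ (e : ℝ) < (p : ℝ) ^ ((η / 2) * ((n + 1 : ℕ) : ℝ)) := by
            apply Real.rpow_lt_rpow_of_exponent_lt
            · exact_mod_cast hp.one_lt
            · push_cast
              linarith
        _ = ((p : ℝ) ^ (η / 2)) ^ (n + 1) := by
          rw [Real.rpow_mul hp0.le, Real.rpow_natCast]
        _ ≤ _ := pow_le_pow_left₀ (by positivity) hHlt.le _
    rw [Real.rpow_natCast] at h1
    exact_mod_cast h1
  have c2 : (m + 1) * H * ((2 * m + n + 1) ^ (2 * m + n) * X) < p ^ e := by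
    have h1 : (((m + 1) * (N + 1) ^ N : ℕ) : ℝ) * ((H : ℝ) * X) < (p : ℝ) ^ (e : ℝ) := by
      calc (((m + 1) * (N + 1) ^ N : ℕ) : ℝ) * ((H : ℝ) * X) ≤
            (((m + 1) * (N + 1) ^ N : ℕ) : ℝ) * ((p : ℝ) ^ (η / 2) * (p : ℝ) ^ ((e : ℝ) - η)) := by
            apply mul_le_mul_of_nonneg_left _ (by positivity)
            exact mul_le_mul hHle hXle (by positivity) (by positivity)
        _ < (p : ℝ) ^ (η / 2) * ((p : ℝ) ^ (η / 2) * (p : ℝ) ^ ((e : ℝ) - η)) :=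
            mul_lt_mul_of_pos_right g1 (by positivity)
        _ = (p : ℝ) ^ (e : ℝ) := by
          rw [← Real.rpow_add hp0, ← Real.rpow_add hp0]
          congr 1
          ring
    rw [Real.rpow_natCast] at h1
    have h2 : (((m + 1) * H * ((2 * m + n + 1) ^ (2 * m + n) * X) : ℕ) : ℝ) <
        ((p ^ e : ℕ) : ℝ) := by
      refine lt_of_le_of_lt (le_of_eq ?_) (lt_of_lt_of_eq h1 (by push_cast; rfl))
      rw [hN]
      push_cast
      ring
    exact_mod_cast h2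
  have c3 : p ^ e * (3 * (m + 1) ^ (m + 1)) ^ (m + 1) < Y ^ (m + 1 - n) := by
    have hk2 : m + 1 - n = k + 1 := by omega
    rw [hk2]
    have h1 : (p : ℝ) ^ ((e : ℝ) + 1) ≤ (Y : ℝ) ^ k := by
      calc (p : ℝ) ^ ((e : ℝ) + 1) ≤ (p : ℝ) ^ (θ * (k : ℝ)) :=
            Real.rpow_le_rpow_of_exponent_le hp1 hk1
        _ = ((p : ℝ) ^ θ) ^ k := by rw [Real.rpow_mul hp0.le, Real.rpow_natCast]
        _ ≤ _ := pow_le_pow_left₀ (by positivity) hYle _
    have hY1 : (1 : ℝ) ≤ Y := (Real.one_le_rpow hp1 hθ0.le).trans hYle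
    have h2 : ((p ^ e * (3 * (m + 1) ^ (m + 1)) ^ (m + 1) : ℕ) : ℝ) < ((Y ^ (k + 1) : ℕ) : ℝ) := by
      rw [Nat.cast_mul, Nat.cast_pow p e, Nat.cast_pow Y]
      calc (p : ℝ) ^ e * (((3 * (m + 1) ^ (m + 1)) ^ (m + 1) : ℕ) : ℝ) < (p : ℝ) ^ e * p :=
            mul_lt_mul_of_pos_left g2 (by positivity)
        _ = (p : ℝ) ^ ((e : ℝ) + 1) := by
          rw [Real.rpow_add hp0, Real.rpow_natCast, Real.rpow_one]
        _ ≤ (Y : ℝ) ^ k := h1
        _ ≤ (Y : ℝ) ^ (k + 1) := pow_le_pow_right₀ hY1 (by omega)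
    exact_mod_cast h2
  have c4 : Y ≤ H := by
    have h1 : (p : ℝ) ^ θ ≤ (p : ℝ) ^ (η / 4) := Real.rpow_le_rpow_of_exponent_le hp1 hθ4
    have h2 : (p : ℝ) ^ (η / 2) = (p : ℝ) ^ (η / 4) * (p : ℝ) ^ (η / 4) := by
      rw [← Real.rpow_add hp0]; congr 1; ring
    have h3 : (Y : ℝ) < H + 1 := by nlinarith
    have h4 : Y < H + 1 := by exact_mod_cast h3
    omega
  -- centred residues
  obtain ⟨d, hd⟩ : ∃ d : ℕ → ℤ, d = fun i => cen (p ^ e) (c i) := ⟨_, rfl⟩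
  have hdc : ∀ i, (p : ℤ) ^ e ∣ d i - c i := by
    intro i
    rw [hd]
    have := dvd_cen_sub (p ^ e) (c i)
    push_cast at this
    exact this
  have hnorm : ∀ i, ‖(c i) • eps p e‖ = |(d i : ℝ)| / (p : ℝ) ^ e := by
    intro i
    rw [zsmul_eps]
    have h1 := norm_eq_cen (p := p ^ e) (by have := hp.pos; positivity) (c i)
    rw [Nat.cast_pow] at h1
    rw [h1, hd]
  have hd0 : ∀ i < s, ¬ (p : ℤ) ∣ d i := by
    intro i hi h
    apply hc0 i hi
    have h1 : (p : ℤ) ∣ d i - c i := (dvd_pow_self _ (by omega)).trans (hdc i)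
    have h2 := dvd_sub h h1
    rwa [sub_sub_cancel] at h2
  have hdrec : ∀ i, i + 1 < s → (p : ℤ) ^ e ∣ d (i + 1) - (A + i + 1) * d i := by
    intro i hi
    have h1 := hdc (i + 1)
    have h2 := (hdc i).mul_left (A + i + 1)
    have h3 := hrec i hi
    have h4 := dvd_sub (dvd_add h1 h3) h2
    have h5 : d (i + 1) - c (i + 1) + (c (i + 1) - (A + i + 1) * c i) -
        (A + i + 1) * (d i - c i) = d (i + 1) - (A + i + 1) * d i := by ring
    rwa [h5] at h4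
  obtain ⟨W, hW⟩ : ∃ W : Finset ℕ, W = (Finset.range (s - N)).filter
      (fun i => ∀ l ≤ N, |d (i + l)| ≤ (X : ℤ)) := ⟨_, rfl⟩
  have hWcard := card_bad_windows (X := X) hp he (show n ≤ m by omega) c1 c2 c3 c4
    hsp hd0 hdrec W (by
      intro i hi
      rw [hW, Finset.mem_filter, Finset.mem_range] at hi
      refine ⟨by omega, ?_⟩
      intro l hl
      exact hi.2 l (by omega))
  obtain ⟨B, hB⟩ : ∃ B : Finset ℕ, B = (Finset.range s).filter (fun i => (X : ℤ) < |d i|) :=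
    ⟨_, rfl⟩
  have hcover : Finset.range (s - N) ⊆ W ∪ (Finset.range (N + 1)).biUnion
      (fun l => B.image (fun i => i - l)) := by
    intro i hi
    by_cases h : i ∈ W
    · exact Finset.mem_union_left _ h
    · rw [hW, Finset.mem_filter, not_and] at h
      have h1 := h hi
      push Not at h1
      obtain ⟨l, hl, hlX⟩ := h1
      rw [Finset.mem_range] at hi
      apply Finset.mem_union_right
      rw [Finset.mem_biUnion]
      refine ⟨l, Finset.mem_range.2 (by omega), ?_⟩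
      rw [Finset.mem_image]
      refine ⟨i + l, ?_, by omega⟩
      rw [hB, Finset.mem_filter, Finset.mem_range]
      exact ⟨by omega, hlX⟩
  have hcount : s ≤ N + (n * ((m + 1) * (2 * Y + 1)) ^ (n + 1) + (N + 1) * B.card) := by
    have h1 : s - N ≤ n * ((m + 1) * (2 * Y + 1)) ^ (n + 1) + (N + 1) * B.card := by
      calc s - N = (Finset.range (s - N)).card := (Finset.card_range _).symm
        _ ≤ _ := Finset.card_le_card hcover
        _ ≤ _ := Finset.card_union_le _ _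
        _ ≤ _ := by
          apply Nat.add_le_add hWcard
          refine Finset.card_biUnion_le.trans ?_
          calc _ ≤ ∑ _l ∈ Finset.range (N + 1), B.card :=
                Finset.sum_le_sum fun l _ => Finset.card_image_le
            _ = _ := by rw [Finset.sum_const, Finset.card_range, smul_eq_mul]
    omega
  have hBcard : (B.card : ℝ) ≤ K * Real.log p * (p : ℝ) ^ (2 * η) := by
    have h1 : ∑ _i ∈ B, ((p : ℝ) ^ (-η)) ^ 2 ≤ ∑ i ∈ Finset.range s, ‖(c i) • eps p e‖ ^ 2 := by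
      calc ∑ i ∈ B, ((p : ℝ) ^ (-η)) ^ 2 ≤ ∑ i ∈ B, ‖(c i) • eps p e‖ ^ 2 := by
            apply Finset.sum_le_sum
            intro i hi
            rw [hB, Finset.mem_filter] at hi
            rw [hnorm i]
            have h2 : (X : ℤ) + 1 ≤ |d i| := by have := hi.2; omega
            have h3 : (X : ℝ) + 1 ≤ |(d i : ℝ)| := by exact_mod_cast h2
            apply pow_le_pow_left₀ (by positivity)
            rw [le_div_iff₀ (by positivity)]
            calc (p : ℝ) ^ (-η) * (p : ℝ) ^ e = (p : ℝ) ^ ((e : ℝ) - η) := by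
                  rw [← Real.rpow_natCast (p : ℝ) e, ← Real.rpow_add hp0]; congr 1; ring
              _ ≤ _ := by linarith
        _ ≤ _ := by
            apply Finset.sum_le_sum_of_subset_of_nonneg
            · rw [hB]; exact Finset.filter_subset _ _
            · intro i _ _; positivity
    rw [Finset.sum_const, nsmul_eq_mul] at h1
    have h2 : (B.card : ℝ) * ((p : ℝ) ^ (-η)) ^ 2 ≤ K * Real.log p := h1.trans hcon
    have h3 : ((p : ℝ) ^ (-η)) ^ 2 * (p : ℝ) ^ (2 * η) = 1 := by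
      rw [← Real.rpow_natCast ((p : ℝ) ^ (-η)) 2, ← Real.rpow_mul hp0.le, ← Real.rpow_add hp0]
      push_cast
      rw [show -η * 2 + 2 * η = 0 by ring, Real.rpow_zero]
    calc (B.card : ℝ) = ((B.card : ℝ) * ((p : ℝ) ^ (-η)) ^ 2) * (p : ℝ) ^ (2 * η) := by
          rw [mul_assoc, h3, mul_one]
      _ ≤ _ := mul_le_mul_of_nonneg_right h2 (by positivity)
  have hlog : 0 ≤ Real.log p := Real.log_natCast_nonneg p
  have hε2 : (p : ℝ) ^ (2 * η) = (p : ℝ) ^ (ε / 2) := by congr 1; rw [hη]; ring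
  have hY5 : (2 * (Y : ℝ) + 1) ≤ 5 * (p : ℝ) ^ θ := by
    have := Real.one_le_rpow hp1 hθ0.le
    linarith
  have hR : ((n * ((m + 1) * (2 * Y + 1)) ^ (n + 1) : ℕ) : ℝ) ≤
      n * (5 * ((m : ℝ) + 1)) ^ (n + 1) * (p : ℝ) ^ (ε / 2) := by
    push_cast
    rw [mul_assoc]
    apply mul_le_mul_of_nonneg_left _ (by positivity)
    calc (((m : ℝ) + 1) * (2 * Y + 1)) ^ (n + 1) ≤ (((m : ℝ) + 1) * (5 * (p : ℝ) ^ θ)) ^ (n + 1) := by
          apply pow_le_pow_left₀ (by positivity)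
          exact mul_le_mul_of_nonneg_left hY5 (by positivity)
      _ = (5 * ((m : ℝ) + 1)) ^ (n + 1) * ((p : ℝ) ^ θ) ^ (n + 1) := by
        rw [← mul_pow]; congr 1; ring
      _ = (5 * ((m : ℝ) + 1)) ^ (n + 1) * (p : ℝ) ^ η := by
        congr 1
        rw [← Real.rpow_natCast ((p : ℝ) ^ θ), ← Real.rpow_mul hp0.le]
        congr 1
        push_cast
        exact hθn
      _ ≤ _ := by
        apply mul_le_mul_of_nonneg_left _ (by positivity)
        apply Real.rpow_le_rpow_of_exponent_le hp1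
        rw [hη]; linarith
  have hfin : (s : ℝ) ≤ ((N : ℝ) + n * (5 * ((m : ℝ) + 1)) ^ (n + 1) +
      (N + 1) * K * Real.log p) * (p : ℝ) ^ (ε / 2) := by
    have h1 : (s : ℝ) ≤ ((N + (n * ((m + 1) * (2 * Y + 1)) ^ (n + 1) + (N + 1) * B.card) : ℕ) : ℝ) := by
      exact_mod_cast hcount
    rw [Nat.cast_add, Nat.cast_add] at h1
    have h2 : (((N + 1) * B.card : ℕ) : ℝ) ≤ (N + 1) * K * Real.log p * (p : ℝ) ^ (ε / 2) := by
      push_cast
      rw [hε2] at hBcard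
      calc ((N : ℝ) + 1) * B.card ≤ ((N : ℝ) + 1) * (K * Real.log p * (p : ℝ) ^ (ε / 2)) :=
            mul_le_mul_of_nonneg_left hBcard (by positivity)
        _ = _ := by ring
    have h3 : (N : ℝ) ≤ N * (p : ℝ) ^ (ε / 2) := by
      have := Real.one_le_rpow hp1 (show 0 ≤ ε / 2 by positivity)
      have h4 : (0 : ℝ) ≤ N := by positivity
      nlinarith
    calc (s : ℝ) ≤ _ := h1
      _ ≤ N * (p : ℝ) ^ (ε / 2) + (n * (5 * ((m : ℝ) + 1)) ^ (n + 1) * (p : ℝ) ^ (ε / 2) +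
          (N + 1) * K * Real.log p * (p : ℝ) ^ (ε / 2)) := by linarith
      _ = _ := by ring
  have e2 : (0 : ℝ) < (p : ℝ) ^ (ε / 2) := by positivity
  have h1 := mul_lt_mul_of_pos_right g4 e2
  have h2 : (p : ℝ) ^ (ε / 2) * (p : ℝ) ^ (ε / 2) = (p : ℝ) ^ ε := by
    rw [← Real.rpow_add hp0]; congr 1; ring
  rw [h2] at h1
  linarith

end Pool.Agent.FacLarge
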