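import Pool.Agent.FacLarge.Step

/-!
Recursion for the averaged sums.
-/

set_option autoImplicit false

namespace Pool.Agent.FacLarge

open Finset

noncomputable def term (p K m L : ℕ) (r n w : ℤ) : ℝ :=
  if (p : ℤ) ^ L ∣ n - r ∧ ¬ (p : ℤ) ∣ w then FK p K n (w • eps p (m + 1)) else 0

noncomputable def U (p K m L : ℕ) (r : ℤ) : ℝ :=
  ∑ n ∈ range (p ^ m), ∑ w ∈ range (p ^ (m + 1)), term p K m L r n w

theorem term_nonneg (p K m L : ℕ) (r n w : ℤ) : 0 ≤ term p K m L r n w := by
  unfold term; split_ifs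
  · exact FK_nonneg _ _ _ _
  · exact le_rfl

theorem dvd_congr_left {a b c : ℤ} (h : a ∣ b - c) : a ∣ b ↔ a ∣ c := by
  constructor
  · intro h1
    have := dvd_sub h1 h
    rwa [sub_sub_cancel] at this
  · intro h1
    have := dvd_add h h1
    rwa [sub_add_cancel] at this

theorem term_congr_w {p : ℕ} (hp : 0 < p) {K m L : ℕ} {r n w w' : ℤ}
    (h : (p : ℤ) ^ (m + 1) ∣ w - w') : term p K m L r n w = term p K m L r n w' := by
  unfold term
  have h1 : (p : ℤ) ∣ w - w' := (dvd_pow_self _ (by omega)).trans h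
  rw [zsmul_eps_congr hp h]
  simp only [dvd_congr_left h1]

theorem term_congr_n {p : ℕ} (hp : 0 < p) {K m L : ℕ} (hL : L ≤ m) {r n n' w : ℤ}
    (h : (p : ℤ) ^ m ∣ n - n') : term p K m L r n w = term p K m L r n' w := by
  unfold term
  have h1 : (p : ℤ) ^ L ∣ (n - r) - (n' - r) := by
    rw [sub_sub_sub_cancel_right]
    exact (pow_dvd_pow _ hL).trans h
  have h2 : (p : ℤ) ^ (m + 1) ∣ p * n - p * n' := by
    rw [← mul_sub, pow_succ, mul_comm]
    exact mul_dvd_mul_left _ h
  rw [FK_congr hp K h2]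
  simp only [dvd_congr_left h1]

def invp (p : ℕ) (w : ℤ) : ℤ := (((w : ZMod p)⁻¹).val : ℤ)

theorem dvd_invp {p : ℕ} (hp : p.Prime) {w : ℤ} (hw : ¬ (p : ℤ) ∣ w) :
    (p : ℤ) ∣ invp p w * w - 1 := by
  have : Fact p.Prime := ⟨hp⟩
  rw [← ZMod.intCast_zmod_eq_zero_iff_dvd]
  unfold invp
  push_cast
  rw [ZMod.natCast_zmod_val, inv_mul_cancel₀, sub_self]
  intro h
  exact hw ((ZMod.intCast_zmod_eq_zero_iff_dvd w p).1 h)

theorem sum_translate {p : ℕ} (hp : 0 < p) {m : ℕ} (hm : 1 ≤ m) (δ : ℤ) (F : ℤ → ℤ → ℝ)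
    (hF1 : ∀ n n' w, (p : ℤ) ^ (m + 1) ∣ n - n' → F n w = F n' w)
    (hF2 : ∀ n w w', (p : ℤ) ^ (m + 2) ∣ w - w' → F n w = F n w') :
    ∑ n ∈ range (p ^ (m + 1)), ∑ w ∈ range (p ^ (m + 2)),
      F (n + p ^ m * (-(((n : ℤ) + 1) * δ * invp p w))) (w + p ^ m * δ) =
    ∑ n ∈ range (p ^ (m + 1)), ∑ w ∈ range (p ^ (m + 2)), F n w := by
  rw [sum_comm]
  have h1 : ∀ w ∈ range (p ^ (m + 2)), ∑ n ∈ range (p ^ (m + 1)),
      F (n + p ^ m * (-(((n : ℤ) + 1) * δ * invp p w))) (w + p ^ m * δ) =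
      ∑ n ∈ range (p ^ (m + 1)), F n (w + p ^ m * δ) := by
    intro w _
    refine sum_perm (q := p ^ (m + 1)) (by positivity) (H := fun n => F n (w + p ^ m * δ)) ?_
      (σ := fun n => n + p ^ m * (-((n + 1) * δ * invp p w))) ?_
    · intro x y hxy
      apply hF1
      exact_mod_cast hxy
    · intro x y hxy
      push_cast at hxy ⊢
      have e1 : x + p ^ m * (-((x + 1) * δ * invp p w)) -
          (y + p ^ m * (-((y + 1) * δ * invp p w))) =
          (x - y) * (1 - p ^ m * (δ * invp p w)) := by ring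
      rw [e1] at hxy
      have h2 : IsCoprime ((p : ℤ) ^ (m + 1)) (1 - p ^ m * (δ * invp p w)) := by
        apply IsCoprime.pow_left
        refine ⟨(p : ℤ) ^ (m - 1) * (δ * invp p w), 1, ?_⟩
        have e2 : (p : ℤ) ^ m = p ^ (m - 1) * p := by
          rw [← pow_succ]; congr 1; omega
        rw [e2]; ring
      exact h2.dvd_of_dvd_mul_right hxy
  rw [sum_congr rfl h1, sum_comm]
  apply sum_congr rfl
  intro n _
  refine sum_perm (q := p ^ (m + 2)) (by positivity) (H := fun w => F n w) ?_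
    (σ := fun w => w + p ^ m * δ) ?_
  · intro x y hxy
    apply hF2
    exact_mod_cast hxy
  · intro x y hxy
    simpa using hxy

theorem not_dvd_tau {p : ℕ} (hp : p.Prime) {i : ℕ} (hi : i < p) : ¬ (p : ℤ) ∣ tau p i := by
  induction i with
  | zero =>
    rw [tau_zero]
    intro h
    have : p ∣ 1 := by exact_mod_cast h
    exact hp.one_lt.ne' (Nat.dvd_one.1 this)
  | succ i ih =>
    rw [tau_succ]
    intro h
    rcases (Nat.prime_iff_prime_int.1 hp).dvd_or_dvd h with h1 | h1
    · exact ih (by omega) h1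
    · have h2 := dvd_add h1 (dvd_refl (p : ℤ))
      rw [sub_add_cancel] at h2
      have h3 : p ∣ i + 1 := by exact_mod_cast h2
      have := Nat.le_of_dvd (by omega) h3
      omega

theorem not_dvd_rp {p : ℕ} (hp : p.Prime) (n : ℤ) {i : ℕ} (hi : i < p) :
    ¬ (p : ℤ) ∣ rp (p * n) i := by
  intro h
  exact not_dvd_tau hp hi ((dvd_congr_left (rp_sub_tau n i)).1 h)

theorem rp_self {p : ℕ} (hp : 0 < p) (n : ℤ) :
    rp (p * n) p = rp (p * n) (p - 1) * (p * (n + 1)) := by
  obtain ⟨q, rfl⟩ : ∃ q, p = q + 1 := ⟨p - 1, by omega⟩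
  rw [rp_succ, Nat.add_sub_cancel]
  push_cast
  ring

/-- the sum over `(n, w)` of a function of the next state -/
theorem down {p : ℕ} (hp : p.Prime) {K m L e : ℕ} {r : ℤ} (he : (p : ℤ) ^ e ∣ r + 1)
    (he' : ¬ (p : ℤ) ^ (e + 1) ∣ r + 1) (heL : e < L) (hL : L ≤ m) :
    ∑ n ∈ range (p ^ (m + e + 1)), ∑ w ∈ range (p ^ (m + e + 2)),
      (if (p : ℤ) ^ L ∣ (n : ℤ) - r ∧ ¬ (p : ℤ) ∣ (w : ℤ) then
        FK p K ((n : ℤ) + 1) (rp (p * n) p • ((w : ℤ) • eps p (m + e + 2))) else 0) =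
      (p : ℝ) ^ (2 * (e + 1)) * U p K m L (r + 1) := by
  have hp0 := hp.pos
  obtain ⟨R, hR⟩ : ∃ R : ℤ → ℝ, R = fun n =>
      ∑ w ∈ range (p ^ (m + 1)), term p K m L (r + 1) n w := ⟨_, rfl⟩
  have hRper : ∀ x y : ℤ, (p : ℤ) ^ m ∣ x - y → R x = R y := by
    intro x y h
    rw [hR]
    apply sum_congr rfl
    intro w _
    exact term_congr_n hp0 hL h
  have hinner : ∀ n ∈ range (p ^ (m + e + 1)), ∑ w ∈ range (p ^ (m + e + 2)),
      (if (p : ℤ) ^ L ∣ (n : ℤ) - r ∧ ¬ (p : ℤ) ∣ (w : ℤ) then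
        FK p K ((n : ℤ) + 1) (rp (p * n) p • ((w : ℤ) • eps p (m + e + 2))) else 0) =
      (p : ℝ) ^ (e + 1) * R ((n : ℤ) + 1) := by
    intro n _
    by_cases hn : (p : ℤ) ^ L ∣ (n : ℤ) - r
    · have hn1 : (p : ℤ) ^ (e + 1) ∣ ((n : ℤ) + 1) - (r + 1) := by
        rw [add_sub_add_right_eq_sub]
        exact (pow_dvd_pow _ (by omega)).trans hn
      have hn2 : (p : ℤ) ^ e ∣ ((n : ℤ) + 1) - (r + 1) := (pow_dvd_pow _ (by omega)).trans hn1
      obtain ⟨u, hu⟩ := (dvd_congr_left hn2).2 he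
      have hu' : ¬ (p : ℤ) ∣ u := by
        rintro ⟨u', hu'⟩
        apply he'
        rw [← dvd_congr_left hn1, hu, hu']
        exact ⟨u', by ring⟩
      obtain ⟨g, hg⟩ : ∃ g : ℤ, g = rp (p * n) (p - 1) * u := ⟨_, rfl⟩
      have hgd : ¬ (p : ℤ) ∣ g := by
        rw [hg]
        intro h
        rcases (Nat.prime_iff_prime_int.1 hp).dvd_or_dvd h with h1 | h1
        · exact not_dvd_rp hp n (by omega) h1
        · exact hu' h1
      have hrp : rp (p * n) p = g * (p : ℤ) ^ (e + 1) := by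
        rw [rp_self hp0, hu, hg]; ring
      obtain ⟨H, hH⟩ : ∃ H : ℤ → ℝ, H = fun z => term p K m L (r + 1) ((n : ℤ) + 1) z :=
        ⟨_, rfl⟩
      have hHper : ∀ x y : ℤ, ((p ^ (m + 1) : ℕ) : ℤ) ∣ x - y → H x = H y := by
        intro x y h
        rw [hH]
        exact term_congr_w hp0 (by exact_mod_cast h)
      have h1 : ∀ w ∈ range (p ^ (m + e + 2)),
          (if (p : ℤ) ^ L ∣ (n : ℤ) - r ∧ ¬ (p : ℤ) ∣ (w : ℤ) then
          FK p K ((n : ℤ) + 1) (rp (p * n) p • ((w : ℤ) • eps p (m + e + 2))) else 0) =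
          (fun w : ℤ => H (g * w)) w := by
        intro w _
        have e1 : rp (p * n) p • ((w : ℤ) • eps p (m + e + 2)) = (g * w) • eps p (m + 1) := by
          rw [hrp, ← mul_zsmul]
          have e2 : g * (p : ℤ) ^ (e + 1) * w = g * w * (p : ℤ) ^ (e + 1) := by ring
          rw [e2, mul_zsmul]
          congr 1
          have := pow_zsmul_eps hp0 (m + 1) (e + 1)
          rw [show m + 1 + (e + 1) = m + e + 2 by ring] at this
          exact this
        rw [e1]
        simp only [hH, term]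
        have e3 : (p : ℤ) ^ L ∣ (n : ℤ) + 1 - (r + 1) := by
          rw [add_sub_add_right_eq_sub]; exact hn
        have e4 : (p : ℤ) ∣ g * w ↔ (p : ℤ) ∣ w := by
          constructor
          · intro h
            exact ((Nat.prime_iff_prime_int.1 hp).dvd_or_dvd h).resolve_left hgd
          · intro h; exact h.mul_left _
        simp only [hn, e3, e4, true_and]
      rw [sum_congr rfl h1]
      have e5 : p ^ (m + e + 2) = p ^ (m + 1) * p ^ (e + 1) := by
        rw [← pow_add]; congr 1; ring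
      rw [e5]
      have h2 := sum_period (A := p ^ (m + 1)) (H := fun w : ℤ => H (g * w)) ?_ (p ^ (e + 1))
      · rw [h2]
        have h3 := sum_perm (q := p ^ (m + 1)) (by positivity) hHper (σ := fun w => g * w) ?_
        · rw [h3, hR, hH]
          push_cast
          rfl
        · intro x y hxy
          rw [← mul_sub] at hxy
          have hcop : IsCoprime (((p ^ (m + 1) : ℕ) : ℤ)) g := by
            push_cast
            apply IsCoprime.pow_left
            exact (Nat.prime_iff_prime_int.1 hp).coprime_iff_not_dvd.2 hgd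
          exact hcop.dvd_of_dvd_mul_left hxy
      · intro x y hxy
        apply hHper
        rw [← mul_sub]
        exact hxy.mul_left _
    · have hR0 : R ((n : ℤ) + 1) = 0 := by
        rw [hR]
        apply sum_eq_zero
        intro w _
        unfold term
        rw [if_neg]
        rw [add_sub_add_right_eq_sub]
        exact fun h => hn h.1
      rw [hR0, mul_zero]
      apply sum_eq_zero
      intro w _
      rw [if_neg]
      exact fun h => hn h.1
  rw [sum_congr rfl hinner, ← mul_sum]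
  have e5 : p ^ (m + e + 1) = p ^ m * p ^ (e + 1) := by
    rw [← pow_add]; congr 1
  rw [e5]
  have h2 := sum_period (A := p ^ m) (H := fun n : ℤ => R (n + 1)) ?_ (p ^ (e + 1))
  · rw [h2]
    have h3 := sum_perm (q := p ^ m) (by positivity) (H := R) ?_ (σ := fun n => n + 1) ?_
    · rw [h3]
      unfold U
      rw [hR]
      push_cast
      ring
    · intro x y h
      exact hRper x y (by exact_mod_cast h)
    · intro x y h
      simpa using h
  · intro x y h
    apply hRper
    simpa using h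

theorem U_step_trivial {p : ℕ} (hp : p.Prime) {K m L e : ℕ} {r : ℤ} (he : (p : ℤ) ^ e ∣ r + 1)
    (he' : ¬ (p : ℤ) ^ (e + 1) ∣ r + 1) (heL : e < L) (hL : L ≤ m) :
    U p (K + 1) (m + e + 1) L r ≤ (p : ℝ) ^ (2 * (e + 1)) * U p K m L (r + 1) := by
  rw [← down hp he he' heL hL]
  unfold U
  apply sum_le_sum
  intro n _
  apply sum_le_sum
  intro w _
  unfold term
  split_ifs
  · rw [FK_succ]
    exact mul_le_of_le_one_left (FK_nonneg _ _ _ _) (prod_phi_le_one _ _)
  · exact le_rfl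

theorem U_step {p : ℕ} (hp : p.Prime) (hG : Gd p) {K m L : ℕ} {r : ℤ} (hL1 : 1 ≤ L)
    (hL : L ≤ m) (hr : ¬ (p : ℤ) ∣ r + 1) :
    U p (K + 1) (m + 1) L r ≤ ((p : ℝ) / 2 + 1 / p) * U p K m L (r + 1) := by
  have hp0 := hp.pos
  have hp0' : (0 : ℝ) < p := by exact_mod_cast hp0
  have hdown := down hp (K := K) (m := m) (L := L) (e := 0) (r := r) (by simp) (by simpa using hr)
    (by omega) hL
  rw [show m + 0 + 1 = m + 1 by ring, show m + 0 + 2 = m + 2 by ring] at hdown
  have hkey : ((p ^ 2 : ℕ) : ℝ) * U p (K + 1) (m + 1) L r ≤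
      ((p : ℝ) / 2 + 1 / p) * ((p : ℝ) ^ (2 * (0 + 1)) * U p K m L (r + 1)) := by
    rw [← hdown]
    have h1 : ((p ^ 2 : ℕ) : ℝ) * U p (K + 1) (m + 1) L r =
        ∑ δ ∈ range (p ^ 2), ∑ n ∈ range (p ^ (m + 1)), ∑ w ∈ range (p ^ (m + 2)),
        term p (K + 1) (m + 1) L r (n + p ^ m * (-(((n : ℤ) + 1) * (δ : ℤ) * invp p w)))
          (w + p ^ m * (δ : ℤ)) := by
      have h2 : ∀ δ ∈ range (p ^ 2), ∑ n ∈ range (p ^ (m + 1)), ∑ w ∈ range (p ^ (m + 2)),
        term p (K + 1) (m + 1) L r (n + p ^ m * (-(((n : ℤ) + 1) * (δ : ℤ) * invp p w)))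
          (w + p ^ m * (δ : ℤ)) = U p (K + 1) (m + 1) L r := by
        intro δ _
        rw [sum_translate hp0 (by omega : 1 ≤ m) (δ : ℤ) (term p (K + 1) (m + 1) L r)
          (fun n n' w h => term_congr_n hp0 (by omega) h) (fun n w w' h => term_congr_w hp0 h)]
        rfl
      rw [sum_congr rfl h2, sum_const, card_range, nsmul_eq_mul]
    rw [h1, sum_comm]
    rw [mul_sum]
    apply sum_le_sum
    intro n _
    rw [sum_comm, mul_sum]
    apply sum_le_sum
    intro w _
    by_cases hc : (p : ℤ) ^ L ∣ (n : ℤ) - r ∧ ¬ (p : ℤ) ∣ (w : ℤ)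
    · rw [if_pos hc]
      have h3 : ∀ δ ∈ range (p ^ 2),
          term p (K + 1) (m + 1) L r (n + p ^ m * (-(((n : ℤ) + 1) * (δ : ℤ) * invp p w)))
          (w + p ^ m * (δ : ℤ)) =
          (∏ i ∈ range p, phi (rp (p * n) i • ((w : ℤ) • eps p (m + 2)) +
            ((δ : ℤ) * tau p i) • eps p 2)) *
          FK p K ((n : ℤ) + 1) (rp (p * n) p • ((w : ℤ) • eps p (m + 2))) := by
        intro δ _
        obtain ⟨ζ, hζ⟩ : ∃ ζ : ℤ, ζ = -(((n : ℤ) + 1) * (δ : ℤ) * invp p w) := ⟨_, rfl⟩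
        rw [← hζ]
        have hζd : (p : ℤ) ∣ ζ * w + ((n : ℤ) + 1) * δ := by
          obtain ⟨x, hx⟩ := dvd_invp hp hc.2
          refine ⟨-(((n : ℤ) + 1) * δ * x), ?_⟩
          rw [hζ]
          have : invp p (w : ℤ) * (w : ℤ) = p * x + 1 := by linarith
          calc -(((n : ℤ) + 1) * (δ : ℤ) * invp p w) * w + ((n : ℤ) + 1) * δ
              = ((n : ℤ) + 1) * δ * (1 - invp p w * w) := by ring
            _ = _ := by rw [this]; ring
        unfold term
        rw [if_pos]
        · rw [FK_succ]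
          have ht := fun i => translate hp0 (by omega : 1 ≤ m) hζd i
          congr 1
          · apply prod_congr rfl
            intro i _
            rw [ht i]
          · rw [ht p, tau_self hp0, mul_zero, zero_zsmul, add_zero]
            -- change of `n`
            have e1 : rp (p * n) p • ((w : ℤ) • eps p (m + 2)) =
                (rp (p * n) (p - 1) * (n + 1) * w) • eps p (m + 1) := by
              rw [rp_self hp0, ← mul_zsmul, ← eps_succ hp0 (m + 1), ← mul_zsmul]
              congr 1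
              ring
            rw [e1]
            apply FK_congr hp0
            refine ⟨ζ, ?_⟩
            ring
        · constructor
          · have e2 : (n : ℤ) + p ^ m * ζ - r = (n - r) + p ^ m * ζ := by ring
            rw [e2]
            exact dvd_add hc.1 ((pow_dvd_pow _ hL).mul_right _)
          · intro h
            apply hc.2
            have h4 : (p : ℤ) ∣ (w : ℤ) + p ^ m * δ - w := by
              rw [add_sub_cancel_left]
              exact (dvd_pow_self _ (by omega)).mul_right _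
            exact (dvd_congr_left h4).1 h
      rw [sum_congr rfl h3, ← sum_mul]
      apply mul_le_mul_of_nonneg_right _ (FK_nonneg _ _ _ _)
      exact block_two hp hG _
    · rw [if_neg hc, mul_zero]
      apply le_of_eq
      apply sum_eq_zero
      intro δ _
      unfold term
      rw [if_neg]
      rintro ⟨h3, h4⟩
      apply hc
      constructor
      · obtain ⟨ζ, hζ⟩ : ∃ ζ : ℤ, ζ = -(((n : ℤ) + 1) * (δ : ℤ) * invp p w) := ⟨_, rfl⟩
        rw [← hζ] at h3
        have e2 : (n : ℤ) + p ^ m * ζ - r = (n - r) + p ^ m * ζ := by ring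
        rw [e2] at h3
        have h5 : (p : ℤ) ^ L ∣ p ^ m * ζ := (pow_dvd_pow _ hL).mul_right _
        have := dvd_sub h3 h5
        rwa [add_sub_cancel_right] at this
      · intro h
        apply h4
        exact dvd_add h ((dvd_pow_self _ (by omega)).mul_right _)
  have h5 : (0 : ℝ) < (p : ℝ) ^ 2 := by positivity
  push_cast at hkey
  have h6 : (p : ℝ) ^ 2 * U p (K + 1) (m + 1) L r ≤
      (p : ℝ) ^ 2 * (((p : ℝ) / 2 + 1 / p) * U p K m L (r + 1)) := by
    calc _ ≤ _ := hkey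
      _ = _ := by ring
  exact le_of_mul_le_mul_left h6 h5

end Pool.Agent.FacLarge
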