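import Pool.Agent.FacLarge.Two

/-!
Recursion over blocks.
-/

set_option autoImplicit false

namespace Pool.Agent.FacLarge

open Finset

/-! ### periodic sums -/

theorem sum_perm {q : ℕ} (hq : 0 < q) {H : ℤ → ℝ}
    (hH : ∀ x y : ℤ, (q : ℤ) ∣ x - y → H x = H y) {σ : ℤ → ℤ}
    (hσ : ∀ x y : ℤ, (q : ℤ) ∣ σ x - σ y → (q : ℤ) ∣ x - y) :
    ∑ w ∈ range q, H (σ w) = ∑ w ∈ range q, H w := by
  have hq' : (0 : ℤ) < q := by exact_mod_cast hq
  obtain ⟨g, hg⟩ : ∃ g : ℕ → ℕ, g = fun w : ℕ => (σ w % (q : ℤ)).toNat := ⟨_, rfl⟩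
  have hgc : ∀ w : ℕ, ((g w : ℕ) : ℤ) = σ w % (q : ℤ) := by
    intro w
    rw [hg]
    exact Int.toNat_of_nonneg (Int.emod_nonneg _ hq'.ne')
  have hmaps : ∀ w ∈ range q, g w ∈ range q := by
    intro w _
    rw [mem_range]
    have h1 := hgc w
    have h2 := Int.emod_lt_of_pos (σ w) hq'
    omega
  have hinj : Set.InjOn g (range q : Set ℕ) := by
    intro a ha b hb hab
    rw [mem_coe, mem_range] at ha hb
    have h1 : (q : ℤ) ∣ σ a - σ b := by
      have e1 := hgc a
      have e2 := hgc b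
      rw [hab] at e1
      exact Int.ModEq.dvd (show σ b % (q : ℤ) = σ a % (q : ℤ) by rw [← e1, ← e2])
    have h2 := hσ _ _ h1
    have h3 : (a : ℤ) - b = 0 := by
      apply Int.eq_zero_of_abs_lt_dvd h2
      rw [abs_lt]
      constructor <;> omega
    omega
  have hsurj : Set.SurjOn g (range q : Set ℕ) (range q : Set ℕ) :=
    surjOn_of_injOn_of_card_le g hmaps hinj le_rfl
  refine sum_nbij g hmaps hinj hsurj ?_
  intro w _
  apply hH
  rw [hgc]
  exact ⟨σ w / q, by have := Int.emod_add_mul_ediv (σ w) q; linarith⟩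

theorem sum_period {A : ℕ} {H : ℤ → ℝ}
    (hH : ∀ x y : ℤ, (A : ℤ) ∣ x - y → H x = H y) (B : ℕ) :
    ∑ w ∈ range (A * B), H w = B * ∑ w ∈ range A, H w := by
  induction B with
  | zero => simp
  | succ B ih =>
    rw [Nat.mul_succ, sum_range_add, ih]
    have h1 : ∑ i ∈ range A, H ((A * B + i : ℕ) : ℤ) = ∑ i ∈ range A, H i := by
      apply sum_congr rfl
      intro i _
      apply hH
      refine ⟨B, ?_⟩
      push_cast
      ring
    rw [h1]
    push_cast
    ring

/-! ### rising products -/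

/-- `(y + 1) ... (y + i)` -/
def rp (y : ℤ) (i : ℕ) : ℤ := ∏ l ∈ range i, (y + l + 1)

theorem rp_zero (y : ℤ) : rp y 0 = 1 := by simp [rp]

theorem rp_succ (y : ℤ) (i : ℕ) : rp y (i + 1) = rp y i * (y + i + 1) := by
  simp [rp, prod_range_succ]

theorem rp_add (y : ℤ) (i j : ℕ) : rp y (i + j) = rp y i * rp (y + i) j := by
  induction j with
  | zero => simp [rp_zero]
  | succ j ih =>
    rw [← add_assoc, rp_succ, rp_succ, ih]
    push_cast
    ring

theorem rp_congr {q y y' : ℤ} (h : q ∣ y - y') (i : ℕ) : q ∣ rp y i - rp y' i := by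
  induction i with
  | zero => simp [rp_zero]
  | succ i ih =>
    rw [rp_succ, rp_succ]
    have h1 : rp y i * (y + i + 1) - rp y' i * (y' + i + 1) =
        (rp y i - rp y' i) * (y + i + 1) + rp y' i * (y - y') := by ring
    rw [h1]
    exact dvd_add (ih.mul_right _) (h.mul_left _)

theorem rp_sub_tau {p : ℕ} (n : ℤ) (i : ℕ) : (p : ℤ) ∣ rp (p * n) i - tau p i := by
  induction i with
  | zero => simp [rp_zero, tau_zero]
  | succ i ih =>
    rw [rp_succ, tau_succ]
    have h1 : rp (p * n) i * (p * n + i + 1) - tau p i * (i + 1 - p) =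
        (rp (p * n) i - tau p i) * (i + 1) + p * (n * rp (p * n) i + tau p i) := by ring
    rw [h1]
    exact dvd_add (ih.mul_right _) (dvd_mul_right _ _)

/-! ### the product over `K` blocks -/

noncomputable def FK (p K : ℕ) (n : ℤ) (θ : UnitAddCircle) : ℝ :=
  ∏ i ∈ range (p * K), phi (rp (p * n) i • θ)

theorem FK_nonneg (p K : ℕ) (n : ℤ) (θ : UnitAddCircle) : 0 ≤ FK p K n θ :=
  prod_phi_nonneg _ _

theorem FK_le_one (p K : ℕ) (n : ℤ) (θ : UnitAddCircle) : FK p K n θ ≤ 1 :=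
  prod_phi_le_one _ _

theorem FK_succ (p K : ℕ) (n : ℤ) (θ : UnitAddCircle) :
    FK p (K + 1) n θ = (∏ i ∈ range p, phi (rp (p * n) i • θ)) *
      FK p K (n + 1) (rp (p * n) p • θ) := by
  unfold FK
  rw [Nat.mul_succ, add_comm, prod_range_add]
  congr 1
  apply prod_congr rfl
  intro i _
  rw [rp_add, mul_comm, mul_zsmul]
  congr 3
  ring

theorem FK_congr {p : ℕ} (hp : 0 < p) (K : ℕ) {n n' : ℤ} {m : ℕ}
    (h : (p : ℤ) ^ m ∣ p * n - p * n') (w : ℤ) :
    FK p K n (w • eps p m) = FK p K n' (w • eps p m) := by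
  unfold FK
  apply prod_congr rfl
  intro i _
  congr 1
  rw [← mul_zsmul, ← mul_zsmul, mul_comm, mul_comm _ w]
  apply zsmul_eps_congr hp
  rw [← mul_sub]
  exact (rp_congr h i).mul_left _

/-! ### translation -/

theorem translate {p : ℕ} (hp : 0 < p) {m : ℕ} (hm : 1 ≤ m) {n w δ ζ : ℤ}
    (hζ : (p : ℤ) ∣ ζ * w + (n + 1) * δ) (i : ℕ) :
    rp (p * (n + p ^ m * ζ)) i • ((w + p ^ m * δ) • eps p (m + 2)) =
      rp (p * n) i • (w • eps p (m + 2)) + (δ * tau p i) • eps p 2 := by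
  induction i with
  | zero =>
    rw [rp_zero, rp_zero, one_zsmul, one_zsmul, tau_zero, mul_one, add_zsmul]
    congr 1
    rw [mul_comm, mul_zsmul, add_comm m 2, pow_zsmul_eps hp]
  | succ i ih =>
    rw [rp_succ, rp_succ, mul_comm, mul_zsmul, ih, tau_succ]
    have e1 : (p : ℤ) * (n + p ^ m * ζ) + i + 1 = (p * n + i + 1) + ζ * p ^ (m + 1) := by ring
    rw [e1, add_zsmul, mul_zsmul _ ζ]
    have e2 : ((p : ℤ) ^ (m + 1)) • (rp (p * n) i • (w • eps p (m + 2)) +
        (δ * tau p i) • eps p 2) = (rp (p * n) i * w) • eps p 1 := by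
      rw [zsmul_add]
      have e3 : ((p : ℤ) ^ (m + 1)) • ((δ * tau p i) • eps p 2) = 0 := by
        rw [← mul_zsmul]
        apply zsmul_eps_eq_zero hp
        apply Dvd.dvd.mul_right
        exact pow_dvd_pow _ (by omega)
      rw [e3, add_zero, ← mul_zsmul, ← mul_zsmul]
      have e4 : (p : ℤ) ^ (m + 1) * rp (p * n) i * w = rp (p * n) i * w * (p : ℤ) ^ (m + 1) := by
        ring
      rw [e4, mul_zsmul]
      congr 1
      have := pow_zsmul_eps hp 1 (m + 1)
      rw [show 1 + (m + 1) = m + 2 by ring] at this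
      exact this
    have f1 : (p * n + i + 1) • (rp (p * n) i • (w • eps p (m + 2))) =
        (rp (p * n) i * (p * n + i + 1)) • (w • eps p (m + 2)) := by
      rw [← mul_zsmul, mul_comm]
    rw [e2, zsmul_add, f1, add_assoc]
    congr 1
    have e6 : eps p 1 = (p : ℤ) • eps p 2 := (eps_succ hp 1).symm
    rw [e6, ← mul_zsmul, ← mul_zsmul, ← mul_zsmul, ← add_zsmul]
    apply zsmul_eps_congr hp
    obtain ⟨x, hx⟩ := hζ
    obtain ⟨y, hy⟩ := rp_sub_tau (p := p) n i
    refine ⟨tau p i * x + ζ * w * y, ?_⟩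
    have h1 : (p * n + i + 1) * (δ * tau p i) + ζ * (rp (p * n) i * w) * p -
        δ * (tau p i * (i + 1 - p)) =
        p * (tau p i * (ζ * w + (n + 1) * δ) + ζ * w * (rp (p * n) i - tau p i)) := by ring
    rw [h1, hx, hy]
    ring

end Pool.Agent.FacLarge
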