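import Pool.Agent.FacLarge.Tot

/-!
Sums over subsets and their Fourier expansion.
-/

set_option autoImplicit false

namespace Pool.Agent.FacLarge

open Finset

/-- the sum of `f (σ + ∑ i ∈ I, y i)` over all subsets `I` of `range N` -/
def SS {β : Type} [AddCommMonoid β] : ℕ → (ℕ → ℤ) → ℤ → (ℤ → β) → β
  | 0, _, σ, f => f σ
  | N + 1, y, σ, f => SS N (fun i => y (i + 1)) σ f + SS N (fun i => y (i + 1)) (σ + y 0) f

section

variable {β : Type} [AddCommMonoid β]

theorem SS_zero (y : ℕ → ℤ) (σ : ℤ) (f : ℤ → β) : SS 0 y σ f = f σ := rfl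

theorem SS_succ (N : ℕ) (y : ℕ → ℤ) (σ : ℤ) (f : ℤ → β) :
    SS (N + 1) y σ f = SS N (fun i => y (i + 1)) σ f + SS N (fun i => y (i + 1)) (σ + y 0) f := rfl

theorem SS_append (N1 N2 : ℕ) : ∀ (y : ℕ → ℤ) (σ : ℤ) (f : ℤ → β),
    SS (N1 + N2) y σ f = SS N1 y σ (fun z => SS N2 (fun i => y (N1 + i)) z f) := by
  induction N1 with
  | zero =>
    intro y σ f
    simp only [zero_add, SS_zero]
  | succ N1 ih =>
    intro y σ f
    rw [show N1 + 1 + N2 = N1 + N2 + 1 by ring, SS_succ, SS_succ, ih, ih]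
    have e : ∀ i, N1 + i + 1 = N1 + 1 + i := fun i => by ring
    simp only [e]

theorem SS_shift {R : ℤ} (N : ℕ) : ∀ (y : ℕ → ℤ) (z σ : ℤ) (f h : ℤ → β),
    (∀ u, f (z + R * u) = h (σ + u)) → SS N (fun i => R * y i) z f = SS N y σ h := by
  induction N with
  | zero =>
    intro y z σ f h hh
    have := hh 0
    rw [mul_zero, add_zero, add_zero] at this
    exact this
  | succ N ih =>
    intro y z σ f h hh
    rw [SS_succ, SS_succ, ih (fun i => y (i + 1)) z σ f h hh,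
      ih (fun i => y (i + 1)) (z + R * y 0) (σ + y 0) f h]
    intro u
    have := hh (y 0 + u)
    rw [mul_add, ← add_assoc, ← add_assoc] at this
    exact this

theorem SS_congr_y (N : ℕ) : ∀ (y y' : ℕ → ℤ) (σ : ℤ) (f : ℤ → β), (∀ i, y i = y' i) →
    SS N y σ f = SS N y' σ f := by
  intro y y' σ f h
  have : y = y' := funext h
  rw [this]

end

theorem SS_mono (N : ℕ) : ∀ (y : ℕ → ℤ) (σ : ℤ) (f g : ℤ → ℝ), (∀ z, f z ≤ g z) →
    SS N y σ f ≤ SS N y σ g := by
  induction N with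
  | zero => intro y σ f g h; exact h σ
  | succ N ih =>
    intro y σ f g h
    rw [SS_succ, SS_succ]
    exact add_le_add (ih _ _ _ _ h) (ih _ _ _ _ h)

theorem SS_const (N : ℕ) : ∀ (y : ℕ → ℤ) (σ : ℤ) (c : ℝ), SS N y σ (fun _ => c) = 2 ^ N * c := by
  induction N with
  | zero => intro y σ c; simp [SS_zero]
  | succ N ih =>
    intro y σ c
    rw [SS_succ, ih, ih]
    ring

theorem SS_nonneg (N : ℕ) (y : ℕ → ℤ) (σ : ℤ) (f : ℤ → ℝ) (h : ∀ z, 0 ≤ f z) :
    0 ≤ SS N y σ f := by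
  have h1 := SS_mono N y σ (fun _ => 0) f h
  rw [SS_const, mul_zero] at h1
  exact h1

theorem SS_lin (N : ℕ) : ∀ (y : ℕ → ℤ) (σ : ℤ) (f g : ℤ → ℝ) (a b : ℝ),
    SS N y σ (fun z => a * f z + b * g z) = a * SS N y σ f + b * SS N y σ g := by
  induction N with
  | zero => intro y σ f g a b; rfl
  | succ N ih =>
    intro y σ f g a b
    rw [SS_succ, SS_succ, SS_succ, ih, ih]
    ring

theorem SS_mul_left (N : ℕ) (y : ℕ → ℤ) (σ : ℤ) (f : ℤ → ℝ) (a : ℝ) :
    SS N y σ (fun z => a * f z) = a * SS N y σ f := by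
  have h := SS_lin N y σ f f a 0
  simp only [zero_mul, add_zero] at h
  exact h

theorem SS_exists {P : ℤ → Prop} [DecidablePred P] (N : ℕ) : ∀ (y : ℕ → ℤ) (σ : ℤ),
    SS N y σ (fun z => if P z then (1 : ℝ) else 0) ≠ 0 →
    ∃ I : Finset ℕ, P (σ + ∑ i ∈ I, y i) := by
  induction N with
  | zero =>
    intro y σ h
    refine ⟨∅, ?_⟩
    rw [sum_empty, add_zero]
    by_contra hcon
    apply h
    rw [SS_zero, if_neg hcon]
  | succ N ih =>
    intro y σ h
    rw [SS_succ] at h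
    by_cases h1 : SS N (fun i => y (i + 1)) σ (fun z => if P z then (1 : ℝ) else 0) = 0
    · have h2 : SS N (fun i => y (i + 1)) (σ + y 0) (fun z => if P z then (1 : ℝ) else 0) ≠ 0 := by
        intro h3
        apply h
        rw [h1, h3, add_zero]
      obtain ⟨I, hI⟩ := ih _ _ h2
      refine ⟨insert 0 (I.image (fun i => i + 1)), ?_⟩
      rw [sum_insert, sum_image (by intro x _ y _ h; simpa using h), ← add_assoc]
      · exact hI
      · rw [mem_image]
        rintro ⟨i, _, hi⟩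
        omega
    · obtain ⟨I, hI⟩ := ih _ _ h1
      refine ⟨I.image (fun i => i + 1), ?_⟩
      rw [sum_image (by intro x _ y _ h; simpa using h)]
      exact hI

/-- indicator of divisibility by `p ^ M` -/
noncomputable def ind (p M : ℕ) (z : ℤ) : ℝ := by
  classical
  exact if (p : ℤ) ^ M ∣ z then 1 else 0

theorem ind_nonneg (p M : ℕ) (z : ℤ) : 0 ≤ ind p M z := by
  unfold ind; split_ifs <;> norm_num

theorem ind_of_dvd {p M : ℕ} {z : ℤ} (h : (p : ℤ) ^ M ∣ z) : ind p M z = 1 := by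
  unfold ind; rw [if_pos h]

theorem ind_of_not {p M : ℕ} {z : ℤ} (h : ¬ (p : ℤ) ^ M ∣ z) : ind p M z = 0 := by
  unfold ind; rw [if_neg h]

theorem SS_stable {p M : ℕ} (N : ℕ) : ∀ (y : ℕ → ℤ) (σ : ℤ), (∀ i, (p : ℤ) ^ M ∣ y i) →
    SS N y σ (ind p M) = 2 ^ N * ind p M σ := by
  induction N with
  | zero => intro y σ _; simp [SS_zero]
  | succ N ih =>
    intro y σ h
    rw [SS_succ, ih _ _ (fun i => h (i + 1)), ih _ _ (fun i => h (i + 1))]
    have h1 : ind p M (σ + y 0) = ind p M σ := by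
      by_cases h2 : (p : ℤ) ^ M ∣ σ
      · rw [ind_of_dvd h2, ind_of_dvd (dvd_add h2 (h 0))]
      · rw [ind_of_not h2, ind_of_not]
        intro h3
        apply h2
        have := dvd_sub h3 (h 0)
        rwa [add_sub_cancel_right] at this
    rw [h1]
    ring

/-! ### exponentials -/

noncomputable def ex (x : ℝ) : ℂ := Complex.exp (2 * Real.pi * Complex.I * x)

theorem ex_add (x y : ℝ) : ex (x + y) = ex x * ex y := by
  unfold ex
  rw [← Complex.exp_add]
  congr 1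
  push_cast
  ring

theorem ex_int (n : ℤ) : ex n = 1 := by
  unfold ex
  rw [Complex.exp_eq_one_iff]
  exact ⟨n, by push_cast; ring⟩

theorem norm_ex (x : ℝ) : ‖ex x‖ = 1 := by
  unfold ex
  have h : (2 * Real.pi * Complex.I * x : ℂ) = ((2 * Real.pi * x : ℝ) : ℂ) * Complex.I := by
    push_cast; ring
  rw [h, Complex.norm_exp_ofReal_mul_I]

theorem SS_ex (N : ℕ) (x : ℝ) : ∀ (y : ℕ → ℤ) (σ : ℤ),
    SS N y σ (fun z => ex (z * x)) = ex (σ * x) * ∏ i ∈ range N, (1 + ex (y i * x)) := by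
  induction N with
  | zero => intro y σ; simp [SS_zero]
  | succ N ih =>
    intro y σ
    rw [SS_succ, ih, ih, prod_range_succ', Int.cast_add, add_mul, ex_add]
    ring

theorem SS_sum {ι : Type} (s : Finset ι) (N : ℕ) : ∀ (y : ℕ → ℤ) (σ : ℤ) (f : ι → ℤ → ℂ),
    SS N y σ (fun z => ∑ t ∈ s, f t z) = ∑ t ∈ s, SS N y σ (f t) := by
  induction N with
  | zero => intro y σ f; rfl
  | succ N ih =>
    intro y σ f
    simp only [SS_succ, ih, sum_add_distrib]

theorem SS_ofReal (N : ℕ) : ∀ (y : ℕ → ℤ) (σ : ℤ) (f : ℤ → ℝ),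
    SS N y σ (fun z => ((f z : ℝ) : ℂ)) = ((SS N y σ f : ℝ) : ℂ) := by
  induction N with
  | zero => intro y σ f; rfl
  | succ N ih =>
    intro y σ f
    rw [SS_succ, SS_succ, ih, ih]
    push_cast
    rfl

theorem sum_ex {q : ℕ} (hq : 0 < q) (z : ℤ) :
    ∑ t ∈ range q, ex (z * ((t : ℝ) / q)) = if (q : ℤ) ∣ z then (q : ℂ) else 0 := by
  have hq' : (q : ℝ) ≠ 0 := by positivity
  have hpow : ∀ t : ℕ, ex (z * ((t : ℝ) / q)) = ex (z / q) ^ t := by
    intro t
    induction t with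
    | zero => simp [ex]
    | succ t ih =>
      rw [pow_succ, ← ih, ← ex_add]
      congr 1
      push_cast
      field_simp
  rw [sum_congr rfl (fun t _ => hpow t)]
  split_ifs with h
  · obtain ⟨k, hk⟩ := h
    have h1 : ex (z / q) = 1 := by
      have : ((z : ℝ) / q) = ((k : ℤ) : ℝ) := by
        rw [hk]; push_cast; field_simp
      rw [this, ex_int]
    rw [h1]
    simp
  · have h1 : ex (z / q) ≠ 1 := by
      intro h2
      apply h
      unfold ex at h2
      rw [Complex.exp_eq_one_iff] at h2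
      obtain ⟨n, hn⟩ := h2
      have h3 : ((z : ℝ) / q : ℝ) = (n : ℝ) := by
        have h4 : (2 * Real.pi * Complex.I : ℂ) ≠ 0 := by
          simp [Real.pi_ne_zero]
        have h5 : (2 * Real.pi * Complex.I : ℂ) * (((z : ℝ) / q : ℝ) : ℂ) =
            (2 * Real.pi * Complex.I : ℂ) * n := by
          rw [hn]; ring
        have h6 := mul_left_cancel₀ h4 h5
        exact_mod_cast h6
      refine ⟨n, ?_⟩
      have h7 : (z : ℝ) = q * n := by
        field_simp at h3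
        linarith
      exact_mod_cast h7
    have h2 : (∑ t ∈ range q, ex (z / q) ^ t) * (ex (z / q) - 1) = 0 := by
      rw [geom_sum_mul, ← hpow]
      have h3 : (z : ℝ) * ((q : ℝ) / q) = ((z : ℤ) : ℝ) := by
        rw [div_self hq', mul_one]
      rw [h3, ex_int, sub_self]
    exact (mul_eq_zero.1 h2).resolve_right (sub_ne_zero.2 h1)

/-- splitting a sum over fractions of denominator `p ^ (M + 1)` -/
theorem sum_split {p : ℕ} (hp : 0 < p) (M : ℕ) (F : ℝ → ℂ) :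
    ∑ t ∈ range (p ^ (M + 1)), F ((t : ℝ) / ((p ^ (M + 1) : ℕ) : ℝ)) =
      ∑ t ∈ range (p ^ M), F ((t : ℝ) / ((p ^ M : ℕ) : ℝ)) +
      ∑ t ∈ range (p ^ (M + 1)), (if (p : ℤ) ∣ (t : ℤ) then 0 else
        F ((t : ℝ) / ((p ^ (M + 1) : ℕ) : ℝ))) := by
  have h1 : ∀ t ∈ range (p ^ (M + 1)), F ((t : ℝ) / ((p ^ (M + 1) : ℕ) : ℝ)) =
      (if p ∣ t then F ((t : ℝ) / ((p ^ (M + 1) : ℕ) : ℝ)) else 0) +
      (if (p : ℤ) ∣ (t : ℤ) then 0 else F ((t : ℝ) / ((p ^ (M + 1) : ℕ) : ℝ))) := by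
    intro t _
    by_cases ht : p ∣ t
    · have ht' : (p : ℤ) ∣ (t : ℤ) := by exact_mod_cast ht
      rw [if_pos ht, if_pos ht', add_zero]
    · have ht' : ¬ (p : ℤ) ∣ (t : ℤ) := fun h => ht (by exact_mod_cast h)
      rw [if_neg ht, if_neg ht', zero_add]
  rw [sum_congr rfl h1, sum_add_distrib]
  congr 1
  rw [← sum_filter]
  have h2 : (range (p ^ (M + 1))).filter (fun t => p ∣ t) =
      (range (p ^ M)).image (fun t => p * t) := by
    ext t
    rw [mem_filter, mem_image, mem_range]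
    constructor
    · rintro ⟨h3, t', rfl⟩
      refine ⟨t', mem_range.2 ?_, rfl⟩
      rw [pow_succ, mul_comm] at h3
      exact lt_of_mul_lt_mul_right h3 (Nat.zero_le _)
    · rintro ⟨t', h3, rfl⟩
      rw [mem_range] at h3
      refine ⟨?_, dvd_mul_right _ _⟩
      rw [pow_succ, mul_comm]
      exact mul_lt_mul_of_pos_right h3 hp
  rw [h2, sum_image]
  · apply sum_congr rfl
    intro t _
    congr 1
    have : (p : ℝ) ≠ 0 := by positivity
    push_cast
    rw [pow_succ]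
    field_simp
  · intro x _ y _ hxy
    exact Nat.eq_of_mul_eq_mul_left hp hxy

theorem SS_ind_eq {p : ℕ} (hp : 0 < p) (M N : ℕ) (y : ℕ → ℤ) (σ : ℤ) :
    (((p : ℝ) ^ M * SS N y σ (ind p M) : ℝ) : ℂ) =
      ∑ t ∈ range (p ^ M), ex (σ * ((t : ℝ) / ((p ^ M : ℕ) : ℝ))) *
        ∏ i ∈ range N, (1 + ex (y i * ((t : ℝ) / ((p ^ M : ℕ) : ℝ)))) := by
  rw [← SS_mul_left, ← SS_ofReal]
  have h1 : ∀ z : ℤ, (((p : ℝ) ^ M * ind p M z : ℝ) : ℂ) =
      ∑ t ∈ range (p ^ M), ex (z * ((t : ℝ) / ((p ^ M : ℕ) : ℝ))) := by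
    intro z
    rw [sum_ex (by positivity)]
    by_cases h : (p : ℤ) ^ M ∣ z
    · rw [ind_of_dvd h, if_pos (by exact_mod_cast h)]
      push_cast
      ring
    · rw [ind_of_not h, if_neg (by exact_mod_cast h)]
      simp
  simp only [h1]
  rw [SS_sum]
  apply sum_congr rfl
  intro t _
  exact SS_ex N _ y σ

theorem SS_step {p : ℕ} (hp : 0 < p) (M N : ℕ) (y : ℕ → ℤ) (σ : ℤ) :
    |(p : ℝ) ^ (M + 1) * SS N y σ (ind p (M + 1)) - (p : ℝ) ^ M * SS N y σ (ind p M)| ≤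
      2 ^ N * ∑ t ∈ range (p ^ (M + 1)), (if (p : ℤ) ∣ (t : ℤ) then 0 else
        ∏ i ∈ range N, phi (y i • ((t : ℤ) • eps p (M + 1)))) := by
  have h1 := SS_ind_eq hp (M + 1) N y σ
  rw [sum_split hp M (fun x => ex (σ * x) * ∏ i ∈ range N, (1 + ex (y i * x))),
    ← SS_ind_eq hp M N y σ] at h1
  have h2 : (((p : ℝ) ^ (M + 1) * SS N y σ (ind p (M + 1)) -
      (p : ℝ) ^ M * SS N y σ (ind p M) : ℝ) : ℂ) =
      ∑ t ∈ range (p ^ (M + 1)), (if (p : ℤ) ∣ (t : ℤ) then 0 else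
        ex (σ * ((t : ℝ) / ((p ^ (M + 1) : ℕ) : ℝ))) *
        ∏ i ∈ range N, (1 + ex (y i * ((t : ℝ) / ((p ^ (M + 1) : ℕ) : ℝ))))) := by
    rw [Complex.ofReal_sub, h1, add_sub_cancel_left]
  rw [← Real.norm_eq_abs, ← Complex.norm_real, h2]
  refine (norm_sum_le _ _).trans ?_
  rw [mul_sum]
  apply sum_le_sum
  intro t _
  split_ifs with ht
  · simp
  · rw [norm_mul, norm_ex, one_mul, norm_prod]
    have e0 : (2 : ℝ) ^ N = ∏ i ∈ range N, (2 : ℝ) := by rw [prod_const, card_range]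
    rw [e0, ← prod_mul_distrib]
    apply le_of_eq
    apply prod_congr rfl
    intro i _
    unfold ex
    rw [norm_one_add_exp]
    congr 2
    rw [← mul_zsmul, zsmul_eps]
    congr 1
    push_cast
    ring

theorem SS_steps {p : ℕ} (hp : 0 < p) {M M' : ℕ} (hM : M ≤ M') (N : ℕ) (y : ℕ → ℤ) (σ : ℤ) :
    |(p : ℝ) ^ M' * SS N y σ (ind p M') - (p : ℝ) ^ M * SS N y σ (ind p M)| ≤
      2 ^ N * ∑ μ ∈ Ico M M', ∑ t ∈ range (p ^ (μ + 1)), (if (p : ℤ) ∣ (t : ℤ) then 0 else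
        ∏ i ∈ range N, phi (y i • ((t : ℤ) • eps p (μ + 1)))) := by
  induction M', hM using Nat.le_induction with
  | base => simp
  | succ M' hM' ih =>
    rw [sum_Ico_succ_top hM', mul_add]
    have h1 := SS_step hp M' N y σ
    calc _ = |((p : ℝ) ^ (M' + 1) * SS N y σ (ind p (M' + 1)) -
          (p : ℝ) ^ M' * SS N y σ (ind p M')) +
          ((p : ℝ) ^ M' * SS N y σ (ind p M') - (p : ℝ) ^ M * SS N y σ (ind p M))| := by
          congr 1; ring
      _ ≤ _ := abs_add_le _ _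
      _ ≤ _ := by linarith

end Pool.Agent.FacLarge
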