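import Pool.Agent.FacLarge.Block

/-!
Sums over one block: translations by `Z / p ^ 2`.
-/

set_option autoImplicit false

namespace Pool.Agent.FacLarge

open Finset

/-- `τ i = (1 - p) (2 - p) ... (i - p)` -/
def tau (p i : ℕ) : ℤ := ∏ l ∈ range i, ((l : ℤ) + 1 - p)

theorem tau_zero (p : ℕ) : tau p 0 = 1 := by simp [tau]

theorem tau_succ (p i : ℕ) : tau p (i + 1) = tau p i * ((i : ℤ) + 1 - p) := by
  simp [tau, prod_range_succ]

theorem tau_self {p : ℕ} (hp : 0 < p) : tau p p = 0 := by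
  obtain ⟨q, rfl⟩ : ∃ q, p = q + 1 := ⟨p - 1, by omega⟩
  rw [tau_succ]
  push_cast
  ring

noncomputable def qq (p : ℕ) (d : ℤ) : ℝ := ∑ i ∈ range p, ‖(d * tau p i) • eps p 2‖ ^ 2

theorem rpow_le_self {p : ℕ} (hp : 1 ≤ p) : (p : ℝ) ^ (83 / 100 : ℝ) ≤ p := by
  have h : (1 : ℝ) ≤ p := by exact_mod_cast hp
  calc (p : ℝ) ^ (83 / 100 : ℝ) ≤ (p : ℝ) ^ (1 : ℝ) :=
        Real.rpow_le_rpow_of_exponent_le h (by norm_num)
    _ = p := Real.rpow_one _

theorem dvd_of_qq_le {p : ℕ} (hp : p.Prime) (hG : Gd p) {d : ℤ} (hd : (p : ℤ) ∣ d)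
    (h : qq p d ≤ 54 * Real.log p) : (p : ℤ) ^ 2 ∣ d := by
  obtain ⟨e, rfl⟩ := hd
  by_contra hcon
  have he : ¬ (p : ℤ) ∣ e := by
    intro h1
    apply hcon
    rw [pow_two]
    exact mul_dvd_mul_left _ h1
  have h1 := hG 0 p (by omega) (rpow_le_self hp.one_lt.le) (fun i => e * tau p i)
    (by simpa [tau_zero] using he) ?_
  · have h2 : qq p (p * e) = ∑ i ∈ range p, ‖(e * tau p i) • eps p 1‖ ^ 2 := by
      unfold qq
      apply sum_congr rfl
      intro i _
      have h3 : (p : ℤ) * e * tau p i = e * tau p i * p := by ring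
      rw [h3, mul_zsmul, eps_succ hp.pos 1]
    rw [h2] at h
    exact absurd h (not_le.2 h1)
  · intro i _
    simp only [tau_succ]
    refine ⟨-(e * tau p i), ?_⟩
    push_cast
    ring

theorem qq_sub_sub_le (p : ℕ) (a b c : ℤ) : qq p (a - b - c) ≤ 3 * (qq p a + qq p b + qq p c) := by
  unfold qq
  rw [← sum_add_distrib, ← sum_add_distrib, mul_sum]
  apply sum_le_sum
  intro i _
  have h : ((a - b - c) * tau p i) • eps p 2 =
      (a * tau p i) • eps p 2 - (b * tau p i) • eps p 2 - (c * tau p i) • eps p 2 := by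
    rw [sub_mul, sub_mul, sub_zsmul, sub_zsmul]; abel
  rw [h]
  exact norm_sub_sub_sq_le _ _ _

theorem qq_le_of_close {p : ℕ} (x : ℕ → UnitAddCircle) (a b : ℤ) {M : ℝ}
    (ha : ∑ i ∈ range p, ‖x i + (a * tau p i) • eps p 2‖ ^ 2 ≤ M)
    (hb : ∑ i ∈ range p, ‖x i + (b * tau p i) • eps p 2‖ ^ 2 ≤ M) :
    qq p (a - b) ≤ 4 * M := by
  have h4 : qq p (a - b) ≤
      2 * (∑ i ∈ range p, ‖x i + (a * tau p i) • eps p 2‖ ^ 2 +
        ∑ i ∈ range p, ‖x i + (b * tau p i) • eps p 2‖ ^ 2) := by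
    unfold qq
    rw [← sum_add_distrib, mul_sum]
    apply sum_le_sum
    intro i _
    have h5 : ((a - b) * tau p i) • eps p 2 =
        (x i + (a * tau p i) • eps p 2) - (x i + (b * tau p i) • eps p 2) := by
      rw [sub_mul, sub_zsmul]; abel
    rw [h5]
    exact norm_sub_sq_le _ _
  linarith

theorem not_section {p : ℕ} (hp : p.Prime) (hG : Gd p)
    (h : ∀ l : ℤ, ∃ d : ℤ, (p : ℤ) ∣ d - l ∧ qq p d ≤ 6 * Real.log p) : False := by
  have hlog : 0 ≤ Real.log p := Real.log_natCast_nonneg p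
  choose d hd1 hd2 using h
  have key : ∀ j : ℕ, (p : ℤ) ^ 2 ∣ d j - j * d 1 := by
    intro j
    induction j with
    | zero =>
      have h0 : (p : ℤ) ∣ d 0 := by simpa using hd1 0
      have := dvd_of_qq_le hp hG h0 (by have := hd2 0; linarith)
      simpa using this
    | succ j ih =>
      have h1 : (p : ℤ) ∣ d ((j + 1 : ℕ) : ℤ) - d j - d 1 := by
        have e1 := hd1 ((j + 1 : ℕ) : ℤ)
        have e2 := hd1 (j : ℤ)
        have e3 := hd1 1
        have e4 := dvd_sub (dvd_sub e1 e2) e3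
        have e5 : d ((j + 1 : ℕ) : ℤ) - ((j + 1 : ℕ) : ℤ) - (d j - j) - (d 1 - 1) =
            d ((j + 1 : ℕ) : ℤ) - d j - d 1 := by push_cast; ring
        rwa [e5] at e4
      have h2 : (p : ℤ) ^ 2 ∣ d ((j + 1 : ℕ) : ℤ) - d j - d 1 := by
        apply dvd_of_qq_le hp hG h1
        have e1 := hd2 ((j + 1 : ℕ) : ℤ)
        have e2 := hd2 (j : ℤ)
        have e3 := hd2 1
        have := qq_sub_sub_le p (d ((j + 1 : ℕ) : ℤ)) (d j) (d 1)
        linarith
      have h3 := dvd_add h2 ih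
      have h4 : d ((j + 1 : ℕ) : ℤ) - d j - d 1 + (d j - j * d 1) =
          d ((j + 1 : ℕ) : ℤ) - ((j + 1 : ℕ) : ℤ) * d 1 := by push_cast; ring
      rwa [h4] at h3
  have h1 := key p
  have h2 : (p : ℤ) ∣ d p := by
    have := hd1 p
    have h3 := dvd_add this (dvd_refl (p : ℤ))
    simpa using h3
  have h3 : (p : ℤ) ^ 2 ∣ d p := dvd_of_qq_le hp hG h2 (by have := hd2 p; linarith)
  have h4 := dvd_sub h3 h1
  have h5 : d p - (d p - p * d 1) = p * d 1 := by ring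
  rw [h5, pow_two] at h4
  have h6 : (p : ℤ) ∣ d 1 := by
    have hp0 : (p : ℤ) ≠ 0 := by exact_mod_cast hp.ne_zero
    exact (mul_dvd_mul_iff_left hp0).1 h4
  have h7 := dvd_sub h6 (hd1 1)
  have h8 : d 1 - (d 1 - 1) = 1 := by ring
  rw [h8] at h7
  have h9 : p ∣ 1 := by exact_mod_cast h7
  exact hp.one_lt.ne' (Nat.dvd_one.1 h9)

theorem block_two {p : ℕ} (hp : p.Prime) (hG : Gd p) (x : ℕ → UnitAddCircle) :
    ∑ δ ∈ range (p ^ 2), ∏ i ∈ range p, phi (x i + ((δ : ℤ) * tau p i) • eps p 2) ≤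
      p / 2 + 1 / p := by
  classical
  have : Fact p.Prime := ⟨hp⟩
  have hp0 : (0 : ℝ) < p := by exact_mod_cast hp.pos
  have hlog : 0 ≤ Real.log p := Real.log_natCast_nonneg p
  obtain ⟨S, hS⟩ : ∃ S : ℕ → ℝ, S = fun δ : ℕ =>
      ∑ i ∈ range p, ‖x i + ((δ : ℤ) * tau p i) • eps p 2‖ ^ 2 := ⟨_, rfl⟩
  obtain ⟨P, hP⟩ : ∃ P : Finset ℕ, P = (range (p ^ 2)).filter
      (fun δ => S δ ≤ 3 / 2 * Real.log p) := ⟨_, rfl⟩
  have hPsub : P ⊆ range (p ^ 2) := by rw [hP]; exact filter_subset _ _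
  have hq : ∀ a ∈ P, ∀ b ∈ P, qq p ((a : ℤ) - b) ≤ 6 * Real.log p := by
    intro a ha b hb
    rw [hP, mem_filter, hS] at ha hb
    have := qq_le_of_close x (a : ℤ) (b : ℤ) ha.2 hb.2
    linarith
  have hinj : Set.InjOn (fun δ : ℕ => (δ : ZMod p)) (P : Set ℕ) := by
    intro a ha b hb hab
    have h1 : (p : ℤ) ∣ (a : ℤ) - b := by
      have : ((a : ℤ) : ZMod p) = ((b : ℤ) : ZMod p) := by simpa using hab
      rw [← sub_eq_zero, ← Int.cast_sub, ZMod.intCast_zmod_eq_zero_iff_dvd] at this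
      exact this
    have h2 : (p : ℤ) ^ 2 ∣ (a : ℤ) - b :=
      dvd_of_qq_le hp hG h1 (by have := hq a ha b hb; linarith)
    have ha' := mem_range.1 (hPsub ha)
    have hb' := mem_range.1 (hPsub hb)
    have h3 : (a : ℤ) - b = 0 := by
      apply Int.eq_zero_of_abs_lt_dvd h2
      have e1 : (a : ℤ) < (p : ℤ) ^ 2 := by exact_mod_cast ha'
      have e2 : (b : ℤ) < (p : ℤ) ^ 2 := by exact_mod_cast hb'
      rw [abs_lt]
      constructor <;> omega
    omega
  have hcard : 2 * P.card ≤ p := by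
    by_contra hcon
    rw [not_le] at hcon
    apply not_section hp hG
    intro l
    obtain ⟨Q, hQ⟩ : ∃ Q : Finset (ZMod p), Q = P.image (fun δ : ℕ => (δ : ZMod p)) := ⟨_, rfl⟩
    have hQc : Q.card = P.card := by rw [hQ]; exact card_image_of_injOn hinj
    have hQ2 : (Q.image (fun y => y + (l : ZMod p))).card = Q.card :=
      card_image_of_injective _ (add_left_injective _)
    have h1 := card_union_add_card_inter Q (Q.image (fun y => y + (l : ZMod p)))
    have h2 : (Q ∪ Q.image (fun y => y + (l : ZMod p))).card ≤ p := by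
      calc _ ≤ (univ : Finset (ZMod p)).card := card_le_card (subset_univ _)
        _ = p := by rw [card_univ, ZMod.card]
    have h3 : 0 < (Q ∩ Q.image (fun y => y + (l : ZMod p))).card := by omega
    obtain ⟨z, hz⟩ := card_pos.1 h3
    rw [mem_inter, hQ, mem_image, mem_image] at hz
    obtain ⟨⟨a, ha, rfl⟩, y, hy, hya⟩ := hz
    rw [mem_image] at hy
    obtain ⟨b, hb, rfl⟩ := hy
    refine ⟨(a : ℤ) - b, ?_, hq a ha b hb⟩
    rw [← ZMod.intCast_zmod_eq_zero_iff_dvd]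
    push_cast
    rw [← hya]
    ring
  have hsplit : ∑ δ ∈ range (p ^ 2), ∏ i ∈ range p,
      phi (x i + ((δ : ℤ) * tau p i) • eps p 2) ≤
      ∑ δ ∈ range (p ^ 2), ((if δ ∈ P then 1 else 0) + ((p : ℝ) ^ 3)⁻¹) := by
    apply sum_le_sum
    intro δ hδ
    split_ifs with h
    · have h1 := prod_phi_le_one (range p) (fun i => x i + ((δ : ℤ) * tau p i) • eps p 2)
      have h2 : (0 : ℝ) < ((p : ℝ) ^ 3)⁻¹ := by positivity
      linarith
    · rw [zero_add]
      apply prod_phi_le_inv_pow hp.one_lt.le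
      rw [hP, mem_filter, not_and, not_le, hS] at h
      have h1 := h hδ
      push_cast
      linarith
  refine hsplit.trans ?_
  rw [sum_add_distrib, sum_const, card_range, nsmul_eq_mul, ← sum_filter, sum_const, nsmul_eq_mul,
    mul_one]
  have h1 : (filter (fun δ => δ ∈ P) (range (p ^ 2))).card ≤ P.card := by
    apply card_le_card
    intro δ hδ
    exact (mem_filter.1 hδ).2
  have h2 : (((filter (fun δ => δ ∈ P) (range (p ^ 2))).card : ℕ) : ℝ) ≤ p / 2 := by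
    have h3 : ((2 * P.card : ℕ) : ℝ) ≤ p := by exact_mod_cast hcard
    have h4 : (((filter (fun δ => δ ∈ P) (range (p ^ 2))).card : ℕ) : ℝ) ≤ P.card := by
      exact_mod_cast h1
    push_cast at h3
    linarith
  have h3 : ((p ^ 2 : ℕ) : ℝ) * ((p : ℝ) ^ 3)⁻¹ = 1 / p := by
    push_cast
    field_simp
  rw [h3]
  linarith

end Pool.Agent.FacLarge
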