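import Pool.Agent.FacLarge.Chn
import Pool.Agent.FacLarge.Det3

/-!
Averages over the digits of the block index, decay by a factor `p` per block.
-/

set_option autoImplicit false

namespace Pool.Agent.FacLarge

open Finset

theorem gblock_two {p : ℕ} {ε : ℝ} {E K0 : ℕ} (hp : p.Prime) (hG : GE p ε E K0) (hε : ε ≤ 1)
    (hE : 2 ≤ E) {Q : ℕ} (hK0 : 2 * (E + Q) ≤ K0) (x : ℕ → UnitAddCircle) :
    ∑ δ ∈ range (p ^ 2), ∏ i ∈ range p, phi (x i + ((δ : ℤ) * tau p i) • eps p 2) ≤
      1 + ((p : ℝ) ^ Q)⁻¹ := by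
  refine gblock_one hp hG hK0 hE (A := -(p : ℤ)) (s := p) le_rfl
    (rpow_le_self' hp.one_lt.le hε) (c := fun i => tau p i) (fun i hi => not_dvd_tau hp hi) ?_ x
  intro i _
  rw [tau_succ]
  ring

theorem U_step2 {p : ℕ} {ε : ℝ} {E K0 : ℕ} (hp : p.Prime) (hG : GE p ε E K0) (hε : ε ≤ 1)
    (hE : 2 ≤ E) {Q : ℕ} (hK0 : 2 * (E + Q) ≤ K0) {K m L : ℕ} {r : ℤ} (hL1 : 1 ≤ L)
    (hL : L ≤ m) (hr : ¬ (p : ℤ) ∣ r + 1) :
    U p (K + 1) (m + 1) L r ≤ (1 + ((p : ℝ) ^ Q)⁻¹) * U p K m L (r + 1) := by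
  have hp0 := hp.pos
  have hp0' : (0 : ℝ) < p := by exact_mod_cast hp0
  have hdown := down hp (K := K) (m := m) (L := L) (e := 0) (r := r) (by simp) (by simpa using hr)
    (by omega) hL
  rw [show m + 0 + 1 = m + 1 by ring, show m + 0 + 2 = m + 2 by ring] at hdown
  have hkey : ((p ^ 2 : ℕ) : ℝ) * U p (K + 1) (m + 1) L r ≤
      (1 + ((p : ℝ) ^ Q)⁻¹) * ((p : ℝ) ^ (2 * (0 + 1)) * U p K m L (r + 1)) := by
    rw [← hdown]
    have h1 : ((p ^ 2 : ℕ) : ℝ) * U p (K + 1) (m + 1) L r =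
        ∑ δ ∈ range (p ^ 2), ∑ n ∈ range (p ^ (m + 1)), ∑ w ∈ range (p ^ (m + 2)),
        term p (K + 1) (m + 1) L r (n + p ^ m * (-(((n : ℤ) + 1) * (δ : ℤ) * invp p w)))
          (w + p ^ m * (δ : ℤ)) := by
      have h2 : ∀ δ ∈ range (p ^ 2), ∑ n ∈ range (p ^ (m + 1)), ∑ w ∈ range (p ^ (m + 2)),
        term p (K + 1) (m + 1) L r (n + p ^ m * (-(((n : ℤ) + 1) * (δ : ℤ) * invp p w)))
          (w + p ^ m * (δ : ℤ)) = U p (K + 1) (m + 1) L r := by
        intro δ _
        rw [sum_translate hp0 (by omega : 1 ≤ m) (δ : ℤ) (term p (K + 1) (m + 1) L r)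
          (fun n n' w h => term_congr_n hp0 (by omega) h) (fun n w w' h => term_congr_w hp0 h)]
        rfl
      rw [sum_congr rfl h2, sum_const, card_range, nsmul_eq_mul]
    rw [h1, sum_comm]
    rw [mul_sum]
    apply sum_le_sum
    intro n _
    rw [sum_comm, mul_sum]
    apply sum_le_sum
    intro w _
    by_cases hc : (p : ℤ) ^ L ∣ (n : ℤ) - r ∧ ¬ (p : ℤ) ∣ (w : ℤ)
    · rw [if_pos hc]
      have h3 : ∀ δ ∈ range (p ^ 2),
          term p (K + 1) (m + 1) L r (n + p ^ m * (-(((n : ℤ) + 1) * (δ : ℤ) * invp p w)))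
          (w + p ^ m * (δ : ℤ)) =
          (∏ i ∈ range p, phi (rp (p * n) i • ((w : ℤ) • eps p (m + 2)) +
            ((δ : ℤ) * tau p i) • eps p 2)) *
          FK p K ((n : ℤ) + 1) (rp (p * n) p • ((w : ℤ) • eps p (m + 2))) := by
        intro δ _
        obtain ⟨ζ, hζ⟩ : ∃ ζ : ℤ, ζ = -(((n : ℤ) + 1) * (δ : ℤ) * invp p w) := ⟨_, rfl⟩
        rw [← hζ]
        have hζd : (p : ℤ) ∣ ζ * w + ((n : ℤ) + 1) * δ := by
          obtain ⟨x, hx⟩ := dvd_invp hp hc.2
          refine ⟨-(((n : ℤ) + 1) * δ * x), ?_⟩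
          rw [hζ]
          have : invp p (w : ℤ) * (w : ℤ) = p * x + 1 := by linarith
          calc -(((n : ℤ) + 1) * (δ : ℤ) * invp p w) * w + ((n : ℤ) + 1) * δ
              = ((n : ℤ) + 1) * δ * (1 - invp p w * w) := by ring
            _ = _ := by rw [this]; ring
        unfold term
        rw [if_pos]
        · rw [FK_succ]
          have ht := fun i => translate hp0 (by omega : 1 ≤ m) hζd i
          congr 1
          · apply prod_congr rfl
            intro i _
            rw [ht i]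
          · rw [ht p, tau_self hp0, mul_zero, zero_zsmul, add_zero]
            -- change of `n`
            have e1 : rp (p * n) p • ((w : ℤ) • eps p (m + 2)) =
                (rp (p * n) (p - 1) * (n + 1) * w) • eps p (m + 1) := by
              rw [rp_self hp0, ← mul_zsmul, ← eps_succ hp0 (m + 1), ← mul_zsmul]
              congr 1
              ring
            rw [e1]
            apply FK_congr hp0
            refine ⟨ζ, ?_⟩
            ring
        · constructor
          · have e2 : (n : ℤ) + p ^ m * ζ - r = (n - r) + p ^ m * ζ := by ring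
            rw [e2]
            exact dvd_add hc.1 ((pow_dvd_pow _ hL).mul_right _)
          · intro h
            apply hc.2
            have h4 : (p : ℤ) ∣ (w : ℤ) + p ^ m * δ - w := by
              rw [add_sub_cancel_left]
              exact (dvd_pow_self _ (by omega)).mul_right _
            exact (dvd_congr_left h4).1 h
      rw [sum_congr rfl h3, ← sum_mul]
      apply mul_le_mul_of_nonneg_right _ (FK_nonneg _ _ _ _)
      exact gblock_two hp hG hε hE hK0 _
    · rw [if_neg hc, mul_zero]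
      apply le_of_eq
      apply sum_eq_zero
      intro δ _
      unfold term
      rw [if_neg]
      rintro ⟨h3, h4⟩
      apply hc
      constructor
      · obtain ⟨ζ, hζ⟩ : ∃ ζ : ℤ, ζ = -(((n : ℤ) + 1) * (δ : ℤ) * invp p w) := ⟨_, rfl⟩
        rw [← hζ] at h3
        have e2 : (n : ℤ) + p ^ m * ζ - r = (n - r) + p ^ m * ζ := by ring
        rw [e2] at h3
        have h5 : (p : ℤ) ^ L ∣ p ^ m * ζ := (pow_dvd_pow _ hL).mul_right _
        have := dvd_sub h3 h5
        rwa [add_sub_cancel_right] at this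
      · intro h
        apply h4
        exact dvd_add h ((dvd_pow_self _ (by omega)).mul_right _)
  have h5 : (0 : ℝ) < (p : ℝ) ^ 2 := by positivity
  push_cast at hkey
  have h6 : (p : ℝ) ^ 2 * U p (K + 1) (m + 1) L r ≤
      (p : ℝ) ^ 2 * ((1 + ((p : ℝ) ^ Q)⁻¹) * U p K m L (r + 1)) := by
    calc _ ≤ _ := hkey
      _ = _ := by ring
  exact le_of_mul_le_mul_left h6 h5

def GG (p k r : ℕ) : ℕ := ∑ i ∈ range k, (padicValNat p (r + 1 + i) +
  (if padicValNat p (r + 1 + i) = 0 then 0 else 1))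

theorem GG_succ (p k r : ℕ) : GG p (k + 1) r = (padicValNat p (r + 1) +
    (if padicValNat p (r + 1) = 0 then 0 else 1)) + GG p k (r + 1) := by
  unfold GG
  rw [sum_range_succ', add_comm]
  congr 1
  apply sum_congr rfl
  intro i _
  have e : r + 1 + (i + 1) = r + 1 + 1 + i := by ring
  rw [e]

theorem U_total {p : ℕ} {ε : ℝ} {E K0 : ℕ} (hp : p.Prime) (hG : GE p ε E K0) (hε : ε ≤ 1)
    (hE : 2 ≤ E) {Q : ℕ} (hK0 : 2 * (E + Q) ≤ K0) {L : ℕ} (hL1 : 1 ≤ L) (k : ℕ) :
    ∀ (K m r : ℕ), k ≤ K → (∀ i < k, padicValNat p (r + 1 + i) < L) → L ≤ m → m < VV p k r →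
    U p K m L r ≤ (1 + ((p : ℝ) ^ Q)⁻¹) ^ k * (p : ℝ) ^ (L + 1 + 2 * GG p k r) := by
  have hp0' : (0 : ℝ) < p := by exact_mod_cast hp.pos
  have hp1' : (1 : ℝ) ≤ p := by exact_mod_cast hp.one_lt.le
  have hone : (1 : ℝ) ≤ 1 + ((p : ℝ) ^ Q)⁻¹ := by
    have : (0 : ℝ) ≤ ((p : ℝ) ^ Q)⁻¹ := by positivity
    linarith
  induction k with
  | zero =>
    intro K m r _ _ _ hm
    simp [VV] at hm
  | succ k ih =>
    intro K m r hK hv hL hm
    obtain ⟨K', rfl⟩ : ∃ K', K = K' + 1 := ⟨K - 1, by omega⟩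
    obtain ⟨e, he⟩ : ∃ e, e = padicValNat p (r + 1) := ⟨_, rfl⟩
    have hv0 : e < L := by
      have := hv 0 (by omega)
      rw [he]; simpa using this
    have hcast : (((r + 1 : ℕ) : ℤ)) = (r : ℤ) + 1 := by push_cast; ring
    have hdvd : (p : ℤ) ^ e ∣ (r : ℤ) + 1 := by
      rw [← hcast, he]
      exact_mod_cast pow_padicValNat_dvd
    have hdvd' : ¬ (p : ℤ) ^ (e + 1) ∣ (r : ℤ) + 1 := by
      have hfact : Fact p.Prime := ⟨hp⟩
      rw [← hcast, he]
      intro h
      have h1 : p ^ (padicValNat p (r + 1) + 1) ∣ r + 1 := by exact_mod_cast h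
      exact pow_succ_padicValNat_not_dvd (by omega) h1
    rw [VV_succ, ← he] at hm
    rw [GG_succ, ← he]
    by_cases hc : m < L + 1 + e
    · have h1 := U_base hp.pos (K := K' + 1) hL (r : ℤ)
      refine h1.trans ?_
      rw [← pow_add]
      calc (p : ℝ) ^ (m - L + (m + 1)) ≤
            (p : ℝ) ^ (L + 1 + 2 * (e + (if e = 0 then 0 else 1) + GG p k (r + 1))) := by
            apply pow_le_pow_right₀ hp1'
            omega
        _ ≤ _ := le_mul_of_one_le_left (by positivity) (one_le_pow₀ hone)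
    · obtain ⟨m', hm'⟩ : ∃ m', m = m' + e + 1 := ⟨m - e - 1, by omega⟩
      have hih := ih K' m' (r + 1) (by omega) (by
        intro i hi
        have := hv (i + 1) (by omega)
        rw [show r + 1 + 1 + i = r + 1 + (i + 1) by ring]
        exact this) (by omega) (by omega)
      rw [hcast] at hih
      rw [hm']
      by_cases h0 : e = 0
      · rw [h0] at hdvd' ⊢
        have h1 := U_step2 hp hG hε hE hK0 (K := K') (m := m') (L := L) (r := r) hL1
          (by omega) (by simpa using hdvd')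
        rw [add_zero, if_pos rfl, zero_add, zero_add]
        calc _ ≤ _ := h1
          _ ≤ (1 + ((p : ℝ) ^ Q)⁻¹) * ((1 + ((p : ℝ) ^ Q)⁻¹) ^ k *
              (p : ℝ) ^ (L + 1 + 2 * GG p k (r + 1))) :=
            mul_le_mul_of_nonneg_left hih (by linarith)
          _ = _ := by ring
      · have h1 := U_step_trivial hp (K := K') (m := m') (L := L) (r := r)
          hdvd hdvd' hv0 (by omega)
        rw [if_neg h0]
        calc _ ≤ _ := h1
          _ ≤ (p : ℝ) ^ (2 * (e + 1)) * ((1 + ((p : ℝ) ^ Q)⁻¹) ^ k *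
              (p : ℝ) ^ (L + 1 + 2 * GG p k (r + 1))) :=
            mul_le_mul_of_nonneg_left hih (by positivity)
          _ = (1 + ((p : ℝ) ^ Q)⁻¹) ^ k * (p : ℝ) ^ (L + 1 + 2 * (e + 1 + GG p k (r + 1))) := by
            rw [show L + 1 + 2 * (e + 1 + GG p k (r + 1)) =
              2 * (e + 1) + (L + 1 + 2 * GG p k (r + 1)) by ring, pow_add _ (2 * (e + 1))]
            ring
          _ ≤ _ := by
            apply mul_le_mul_of_nonneg_right _ (by positivity)
            exact pow_le_pow_right₀ hone (by omega)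

end Pool.Agent.FacLarge
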