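import Pool.Agent.FacLarge.Ua

/-!
Average of the sum over the frequencies that die at the end of a window.
-/

set_option autoImplicit false

namespace Pool.Agent.FacLarge

open Finset

theorem padic_congr {p : ℕ} (hp : p.Prime) {L x y : ℕ} (hx : x ≠ 0) (hy : y ≠ 0)
    (h : x ≡ y [MOD p ^ L]) (hL : ¬ p ^ L ∣ x) : padicValNat p x = padicValNat p y := by
  have hfact : Fact p.Prime := ⟨hp⟩
  have hL' : ¬ p ^ L ∣ y := fun h1 => hL ((h.dvd_iff (dvd_refl _)).2 h1)
  have h1 : padicValNat p x < L := by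
    by_contra hcon
    rw [not_lt] at hcon
    exact hL ((padicValNat_dvd_iff_le hx).2 hcon)
  have h2 : padicValNat p y < L := by
    by_contra hcon
    rw [not_lt] at hcon
    exact hL' ((padicValNat_dvd_iff_le hy).2 hcon)
  apply le_antisymm
  · rw [← padicValNat_dvd_iff_le hy]
    exact (h.dvd_iff (pow_dvd_pow _ h1.le)).1 pow_padicValNat_dvd
  · rw [← padicValNat_dvd_iff_le hx]
    exact (h.dvd_iff (pow_dvd_pow _ h2.le)).2 pow_padicValNat_dvd

theorem VV_congr {p : ℕ} (hp : p.Prime) {L n r k : ℕ} (h : n ≡ r [MOD p ^ L])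
    (hL : ∀ i < k, ¬ p ^ L ∣ n + 1 + i) : VV p k n = VV p k r := by
  unfold VV
  apply sum_congr rfl
  intro i hi
  rw [mem_range] at hi
  congr 1
  apply padic_congr hp (by omega) (by omega) _ (hL i hi)
  exact (h.add_right 1).add_right i

theorem card_mult_le {p : ℕ} (hp : 0 < p) (r k : ℕ) :
    ((range k).filter (fun i => p ∣ r + 1 + i)).card ≤ k / p + 1 := by
  have h1 : ((range k).filter (fun i => p ∣ r + 1 + i)).card ≤
      (Ioc (r / p) ((r + k) / p)).card := by
    apply card_le_card_of_injOn (fun i => (r + 1 + i) / p)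
    · intro i hi
      have hi' := mem_filter.1 (mem_coe.1 hi)
      rw [mem_range] at hi'
      obtain ⟨hi1, t, ht⟩ := hi'
      rw [mem_coe, mem_Ioc]
      simp only
      rw [ht, Nat.mul_div_cancel_left _ hp]
      constructor
      · rw [Nat.div_lt_iff_lt_mul hp, mul_comm]
        omega
      · rw [Nat.le_div_iff_mul_le hp, mul_comm]
        omega
    · intro i hi i' hi' h
      have hi1 := (mem_filter.1 (mem_coe.1 hi)).2
      have hi2 := (mem_filter.1 (mem_coe.1 hi')).2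
      simp only at h
      have h2 := Nat.div_mul_cancel hi1
      have h3 := Nat.div_mul_cancel hi2
      rw [h] at h2
      omega
  rw [Nat.card_Ioc] at h1
  have h2 : (r + k) / p < r / p + k / p + 2 := by
    rw [Nat.div_lt_iff_lt_mul hp]
    have e1 := Nat.lt_mul_div_succ r hp
    have e2 := Nat.lt_mul_div_succ k hp
    have e3 : (r / p + k / p + 2) * p = p * (r / p + 1) + p * (k / p + 1) := by ring
    rw [e3]
    omega
  obtain ⟨u1, hu1⟩ : ∃ u1, u1 = (r + k) / p := ⟨_, rfl⟩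
  obtain ⟨u2, hu2⟩ : ∃ u2, u2 = r / p := ⟨_, rfl⟩
  obtain ⟨u3, hu3⟩ : ∃ u3, u3 = k / p := ⟨_, rfl⟩
  rw [← hu1, ← hu2] at h1
  rw [← hu1, ← hu2, ← hu3] at h2
  rw [← hu3]
  omega

theorem omega_le {p : ℕ} (hp : p.Prime) {L r k : ℕ} (hr : r + k < p ^ (L + 1)) :
    ∑ i ∈ range k, padicValNat p (r + 1 + i) ≤ k / (p - 1) + L := by
  have hp1 : 0 < p - 1 := by have := hp.one_lt; omega
  have h1 := pv_sum_le hp r k
  have h2 : Nat.log p (r + k) ≤ L := by
    apply Nat.lt_succ_iff.1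
    exact Nat.log_lt_of_lt_pow' (by omega) hr
  have h3 : (p - 1) * ∑ i ∈ range k, padicValNat p (r + 1 + i) ≤ k + (p - 1) * L :=
    h1.trans (Nat.add_le_add_left (Nat.mul_le_mul_left _ h2) _)
  have h4 : ∑ i ∈ range k, padicValNat p (r + 1 + i) ≤ (k + (p - 1) * L) / (p - 1) := by
    rw [Nat.le_div_iff_mul_le hp1, mul_comm]
    exact h3
  rwa [Nat.add_mul_div_left _ _ hp1] at h4

theorem VV_le {p : ℕ} (hp : p.Prime) {L r k : ℕ} (hr : r + k < p ^ (L + 1)) :
    VV p k r ≤ k + (k / (p - 1) + L) := by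
  unfold VV
  rw [sum_add_distrib, sum_const, card_range, smul_eq_mul, mul_one]
  exact Nat.add_le_add_left (omega_le hp hr) _

theorem GG_le {p : ℕ} (hp : p.Prime) {L r k : ℕ} (hr : r + k < p ^ (L + 1)) :
    GG p k r ≤ (k / (p - 1) + L) + (k / (p - 1) + 1) := by
  unfold GG
  rw [sum_add_distrib]
  apply Nat.add_le_add (omega_le hp hr)
  have hfact : Fact p.Prime := ⟨hp⟩
  have h1 : ∑ i ∈ range k, (if padicValNat p (r + 1 + i) = 0 then 0 else 1) ≤
      ((range k).filter (fun i => p ∣ r + 1 + i)).card := by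
    rw [card_filter]
    apply sum_le_sum
    intro i _
    split_ifs with h2 h3 h3
    · omega
    · omega
    · omega
    · exfalso
      apply h2
      exact padicValNat.eq_zero_of_not_dvd h3
  refine h1.trans ((card_mult_le hp.pos r k).trans (Nat.add_le_add_right ?_ 1))
  have := hp.one_lt
  exact Nat.div_le_div_left (by omega) (by omega)

theorem sum_U0_class {p : ℕ} (hp : p.Prime) {K μ L R : ℕ} (hLμ : L ≤ μ) (hμR : μ ≤ R) (c : ℕ)
    (r : ℤ) :
    ∑ n ∈ range (p ^ R), (if (p : ℤ) ^ L ∣ (((n : ℤ) + c) - r) then U0 p K μ ((n : ℤ) + c) else 0) =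
      (p : ℝ) ^ (R - μ) * U p K μ L r := by
  have hp0 := hp.pos
  obtain ⟨H, hH⟩ : ∃ H : ℤ → ℝ, H = fun n =>
    (if (p : ℤ) ^ L ∣ n - r then U0 p K μ n else 0) := ⟨_, rfl⟩
  have hHper : ∀ x y : ℤ, ((p ^ μ : ℕ) : ℤ) ∣ x - y → H x = H y := by
    intro x y h
    push_cast at h
    have h3 : (p : ℤ) ^ L ∣ (x - r) - (y - r) := by
      rw [sub_sub_sub_cancel_right]
      exact (pow_dvd_pow _ hLμ).trans h
    rw [hH]
    simp only [dvd_congr_left h3, U0_congr hp0 h]
  have h3 : ∑ n ∈ range (p ^ R),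
    (if (p : ℤ) ^ L ∣ (((n : ℤ) + c) - r) then U0 p K μ ((n : ℤ) + c) else 0) =
    ∑ n ∈ range (p ^ μ * p ^ (R - μ)), (fun n : ℤ => H (n + c)) n := by
    have e1 : p ^ μ * p ^ (R - μ) = p ^ R := by rw [← pow_add]; congr 1; omega
    rw [e1, hH]
  rw [h3, sum_period (A := p ^ μ) (H := fun n : ℤ => H (n + c)) (by
    intro x y h
    apply hHper
    simpa using h) (p ^ (R - μ))]
  rw [sum_perm (q := p ^ μ) (by positivity) hHper (σ := fun n => n + c) (by
    intro x y h
    simpa using h)]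
  have h4 : ∑ w ∈ range (p ^ μ), H w = U p K μ L r := by rw [U_eq, hH]
  rw [h4]
  push_cast
  rfl

theorem sum_Dd_le {p : ℕ} {ε : ℝ} {E K0 : ℕ} (hp : p.Prime) (hG : GE p ε E K0) (hε : ε ≤ 1)
    (hE : 2 ≤ E) {Q : ℕ} (hK0 : 2 * (E + Q) ≤ K0) {L m R : ℕ} (hL1 : 1 ≤ L) (hLm : L ≤ m)
    (hmL : p ^ L + (m + 1) < p ^ (L + 1))
    (hR : (m + 1) + ((m + 1) / (p - 1) + L) ≤ R) (c : ℕ)
    [DecidablePred (fun b : ℕ => ∀ i ≤ m, ¬ p ^ L ∣ b + 1 + i)] :
    ∑ n ∈ range (p ^ R), (if (∀ i ≤ m, ¬ p ^ L ∣ n + c + 1 + i) then Dd p m (n + c) else 0) ≤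
      (p : ℝ) ^ L * (L * ((p : ℝ) ^ (R - m) * ((1 + ((p : ℝ) ^ Q)⁻¹) ^ (m + 1) *
        (p : ℝ) ^ (L + 1 + 2 * (((m + 1) / (p - 1) + L) + ((m + 1) / (p - 1) + 1)))))) := by
  classical
  have hp0 := hp.pos
  have hp0' : (0 : ℝ) < p := by exact_mod_cast hp0
  have hp1' : (1 : ℝ) ≤ p := by exact_mod_cast hp.one_lt.le
  have hfact : Fact p.Prime := ⟨hp⟩
  obtain ⟨V, hV⟩ : ∃ V : ℕ → Prop, V = fun r => ∀ i ≤ m, ¬ p ^ L ∣ r + 1 + i := ⟨_, rfl⟩
  have h1 : ∀ n ∈ range (p ^ R),
      (if (∀ i ≤ m, ¬ p ^ L ∣ n + c + 1 + i) then Dd p m (n + c) else 0) ≤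
      ∑ r ∈ (range (p ^ L)).filter V, ∑ μ ∈ Ico (VV p m r) (VV p (m + 1) r),
        (if (p : ℤ) ^ L ∣ (((n : ℤ) + c) - r) then U0 p (m + 1) μ ((n : ℤ) + c) else 0) := by
    intro n _
    have hnn : ∀ r ∈ (range (p ^ L)).filter V, 0 ≤ ∑ μ ∈ Ico (VV p m r) (VV p (m + 1) r),
        (if (p : ℤ) ^ L ∣ (((n : ℤ) + c) - r) then U0 p (m + 1) μ ((n : ℤ) + c) else 0) := by
      intro r _
      apply sum_nonneg
      intro μ _
      split_ifs
      · exact U0_nonneg _ _ _ _
      · exact le_rfl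
    split_ifs with hn
    · have hmod : n + c ≡ (n + c) % p ^ L [MOD p ^ L] := (Nat.mod_modEq _ _).symm
      have hr0 : (n + c) % p ^ L ∈ (range (p ^ L)).filter V := by
        rw [mem_filter, mem_range, hV]
        refine ⟨Nat.mod_lt _ (by positivity), fun i hi hd => hn i hi ?_⟩
        exact (((hmod.add_right 1).add_right i).dvd_iff (dvd_refl _)).2 hd
      have h6 : (p : ℤ) ^ L ∣ (((n : ℤ) + c) - (((n + c) % p ^ L : ℕ) : ℤ)) := by
        push_cast
        exact Int.dvd_self_sub_emod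
      have h7 := single_le_sum hnn hr0
      refine le_trans (le_of_eq ?_) h7
      unfold Dd
      rw [VV_congr hp (k := m) hmod (fun i hi => hn i (by omega)),
        VV_congr hp (k := m + 1) hmod (fun i hi => hn i (by omega))]
      apply sum_congr rfl
      intro μ _
      rw [if_pos h6]
      push_cast
      rfl
    · exact sum_nonneg hnn
  have h2 : ∀ r ∈ (range (p ^ L)).filter V, ∀ μ ∈ Ico (VV p m r) (VV p (m + 1) r),
      ∑ n ∈ range (p ^ R), (if (p : ℤ) ^ L ∣ (((n : ℤ) + c) - (r : ℤ)) then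
        U0 p (m + 1) μ ((n : ℤ) + c) else 0) ≤
      (p : ℝ) ^ (R - m) * ((1 + ((p : ℝ) ^ Q)⁻¹) ^ (m + 1) *
        (p : ℝ) ^ (L + 1 + 2 * (((m + 1) / (p - 1) + L) + ((m + 1) / (p - 1) + 1)))) := by
    intro r hr μ hμ
    rw [mem_filter, mem_range, hV] at hr
    rw [mem_Ico] at hμ
    have hrm : r + (m + 1) < p ^ (L + 1) := by omega
    have hVm := le_VV p m r
    have hVR := VV_le hp hrm
    have hvlt : ∀ i < m + 1, padicValNat p (r + 1 + i) < L := by
      intro i hi
      by_contra hcon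
      rw [not_lt] at hcon
      exact hr.2 i (by omega) ((padicValNat_dvd_iff_le (by omega)).2 hcon)
    rw [sum_U0_class hp (by omega) (by omega)]
    have h3 := U_total hp hG hε hE hK0 hL1 (m + 1) (m + 1) μ r le_rfl hvlt (by omega) hμ.2
    apply mul_le_mul
    · exact pow_le_pow_right₀ hp1' (by omega)
    · refine h3.trans ?_
      apply mul_le_mul_of_nonneg_left _ (by positivity)
      apply pow_le_pow_right₀ hp1'
      have := GG_le hp hrm
      omega
    · unfold U
      exact sum_nonneg fun _ _ => sum_nonneg fun _ _ => term_nonneg _ _ _ _ _ _ _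
    · positivity
  refine (sum_le_sum h1).trans ?_
  rw [sum_comm]
  obtain ⟨B, hB⟩ : ∃ B : ℝ, B = (p : ℝ) ^ (R - m) * ((1 + ((p : ℝ) ^ Q)⁻¹) ^ (m + 1) *
        (p : ℝ) ^ (L + 1 + 2 * (((m + 1) / (p - 1) + L) + ((m + 1) / (p - 1) + 1)))) := ⟨_, rfl⟩
  have hB0 : 0 ≤ B := by rw [hB]; positivity
  rw [← hB] at h2 ⊢
  calc _ ≤ ∑ r ∈ (range (p ^ L)).filter V, (L : ℝ) * B := by
        apply sum_le_sum
        intro r hr
        rw [sum_comm]
        calc _ ≤ ∑ μ ∈ Ico (VV p m r) (VV p (m + 1) r), B := sum_le_sum (h2 r hr)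
          _ ≤ (L : ℝ) * B := by
            rw [sum_const, nsmul_eq_mul, Nat.card_Ico]
            apply mul_le_mul_of_nonneg_right _ hB0
            rw [mem_filter, mem_range, hV] at hr
            have h3 : padicValNat p (r + m + 1) < L := by
              by_contra hcon
              rw [not_lt] at hcon
              apply hr.2 m le_rfl
              rw [show r + 1 + m = r + m + 1 by ring]
              exact (padicValNat_dvd_iff_le (by omega)).2 hcon
            have h4 : VV p (m + 1) r - VV p m r ≤ L := by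
              rw [VV_add p m 1 r, VV_one]
              omega
            exact_mod_cast h4
    _ ≤ ∑ r ∈ range (p ^ L), (L : ℝ) * B := by
      apply sum_le_sum_of_subset_of_nonneg (filter_subset _ _)
      intro _ _ _
      positivity
    _ = _ := by
      rw [sum_const, card_range, nsmul_eq_mul]
      push_cast
      ring

end Pool.Agent.FacLarge
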